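import Mathlib

/-!
# Definitions for the extremal problem of Schaeffer–Akhiezer–Levin (MP_cebbdc_an)
-/

open Set MeasureTheory Filter Topology Metric Complex InnerProductSpace

namespace LE

/-- `f` has the (local) sub-mean value property at `z`. -/
def SubMeanAt (f : ℂ → ℝ) (z : ℂ) : Prop :=
  ∃ r0 > 0, ∀ r, 0 < r → r < r0 → f z ≤ Real.circleAverage f z r

/-- logarithmic potential of Lebesgue measure on a compact set `K` of reals -/
noncomputable def logpot (K : Set ℝ) (z : ℂ) : ℝ := ∫ e in K, -Real.log ‖z - (e : ℂ)‖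

/-- Star function of `f` on the window `[x,x+1]`: the largest integral of `f` over a measurable
subset of the window of measure `2θ`. -/
noncomputable def star (f : ℝ → ℝ) (x θ : ℝ) : ℝ :=
  sSup {v | ∃ F : Set ℝ, MeasurableSet F ∧ F ⊆ Icc x (x + 1) ∧
    volume F = ENNReal.ofReal (2 * θ) ∧ v = ∫ s in F, f s}

/-- Green's function of `ℂ \ [-1,1]` with pole at infinity,
`log |ζ + √(ζ²-1)|`, written without branches. -/
noncomputable def gr (ζ : ℂ) : ℝ :=
  Real.log ((‖ζ + 1‖ + ‖ζ - 1‖) / 2 + Real.sqrt (((‖ζ + 1‖ + ‖ζ - 1‖) / 2) ^ 2 - 1))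

/-- The explicit function for the periodic set. -/
noncomputable def UT (δ : ℝ) (z : ℂ) : ℝ :=
  gr (Complex.sin (Real.pi * z) / (Real.sin (Real.pi * δ / 2) : ℂ)) / Real.pi

/-- The periodic set `⋃ₙ [n + c - δ/2, n + c + δ/2]`. -/
def Et (δ c : ℝ) : Set ℝ := {t | ∃ n : ℤ, |t - c - n| ≤ δ / 2}

/-- integral over the centered interval -/
noncomputable def cen (V : ℂ → ℝ) (θ y : ℝ) : ℝ := ∫ s in (-θ)..θ, V ((s : ℂ) + (y : ℂ) * I)

end LE
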