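import Mathlib
import Pool.Agent.Helper714.LE.Defs

open Complex Set MeasureTheory Filter Topology InnerProductSpace Metric

namespace LE

namespace J657

/-- TARGET. Maximum principle for functions with the local sub-mean value property. -/
theorem maxprinciple {G : Set ℂ} (hG : IsOpen G) (hb : Bornology.IsBounded G) {f : ℂ → ℝ}
    (hc : ContinuousOn f G) (hsub : ∀ z ∈ G, SubMeanAt f z)
    (hbd : ∀ z ∈ frontier G, ∀ ε > 0, ∀ᶠ w in 𝓝[G] z, f w < ε) :
    ∀ z ∈ G, f z ≤ 0 := by
  by_contra hcon
  push Not at hcon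
  obtain ⟨z0, hz0, hpos⟩ := hcon
  set e := f z0 / 2 with he
  have he0 : 0 < e := by rw [he]; linarith
  set A : Set ℂ := {z | z ∈ G ∧ e ≤ f z} with hA
  have hAG : A ⊆ G := fun z hz => hz.1
  have hAclosed : IsClosed A := by
    rw [← isOpen_compl_iff, isOpen_iff_eventually]
    intro z hz
    by_cases hzG : z ∈ G
    · have hlt : f z < e := by
        by_contra h
        exact hz ⟨hzG, not_lt.1 h⟩
      have h1 : ContinuousAt f z := hc.continuousAt (hG.mem_nhds hzG)
      filter_upwards [h1.eventually (gt_mem_nhds hlt)] with w hw hwA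
      exact absurd hwA.2 (not_le.2 hw)
    · by_cases hzc : z ∈ closure G
      · have hfr : z ∈ frontier G := by
          rw [hG.frontier_eq]; exact ⟨hzc, hzG⟩
        have h1 := hbd z hfr e he0
        rw [eventually_nhdsWithin_iff] at h1
        filter_upwards [h1] with w hw hwA
        exact absurd hwA.2 (not_le.2 (hw hwA.1))
      · have h1 : (closure G)ᶜ ∈ 𝓝 z := isClosed_closure.isOpen_compl.mem_nhds hzc
        filter_upwards [h1] with w hw hwA
        exact hw (subset_closure hwA.1)
  have hAcomp : IsCompact A := Metric.isCompact_of_isClosed_isBounded hAclosed (hb.subset hAG)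
  have hz0A : z0 ∈ A := ⟨hz0, by rw [he]; linarith⟩
  obtain ⟨zm, hzm, hmax⟩ := hAcomp.exists_isMaxOn ⟨z0, hz0A⟩ (hc.mono hAG)
  set m := f zm with hm
  have hm0 : f z0 ≤ m := hmax hz0A
  have hle : ∀ w ∈ G, f w ≤ m := by
    intro w hw
    by_cases h : e ≤ f w
    · exact hmax (⟨hw, h⟩ : w ∈ A)
    · have : e ≤ f z0 := hz0A.2
      linarith [not_le.1 h]
  set B : Set ℂ := A ∩ f ⁻¹' {m} with hB
  have hBclosed : IsClosed B :=
    (hc.mono hAG).preimage_isClosed_of_isClosed hAclosed isClosed_singleton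
  have hBcomp : IsCompact B := hAcomp.of_isClosed_subset hBclosed inter_subset_left
  obtain ⟨z1, hz1, hmax1⟩ := hBcomp.exists_isMaxOn ⟨zm, hzm, rfl⟩
    (Complex.continuous_re.continuousOn (s := B))
  have hz1G : z1 ∈ G := hAG hz1.1
  have hz1m : f z1 = m := hz1.2
  obtain ⟨ε, hε, hball⟩ := Metric.isOpen_iff.1 hG z1 hz1G
  obtain ⟨r0, hr0, hsub1⟩ := hsub z1 hz1G
  set r := min (ε / 2) (r0 / 2) with hr
  have hrpos : 0 < r := lt_min (by linarith) (by linarith)
  have hrε : r < ε := (min_le_left _ _).trans_lt (by linarith)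
  have hrr0 : r < r0 := (min_le_right _ _).trans_lt (by linarith)
  have hcirc : ∀ θ : ℝ, circleMap z1 r θ ∈ G := by
    intro θ
    apply hball
    rw [Metric.mem_ball, dist_eq_norm]
    simp only [circleMap, add_sub_cancel_left, norm_mul, Complex.norm_exp_ofReal_mul_I, mul_one,
      Complex.norm_real, Real.norm_eq_abs, abs_of_pos hrpos]
    exact hrε
  have hcont : Continuous (fun θ : ℝ => f (circleMap z1 r θ)) := by
    rw [continuous_iff_continuousAt]
    intro θ
    exact (hc.continuousAt (hG.mem_nhds (hcirc θ))).comp (continuous_circleMap z1 r).continuousAt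
  have hstrict : f (circleMap z1 r 0) < m := by
    refine lt_of_le_of_ne (hle _ (hcirc 0)) fun heq => ?_
    have hmem : circleMap z1 r 0 ∈ B := by
      refine ⟨⟨hcirc 0, ?_⟩, heq⟩
      rw [heq]
      have : e ≤ f z0 := hz0A.2
      linarith
    have := hmax1 hmem
    simp only [mem_ofPred_eq, circleMap, ofReal_zero, zero_mul, Complex.exp_zero, mul_one,
      Complex.add_re, Complex.ofReal_re] at this
    linarith
  have hint := intervalIntegral.integral_lt_integral_of_continuousOn_of_le_of_exists_lt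
    (a := 0) (b := 2 * Real.pi) (f := fun θ : ℝ => f (circleMap z1 r θ)) (g := fun _ => m)
    Real.two_pi_pos hcont.continuousOn continuousOn_const (fun θ _ => hle _ (hcirc θ))
    ⟨0, ⟨le_refl 0, Real.two_pi_pos.le⟩, hstrict⟩
  rw [intervalIntegral.integral_const, smul_eq_mul, sub_zero] at hint
  have h1 := hsub1 r hrpos hrr0
  rw [Real.circleAverage_def, smul_eq_mul, hz1m] at h1
  have h2 : (2 * Real.pi)⁻¹ * ∫ θ in (0)..(2 * Real.pi), f (circleMap z1 r θ) <
      (2 * Real.pi)⁻¹ * (2 * Real.pi * m) :=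
    mul_lt_mul_of_pos_left hint (inv_pos.2 Real.two_pi_pos)
  rw [← mul_assoc, inv_mul_cancel₀ Real.two_pi_pos.ne', one_mul] at h2
  linarith

end J657

alias maxprinciple := J657.maxprinciple

end LE
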