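import Mathlib
import Pool.Agent.Helper714.LE.Defs

open Complex Set MeasureTheory Filter Topology InnerProductSpace Metric

namespace LE

namespace J660

/-- Poisson kernel is nonneg on the circle -/
lemma pk_nonneg {R : ℝ} {a z : ℂ} (hz : ‖z‖ = R) (ha : ‖a‖ < R) : 0 ≤ poissonKernel 0 a z := by
  rw [poissonKernel_def]
  apply div_nonneg _ (sq_nonneg _)
  rw [sub_zero, sub_zero, hz]
  have := norm_nonneg a
  nlinarith

lemma pk_cont {R : ℝ} {a : ℂ} (ha : a ∈ ball (0 : ℂ) R) :
    ContinuousOn (poissonKernel 0 a) (sphere 0 |R|) := by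
  rw [poissonKernel_eq_re_herglotzRieszKernel]
  exact Complex.continuous_re.comp_continuousOn (continuousOn_herglotzRieszKernel_sphere ha)

lemma pk_avg {R : ℝ} {a : ℂ} (ha : a ∈ ball (0 : ℂ) R) :
    Real.circleAverage (poissonKernel 0 a) 0 R = 1 := by
  have := (harmonicContOnCl_const (E := ℂ) (F := ℝ) (s := ball (0 : ℂ) R)
    (c := (1 : ℝ))).circleAverage_poissonKernel_smul ha
  rw [← this]
  apply Real.circleAverage_congr_sphere
  intro z _
  simp

/-- key estimate -/
lemma key {R : ℝ} (hR : 0 < R) {g : ℂ → ℝ} (hg : ContinuousOn g (sphere 0 R)) {a a0 : ℂ}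
    (ha : ‖a‖ < R) (ha0 : ‖a0‖ = R) {δ ε M : ℝ} (hδ : 0 < δ) (hε : 0 ≤ ε)
    (h1 : ∀ z, ‖z‖ = R → ‖z - a0‖ < δ → |g z - g a0| ≤ ε)
    (hM : ∀ z, ‖z‖ = R → |g z - g a0| ≤ M) (hd : ‖a - a0‖ < δ / 2) :
    |Real.circleAverage ((re ∘ herglotzRieszKernel 0 a) • g) 0 R - g a0|
      ≤ ε + M * (R ^ 2 - ‖a‖ ^ 2) / (δ / 2) ^ 2 := by
  have haB : a ∈ ball (0 : ℂ) R := by simpa using ha
  have hM0 : 0 ≤ M := (abs_nonneg _).trans (hM a0 ha0)
  have habs : |R| = R := abs_of_pos hR
  rw [← poissonKernel_eq_re_herglotzRieszKernel]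
  have hgc : ContinuousOn g (sphere 0 |R|) := by rwa [habs]
  have i1 : CircleIntegrable (poissonKernel 0 a • g) 0 R :=
    ((pk_cont haB).smul hgc).circleIntegrable'
  have i2 : CircleIntegrable (g a0 • poissonKernel 0 a) 0 R :=
    ((pk_cont haB).const_smul (g a0)).circleIntegrable'
  have e1 : Real.circleAverage (poissonKernel 0 a • g) 0 R - g a0
      = Real.circleAverage (poissonKernel 0 a • g - g a0 • poissonKernel 0 a) 0 R := by
    rw [Real.circleAverage_sub i1 i2, Real.circleAverage_smul, pk_avg haB]
    simp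
  rw [e1]
  refine (Real.abs_circleAverage_le_circleAverage_abs).trans ?_
  have i3 : CircleIntegrable |poissonKernel 0 a • g - g a0 • poissonKernel 0 a| 0 R :=
    (i1.sub i2).abs
  set B : ℝ := M * (R ^ 2 - ‖a‖ ^ 2) / (δ / 2) ^ 2 with hB
  have i4 : CircleIntegrable (ε • poissonKernel 0 a + fun _ => B) 0 R :=
    (((pk_cont haB).const_smul ε).add continuousOn_const).circleIntegrable'
  have h2 : Real.circleAverage |poissonKernel 0 a • g - g a0 • poissonKernel 0 a| 0 R
      ≤ Real.circleAverage (ε • poissonKernel 0 a + fun _ => B) 0 R := by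
    apply Real.circleAverage_mono i3 i4
    intro z hz
    rw [habs] at hz
    have hz' : ‖z‖ = R := by simpa using hz
    have hpk := pk_nonneg hz' ha
    have e2 : |poissonKernel 0 a • g - g a0 • poissonKernel 0 a| z
        = poissonKernel 0 a z * |g z - g a0| := by
      simp only [Pi.abs_apply, Pi.sub_apply, Pi.smul_apply, smul_eq_mul, Pi.mul_apply]
      rw [show poissonKernel 0 a z * g z - g a0 * poissonKernel 0 a z
        = poissonKernel 0 a z * (g z - g a0) by ring, abs_mul, abs_of_nonneg hpk]
    rw [e2]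
    simp only [Pi.add_apply, Pi.smul_apply, smul_eq_mul]
    have hR2 : 0 ≤ R ^ 2 - ‖a‖ ^ 2 := by nlinarith [norm_nonneg a]
    have hB0 : 0 ≤ B := by rw [hB]; positivity
    by_cases hzd : ‖z - a0‖ < δ
    · have := h1 z hz' hzd
      calc poissonKernel 0 a z * |g z - g a0| ≤ poissonKernel 0 a z * ε :=
            mul_le_mul_of_nonneg_left this hpk
        _ ≤ ε * poissonKernel 0 a z + B := by linarith
    · have h3 : δ / 2 ≤ ‖z - a‖ := by
        have : ‖z - a0‖ ≤ ‖z - a‖ + ‖a - a0‖ := by
          have : z - a0 = (z - a) + (a - a0) := by ring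
          rw [this]; exact norm_add_le _ _
        linarith
      have h4 : poissonKernel 0 a z ≤ (R ^ 2 - ‖a‖ ^ 2) / (δ / 2) ^ 2 := by
        rw [poissonKernel_def, sub_zero, sub_zero, hz']
        apply div_le_div_of_nonneg_left hR2 (by positivity)
        exact pow_le_pow_left₀ (by positivity) h3 2
      calc poissonKernel 0 a z * |g z - g a0| ≤ (R ^ 2 - ‖a‖ ^ 2) / (δ / 2) ^ 2 * M :=
            mul_le_mul h4 (hM z hz') (abs_nonneg _) (by positivity)
        _ = B := by rw [hB]; ring
        _ ≤ ε * poissonKernel 0 a z + B := by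
            have := mul_nonneg hε hpk
            linarith
  refine h2.trans (le_of_eq ?_)
  rw [Real.circleAverage_add, Real.circleAverage_smul, pk_avg haB, Real.circleAverage_const]
  · simp
  · exact ((pk_cont haB).const_smul ε).circleIntegrable'
  · exact circleIntegrable_const _ _ _

/-- TARGET. The Dirichlet problem on a disc with continuous boundary data has a solution. -/
theorem dirichlet_disc {c : ℂ} {R : ℝ} (hR : 0 < R) {f : ℂ → ℝ} (hf : ContinuousOn f (sphere c R)) :
    ∃ h : ℂ → ℝ, HarmonicContOnCl h (ball c R) ∧ EqOn h f (sphere c R) := by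
  classical
  set g : ℂ → ℝ := fun z => f (z + c) with hgdef
  have hg : ContinuousOn g (sphere 0 R) := by
    apply hf.comp (by fun_prop)
    intro z hz
    simpa using hz
  have habs : |R| = R := abs_of_pos hR
  have hgi : CircleIntegrable g 0 R := by
    apply ContinuousOn.circleIntegrable'
    rwa [habs]
  have hgi' : CircleIntegrable (fun z => (g z : ℂ)) 0 R := by
    apply ContinuousOn.circleIntegrable'
    rw [habs]
    exact Complex.continuous_ofReal.comp_continuousOn hg
  set F : ℂ → ℂ := fun w => Real.circleAverage (fun ζ ↦ herglotzRieszKernel 0 w ζ • (g ζ : ℂ)) 0 R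
    with hF
  have hFa : AnalyticOnNhd ℂ F (ball 0 R) := analyticOnNhd_circleAverage_herglotzRieszKernel_smul hgi'
  have hGa : AnalyticOnNhd ℂ (fun w => F (w - c)) (ball c R) := by
    intro w hw
    have h1 : AnalyticAt ℂ F (w - c) := hFa (w - c) (by simpa [dist_eq_norm] using hw)
    exact AnalyticAt.fun_comp h1 (by fun_prop)
  set h : ℂ → ℝ := fun w => if w ∈ ball c R then (F (w - c)).re else f w with hh
  have hev : ∀ w ∈ ball c R, h =ᶠ[𝓝 w] (fun w => (F (w - c)).re) := by
    intro w hw
    filter_upwards [isOpen_ball.mem_nhds hw] with x hx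
    simp only [hh, if_pos hx]
  have hFre : ∀ a ∈ ball (0 : ℂ) R, (F a).re
      = Real.circleAverage ((re ∘ herglotzRieszKernel 0 a) • g) 0 R := by
    intro a ha
    exact re_circleAverage_herglotzRieszKernel_smul hgi ha
  refine ⟨h, HarmonicContOnCl.mk_ball ?_ ?_, ?_⟩
  · intro w hw
    rw [harmonicAt_congr_nhds (hev w hw)]
    exact (hGa w hw).harmonicAt_re
  · intro w0 hw0
    by_cases hw : w0 ∈ ball c R
    · have h1 : ContinuousAt (fun w => (F (w - c)).re) w0 :=
        Complex.continuous_re.continuousAt.comp (hGa w0 hw).continuousAt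
      exact (h1.congr (hev w0 hw).symm).continuousWithinAt
    · have hs : w0 ∈ sphere c R := by
        rw [mem_closedBall] at hw0
        rw [mem_ball, not_lt] at hw
        exact mem_sphere.mpr (le_antisymm hw0 hw)
      have hsn : ‖w0 - c‖ = R := by simpa [dist_eq_norm] using hs
      rw [Metric.continuousWithinAt_iff]
      intro ε hε
      have hhw0 : h w0 = f w0 := by simp only [hh, if_neg hw]
      -- continuity of f at w0 along the sphere
      obtain ⟨δ, hδ, hδ1⟩ := Metric.continuousWithinAt_iff.mp (hf w0 hs) (ε / 2) (by positivity)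
      -- bound
      obtain ⟨M0, hM0⟩ := (isCompact_sphere c R).exists_bound_of_continuousOn hf
      have hM : ∀ z, ‖z‖ = R → |g z - g (w0 - c)| ≤ 2 * M0 + 1 := by
        intro z hz
        have h1 := hM0 (z + c) (by simpa using hz)
        have h2 := hM0 w0 hs
        simp only [hgdef, sub_add_cancel]
        rw [Real.norm_eq_abs] at h1 h2
        have := abs_sub (f (z + c)) (f w0)
        linarith
      have hM00 : 0 < 2 * M0 + 1 := by
        have h2 := hM0 w0 hs
        have := norm_nonneg (f w0)
        linarith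
      -- R^2 - |a|^2 small
      have hcont : Tendsto (fun w : ℂ => (2 * M0 + 1) * (R ^ 2 - ‖w - c‖ ^ 2) / (δ / 2) ^ 2) (𝓝 w0)
          (𝓝 0) := by
        have : Continuous (fun w : ℂ => (2 * M0 + 1) * (R ^ 2 - ‖w - c‖ ^ 2) / (δ / 2) ^ 2) := by
          fun_prop
        have h2 := this.tendsto w0
        rwa [hsn, sub_self, mul_zero, zero_div] at h2
      obtain ⟨η, hη, hη1⟩ := Metric.eventually_nhds_iff.mp
        (hcont.eventually (gt_mem_nhds (show (0 : ℝ) < ε / 2 by positivity)))
      refine ⟨min (δ / 2) η, by positivity, ?_⟩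
      intro w hwc hwd
      have hwd1 : dist w w0 < δ / 2 := lt_of_lt_of_le hwd (min_le_left _ _)
      have hwd2 : dist w w0 < η := lt_of_lt_of_le hwd (min_le_right _ _)
      rw [hhw0, Real.dist_eq]
      by_cases hwb : w ∈ ball c R
      · have hwb' : w - c ∈ ball (0 : ℂ) R := by simpa [dist_eq_norm] using hwb
        have hhw : h w = (F (w - c)).re := by simp only [hh, if_pos hwb]
        rw [hhw, hFre _ hwb']
        have hk := key hR hg (a := w - c) (a0 := w0 - c) (by simpa using hwb') hsn hδ
          (show (0 : ℝ) ≤ ε / 2 by positivity) (M := 2 * M0 + 1) ?_ hM ?_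
        · have h3 := hη1 hwd2
          have e : g (w0 - c) = f w0 := by simp only [hgdef, sub_add_cancel]
          rw [e] at hk
          linarith
        · intro z hz hzd
          have h4 : dist (z + c) w0 < δ := by
            rw [dist_eq_norm]
            have : z + c - w0 = z - (w0 - c) := by ring
            rw [this]; exact hzd
          have h5 := hδ1 (show z + c ∈ sphere c R by simpa using hz) h4
          rw [Real.dist_eq] at h5
          simp only [hgdef, sub_add_cancel]
          exact h5.le
        · have : w - c - (w0 - c) = w - w0 := by ring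
          rw [this, ← dist_eq_norm]; exact hwd1
      · have hws : w ∈ sphere c R := by
          rw [mem_closedBall] at hwc
          rw [mem_ball, not_lt] at hwb
          exact mem_sphere.mpr (le_antisymm hwc hwb)
        have hhw : h w = f w := by simp only [hh, if_neg hwb]
        rw [hhw, ← Real.dist_eq]
        have := hδ1 hws (by linarith)
        linarith
  · intro w hw
    have : w ∉ ball c R := by
      rw [mem_ball, not_lt]; exact (mem_sphere.mp hw).ge
    simp only [hh, if_neg this]

end J660

alias dirichlet_disc := J660.dirichlet_disc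

end LE
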