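import Mathlib
import Pool.Agent.Helper714.LE.Defs

open Complex Set MeasureTheory Filter Topology InnerProductSpace Metric

namespace LE

namespace J661

/-- truncated excess -/
noncomputable def lpsi (δ : ℝ) : ℝ → ℝ :=
  (Ioc (-δ) δ).indicator (fun s => Real.log δ - Real.log s)

theorem lpsi_nonneg {δ s : ℝ} (hδ : 0 < δ) (hs : s ≠ 0) : 0 ≤ lpsi δ s := by
  unfold lpsi
  apply indicator_apply_nonneg
  intro h
  have h1 : |s| ≤ δ := abs_le.mpr ⟨h.1.le, h.2⟩
  have h2 : Real.log |s| ≤ Real.log δ := Real.log_le_log (abs_pos.mpr hs) h1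
  rw [Real.log_abs] at h2
  linarith

theorem lpsi_integrable (δ : ℝ) (hδ : 0 < δ) : Integrable (lpsi δ) := by
  unfold lpsi
  rw [integrable_indicator_iff measurableSet_Ioc]
  have h : IntervalIntegrable (fun s => Real.log δ - Real.log s) volume (-δ) δ :=
    intervalIntegrable_const.sub intervalIntegral.intervalIntegrable_log'
  exact (intervalIntegrable_iff_integrableOn_Ioc_of_le (by linarith)).mp h

theorem lpsi_integral (δ : ℝ) (hδ : 0 < δ) : ∫ s, lpsi δ s = 2 * δ := by
  unfold lpsi
  rw [integral_indicator measurableSet_Ioc, ← intervalIntegral.integral_of_le (by linarith),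
    intervalIntegral.integral_sub intervalIntegrable_const intervalIntegral.intervalIntegrable_log',
    integral_log, intervalIntegral.integral_const, Real.log_neg_eq_log]
  simp only [smul_eq_mul]
  ring

/-- excess over the truncated kernel -/
noncomputable def lexc (δ : ℝ) (z : ℂ) (e : ℝ) : ℝ :=
  Real.log (max ‖z - (e : ℂ)‖ δ) - Real.log ‖z - (e : ℂ)‖

theorem lnorm_pos {z : ℂ} {e : ℝ} (he : e ≠ z.re) : 0 < |z.re - e| ∧ |z.re - e| ≤ ‖z - (e : ℂ)‖ := by
  constructor
  · exact abs_pos.mpr (sub_ne_zero.mpr (Ne.symm he))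
  · have := Complex.abs_re_le_norm (z - (e : ℂ))
    simpa using this

theorem lexc_nonneg {δ : ℝ} (hδ : 0 < δ) {z : ℂ} {e : ℝ} (he : e ≠ z.re) : 0 ≤ lexc δ z e := by
  obtain ⟨h1, h2⟩ := lnorm_pos he
  unfold lexc
  have := Real.log_le_log (lt_of_lt_of_le h1 h2) (le_max_left ‖z - (e : ℂ)‖ δ)
  linarith

theorem lexc_le {δ : ℝ} (hδ : 0 < δ) {z : ℂ} {e : ℝ} (he : e ≠ z.re) :
    lexc δ z e ≤ lpsi δ (z.re - e) := by
  obtain ⟨h1, h2⟩ := lnorm_pos he
  unfold lexc
  rcases le_or_gt δ ‖z - (e : ℂ)‖ with h | h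
  · rw [max_eq_left h, sub_self]
    exact lpsi_nonneg hδ (sub_ne_zero.mpr (Ne.symm he))
  · rw [max_eq_right h.le]
    have hmem : z.re - e ∈ Ioc (-δ) δ := by
      have h3 := abs_lt.mp (lt_of_le_of_lt h2 h)
      exact ⟨h3.1, h3.2.le⟩
    unfold lpsi
    rw [indicator_of_mem hmem]
    have h4 := Real.log_le_log h1 h2
    rw [Real.log_abs] at h4
    linarith

theorem ae_ne (x : ℝ) : ∀ᵐ e : ℝ, e ≠ x := by
  have : (volume : Measure ℝ) {x} = 0 := measure_singleton x
  rw [ae_iff]
  simpa using this

theorem lexc_meas (δ : ℝ) (z : ℂ) : Measurable (lexc δ z) := by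
  unfold lexc
  have h1 : Measurable (fun e : ℝ => ‖z - (e : ℂ)‖) :=
    (continuous_const.sub Complex.continuous_ofReal).norm.measurable
  exact (Real.measurable_log.comp (h1.max measurable_const)).sub (Real.measurable_log.comp h1)

theorem lpsi_shift_integrable (δ : ℝ) (hδ : 0 < δ) (x : ℝ) :
    Integrable (fun e => lpsi δ (x - e)) := (lpsi_integrable δ hδ).comp_sub_left x

theorem lexc_integrable {δ : ℝ} (hδ : 0 < δ) (z : ℂ) : Integrable (lexc δ z) := by
  apply (lpsi_shift_integrable δ hδ z.re).mono' (lexc_meas δ z).aestronglyMeasurable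
  filter_upwards [ae_ne z.re] with e he
  rw [Real.norm_of_nonneg (lexc_nonneg hδ he)]
  exact lexc_le hδ he

theorem lexc_setIntegral {δ : ℝ} (hδ : 0 < δ) (z : ℂ) (K : Set ℝ) :
    0 ≤ ∫ e in K, lexc δ z e ∧ ∫ e in K, lexc δ z e ≤ 2 * δ := by
  constructor
  · apply integral_nonneg_of_ae
    filter_upwards [ae_restrict_of_ae (ae_ne z.re)] with e he
    exact lexc_nonneg hδ he
  · have h1 : ∫ e in K, lexc δ z e ≤ ∫ e, lexc δ z e := by
      apply setIntegral_le_integral (lexc_integrable hδ z)
      filter_upwards [ae_ne z.re] with e he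
      exact lexc_nonneg hδ he
    have h2 : ∫ e, lexc δ z e ≤ ∫ e, lpsi δ (z.re - e) := by
      apply integral_mono_ae (lexc_integrable hδ z) (lpsi_shift_integrable δ hδ z.re)
      filter_upwards [ae_ne z.re] with e he
      exact lexc_le hδ he
    rw [integral_sub_left_eq_self (lpsi δ) volume z.re, lpsi_integral δ hδ] at h2
    exact h1.trans h2

theorem trunc_cont {δ : ℝ} (hδ : 0 < δ) :
    Continuous (fun p : ℂ × ℝ => -Real.log (max ‖p.1 - (p.2 : ℂ)‖ δ)) := by
  apply Continuous.neg
  apply Continuous.log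
  · exact ((continuous_fst.sub (Complex.continuous_ofReal.comp continuous_snd)).norm).max
      continuous_const
  · intro p
    exact (lt_of_lt_of_le hδ (le_max_right _ _)).ne'

theorem trunc_integrableOn {δ : ℝ} (hδ : 0 < δ) {K : Set ℝ} (hK : IsCompact K) (z : ℂ) :
    IntegrableOn (fun e : ℝ => -Real.log (max ‖z - (e : ℂ)‖ δ)) K := by
  apply ContinuousOn.integrableOn_compact hK
  apply Continuous.continuousOn
  exact (trunc_cont hδ).comp (continuous_const.prodMk continuous_id)

theorem logpot_eq {δ : ℝ} (hδ : 0 < δ) {K : Set ℝ} (hK : IsCompact K) (z : ℂ) :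
    logpot K z = (∫ e in K, -Real.log (max ‖z - (e : ℂ)‖ δ)) + ∫ e in K, lexc δ z e := by
  unfold logpot
  rw [← integral_add (trunc_integrableOn hδ hK z) (lexc_integrable hδ z).integrableOn]
  apply integral_congr_ae
  apply Filter.Eventually.of_forall
  intro e
  simp only [lexc]
  ring

theorem kernel_integrableOn {K : Set ℝ} (hK : IsCompact K) (z : ℂ) :
    IntegrableOn (fun e : ℝ => -Real.log ‖z - (e : ℂ)‖) K := by
  have h := (trunc_integrableOn one_pos hK z).add (lexc_integrable one_pos z).integrableOn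
  apply h.congr
  apply Filter.Eventually.of_forall
  intro e
  simp only [lexc, Pi.add_apply]
  ring

/-- TARGET. Properties of the logarithmic potential of `K ⊆ [t-1/2,t+1/2]`. -/
theorem logpot_spec {K : Set ℝ} (hK : IsClosed K) (t : ℝ) (hKt : K ⊆ Icc (t - 1 / 2) (t + 1 / 2)) :
    Continuous (logpot K) ∧
    (∀ z : ℂ, z ∉ ((fun x : ℝ => (x : ℂ)) '' K) → ∃ r0 > 0, ∀ r, 0 < r → r < r0 →
      Real.circleAverage (logpot K) z r = logpot K z) ∧
    (∀ z : ℂ, logpot K z ≤ 1 + Real.log 2) ∧
    (∀ z : ℂ, 3 / 2 ≤ ‖z - (t : ℂ)‖ → logpot K z ≤ 0) ∧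
    ((volume K).toReal * Real.log 2 ≤ logpot K (t : ℂ)) := by
  have hKc : IsCompact K := isCompact_Icc.of_isClosed_subset hK hKt
  have hvol : volume K ≤ ENNReal.ofReal 1 := by
    refine (measure_mono hKt).trans ?_
    rw [Real.volume_Icc]
    apply ENNReal.ofReal_le_ofReal
    linarith
  have hvolt : (volume K).toReal ≤ 1 := ENNReal.toReal_le_of_le_ofReal zero_le_one hvol
  have hvolf : volume K ≠ ⊤ := ne_top_of_le_ne_top ENNReal.ofReal_ne_top hvol
  refine ⟨?_, ?_, ?_, ?_, ?_⟩
  · -- continuity
    apply continuous_of_uniform_approx_of_continuous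
    intro u hu
    obtain ⟨ε, hε, hεu⟩ := Metric.mem_uniformity_dist.mp hu
    have hδ : 0 < ε / 4 := by positivity
    refine ⟨fun z => ∫ e in K, -Real.log (max ‖z - (e : ℂ)‖ (ε / 4)), ?_, ?_⟩
    · exact continuous_parametric_integral_of_continuous (trunc_cont hδ) hKc
    · intro z
      apply hεu
      rw [logpot_eq hδ hKc z, Real.dist_eq, add_sub_cancel_left]
      obtain ⟨h1, h2⟩ := lexc_setIntegral hδ z K
      rw [abs_of_nonneg h1]
      linarith
  · -- mean value
    intro z hz
    have himc : IsClosed ((fun x : ℝ => (x : ℂ)) '' K) :=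
      (hKc.image Complex.continuous_ofReal).isClosed
    obtain ⟨r0, hr0, hball⟩ := Metric.isOpen_iff.mp himc.isOpen_compl z hz
    refine ⟨r0, hr0, ?_⟩
    intro r hr hrr
    have hfar : ∀ e ∈ K, r0 ≤ ‖z - (e : ℂ)‖ := by
      intro e he
      by_contra hcon
      push Not at hcon
      have h1 : (e : ℂ) ∈ ball z r0 := by
        rw [mem_ball, dist_eq_norm, norm_sub_rev]; exact hcon
      exact hball h1 ⟨e, he, rfl⟩
    have hne : ∀ θ : ℝ, ∀ e ∈ K, 0 < ‖circleMap z r θ - (e : ℂ)‖ := by
      intro θ e he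
      have h1 := hfar e he
      have h2 : ‖z - (e : ℂ)‖ ≤ ‖circleMap z r θ - (e : ℂ)‖ + ‖z - circleMap z r θ‖ := by
        have := norm_add_le (circleMap z r θ - (e : ℂ)) (z - circleMap z r θ)
        calc ‖z - (e : ℂ)‖ = ‖(circleMap z r θ - (e : ℂ)) + (z - circleMap z r θ)‖ := by
              congr 1; ring
          _ ≤ _ := this
      have h3 : ‖z - circleMap z r θ‖ = r := by
        rw [norm_sub_rev]
        simp [circleMap, abs_of_pos hr]
      linarith
    rw [Real.circleAverage_def]
    unfold logpot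
    rw [intervalIntegral_integral_swap, smul_eq_mul, ← integral_const_mul]
    · apply setIntegral_congr_fun hK.measurableSet
      intro e he
      simp only
      have h1 := circleAverage_log_norm_sub_const_eq_log_radius_add_posLog (a := (e : ℂ)) (c := z)
        hr.ne'
      rw [Real.circleAverage_def, smul_eq_mul] at h1
      have h2 : 1 ≤ |r⁻¹ * ‖z - (e : ℂ)‖| := by
        rw [abs_of_nonneg (by positivity), ← div_eq_inv_mul, one_le_div hr]
        linarith [hfar e he]
      rw [Real.posLog_eq_log h2, Real.log_mul (by positivity) (by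
        have := hfar e he
        have h3 : 0 < ‖z - (e : ℂ)‖ := by linarith
        exact h3.ne'), Real.log_inv] at h1
      rw [intervalIntegral.integral_neg, mul_neg]
      rw [h1]
      ring
    · have hc : ContinuousOn (Function.uncurry fun (θ : ℝ) (e : ℝ) =>
          -Real.log ‖circleMap z r θ - (e : ℂ)‖) (Icc 0 (2 * Real.pi) ×ˢ K) := by
        apply ContinuousOn.neg
        apply ContinuousOn.log
        · apply Continuous.continuousOn
          apply Continuous.norm
          exact ((continuous_circleMap z r).comp continuous_fst).sub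
            (Complex.continuous_ofReal.comp continuous_snd)
        · rintro ⟨θ, e⟩ ⟨_, he⟩
          exact (hne θ e he).ne'
      have h1 : IntegrableOn (Function.uncurry fun (θ : ℝ) (e : ℝ) =>
          -Real.log ‖circleMap z r θ - (e : ℂ)‖) (Icc 0 (2 * Real.pi) ×ˢ K) (volume.prod volume) :=
        hc.integrableOn_compact (isCompact_Icc.prod hKc)
      rw [Measure.prod_restrict]
      apply h1.mono_set
      apply Set.prod_mono_left
      rw [uIoc_of_le (by positivity)]
      exact Ioc_subset_Icc_self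
  · -- upper bound
    intro z
    rw [logpot_eq (δ := 1 / 2) (by norm_num) hKc z]
    obtain ⟨-, h2⟩ := lexc_setIntegral (δ := 1 / 2) (by norm_num) z K
    have h3 : (∫ e in K, -Real.log (max ‖z - (e : ℂ)‖ (1 / 2))) ≤ ∫ e in K, Real.log 2 := by
      apply setIntegral_mono_on (trunc_integrableOn (by norm_num) hKc z)
        (integrableOn_const hvolf) hK.measurableSet
      intro e _
      have h4 : Real.log (1 / 2) ≤ Real.log (max ‖z - (e : ℂ)‖ (1 / 2)) :=
        Real.log_le_log (by norm_num) (le_max_right _ _)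
      rw [one_div, Real.log_inv] at h4
      rw [one_div]
      linarith
    rw [setIntegral_const, smul_eq_mul, measureReal_def] at h3
    have h5 : 0 < Real.log 2 := Real.log_pos (by norm_num)
    nlinarith
  · -- far
    intro z hz
    unfold logpot
    apply setIntegral_nonpos hK.measurableSet
    intro e he
    have h1 : |t - e| ≤ 1 / 2 := by
      rw [abs_le]
      have := hKt he
      constructor <;> linarith [this.1, this.2]
    have h2 : ‖z - (t : ℂ)‖ ≤ ‖z - (e : ℂ)‖ + |t - e| := by
      have h3 := norm_sub_le (z - (e : ℂ)) ((t - e : ℝ) : ℂ)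
      rw [Complex.norm_real, Real.norm_eq_abs] at h3
      have h4 : z - (e : ℂ) - ((t - e : ℝ) : ℂ) = z - (t : ℂ) := by push_cast; ring
      rwa [h4] at h3
    have h5 : 0 ≤ Real.log ‖z - (e : ℂ)‖ := Real.log_nonneg (by linarith)
    linarith
  · -- lower bound
    unfold logpot
    have h1 : ∫ e in K, Real.log 2 ≤ ∫ e in K, -Real.log ‖(t : ℂ) - (e : ℂ)‖ := by
      apply setIntegral_mono_ae_restrict (integrableOn_const hvolf) (kernel_integrableOn hKc _)
      filter_upwards [ae_restrict_of_ae (ae_ne t), ae_restrict_mem hK.measurableSet] with e he heK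
      have h2 : ‖(t : ℂ) - (e : ℂ)‖ = |t - e| := by
        rw [← Complex.ofReal_sub, Complex.norm_real, Real.norm_eq_abs]
      rw [h2]
      have h3 : |t - e| ≤ 1 / 2 := by
        rw [abs_le]
        have := hKt heK
        constructor <;> linarith [this.1, this.2]
      have h4 : 0 < |t - e| := abs_pos.mpr (sub_ne_zero.mpr (Ne.symm he))
      have h5 := Real.log_le_log h4 h3
      rw [one_div, Real.log_inv] at h5
      linarith
    rw [setIntegral_const, smul_eq_mul, measureReal_def] at h1
    exact h1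

end J661

alias logpot_spec := J661.logpot_spec

end LE
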