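import Mathlib
import Pool.Agent.Helper714.LE.Defs
import Pool.Agent.Helper714.LE.J657
import Pool.Agent.Helper714.LE.J660
import Pool.Agent.Helper714.LE.J661

open Complex Set MeasureTheory Filter Topology InnerProductSpace Metric

namespace LE

namespace J685

/-- Harnack lower bound. -/
theorem harnack_lower {c w : ℂ} {R : ℝ} (hR : 0 < R) {h : ℂ → ℝ}
    (hh : HarmonicContOnCl h (ball c R)) (hnn : ∀ z ∈ sphere c R, 0 ≤ h z)
    (hw : w ∈ ball c R) :
    (R - ‖w - c‖) / (R + ‖w - c‖) * h c ≤ h w := by
  have e1 : Real.circleAverage ((re ∘ herglotzRieszKernel c w) • h) c R = h w :=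
    hh.circleAverage_re_herglotzRieszKernel_smul hw
  have hh' : HarmonicContOnCl h (ball c |R|) := by rwa [abs_of_pos hR]
  have e2 : Real.circleAverage h c R = h c := hh'.circleAverage_eq
  have hcs : ContinuousOn h (sphere c R) := hh.continuousOn_ball.mono sphere_subset_closedBall
  have hint : CircleIntegrable h c R := hcs.circleIntegrable hR.le
  have e3 : Real.circleAverage (((R - ‖w - c‖) / (R + ‖w - c‖)) • h) c R =
      ((R - ‖w - c‖) / (R + ‖w - c‖)) • Real.circleAverage h c R := Real.circleAverage_smul
  have e4 : Real.circleAverage (((R - ‖w - c‖) / (R + ‖w - c‖)) • h) c R ≤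
      Real.circleAverage ((re ∘ herglotzRieszKernel c w) • h) c R := by
    apply Real.circleAverage_mono
    · exact (hcs.const_smul _).circleIntegrable hR.le
    · apply ContinuousOn.circleIntegrable hR.le
      apply ContinuousOn.smul _ hcs
      rw [herglotzRieszKernel_fun_def]
      have : ∀ x ∈ sphere c R, x - c - (w - c) ≠ 0 := by
        intro x hx h0
        have : x = w := by linear_combination h0
        rw [mem_ball] at hw
        rw [mem_sphere, this] at hx
        linarith
      have h1 : ContinuousOn (fun x : ℂ => (x - c + (w - c)) / (x - c - (w - c))) (sphere c R) := by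
        fun_prop (disch := assumption)
      exact Complex.continuous_re.comp_continuousOn h1
    · intro x hx
      rw [abs_of_pos hR] at hx
      have := le_re_herglotzRieszKernel hx hw
      simp only [Pi.smul_apply, smul_eq_mul, Pi.smul_apply', Function.comp_apply]
      exact mul_le_mul_of_nonneg_right this (hnn x hx)
  rw [e3, e2, e1] at e4
  simpa using e4

/-- TARGET. Strict sub-mean value inequality at real points. -/
theorem lemmaA {E : Set ℝ} (hE : IsClosed E) {δ : ℝ} (hδ : 0 < δ) {U : ℂ → ℝ} (hcont : Continuous U)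
    (hzero : ∀ x ∈ E, U (x : ℂ) = 0) (hnn : ∀ z, 0 ≤ U z)
    (hharm : ∀ z : ℂ, z ∉ ((fun x : ℝ => (x : ℂ)) '' E) → HarmonicAt U z)
    (t : ℝ) (hmeas : δ ≤ (volume (E ∩ Icc (t - 1 / 2) (t + 1 / 2))).toReal) :
    U (t : ℂ) ≤ (1 - δ * Real.log 2 / (2 * (1 + Real.log 2))) *
      Real.circleAverage U (t : ℂ) (3 / 2) := by
  have hl2 : 0 < Real.log 2 := Real.log_pos (by norm_num)
  set K : Set ℝ := E ∩ Icc (t - 1 / 2) (t + 1 / 2) with hKdef
  have hKc : IsClosed K := hE.inter isClosed_Icc
  have hKt : K ⊆ Icc (t - 1 / 2) (t + 1 / 2) := inter_subset_right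
  obtain ⟨q1, q2, q3, q4, q5⟩ := logpot_spec hKc t hKt
  have hR : (0 : ℝ) < 3 / 2 := by norm_num
  obtain ⟨h, hh, hhU⟩ := dirichlet_disc (c := (t : ℂ)) hR (f := U) hcont.continuousOn
  have hh' : HarmonicContOnCl h (ball (t : ℂ) |(3 / 2 : ℝ)|) := by rwa [abs_of_pos hR]
  have hht : h t = Real.circleAverage U (t : ℂ) (3 / 2) := by
    rw [← hh'.circleAverage_eq]
    apply Real.circleAverage_congr_sphere
    rwa [abs_of_pos hR]
  set m : ℝ := Real.circleAverage U (t : ℂ) (3 / 2) with hm
  have hm0 : 0 ≤ m := Real.circleAverage_nonneg_of_nonneg (fun z _ => hnn z)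
  have hhs : ∀ z ∈ sphere (t : ℂ) (3 / 2), 0 ≤ h z := fun z hz => by rw [hhU hz]; exact hnn z
  have hharn : ∀ w : ℂ, ‖w - t‖ ≤ 1 / 2 → m / 2 ≤ h w := by
    intro w hw
    have hwb : w ∈ ball (t : ℂ) (3 / 2) := by
      rw [mem_ball, dist_eq_norm]; linarith
    have h1 := harnack_lower hR hh hhs hwb
    rw [hht] at h1
    have h2 : (1 : ℝ) / 2 ≤ (3 / 2 - ‖w - t‖) / (3 / 2 + ‖w - t‖) := by
      rw [div_le_div_iff₀ (by norm_num) (by positivity)]
      linarith
    have h3 := mul_le_mul_of_nonneg_right h2 hm0
    linarith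
  set c : ℝ := m / (2 * (1 + Real.log 2)) with hc
  have hc0 : 0 ≤ c := by positivity
  have hcL : c * (1 + Real.log 2) = m / 2 := by
    rw [hc]; field_simp
  set f : ℂ → ℝ := fun z => U z - h z + c * logpot K z with hf
  set KC : Set ℂ := (fun x : ℝ => (x : ℂ)) '' K with hKC
  have hKCc : IsClosed KC := Complex.isometry_ofReal.isClosedEmbedding.isClosedMap _ hKc
  have hECc : IsClosed ((fun x : ℝ => (x : ℂ)) '' E) := Complex.isometry_ofReal.isClosedEmbedding.isClosedMap _ hE
  set G : Set ℂ := ball (t : ℂ) (3 / 2) \ KC with hG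
  have hGo : IsOpen G := isOpen_ball.sdiff hKCc
  have hGb : Bornology.IsBounded G := isBounded_ball.subset sdiff_subset
  have hfc : ContinuousOn f (closedBall (t : ℂ) (3 / 2)) := by
    apply ContinuousOn.add
    · exact hcont.continuousOn.sub hh.continuousOn_ball
    · exact (q1.continuousOn).const_mul c |>.congr (fun _ _ => rfl)
  have hmax := maxprinciple hGo hGb (f := f)
    (hfc.mono (sdiff_subset.trans ball_subset_closedBall)) ?_ ?_
  · -- conclusion
    by_cases htK : (t : ℂ) ∈ KC
    · obtain ⟨x, hx, hxt⟩ := htK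
      have hxt' : x = t := by simpa using hxt
      subst hxt'
      rw [hzero x hx.1]
      apply mul_nonneg _ hm0
      have hv : (volume K).toReal ≤ 1 := by
        have : volume K ≤ volume (Icc (x - 1 / 2) (x + 1 / 2)) := measure_mono hKt
        have h2 := ENNReal.toReal_mono (by simp) this
        refine h2.trans ?_
        rw [Real.volume_Icc, ENNReal.toReal_ofReal (by norm_num)]
        norm_num
      have hδ1 : δ ≤ 1 := hmeas.trans hv
      rw [sub_nonneg, div_le_one (by positivity)]
      nlinarith
    · have htG : (t : ℂ) ∈ G := ⟨mem_ball_self hR, htK⟩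
      have h1 := hmax _ htG
      simp only [hf] at h1
      rw [hht] at h1
      have h2 : c * (δ * Real.log 2) ≤ c * logpot K t := by
        apply mul_le_mul_of_nonneg_left _ hc0
        refine le_trans ?_ q5
        exact mul_le_mul_of_nonneg_right hmeas hl2.le
      have h3 : c * (δ * Real.log 2) = δ * Real.log 2 / (2 * (1 + Real.log 2)) * m := by
        rw [hc]; ring
      rw [sub_mul, one_mul, ← h3]
      linarith
  · -- SubMeanAt
    intro z hz
    obtain ⟨hzb, hzK⟩ := hz
    obtain ⟨r1, hr1, hq⟩ := q2 z hzK
    obtain ⟨r2, hr2, hball⟩ := Metric.isOpen_iff.1 isOpen_ball z hzb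
    -- U part
    have hU : ∃ r0 > 0, ∀ r, 0 < r → r < r0 → U z ≤ Real.circleAverage U z r := by
      by_cases hzE : z ∈ ((fun x : ℝ => (x : ℂ)) '' E)
      · obtain ⟨x, hx, rfl⟩ := hzE
        refine ⟨1, one_pos, fun r _ _ => ?_⟩
        simp only
        rw [hzero x hx]
        exact Real.circleAverage_nonneg_of_nonneg (fun z _ => hnn z)
      · obtain ⟨r3, hr3, hb3⟩ := Metric.isOpen_iff.1 hECc.isOpen_compl z hzE
        refine ⟨r3, hr3, fun r hr hrr => ?_⟩
        have : HarmonicOnNhd U (closedBall z |r|) := by
          intro y hy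
          rw [abs_of_pos hr] at hy
          exact hharm y (hb3 (closedBall_subset_ball hrr hy))
        rw [this.circleAverage_eq]
    obtain ⟨r3, hr3, hU⟩ := hU
    refine ⟨min r1 (min r2 r3), lt_min hr1 (lt_min hr2 hr3), fun r hr hrr => ?_⟩
    have hrr1 : r < r1 := hrr.trans_le (min_le_left _ _)
    have hrr2 : r < r2 := hrr.trans_le ((min_le_right _ _).trans (min_le_left _ _))
    have hrr3 : r < r3 := hrr.trans_le ((min_le_right _ _).trans (min_le_right _ _))
    have hcb : closedBall z r ⊆ ball (t : ℂ) (3 / 2) := (closedBall_subset_ball hrr2).trans hball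
    have hhz : Real.circleAverage h z r = h z := by
      apply InnerProductSpace.HarmonicOnNhd.circleAverage_eq
      rw [abs_of_pos hr]
      exact hh.harmonicOnNhd.mono hcb
    have i1 : CircleIntegrable U z r := hcont.continuousOn.circleIntegrable hr.le
    have i2 : CircleIntegrable h z r :=
      (hh.continuousOn_ball.mono ((sphere_subset_closedBall.trans hcb).trans
        ball_subset_closedBall)).circleIntegrable hr.le
    have i3 : CircleIntegrable (fun z => c * logpot K z) z r :=
      ((q1.const_smul c).continuousOn).circleIntegrable hr.le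
    have e0 : Real.circleAverage f z r =
        Real.circleAverage U z r - Real.circleAverage h z r +
          Real.circleAverage (fun z => c * logpot K z) z r := by
      rw [← Real.circleAverage_sub i1 i2, ← Real.circleAverage_add (i1.sub i2) i3]
      rfl
    have e1 : Real.circleAverage (fun z => c * logpot K z) z r = c * logpot K z := by
      have : Real.circleAverage (c • logpot K) z r = c • Real.circleAverage (logpot K) z r :=
        Real.circleAverage_smul
      rw [hq r hr hrr1] at this
      exact this
    rw [e0, e1, hhz]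
    have := hU r hr hrr3
    simp only [hf]
    linarith
  · -- boundary
    intro z hz ε hε
    have hzcl : z ∈ closedBall (t : ℂ) (3 / 2) := by
      have : z ∈ closure G := frontier_subset_closure hz
      have h2 : closure G ⊆ closedBall (t : ℂ) (3 / 2) :=
        closure_minimal (sdiff_subset.trans ball_subset_closedBall) isClosed_closedBall
      exact h2 this
    have hzG : z ∉ G := by
      intro hzG
      rw [hGo.frontier_eq] at hz
      exact hz.2 hzG
    have hfz : f z ≤ 0 := by
      by_cases hzK : z ∈ KC
      · obtain ⟨x, hx, rfl⟩ := hzK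
        have hxE := hzero x hx.1
        have hxn : ‖(x : ℂ) - t‖ ≤ 1 / 2 := by
          rw [← Complex.ofReal_sub, Complex.norm_real, Real.norm_eq_abs, abs_le]
          have := hx.2
          constructor <;> linarith [this.1, this.2]
        have h1 := hharn _ hxn
        have h2 : c * logpot K x ≤ m / 2 := by
          rw [← hcL]
          exact mul_le_mul_of_nonneg_left (q3 _) hc0
        simp only [hf]
        rw [hxE]
        linarith
      · have hzs : z ∈ sphere (t : ℂ) (3 / 2) := by
          rw [mem_sphere]
          refine le_antisymm hzcl ?_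
          by_contra hlt
          push Not at hlt
          exact hzG ⟨hlt, hzK⟩
        have h1 : U z - h z = 0 := by rw [hhU hzs]; ring
        have h2 : logpot K z ≤ 0 := q4 z (by rw [mem_sphere, dist_eq_norm] at hzs; exact hzs.ge)
        simp only [hf]
        rw [h1]
        nlinarith
    have hcw : ContinuousWithinAt f G z :=
      (hfc z hzcl).mono (sdiff_subset.trans ball_subset_closedBall)
    have : ∀ᶠ w in 𝓝[G] z, f w ∈ Iio ε :=
      hcw (isOpen_Iio.mem_nhds (lt_of_le_of_lt hfz hε))
    exact this

end J685

alias lemmaA := J685.lemmaA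

end LE
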