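import Mathlib
import Pool.Agent.Helper714.LE.Defs

open Complex Set MeasureTheory Filter Topology InnerProductSpace Metric

namespace LE

namespace J658

lemma ker_ci {V : ℂ → ℝ} {c p : ℂ} {R : ℝ} (hR : 0 < R) (hp : p ∈ ball c R)
    (hV : ContinuousOn V (closedBall c R)) (a : ℝ) :
    CircleIntegrable (a • (poissonKernel c p • V)) c R := by
  apply ContinuousOn.circleIntegrable hR.le
  apply ContinuousOn.const_smul
  apply ContinuousOn.smul
  · unfold poissonKernel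
    apply ContinuousOn.div
    · fun_prop
    · fun_prop
    · intro z hz h
      have h1 : (z - c) - (p - c) = 0 := by
        have := pow_eq_zero_iff (two_ne_zero) |>.1 h
        exact norm_eq_zero.1 this
      have h2 : z = p := by linear_combination h1
      rw [mem_ball, dist_eq_norm] at hp
      rw [mem_sphere, dist_eq_norm, h2] at hz
      linarith
  · exact hV.mono sphere_subset_closedBall

lemma gen {V : ℂ → ℝ} {c p q : ℂ} {R K : ℝ} (hR : 0 < R) (hp : p ∈ ball c R) (hq : q ∈ ball c R)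
    (hK : ∀ ζ ∈ sphere c R, ‖q - ζ‖ ^ 2 ≤ K * ‖p - ζ‖ ^ 2)
    (hV : HarmonicContOnCl V (ball c R)) (hnn : ∀ ζ ∈ sphere c R, 0 ≤ V ζ) :
    V p * (R ^ 2 - ‖q - c‖ ^ 2) ≤ K * (R ^ 2 - ‖p - c‖ ^ 2) * V q := by
  have hcc : ContinuousOn V (closedBall c R) := by
    have := hV.continuousOn
    rwa [closure_ball c hR.ne'] at this
  rw [← hV.circleAverage_poissonKernel_smul hp, ← hV.circleAverage_poissonKernel_smul hq]
  rw [mul_comm, ← smul_eq_mul, ← smul_eq_mul, ← Real.circleAverage_smul, ← Real.circleAverage_smul]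
  apply Real.circleAverage_mono (ker_ci hR hp hcc _) (ker_ci hR hq hcc _)
  intro ζ hζ
  rw [abs_of_pos hR] at hζ
  have hpk : ‖p - c‖ < R := by rwa [mem_ball, dist_eq_norm] at hp
  have hqk : ‖q - c‖ < R := by rwa [mem_ball, dist_eq_norm] at hq
  have hA : 0 < R ^ 2 - ‖p - c‖ ^ 2 := by nlinarith [norm_nonneg (p - c)]
  have hB : 0 < R ^ 2 - ‖q - c‖ ^ 2 := by nlinarith [norm_nonneg (q - c)]
  have hζR : ‖ζ - c‖ = R := by rwa [mem_sphere, dist_eq_norm] at hζ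
  simp only [Pi.smul_apply, Pi.mul_apply, smul_eq_mul]
  have e1 : poissonKernel c p ζ = (R ^ 2 - ‖p - c‖ ^ 2) / ‖p - ζ‖ ^ 2 := by
    rw [poissonKernel_def, hζR]
    congr 2
    rw [← norm_neg]; congr 1; ring
  have e2 : poissonKernel c q ζ = (R ^ 2 - ‖q - c‖ ^ 2) / ‖q - ζ‖ ^ 2 := by
    rw [poissonKernel_def, hζR]
    congr 2
    rw [← norm_neg]; congr 1; ring
  have hpz : 0 < ‖p - ζ‖ := by
    rw [norm_pos_iff]
    intro h
    have : ζ = p := by linear_combination -h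
    rw [this] at hζR; linarith
  have hqz : 0 < ‖q - ζ‖ := by
    rw [norm_pos_iff]
    intro h
    have : ζ = q := by linear_combination -h
    rw [this] at hζR; linarith
  rw [e1, e2]
  have hk := hK ζ hζ
  have hv := hnn ζ hζ
  have key : (R ^ 2 - ‖q - c‖ ^ 2) * ((R ^ 2 - ‖p - c‖ ^ 2) / ‖p - ζ‖ ^ 2) ≤
      K * (R ^ 2 - ‖p - c‖ ^ 2) * ((R ^ 2 - ‖q - c‖ ^ 2) / ‖q - ζ‖ ^ 2) := by
    rw [← mul_div_assoc, ← mul_div_assoc, div_le_div_iff₀ (by positivity) (by positivity)]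
    have : 0 < (R ^ 2 - ‖q - c‖ ^ 2) * (R ^ 2 - ‖p - c‖ ^ 2) := by positivity
    nlinarith
  calc _ = ((R ^ 2 - ‖q - c‖ ^ 2) * ((R ^ 2 - ‖p - c‖ ^ 2) / ‖p - ζ‖ ^ 2)) * V ζ := by ring
    _ ≤ (K * (R ^ 2 - ‖p - c‖ ^ 2) * ((R ^ 2 - ‖q - c‖ ^ 2) / ‖q - ζ‖ ^ 2)) * V ζ :=
      mul_le_mul_of_nonneg_right key hv
    _ = _ := by ring

lemma nsq (w : ℂ) (R : ℝ) : R ^ 2 - ‖w - (R : ℂ) * I‖ ^ 2 = 2 * R * w.im - ‖w‖ ^ 2 := by
  rw [← Complex.normSq_eq_norm_sq, ← Complex.normSq_eq_norm_sq, Complex.normSq_apply,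
    Complex.normSq_apply]
  simp
  ring

lemma mem_b {w : ℂ} {R : ℝ} (hR : 0 < R) (h : ‖w‖ ^ 2 < 2 * R * w.im) :
    w ∈ ball ((R : ℂ) * I) R := by
  rw [mem_ball, dist_eq_norm]
  have := nsq w R
  have h2 : ‖w - (R : ℂ) * I‖ ^ 2 < R ^ 2 := by linarith
  exact lt_of_pow_lt_pow_left₀ 2 hR.le h2

lemma hcl {V : ℂ → ℝ} (hc : ContinuousOn V {z | 0 ≤ z.im})
    (hh : ∀ z : ℂ, 0 < z.im → HarmonicAt V z) {R : ℝ} (hR : 0 < R) :
    HarmonicContOnCl V (ball ((R : ℂ) * I) R) := by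
  constructor
  · intro z hz
    apply hh
    rw [mem_ball, dist_eq_norm] at hz
    have h1 := nsq z R
    have h2 : ‖z - (R : ℂ) * I‖ ^ 2 < R ^ 2 := by
      apply pow_lt_pow_left₀ hz (norm_nonneg _) (by norm_num)
    by_contra h
    push Not at h
    nlinarith [sq_nonneg ‖z‖]
  · rw [closure_ball _ hR.ne']
    apply hc.mono
    intro z hz
    rw [mem_closedBall, dist_eq_norm] at hz
    have h1 := nsq z R
    have h2 : ‖z - (R : ℂ) * I‖ ^ 2 ≤ R ^ 2 := by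
      apply pow_le_pow_left₀ (norm_nonneg _) hz
    show 0 ≤ z.im
    by_contra h
    push Not at h
    nlinarith [sq_nonneg ‖z‖]

lemma sph {z : ℂ} {R : ℝ} (hz : z ∈ sphere ((R : ℂ) * I) R) :
    ‖z‖ ^ 2 = 2 * R * z.im := by
  rw [mem_sphere, dist_eq_norm] at hz
  have h1 := nsq z R
  rw [hz] at h1
  linarith


lemma tend (a b : ℝ) : Tendsto (fun R : ℝ => a - b / (2 * R)) atTop (𝓝 a) := by
  have h : Tendsto (fun R : ℝ => b / (2 * R)) atTop (𝓝 0) :=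
    tendsto_const_nhds.div_atTop (tendsto_id.const_mul_atTop (by norm_num))
  simpa using tendsto_const_nhds.sub h

/-- TARGET A. Sharp Harnack inequality on the imaginary axis of the upper half-plane. -/
theorem harnackA {V : ℂ → ℝ} (hc : ContinuousOn V {z | 0 ≤ z.im})
    (hh : ∀ z : ℂ, 0 < z.im → HarmonicAt V z) (h0 : ∀ z : ℂ, 0 ≤ z.im → 0 ≤ V z)
    (z0 : ℂ) (hz0 : 0 < z0.im) (y : ℝ) (hy : 0 < y) :
    V ((y : ℂ) * I) * z0.im * y ≤ (y ^ 2 + ‖z0‖ ^ 2) * V z0 := by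
  have key : ∀ᶠ R : ℝ in atTop, V ((y : ℂ) * I) * (z0.im - ‖z0‖ ^ 2 / (2 * R)) ≤
      ((1 + ‖z0‖ ^ 2 / y ^ 2) / (1 - (2 * y) / (2 * R))) * (y - y ^ 2 / (2 * R)) * V z0 := by
    filter_upwards [eventually_gt_atTop 0, eventually_gt_atTop y,
      eventually_gt_atTop (‖z0‖ ^ 2 / (2 * z0.im))] with R hR hRy hRz
    have hny : ‖(y : ℂ) * I‖ = y := by simp [abs_of_pos hy]
    have himy : ((y : ℂ) * I).im = y := by simp
    have hp : (y : ℂ) * I ∈ ball ((R : ℂ) * I) R := by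
      apply mem_b hR
      rw [hny, himy]
      nlinarith
    have hq : z0 ∈ ball ((R : ℂ) * I) R := by
      apply mem_b hR
      rw [div_lt_iff₀ (by positivity)] at hRz
      linarith
    have h1y : 0 < 1 - (2 * y) / (2 * R) := by
      rw [sub_pos, div_lt_one (by positivity)]; linarith
    have hg := gen (K := (1 + ‖z0‖ ^ 2 / y ^ 2) / (1 - (2 * y) / (2 * R))) hR hp hq ?_
      (hcl hc hh hR) ?_
    · rw [nsq, nsq, hny, himy] at hg
      have e1 : V ((y : ℂ) * I) * (z0.im - ‖z0‖ ^ 2 / (2 * R)) =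
          (V ((y : ℂ) * I) * (2 * R * z0.im - ‖z0‖ ^ 2)) / (2 * R) := by
        field_simp
      have e2 : ((1 + ‖z0‖ ^ 2 / y ^ 2) / (1 - (2 * y) / (2 * R))) * (y - y ^ 2 / (2 * R)) * V z0 =
          ((1 + ‖z0‖ ^ 2 / y ^ 2) / (1 - (2 * y) / (2 * R)) * (2 * R * y - y ^ 2) * V z0) /
            (2 * R) := by
        have : y - y ^ 2 / (2 * R) = (2 * R * y - y ^ 2) / (2 * R) := by field_simp
        rw [this]; ring
      rw [e1, e2]
      exact div_le_div_of_nonneg_right hg (by positivity)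
    · intro ζ hζ
      have hs := sph hζ
      have hd : ‖(y : ℂ) * I - ζ‖ ^ 2 = ‖ζ‖ ^ 2 - 2 * y * ζ.im + y ^ 2 := by
        rw [← Complex.normSq_eq_norm_sq, ← Complex.normSq_eq_norm_sq, Complex.normSq_apply,
          Complex.normSq_apply]
        simp
        ring
      have him : ζ.im = ‖ζ‖ ^ 2 / (2 * R) := by rw [hs]; field_simp
      have hge : (1 - (2 * y) / (2 * R)) * (‖ζ‖ ^ 2 + y ^ 2) ≤ ‖(y : ℂ) * I - ζ‖ ^ 2 := by
        rw [hd, him]
        have : 0 ≤ y ^ 2 * ((2 * y) / (2 * R)) := by positivity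
        have e : 2 * y * (‖ζ‖ ^ 2 / (2 * R)) = (2 * y) / (2 * R) * ‖ζ‖ ^ 2 := by ring
        rw [e]
        nlinarith
      have htri : ‖z0 - ζ‖ ≤ ‖z0‖ + ‖ζ‖ := norm_sub_le _ _
      have hcs : (‖z0‖ + ‖ζ‖) ^ 2 ≤ (1 + ‖z0‖ ^ 2 / y ^ 2) * (‖ζ‖ ^ 2 + y ^ 2) := by
        have : (1 + ‖z0‖ ^ 2 / y ^ 2) * (‖ζ‖ ^ 2 + y ^ 2) - (‖z0‖ + ‖ζ‖) ^ 2 =
            (y - ‖z0‖ * ‖ζ‖ / y) ^ 2 := by
          field_simp
          ring
        nlinarith [sq_nonneg (y - ‖z0‖ * ‖ζ‖ / y)]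
      calc ‖z0 - ζ‖ ^ 2 ≤ (‖z0‖ + ‖ζ‖) ^ 2 := by gcongr
        _ ≤ (1 + ‖z0‖ ^ 2 / y ^ 2) * (‖ζ‖ ^ 2 + y ^ 2) := hcs
        _ = ((1 + ‖z0‖ ^ 2 / y ^ 2) / (1 - (2 * y) / (2 * R))) *
            ((1 - (2 * y) / (2 * R)) * (‖ζ‖ ^ 2 + y ^ 2)) := by
          field_simp
        _ ≤ _ := by gcongr
    · intro ζ hζ
      apply h0
      have hs := sph hζ
      by_contra h
      push Not at h
      nlinarith [sq_nonneg ‖ζ‖]
  have hlim := le_of_tendsto_of_tendsto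
    ((tendsto_const_nhds (x := V ((y : ℂ) * I))).mul (tend z0.im (‖z0‖ ^ 2)))
    ((((tendsto_const_nhds (x := (1 + ‖z0‖ ^ 2 / y ^ 2))).div (tend 1 (2 * y)) one_ne_zero).mul
      (tend y (y ^ 2))).mul (tendsto_const_nhds (x := V z0))) key
  have := mul_le_mul_of_nonneg_right hlim hy.le
  calc V ((y : ℂ) * I) * z0.im * y ≤ _ := this
    _ = _ := by field_simp

/-- TARGET B. Harnack inequality in the upper half-plane. -/
theorem harnackB {V : ℂ → ℝ} (hc : ContinuousOn V {z | 0 ≤ z.im})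
    (hh : ∀ z : ℂ, 0 < z.im → HarmonicAt V z) (h0 : ∀ z : ℂ, 0 ≤ z.im → 0 ≤ V z)
    (z w : ℂ) (hz : 0 < z.im) (hw : 0 < w.im) :
    V z * z.im * w.im ≤ V w * (z.im + ‖z - w‖) ^ 2 := by
  have key : ∀ᶠ R : ℝ in atTop, V z * (w.im - ‖w‖ ^ 2 / (2 * R)) ≤
      (1 + ‖z - w‖ / (z.im - ‖z‖ ^ 2 / (2 * R))) ^ 2 * (z.im - ‖z‖ ^ 2 / (2 * R)) * V w := by
    filter_upwards [eventually_gt_atTop 0, eventually_gt_atTop (‖w‖ ^ 2 / (2 * w.im)),
      eventually_gt_atTop (‖z‖ ^ 2 / (2 * z.im))] with R hR hRw hRz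
    have hp : z ∈ ball ((R : ℂ) * I) R := by
      apply mem_b hR
      rw [div_lt_iff₀ (by positivity)] at hRz
      linarith
    have hq : w ∈ ball ((R : ℂ) * I) R := by
      apply mem_b hR
      rw [div_lt_iff₀ (by positivity)] at hRw
      linarith
    have he : 0 < z.im - ‖z‖ ^ 2 / (2 * R) := by
      rw [div_lt_iff₀ (by positivity)] at hRz
      rw [sub_pos, div_lt_iff₀ (by positivity)]
      linarith
    have hg := gen (K := (1 + ‖z - w‖ / (z.im - ‖z‖ ^ 2 / (2 * R))) ^ 2) hR hp hq ?_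
      (hcl hc hh hR) ?_
    · rw [nsq, nsq] at hg
      have e1 : V z * (w.im - ‖w‖ ^ 2 / (2 * R)) =
          (V z * (2 * R * w.im - ‖w‖ ^ 2)) / (2 * R) := by
        field_simp
      have e2 : (1 + ‖z - w‖ / (z.im - ‖z‖ ^ 2 / (2 * R))) ^ 2 * (z.im - ‖z‖ ^ 2 / (2 * R)) * V w =
          ((1 + ‖z - w‖ / (z.im - ‖z‖ ^ 2 / (2 * R))) ^ 2 * (2 * R * z.im - ‖z‖ ^ 2) * V w) /
            (2 * R) := by
        have : z.im - ‖z‖ ^ 2 / (2 * R) = (2 * R * z.im - ‖z‖ ^ 2) / (2 * R) := by field_simp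
        conv_lhs => rw [mul_assoc, mul_comm (z.im - ‖z‖ ^ 2 / (2 * R)) (V w)]
        have h2 : V w * (z.im - ‖z‖ ^ 2 / (2 * R)) =
          V w * (2 * R * z.im - ‖z‖ ^ 2) / (2 * R) := by rw [this]; ring
        rw [h2]; ring
      rw [e1, e2]
      exact div_le_div_of_nonneg_right hg (by positivity)
    · intro ζ hζ
      have hζR : ‖ζ - (R : ℂ) * I‖ = R := by rwa [mem_sphere, dist_eq_norm] at hζ
      have hzR : ‖z - (R : ℂ) * I‖ < R := by rwa [mem_ball, dist_eq_norm] at hp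
      have hd : z.im - ‖z‖ ^ 2 / (2 * R) ≤ R - ‖z - (R : ℂ) * I‖ := by
        have h1 := nsq z R
        have : z.im - ‖z‖ ^ 2 / (2 * R) = (2 * R * z.im - ‖z‖ ^ 2) / (2 * R) := by field_simp
        rw [this, ← h1, div_le_iff₀ (by positivity)]
        nlinarith [norm_nonneg (z - (R : ℂ) * I)]
      have hz1 : z.im - ‖z‖ ^ 2 / (2 * R) ≤ ‖z - ζ‖ := by
        have : ‖ζ - (R : ℂ) * I‖ ≤ ‖z - ζ‖ + ‖z - (R : ℂ) * I‖ := by
          have e : ζ - (R : ℂ) * I = -(z - ζ) + (z - (R : ℂ) * I) := by ring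
          rw [e]
          refine (norm_add_le _ _).trans ?_
          rw [norm_neg]
        linarith
      have htri : ‖w - ζ‖ ≤ ‖z - ζ‖ + ‖z - w‖ := by
        have e : w - ζ = (z - ζ) - (z - w) := by ring
        rw [e]
        exact norm_sub_le _ _
      have hzw : ‖z - w‖ ≤ ‖z - w‖ / (z.im - ‖z‖ ^ 2 / (2 * R)) * ‖z - ζ‖ := by
        rw [div_mul_eq_mul_div, le_div_iff₀ he]
        exact mul_le_mul_of_nonneg_left hz1 (norm_nonneg _)
      rw [← mul_pow]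
      apply pow_le_pow_left₀ (norm_nonneg _)
      linarith
    · intro ζ hζ
      apply h0
      have hs := sph hζ
      by_contra h
      push Not at h
      nlinarith [sq_nonneg ‖ζ‖]
  have hlim := le_of_tendsto_of_tendsto
    ((tendsto_const_nhds (x := V z)).mul (tend w.im (‖w‖ ^ 2)))
    (((((tendsto_const_nhds (x := (1 : ℝ))).add ((tendsto_const_nhds (x := ‖z - w‖)).div
      (tend z.im (‖z‖ ^ 2)) hz.ne')).pow 2).mul
      (tend z.im (‖z‖ ^ 2))).mul (tendsto_const_nhds (x := V w))) key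
  have := mul_le_mul_of_nonneg_right hlim hz.le
  calc V z * z.im * w.im = V z * w.im * z.im := by ring
    _ ≤ _ := this
    _ = _ := by field_simp

end J658

alias harnackA := J658.harnackA
alias harnackB := J658.harnackB

end LE
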