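import Mathlib
import Pool.Agent.Helper714.LE.Defs
import Pool.Agent.Helper714.LE.J657
import Pool.Agent.Helper714.LE.J658

open Complex Set MeasureTheory Filter Topology InnerProductSpace Metric

namespace LE

namespace J659

/-- the barrier -/
noncomputable def bar (R : ℝ) (w : ℂ) : ℝ := (-((w + R)⁻¹ + (w - R)⁻¹)).im

theorem bar_eq (R : ℝ) (w : ℂ) : bar R w = w.im / ‖w + R‖ ^ 2 + w.im / ‖w - R‖ ^ 2 := by
  rw [bar, neg_im, add_im, inv_im, inv_im, normSq_eq_norm_sq, normSq_eq_norm_sq]
  simp only [add_im, sub_im, ofReal_im, add_zero, sub_zero]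
  ring

theorem bar_nonneg (R : ℝ) {w : ℂ} (hw : 0 ≤ w.im) : 0 ≤ bar R w := by
  rw [bar_eq]
  positivity

theorem ne_real {w : ℂ} (hw : 0 < w.im) (a : ℝ) : w - a ≠ 0 := by
  intro h
  have := congrArg Complex.im h
  simp only [sub_im, ofReal_im, sub_zero, zero_im] at this
  exact hw.ne' this

theorem ne_real' {w : ℂ} (hw : 0 < w.im) (a : ℝ) : w + a ≠ 0 := by
  have := ne_real hw (-a)
  rwa [ofReal_neg, sub_neg_eq_add] at this

theorem bar_harm (R : ℝ) {w : ℂ} (hw : 0 < w.im) : HarmonicAt (bar R) w := by
  have h : AnalyticAt ℂ (fun w : ℂ => -((w + R)⁻¹ + (w - R)⁻¹)) w := by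
    have h1 : AnalyticAt ℂ (fun w : ℂ => (w + R)⁻¹) w :=
      (analyticAt_id.add analyticAt_const).inv (ne_real' hw R)
    have h2 : AnalyticAt ℂ (fun w : ℂ => (w - R)⁻¹) w :=
      (analyticAt_id.sub analyticAt_const).inv (ne_real hw R)
    exact (h1.add h2).neg
  exact h.harmonicAt_im

theorem bar_cont (R : ℝ) {w : ℂ} (hw : 0 < w.im) : ContinuousAt (bar R) w := by
  have h1 : ContinuousAt (fun w : ℂ => (w + R)⁻¹) w :=
    (continuousAt_id.add continuousAt_const).inv₀ (ne_real' hw R)
  have h2 : ContinuousAt (fun w : ℂ => (w - R)⁻¹) w :=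
    (continuousAt_id.sub continuousAt_const).inv₀ (ne_real hw R)
  exact continuous_im.continuousAt.comp (h1.add h2).neg

/-- TARGET. Phragmen-Lindelof principle in the upper half-plane. -/
theorem phragmen {V h : ℂ → ℝ} (hc : ContinuousOn V {z | 0 ≤ z.im})
    (hh : ∀ z : ℂ, 0 < z.im → HarmonicAt V z) (h0 : ∀ z : ℂ, 0 ≤ z.im → 0 ≤ V z)
    (hlim : Tendsto (fun y : ℝ => V ((y : ℂ) * I) / y) atTop (𝓝 0))
    (hhc : ContinuousOn h {z | 0 ≤ z.im}) (hsub : ∀ z : ℂ, 0 < z.im → SubMeanAt h z)
    (hle : ∀ z : ℂ, 0 < z.im → h z ≤ V z) (hbd : ∀ x : ℝ, h (x : ℂ) ≤ 0) :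
    ∀ z : ℂ, 0 ≤ z.im → h z ≤ 0 := by
  intro z hz
  rcases hz.eq_or_lt with hz0 | hz0
  · have : z = (z.re : ℂ) := by
      apply Complex.ext
      · simp
      · simp [← hz0]
    rw [this]
    exact hbd _
  -- main estimate
  have key : ∀ ε > 0, h z ≤ 144 * ε * z.im := by
    intro ε hε
    obtain ⟨R, hR1, hR2⟩ := ((hlim.eventually_lt_const hε).and
      (eventually_gt_atTop (2 * (|z.re| + z.im)))).exists
    have hR0 : 0 < R := by
      have := abs_nonneg z.re
      linarith
    have hVR : V ((R : ℂ) * I) ≤ ε * R := by
      rw [div_lt_iff₀ hR0] at hR1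
      exact hR1.le
    set G : Set ℂ := {w | 0 < w.im ∧ |w.re| + w.im < R} with hGdef
    have hcont : Continuous fun w : ℂ => |w.re| + w.im :=
      (continuous_abs.comp continuous_re).add continuous_im
    have hGo : IsOpen G :=
      (isOpen_lt continuous_const continuous_im).inter
        (isOpen_lt hcont continuous_const)
    have hGb : Bornology.IsBounded G := by
      refine (Metric.isBounded_ball (x := (0 : ℂ)) (r := R)).subset ?_
      intro w hw
      rw [mem_ball_zero_iff]
      have h1 := Complex.norm_le_abs_re_add_abs_im w
      have h2 := hw.2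
      rw [abs_of_pos hw.1] at h1
      linarith
    have hGc : closure G ⊆ {w | 0 ≤ w.im ∧ |w.re| + w.im ≤ R} := by
      refine closure_minimal ?_ ?_
      · intro w hw
        exact ⟨hw.1.le, hw.2.le⟩
      · exact (isClosed_le continuous_const continuous_im).inter
          (isClosed_le hcont continuous_const)
    set C : ℝ := 18 * ε * R ^ 2 with hC
    have hC0 : 0 ≤ C := by positivity
    set f : ℂ → ℝ := fun w => h w - C * bar R w with hf
    have hhat : ∀ w : ℂ, 0 < w.im → ContinuousAt h w := by
      intro w hw
      refine hhc.continuousAt ?_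
      have : {z : ℂ | 0 < z.im} ∈ 𝓝 w := (isOpen_lt continuous_const continuous_im).mem_nhds hw
      filter_upwards [this] with v hv
      exact le_of_lt hv
    have hfat : ∀ w : ℂ, 0 < w.im → ContinuousAt f w := fun w hw =>
      (hhat w hw).sub (continuousAt_const.mul (bar_cont R hw))
    have hfz : f z ≤ 0 := by
      refine maxprinciple hGo hGb (f := f) ?_ ?_ ?_ z ⟨hz0, by linarith [abs_nonneg z.re]⟩
      · intro w hw
        exact (hfat w hw.1).continuousWithinAt
      · intro w hw
        obtain ⟨r0, hr0, hr⟩ := hsub w hw.1
        refine ⟨min r0 w.im, lt_min hr0 hw.1, ?_⟩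
        intro r hr1 hr2
        have hr3 := hr2.trans_le (min_le_left _ _)
        have hr4 := hr2.trans_le (min_le_right _ _)
        have hpos : ∀ v ∈ closedBall w r, 0 < v.im := by
          intro v hv
          rw [mem_closedBall, dist_eq_norm] at hv
          have h1 := (Complex.abs_im_le_norm (v - w)).trans hv
          rw [sub_im] at h1
          have := (abs_le.1 h1).1
          linarith
        have habs : |r| = r := abs_of_pos hr1
        have i1 : CircleIntegrable h w r := by
          refine ContinuousOn.circleIntegrable hr1.le ?_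
          intro v hv
          exact (hhat v (hpos v (sphere_subset_closedBall hv))).continuousWithinAt
        have i2 : CircleIntegrable (bar R) w r := by
          refine ContinuousOn.circleIntegrable hr1.le ?_
          intro v hv
          exact (bar_cont R (hpos v (sphere_subset_closedBall hv))).continuousWithinAt
        have i3 : CircleIntegrable (fun v => C * bar R v) w r := by
          refine ContinuousOn.circleIntegrable hr1.le ?_
          intro v hv
          exact (continuousAt_const.mul
            (bar_cont R (hpos v (sphere_subset_closedBall hv)))).continuousWithinAt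
        have e1 : Real.circleAverage (bar R) w r = bar R w := by
          refine InnerProductSpace.HarmonicOnNhd.circleAverage_eq ?_
          intro v hv
          rw [habs] at hv
          exact bar_harm R (hpos v hv)
        have e2 : Real.circleAverage (fun v => C * bar R v) w r = C * bar R w := by
          have := Real.circleAverage_fun_smul (a := C) (f := bar R) (c := w) (R := r)
          simp only [smul_eq_mul] at this
          rw [this, e1]
        have e3 : Real.circleAverage f w r = Real.circleAverage h w r - C * bar R w := by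
          rw [hf, Real.circleAverage_fun_sub i1 i3, e2]
        rw [e3]
        have := hr r hr1 hr3
        show h w - C * bar R w ≤ _
        linarith
      · intro w0 hw0 ε' hε'
        rw [hGo.frontier_eq] at hw0
        obtain ⟨hcl, hnG⟩ := hw0
        obtain ⟨h1, h2⟩ := hGc hcl
        rcases h1.eq_or_lt with him | him
        · -- real point
          have hreal : w0 = (w0.re : ℂ) := by
            apply Complex.ext
            · simp
            · simp [← him]
          have hh0 : h w0 ≤ 0 := by
            rw [hreal]
            exact hbd _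
          have hcw : Tendsto h (𝓝[{z | 0 ≤ z.im}] w0) (𝓝 (h w0)) := hhc w0 h1
          have hcw' : Tendsto h (𝓝[G] w0) (𝓝 (h w0)) :=
            hcw.mono_left (nhdsWithin_mono _ fun w hw => hw.1.le)
          filter_upwards [hcw'.eventually_lt_const (lt_of_le_of_lt hh0 hε'), self_mem_nhdsWithin]
            with w hw1 hw2
          have := mul_nonneg hC0 (bar_nonneg R hw2.1.le)
          show h w - C * bar R w < ε'
          linarith
        · have hsum : |w0.re| + w0.im = R := by
            rcases h2.eq_or_lt with h | h
            · exact h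
            · exact absurd ⟨him, h⟩ hnG
          have hf0 : f w0 ≤ 0 := by
            have hre : |w0.re| ≤ R := by linarith
            have himR : w0.im ≤ R := by linarith [abs_nonneg w0.re]
            have hIR : ((R : ℂ) * I).im = R := by simp
            have hIR' : ((R : ℂ) * I).re = 0 := by simp
            have hnorm : ‖w0 - (R : ℂ) * I‖ ≤ 2 * R := by
              have h3 := Complex.norm_le_abs_re_add_abs_im (w0 - (R : ℂ) * I)
              rw [sub_re, sub_im, hIR, hIR', sub_zero] at h3
              have h4 : |w0.im - R| ≤ R := by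
                rw [abs_le]
                constructor <;> linarith
              linarith
            have hH := harnackB hc hh h0 w0 ((R : ℂ) * I) him (by rw [hIR]; exact hR0)
            rw [hIR] at hH
            have hsq : (w0.im + ‖w0 - (R : ℂ) * I‖) ^ 2 ≤ (3 * R) ^ 2 := by
              have := norm_nonneg (w0 - (R : ℂ) * I)
              exact pow_le_pow_left₀ (by linarith) (by linarith) 2
            have hV0 : 0 ≤ V ((R : ℂ) * I) := h0 _ (by rw [hIR]; exact hR0.le)
            have h5 : V w0 * w0.im * R ≤ (9 * ε * R ^ 2) * R := by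
              calc V w0 * w0.im * R ≤ V ((R : ℂ) * I) * (w0.im + ‖w0 - (R : ℂ) * I‖) ^ 2 := hH
                _ ≤ (ε * R) * (3 * R) ^ 2 := by gcongr
                _ = (9 * ε * R ^ 2) * R := by ring
            have h6 : V w0 * w0.im ≤ 9 * ε * R ^ 2 := le_of_mul_le_mul_right h5 hR0
            have h7 : V w0 ≤ 9 * ε * R ^ 2 / w0.im := by
              rw [le_div_iff₀ him]
              exact h6
            have h8 : 1 / (2 * w0.im) ≤ bar R w0 := by
              rw [bar_eq]
              have hn : ∀ a : ℝ, ‖w0 + a‖ ^ 2 = (w0.re + a) ^ 2 + w0.im ^ 2 := by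
                intro a
                rw [← normSq_eq_norm_sq, normSq_apply]
                simp only [add_re, ofReal_re, add_im, ofReal_im, add_zero]
                ring
              have hn' : ∀ a : ℝ, ‖w0 - a‖ ^ 2 = (w0.re - a) ^ 2 + w0.im ^ 2 := by
                intro a
                rw [← normSq_eq_norm_sq, normSq_apply]
                simp only [sub_re, ofReal_re, sub_im, ofReal_im, sub_zero]
                ring
              rcases le_total w0.re 0 with hs | hs
              · rw [abs_of_nonpos hs] at hsum
                have e : ‖w0 + R‖ ^ 2 = 2 * w0.im ^ 2 := by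
                  rw [hn R, ← hsum]
                  ring
                have e' : w0.im / ‖w0 + R‖ ^ 2 = 1 / (2 * w0.im) := by
                  rw [e]
                  field_simp
                rw [e']
                have : 0 ≤ w0.im / ‖w0 - R‖ ^ 2 := by positivity
                linarith
              · rw [abs_of_nonneg hs] at hsum
                have e : ‖w0 - R‖ ^ 2 = 2 * w0.im ^ 2 := by
                  rw [hn' R, ← hsum]
                  ring
                have e' : w0.im / ‖w0 - R‖ ^ 2 = 1 / (2 * w0.im) := by
                  rw [e]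
                  field_simp
                rw [e']
                have : 0 ≤ w0.im / ‖w0 + R‖ ^ 2 := by positivity
                linarith
            have h9 : 9 * ε * R ^ 2 / w0.im ≤ C * bar R w0 := by
              calc 9 * ε * R ^ 2 / w0.im = C * (1 / (2 * w0.im)) := by
                    rw [hC]
                    field_simp
                    norm_num
                _ ≤ C * bar R w0 := mul_le_mul_of_nonneg_left h8 hC0
            have h10 := hle w0 him
            show h w0 - C * bar R w0 ≤ 0
            linarith
          have : ∀ᶠ w in 𝓝 w0, f w < ε' :=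
            (hfat w0 him).tendsto.eventually_lt_const (lt_of_le_of_lt hf0 hε')
          exact this.filter_mono nhdsWithin_le_nhds
    have hz1 : ‖z‖ ≤ R / 2 := by
      have h1 := Complex.norm_le_abs_re_add_abs_im z
      rw [abs_of_pos hz0] at h1
      linarith
    have hRn : ‖(R : ℂ)‖ = R := by rw [Complex.norm_real, Real.norm_eq_abs, abs_of_pos hR0]
    have hz2 : R / 2 ≤ ‖z + R‖ := by
      have : ‖(R : ℂ)‖ ≤ ‖z + R‖ + ‖z‖ := by
        calc ‖(R : ℂ)‖ = ‖(z + R) - z‖ := by rw [add_sub_cancel_left]
          _ ≤ _ := norm_sub_le _ _
      linarith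
    have hz3 : R / 2 ≤ ‖z - R‖ := by
      have : ‖(R : ℂ)‖ ≤ ‖z - R‖ + ‖z‖ := by
        calc ‖(R : ℂ)‖ = ‖z - (z - R)‖ := by rw [sub_sub_cancel]
          _ ≤ ‖z‖ + ‖z - R‖ := norm_sub_le _ _
          _ = _ := add_comm _ _
      linarith
    have hR20 : 0 < R / 2 := by positivity
    have hbz : bar R z ≤ 2 * (z.im / (R / 2) ^ 2) := by
      rw [bar_eq, two_mul]
      gcongr
    have : h z ≤ C * bar R z := by
      have : h z - C * bar R z ≤ 0 := hfz
      linarith
    calc h z ≤ C * bar R z := this
      _ ≤ C * (2 * (z.im / (R / 2) ^ 2)) := mul_le_mul_of_nonneg_left hbz hC0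
      _ = 144 * ε * z.im := by
          rw [hC]
          field_simp
          norm_num
  by_contra hneg
  rw [not_le] at hneg
  have := key (h z / (288 * z.im)) (by positivity)
  have e : 144 * (h z / (288 * z.im)) * z.im = h z / 2 := by
    field_simp
    norm_num
  rw [e] at this
  linarith

end J659

alias phragmen := J659.phragmen

end LE
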