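import Mathlib
import Pool.Agent.Helper714.LE.Defs
import Pool.Agent.Helper714.LE.J658
import Pool.Agent.Helper714.LE.J659

open Complex Set MeasureTheory Filter Topology InnerProductSpace Metric

namespace LE

namespace J686

/-- the folded circle -/
noncomputable def zet (θ : ℝ) : ℂ := ⟨3 / 2 * Real.cos θ, 3 / 2 * |Real.sin θ|⟩

theorem zet_cont : Continuous zet := by
  have : zet = fun θ : ℝ => ((3 / 2 * Real.cos θ : ℝ) : ℂ) + ((3 / 2 * |Real.sin θ| : ℝ) : ℂ) * I := by
    funext θ
    apply Complex.ext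
    · simp [zet, Complex.cos_ofReal_re]
    · simp [zet]
  rw [this]
  fun_prop

theorem zet_im (θ : ℝ) : 0 ≤ (zet θ).im ∧ (zet θ).im ≤ 3 / 2 := by
  have h1 := abs_nonneg (Real.sin θ)
  have h2 := Real.abs_sin_le_one θ
  simp only [zet]
  constructor <;> linarith

theorem zet_norm (θ : ℝ) : ‖zet θ‖ = 3 / 2 := by
  have h : ‖zet θ‖ ^ 2 = (3 / 2) ^ 2 := by
    rw [Complex.sq_norm, Complex.normSq_apply]
    simp only [zet]
    have h1 := abs_mul_abs_self (Real.sin θ)
    have h2 := Real.sin_sq_add_cos_sq θ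
    nlinarith
  have h0 := norm_nonneg (zet θ)
  nlinarith [sq_nonneg (‖zet θ‖ - 3 / 2), sq_nonneg (‖zet θ‖ + 3 / 2)]

theorem zet_circle {U : ℂ → ℝ} (hsymm : ∀ z, U ((starRingEnd ℂ) z) = U z) (t θ : ℝ) :
    U (circleMap (t : ℂ) (3 / 2) θ) = U ((t : ℂ) + zet θ) := by
  have hcm : circleMap (t : ℂ) (3 / 2) θ =
      ⟨t + 3 / 2 * Real.cos θ, 3 / 2 * Real.sin θ⟩ := by
    rw [circleMap, Complex.exp_mul_I]
    apply Complex.ext
    · simp [Complex.cos_ofReal_re, Complex.sin_ofReal_im]
    · simp [Complex.cos_ofReal_im, Complex.sin_ofReal_re]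
  rcases le_total 0 (Real.sin θ) with h | h
  · have : (t : ℂ) + zet θ = circleMap (t : ℂ) (3 / 2) θ := by
      rw [hcm]
      apply Complex.ext
      · simp [zet]
      · simp [zet, abs_of_nonneg h]
    rw [this]
  · have : (t : ℂ) + zet θ = (starRingEnd ℂ) (circleMap (t : ℂ) (3 / 2) θ) := by
      rw [hcm]
      apply Complex.ext
      · simp [zet]
      · simp [zet, abs_of_nonpos h]
    rw [this, hsymm]

/-- TARGET. -/
theorem bounded_high {U : ℂ → ℝ} (hcont : Continuous U)
    (hharm : ∀ z : ℂ, 0 < z.im → HarmonicAt U z)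
    (hsymm : ∀ z, U ((starRingEnd ℂ) z) = U z)
    (hge : ∀ z : ℂ, 0 ≤ z.im → z.im ≤ U z)
    (hlim : Tendsto (fun y : ℝ => U ((y : ℂ) * I) / y) atTop (𝓝 1))
    {κ : ℝ} (hκ0 : 0 ≤ κ) (hκ1 : κ < 1)
    (hA : ∀ t : ℝ, U (t : ℂ) ≤ κ * Real.circleAverage U (t : ℂ) (3 / 2)) :
    ∃ a C : ℝ, 0 < a ∧ ∀ z : ℂ, a ≤ z.im → U z ≤ z.im + C := by
  set V : ℂ → ℝ := fun z => U z - z.im with hV
  have hVc : Continuous V := hcont.sub Complex.continuous_im
  have hVh : ∀ z : ℂ, 0 < z.im → HarmonicAt V z := by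
    intro z hz
    have h1 : HarmonicAt (fun w : ℂ => w.im) z := by
      have := AnalyticAt.harmonicAt_im (f := fun w : ℂ => w) (x := z) analyticAt_id
      exact this
    exact (hharm z hz).sub h1
  have hV0 : ∀ z : ℂ, 0 ≤ z.im → 0 ≤ V z := fun z hz => by
    have := hge z hz
    simp only [hV]; linarith
  have hVlim : Tendsto (fun y : ℝ => V ((y : ℂ) * I) / y) atTop (𝓝 0) := by
    have h1 : Tendsto (fun y : ℝ => U ((y : ℂ) * I) / y - 1) atTop (𝓝 (1 - 1)) :=
      hlim.sub tendsto_const_nhds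
    rw [sub_self] at h1
    refine h1.congr' ?_
    filter_upwards [eventually_gt_atTop 0] with y hy
    simp only [hV]
    have : ((y : ℂ) * I).im = y := by simp
    rw [this]
    field_simp
  set M : ℂ → ℝ := fun z => (2 * Real.pi)⁻¹ * ∫ θ in (0 : ℝ)..2 * Real.pi, V (z + zet θ) with hM
  have hpi : 0 < 2 * Real.pi := by positivity
  have hVz : ∀ z : ℂ, Continuous fun θ : ℝ => V (z + zet θ) := fun z =>
    hVc.comp (continuous_const.add zet_cont)
  have hMc : Continuous M := by
    refine Continuous.mul continuous_const ?_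
    apply intervalIntegral.continuous_parametric_intervalIntegral_of_continuous'
    exact hVc.comp ((continuous_fst).add (zet_cont.comp continuous_snd))
  have hM0 : ∀ z : ℂ, 0 ≤ z.im → 0 ≤ M z := by
    intro z hz
    simp only [hM]
    refine mul_nonneg (by positivity) ?_
    refine intervalIntegral.integral_nonneg hpi.le fun θ _ => hV0 _ ?_
    have := (zet_im θ).1
    simp only [Complex.add_im]; linarith
  -- (1)
  have h1 : ∀ t : ℝ, Real.circleAverage U (t : ℂ) (3 / 2) ≤ 3 / 2 + M t := by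
    intro t
    have e1 : Real.circleAverage U (t : ℂ) (3 / 2) =
        (2 * Real.pi)⁻¹ * ∫ θ in (0 : ℝ)..2 * Real.pi, U ((t : ℂ) + zet θ) := by
      rw [Real.circleAverage_def, smul_eq_mul]
      congr 1
      refine intervalIntegral.integral_congr fun θ _ => ?_
      exact zet_circle hsymm t θ
    have e2 : (∫ θ in (0 : ℝ)..2 * Real.pi, U ((t : ℂ) + zet θ)) ≤
        ∫ θ in (0 : ℝ)..2 * Real.pi, (3 / 2 + V ((t : ℂ) + zet θ)) := by
      refine intervalIntegral.integral_mono_on hpi.le ?_ ?_ fun θ _ => ?_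
      · exact (hcont.comp (continuous_const.add zet_cont)).intervalIntegrable _ _
      · exact (continuous_const.add (hVz t)).intervalIntegrable _ _
      · have := (zet_im θ).2
        simp only [hV, Complex.add_im, Complex.ofReal_im]
        linarith
    have e3 : ∫ θ in (0 : ℝ)..2 * Real.pi, (3 / 2 + V ((t : ℂ) + zet θ)) =
        (2 * Real.pi) * (3 / 2) + ∫ θ in (0 : ℝ)..2 * Real.pi, V ((t : ℂ) + zet θ) := by
      rw [intervalIntegral.integral_add (by simp) ((hVz t).intervalIntegrable _ _),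
        intervalIntegral.integral_const, smul_eq_mul, sub_zero]
    rw [e1]
    have e4 : (2 * Real.pi)⁻¹ * (∫ θ in (0 : ℝ)..2 * Real.pi, U ((t : ℂ) + zet θ)) ≤
        (2 * Real.pi)⁻¹ * ((2 * Real.pi) * (3 / 2) +
          ∫ θ in (0 : ℝ)..2 * Real.pi, V ((t : ℂ) + zet θ)) := by
      rw [← e3]
      exact mul_le_mul_of_nonneg_left e2 (by positivity)
    refine e4.trans (le_of_eq ?_)
    simp only [hM]
    field_simp
  -- the comparison function
  set h : ℂ → ℝ := fun z => V z - κ * (3 / 2 + M z) with hh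
  have hhc : Continuous h := hVc.sub (continuous_const.mul (continuous_const.add hMc))
  have havg : ∀ z : ℂ, ∀ r : ℝ, 0 < r → r < z.im → Real.circleAverage V z r = V z := by
    intro z r hr hrz
    apply InnerProductSpace.HarmonicOnNhd.circleAverage_eq
    intro w hw
    rw [abs_of_pos hr, mem_closedBall, dist_eq_norm] at hw
    apply hVh
    have h2 : |(w - z).im| ≤ ‖w - z‖ := Complex.abs_im_le_norm _
    have h3 := (abs_le.1 (h2.trans hw)).1
    simp only [Complex.sub_im] at h3
    linarith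
  have hMavg : ∀ z : ℂ, ∀ r : ℝ, 0 < r → r < z.im → Real.circleAverage M z r = M z := by
    intro z r hr hrz
    rw [Real.circleAverage_def, smul_eq_mul]
    simp only [hM]
    rw [intervalIntegral.integral_const_mul]
    have hsw : (∫ φ in (0 : ℝ)..2 * Real.pi, ∫ θ in (0 : ℝ)..2 * Real.pi,
        V (circleMap z r φ + zet θ)) = ∫ θ in (0 : ℝ)..2 * Real.pi, ∫ φ in (0 : ℝ)..2 * Real.pi,
        V (circleMap z r φ + zet θ) := by
      apply MeasureTheory.intervalIntegral_intervalIntegral_swap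
      have hc : Continuous (Function.uncurry fun φ θ : ℝ => V (circleMap z r φ + zet θ)) :=
        hVc.comp (((continuous_circleMap z r).comp continuous_fst).add
          (zet_cont.comp continuous_snd))
      refine (hc.continuousOn.integrableOn_compact
        ((isCompact_uIcc (a := (0 : ℝ)) (b := 2 * Real.pi)).prod
          (isCompact_uIcc (a := (0 : ℝ)) (b := 2 * Real.pi)))).mono_set ?_
      exact prod_mono uIoc_subset_uIcc uIoc_subset_uIcc
    rw [hsw]
    have hin : ∀ θ : ℝ, (∫ φ in (0 : ℝ)..2 * Real.pi, V (circleMap z r φ + zet θ)) =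
        (2 * Real.pi) * V (z + zet θ) := by
      intro θ
      have h2 := havg (z + zet θ) r hr (by
        have := (zet_im θ).1
        simp only [Complex.add_im]; linarith)
      rw [Real.circleAverage_def, smul_eq_mul] at h2
      have h3 : (∫ φ in (0 : ℝ)..2 * Real.pi, V (circleMap (z + zet θ) r φ)) =
          ∫ φ in (0 : ℝ)..2 * Real.pi, V (circleMap z r φ + zet θ) := by
        refine intervalIntegral.integral_congr fun φ _ => ?_
        simp only [circleMap]
        congr 1
        ring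
      rw [h3] at h2
      rw [← h2]
      field_simp
    have hin2 : (∫ θ in (0 : ℝ)..2 * Real.pi, ∫ φ in (0 : ℝ)..2 * Real.pi,
        V (circleMap z r φ + zet θ)) = ∫ θ in (0 : ℝ)..2 * Real.pi,
          (2 * Real.pi) * V (z + zet θ) :=
      intervalIntegral.integral_congr fun θ _ => hin θ
    rw [hin2, intervalIntegral.integral_const_mul]
    field_simp
  have hsub : ∀ z : ℂ, 0 < z.im → SubMeanAt h z := by
    intro z hz
    refine ⟨z.im, hz, fun r hr hrz => le_of_eq ?_⟩
    have hci : ∀ f : ℂ → ℝ, Continuous f → CircleIntegrable f z r := fun f hf =>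
      hf.continuousOn.circleIntegrable'
    have e1 : h = fun w => V w - (κ * (3 / 2) + κ * M w) := by
      funext w; simp only [hh]; ring
    have e2 : Real.circleAverage (fun w => κ * M w) z r = κ * M z := by
      have := Real.circleAverage_fun_smul (a := κ) (f := M) (c := z) (R := r)
      simp only [smul_eq_mul] at this
      rw [this, hMavg z r hr hrz]
    have e3 : Real.circleAverage (fun w => κ * (3 / 2) + κ * M w) z r =
        κ * (3 / 2) + κ * M z := by
      rw [Real.circleAverage_fun_add (f₁ := fun _ => κ * (3 / 2)) (f₂ := fun w => κ * M w)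
        (hci _ continuous_const) (hci _ (continuous_const.mul hMc)),
        Real.circleAverage_const, e2]
    rw [e1, Real.circleAverage_fun_sub (f₁ := V) (f₂ := fun w => κ * (3 / 2) + κ * M w)
      (hci V hVc) (hci _ (continuous_const.add (continuous_const.mul hMc))), e3,
      havg z r hr hrz]
  have hle : ∀ z : ℂ, 0 < z.im → h z ≤ V z := by
    intro z hz
    have := hM0 z hz.le
    simp only [hh]
    nlinarith
  have hbd : ∀ x : ℝ, h (x : ℂ) ≤ 0 := by
    intro x
    have h2 := hA x
    have h3 := h1 x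
    have h4 : κ * Real.circleAverage U (x : ℂ) (3 / 2) ≤ κ * (3 / 2 + M x) :=
      mul_le_mul_of_nonneg_left h3 hκ0
    simp only [hh, hV, Complex.ofReal_im]
    linarith
  have hph := phragmen hVc.continuousOn hVh hV0 hVlim hhc.continuousOn hsub hle hbd
  -- choice of a
  obtain ⟨a, ha0, ha⟩ : ∃ a : ℝ, 0 < a ∧ κ * (1 + 3 / a) ^ 2 ≤ (1 + κ) / 2 := by
    have ht : Tendsto (fun a : ℝ => κ * (1 + 3 / a) ^ 2) atTop (𝓝 (κ * (1 + 0) ^ 2)) := by
      refine Tendsto.const_mul _ (Tendsto.pow (Tendsto.const_add _ ?_) 2)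
      exact tendsto_const_nhds.div_atTop tendsto_id
    have hlt : κ * (1 + 0) ^ 2 < (1 + κ) / 2 := by nlinarith
    have hev := (ht.eventually (gt_mem_nhds hlt)).and (eventually_gt_atTop 0)
    obtain ⟨a, ha⟩ := hev.exists
    exact ⟨a, ha.2, ha.1.le⟩
  refine ⟨a, 2 * κ * (3 / 2) / (1 - κ), ha0, fun z hz => ?_⟩
  have hzp : 0 < z.im := lt_of_lt_of_le ha0 hz
  have hp := hph z hzp.le
  have hMz : M z ≤ (1 + 3 / a) ^ 2 * V z := by
    have hpt : ∀ θ : ℝ, V (z + zet θ) ≤ (1 + 3 / a) ^ 2 * V z := by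
      intro θ
      have hb := zet_im θ
      have hs : (z + zet θ).im = z.im + (zet θ).im := Complex.add_im _ _
      have hH := harnackB hVc.continuousOn hVh hV0 (z + zet θ) z
        (by rw [hs]; linarith) hzp
      have hn : ‖z + zet θ - z‖ = 3 / 2 := by
        rw [add_sub_cancel_left]; exact zet_norm θ
      rw [hn] at hH
      have hV1 := hV0 z hzp.le
      have hV2 := hV0 (z + zet θ) (by rw [hs]; linarith)
      set s := (z + zet θ).im with hsdef
      have hs1 : z.im ≤ s := by rw [hs]; linarith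
      have hs2 : s ≤ z.im + 3 / 2 := by rw [hs]; linarith
      have hs0 : 0 < s := by linarith
      -- (s + 3/2)^2 ≤ (1+3/a)^2 * s * im z
      have hkey : (s + 3 / 2) ^ 2 ≤ (1 + 3 / a) ^ 2 * (s * z.im) := by
        have h2 : s + 3 / 2 ≤ (1 + 3 / a) * z.im := by
          have : 3 ≤ 3 / a * z.im := by
            rw [div_mul_eq_mul_div, le_div_iff₀ ha0]; nlinarith
          nlinarith
        have h3 : s + 3 / 2 ≤ (1 + 3 / a) * s := by
          refine h2.trans (mul_le_mul_of_nonneg_left hs1 (by positivity))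
        calc (s + 3 / 2) ^ 2 = (s + 3 / 2) * (s + 3 / 2) := by ring
          _ ≤ ((1 + 3 / a) * s) * ((1 + 3 / a) * z.im) :=
            mul_le_mul h3 h2 (by linarith) (by positivity)
          _ = _ := by ring
      have hfin : V (z + zet θ) * (s * z.im) ≤ (1 + 3 / a) ^ 2 * V z * (s * z.im) := by
        calc V (z + zet θ) * (s * z.im) = V (z + zet θ) * s * z.im := by ring
          _ ≤ V z * (s + 3 / 2) ^ 2 := hH
          _ ≤ V z * ((1 + 3 / a) ^ 2 * (s * z.im)) := mul_le_mul_of_nonneg_left hkey hV1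
          _ = _ := by ring
      exact le_of_mul_le_mul_right hfin (by positivity)
    simp only [hM]
    have hint : (∫ θ in (0 : ℝ)..2 * Real.pi, V (z + zet θ)) ≤
        ∫ _θ in (0 : ℝ)..2 * Real.pi, (1 + 3 / a) ^ 2 * V z := by
      refine intervalIntegral.integral_mono_on hpi.le ((hVz z).intervalIntegrable _ _)
        (by simp) fun θ _ => hpt θ
    rw [intervalIntegral.integral_const, smul_eq_mul, sub_zero] at hint
    calc (2 * Real.pi)⁻¹ * ∫ θ in (0 : ℝ)..2 * Real.pi, V (z + zet θ)
        ≤ (2 * Real.pi)⁻¹ * (2 * Real.pi * ((1 + 3 / a) ^ 2 * V z)) :=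
          mul_le_mul_of_nonneg_left hint (by positivity)
      _ = (1 + 3 / a) ^ 2 * V z := by field_simp
  have hV1 := hV0 z hzp.le
  have hfin : V z ≤ κ * (3 / 2) + (1 + κ) / 2 * V z := by
    have e1 : V z ≤ κ * (3 / 2 + M z) := by simp only [hh] at hp; linarith
    have e2 : κ * M z ≤ κ * ((1 + 3 / a) ^ 2 * V z) := mul_le_mul_of_nonneg_left hMz hκ0
    have e3 : κ * (1 + 3 / a) ^ 2 * V z ≤ (1 + κ) / 2 * V z := mul_le_mul_of_nonneg_right ha hV1
    nlinarith
  have hκ' : 0 < 1 - κ := by linarith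
  have : V z ≤ 2 * κ * (3 / 2) / (1 - κ) := by
    rw [le_div_iff₀ hκ']; nlinarith
  simp only [hV] at this
  linarith

end J686

alias bounded_high := J686.bounded_high

end LE
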