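import Mathlib
import Pool.Agent.Helper714.LE.Defs
import Pool.Agent.Helper714.LE.J657
import Pool.Agent.Helper714.LE.J658

open Complex Set MeasureTheory Filter Topology InnerProductSpace Metric

namespace LE

namespace J687

/-- the analytic function whose real part is the barrier -/
noncomputable def gBar (C1 p q : ℝ) (w : ℂ) : ℂ :=
  ((2 * C1 : ℝ) : ℂ) * ((w - (p : ℂ))⁻¹ - (w - (q : ℂ))⁻¹)

noncomputable def Bar (C1 p q : ℝ) (w : ℂ) : ℝ := (gBar C1 p q w).re

lemma Bar_eq (C1 p q : ℝ) (w : ℂ) :
    Bar C1 p q w = 2 * C1 * ((w.re - p) / ((w.re - p) ^ 2 + w.im ^ 2) +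
      (q - w.re) / ((q - w.re) ^ 2 + w.im ^ 2)) := by
  unfold Bar gBar
  rw [Complex.re_ofReal_mul, Complex.sub_re, Complex.inv_re, Complex.inv_re, Complex.normSq_apply,
    Complex.normSq_apply]
  simp only [Complex.sub_re, Complex.sub_im, Complex.ofReal_re, Complex.ofReal_im, sub_zero]
  have h1 : (w.re - q) * (w.re - q) + w.im * w.im = (q - w.re) ^ 2 + w.im ^ 2 := by ring
  have h2 : (w.re - p) * (w.re - p) + w.im * w.im = (w.re - p) ^ 2 + w.im ^ 2 := by ring
  rw [h1, h2]
  ring

lemma Bar_harm (C1 p q : ℝ) {w : ℂ} (hp : w ≠ (p : ℂ)) (hq : w ≠ (q : ℂ)) :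
    HarmonicAt (Bar C1 p q) w := by
  have hp' : w - (p : ℂ) ≠ 0 := sub_ne_zero.2 hp
  have hq' : w - (q : ℂ) ≠ 0 := sub_ne_zero.2 hq
  have h : AnalyticAt ℂ (gBar C1 p q) w := by
    unfold gBar
    exact analyticAt_const.mul (((analyticAt_id.sub analyticAt_const).inv hp').sub
      ((analyticAt_id.sub analyticAt_const).inv hq'))
  exact h.harmonicAt_re

lemma term_lower {X y : ℝ} (h : |y| < X) : 1 / (2 * X) ≤ X / (X ^ 2 + y ^ 2) := by
  have hX : 0 < X := lt_of_le_of_lt (abs_nonneg y) h
  have hy : y ^ 2 ≤ X ^ 2 := by
    rw [← sq_abs y]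
    exact pow_le_pow_left₀ (abs_nonneg y) h.le 2
  rw [div_le_div_iff₀ (by positivity) (by positivity)]
  nlinarith [sq_nonneg y]

/-- TARGET. -/
theorem bounded_all {U : ℂ → ℝ} (hcont : Continuous U)
    (hharm : ∀ z : ℂ, 0 < z.im → HarmonicAt U z)
    (hsub : ∀ z : ℂ, SubMeanAt U z)
    (hsymm : ∀ z, U ((starRingEnd ℂ) z) = U z)
    (hge : ∀ z : ℂ, 0 ≤ z.im → z.im ≤ U z)
    {a C : ℝ} (ha : 0 < a) (hC : ∀ z : ℂ, a ≤ z.im → U z ≤ z.im + C) :
    ∃ M : ℝ, 0 ≤ M ∧ ∀ z : ℂ, U z ≤ |z.im| + M := by
  have hC0 : 0 ≤ C := by
    have h1 := hge (⟨0, a⟩ : ℂ) ha.le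
    have h2 := hC (⟨0, a⟩ : ℂ) le_rfl
    simp only at h1 h2
    linarith
  set C1 : ℝ := a ^ 2 + C * a with hC1
  have hC1pos : 0 < C1 := by positivity
  -- Step 1
  have step1 : ∀ z : ℂ, 0 < z.im → z.im ≤ a → U z ≤ C1 / z.im := by
    intro z hz hza
    set V : ℂ → ℝ := fun z => U z - z.im with hV
    have hVc : ContinuousOn V {z | 0 ≤ z.im} :=
      (hcont.sub Complex.continuous_im).continuousOn
    have hVh : ∀ z : ℂ, 0 < z.im → HarmonicAt V z := by
      intro z hz
      exact (hharm z hz).sub (analyticAt_id.harmonicAt_im)
    have hV0 : ∀ z : ℂ, 0 ≤ z.im → 0 ≤ V z := by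
      intro z hz
      have := hge z hz
      simp only [hV]
      linarith
    have hh := harnackB hVc hVh hV0 z ⟨z.re, a⟩ hz ha
    have hn : ‖z - (⟨z.re, a⟩ : ℂ)‖ = a - z.im := by
      have : z - (⟨z.re, a⟩ : ℂ) = ((z.im - a : ℝ) : ℂ) * Complex.I := by
        apply Complex.ext <;> simp
      rw [this, norm_mul, Complex.norm_real, Complex.norm_I, mul_one, Real.norm_eq_abs,
        abs_of_nonpos (by linarith)]
      ring
    rw [hn] at hh
    simp only [hV] at hh
    have h2 := hC (⟨z.re, a⟩ : ℂ) le_rfl
    simp only at h2
    have h3 : (U z - z.im) * z.im * a ≤ C * a ^ 2 := by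
      refine hh.trans ?_
      have : (z.im + (a - z.im)) ^ 2 = a ^ 2 := by ring
      rw [this]
      apply mul_le_mul_of_nonneg_right _ (by positivity)
      linarith
    have h4 : (U z - z.im) * z.im ≤ C * a := by
      have : (U z - z.im) * z.im * a ≤ (C * a) * a := by nlinarith
      exact le_of_mul_le_mul_right this ha
    rw [le_div_iff₀ hz]
    have h5 : z.im * z.im ≤ a ^ 2 := by nlinarith
    nlinarith
  have step1' : ∀ z : ℂ, z.im ≠ 0 → |z.im| ≤ a → U z ≤ C1 / |z.im| := by
    intro z hz hza
    rcases lt_or_gt_of_ne hz with h | h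
    · have h1 := step1 ((starRingEnd ℂ) z) (by simpa using h)
        (by rw [Complex.conj_im]; rw [abs_of_neg h] at hza; exact hza)
      rw [hsymm, Complex.conj_im] at h1
      rw [abs_of_neg h]
      exact h1
    · have h1 := step1 z h (by rw [abs_of_pos h] at hza; exact hza)
      rw [abs_of_pos h]
      exact h1
  -- Step 2
  have step2 : ∀ z : ℂ, |z.im| < a → U z ≤ 4 * C1 / a := by
    intro z0 hz0
    set t : ℝ := z0.re with ht
    set p : ℝ := t - a with hp
    set q : ℝ := t + a with hq
    set G : Set ℂ := {w | |w.re - t| + |w.im| < a} with hG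
    have hGo : IsOpen G := by
      apply isOpen_lt _ continuous_const
      fun_prop
    have hGb : Bornology.IsBounded G := by
      refine (Metric.isBounded_ball (x := (t : ℂ)) (r := a)).subset ?_
      intro w hw
      rw [Metric.mem_ball, Complex.dist_eq]
      refine lt_of_le_of_lt (Complex.norm_le_abs_re_add_abs_im _) ?_
      have hw' : |w.re - t| + |w.im| < a := hw
      simpa using hw'
    have hGmem : ∀ w ∈ G, |w.im| < w.re - p ∧ |w.im| < q - w.re := by
      intro w hw
      have h1 : |w.re - t| + |w.im| < a := hw
      have h2 := le_abs_self (w.re - t)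
      have h3 := neg_abs_le (w.re - t)
      constructor <;> simp only [hp, hq] <;> linarith
    have hGne : ∀ w ∈ G, w ≠ (p : ℂ) ∧ w ≠ (q : ℂ) := by
      intro w hw
      obtain ⟨h1, h2⟩ := hGmem w hw
      have h3 := abs_nonneg w.im
      constructor
      · intro h
        rw [h, Complex.ofReal_re] at h1
        rw [h] at h3
        linarith
      · intro h
        rw [h, Complex.ofReal_re] at h2
        rw [h] at h3
        linarith
    have hBh : ∀ w ∈ G, HarmonicAt (Bar C1 p q) w := fun w hw =>
      Bar_harm C1 p q (hGne w hw).1 (hGne w hw).2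
    have hBc : ∀ w : ℂ, w ≠ (p : ℂ) → w ≠ (q : ℂ) → ContinuousAt (Bar C1 p q) w := fun w h1 h2 =>
      (Bar_harm C1 p q h1 h2).1.continuousAt
    have hmax := maxprinciple (G := G) hGo hGb (f := fun w => U w - Bar C1 p q w) ?_ ?_ ?_ z0 ?_
    · -- conclusion
      have h1 : Bar C1 p q z0 ≤ 4 * C1 / a := by
        rw [Bar_eq]
        have e1 : z0.re - p = a := by simp only [hp, ht]; ring
        have e2 : q - z0.re = a := by simp only [hq, ht]; ring
        rw [e1, e2]
        have h2 : a / (a ^ 2 + z0.im ^ 2) ≤ 1 / a := by
          rw [div_le_div_iff₀ (by positivity) ha]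
          nlinarith [sq_nonneg z0.im]
        calc 2 * C1 * (a / (a ^ 2 + z0.im ^ 2) + a / (a ^ 2 + z0.im ^ 2))
            ≤ 2 * C1 * (1 / a + 1 / a) := by
              apply mul_le_mul_of_nonneg_left _ (by positivity)
              linarith
          _ = 4 * C1 / a := by ring
      linarith
    · -- continuity
      intro w hw
      exact (hcont.continuousAt.sub (hBc w (hGne w hw).1 (hGne w hw).2)).continuousWithinAt
    · -- sub mean value
      intro w hw
      obtain ⟨r0, hr0, h0⟩ := hsub w
      obtain ⟨r1, hr1, h1⟩ := Metric.isOpen_iff.1 hGo w hw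
      refine ⟨min r0 r1, lt_min hr0 hr1, ?_⟩
      intro r hr hrr
      have hr' : |r| = r := abs_of_pos hr
      have hball : closedBall w |r| ⊆ G := by
        rw [hr']
        exact (closedBall_subset_ball (lt_of_lt_of_le hrr (min_le_right _ _))).trans h1
      have hBn : HarmonicOnNhd (Bar C1 p q) (closedBall w |r|) := fun v hv => hBh v (hball hv)
      have hBi : CircleIntegrable (Bar C1 p q) w r := by
        apply ContinuousOn.circleIntegrable' 
        exact (hBn.continuousOn).mono sphere_subset_closedBall
      have hUi : CircleIntegrable U w r := 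
        ContinuousOn.circleIntegrable' hcont.continuousOn
      rw [Real.circleAverage_fun_sub hUi hBi, hBn.circleAverage_eq]
      have := h0 r hr (lt_of_lt_of_le hrr (min_le_left _ _))
      linarith
    · -- boundary
      intro z hz ε hε
      have hzf : |z.re - t| + |z.im| = a := by
        have := frontier_lt_subset_eq (f := fun w : ℂ => |w.re - t| + |w.im|) (g := fun _ => a)
          (by fun_prop) continuous_const hz
        exact this
      by_cases hzi : z.im = 0
      · -- vertices
        have hUz : ∀ᶠ w in 𝓝[G] z, U w < |U z| + 1 := by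
          have : ∀ᶠ w in 𝓝 z, U w < |U z| + 1 :=
            hcont.continuousAt.eventually_lt continuousAt_const
              (by linarith [le_abs_self (U z)])
          exact this.filter_mono nhdsWithin_le_nhds
        have hG' : ∀ᶠ w in 𝓝[G] z, w ∈ G := self_mem_nhdsWithin
        rw [hzi, abs_zero, add_zero] at hzf
        rcases (abs_eq ha.le).1 hzf with h | h
        · -- right vertex
          have hX : ∀ᶠ w in 𝓝[G] z, (q - w.re) * (|U z| + 1) < C1 := by
            have : ∀ᶠ w in 𝓝 z, (q - w.re) * (|U z| + 1) < C1 := by
              apply ContinuousAt.eventually_lt (by fun_prop) continuousAt_const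
              have : q - z.re = 0 := by simp only [hq]; linarith
              rw [this, zero_mul]
              exact hC1pos
            exact this.filter_mono nhdsWithin_le_nhds
          filter_upwards [hUz, hG', hX] with w h1 h2 h3
          obtain ⟨h4, h5⟩ := hGmem w h2
          have h6 := term_lower h4
          have h7 := term_lower h5
          have hX1 : 0 < w.re - p := lt_of_le_of_lt (abs_nonneg _) h4
          have hX2 : 0 < q - w.re := lt_of_le_of_lt (abs_nonneg _) h5
          have h8 : 0 < 1 / (2 * (w.re - p)) := by positivity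
          have h9 : C1 / (q - w.re) ≤ Bar C1 p q w := by
            rw [Bar_eq]
            have : C1 / (q - w.re) = 2 * C1 * (0 + 1 / (2 * (q - w.re))) := by
              field_simp
              try ring
            rw [this]
            apply mul_le_mul_of_nonneg_left _ (by positivity)
            exact add_le_add (h8.le.trans h6) h7
          have h10 : |U z| + 1 < C1 / (q - w.re) := by
            rw [lt_div_iff₀ hX2]
            linarith
          linarith
        · -- left vertex
          have hX : ∀ᶠ w in 𝓝[G] z, (w.re - p) * (|U z| + 1) < C1 := by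
            have : ∀ᶠ w in 𝓝 z, (w.re - p) * (|U z| + 1) < C1 := by
              apply ContinuousAt.eventually_lt (by fun_prop) continuousAt_const
              have : z.re - p = 0 := by simp only [hp]; linarith
              rw [this, zero_mul]
              exact hC1pos
            exact this.filter_mono nhdsWithin_le_nhds
          filter_upwards [hUz, hG', hX] with w h1 h2 h3
          obtain ⟨h4, h5⟩ := hGmem w h2
          have h6 := term_lower h4
          have h7 := term_lower h5
          have hX1 : 0 < w.re - p := lt_of_le_of_lt (abs_nonneg _) h4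
          have hX2 : 0 < q - w.re := lt_of_le_of_lt (abs_nonneg _) h5
          have h8 : 0 < 1 / (2 * (q - w.re)) := by positivity
          have h9 : C1 / (w.re - p) ≤ Bar C1 p q w := by
            rw [Bar_eq]
            have : C1 / (w.re - p) = 2 * C1 * (1 / (2 * (w.re - p)) + 0) := by
              field_simp
              try ring
            rw [this]
            apply mul_le_mul_of_nonneg_left _ (by positivity)
            exact add_le_add h6 (h8.le.trans h7)
          have h10 : |U z| + 1 < C1 / (w.re - p) := by
            rw [lt_div_iff₀ hX1]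
            linarith
          linarith
      · -- sides
        have hypos : 0 < |z.im| := abs_pos.2 hzi
        have hya : |z.im| ≤ a := by linarith [abs_nonneg (z.re - t)]
        have hUz := step1' z hzi hya
        have hnp : z ≠ (p : ℂ) := by
          intro h; apply hzi; rw [h]; simp
        have hnq : z ≠ (q : ℂ) := by
          intro h; apply hzi; rw [h]; simp
        have hyy : z.im ^ 2 = |z.im| ^ 2 := (sq_abs _).symm
        have hhalf : |z.im| / (|z.im| ^ 2 + |z.im| ^ 2) = 1 / (2 * |z.im|) := by
          field_simp
          try ring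
        have hBz : C1 / |z.im| ≤ Bar C1 p q z := by
          rw [Bar_eq, hyy]
          have hp1 : |z.im| ≤ z.re - p := by
            have := neg_abs_le (z.re - t)
            simp only [hp]; linarith
          have hq1 : |z.im| ≤ q - z.re := by
            have := le_abs_self (z.re - t)
            simp only [hq]; linarith
          rcases le_total z.re t with hle | hle
          · have e1 : z.re - p = |z.im| := by
              rw [abs_of_nonpos (by linarith)] at hzf
              simp only [hp]; linarith
            rw [e1, hhalf]
            have : C1 / |z.im| = 2 * C1 * (1 / (2 * |z.im|) + 0) := by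
              field_simp
              try ring
            rw [this]
            apply mul_le_mul_of_nonneg_left _ (by positivity)
            apply add_le_add le_rfl
            apply div_nonneg (by linarith) (by positivity)
          · have e1 : q - z.re = |z.im| := by
              rw [abs_of_nonneg (by linarith)] at hzf
              simp only [hq]; linarith
            rw [e1, hhalf]
            have : C1 / |z.im| = 2 * C1 * (0 + 1 / (2 * |z.im|)) := by
              field_simp
              try ring
            rw [this]
            apply mul_le_mul_of_nonneg_left _ (by positivity)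
            apply add_le_add _ le_rfl
            apply div_nonneg (by linarith) (by positivity)
        have hfz : U z - Bar C1 p q z < ε := by linarith
        have : ∀ᶠ w in 𝓝 z, U w - Bar C1 p q w < ε :=
          (hcont.continuousAt.sub (hBc z hnp hnq)).eventually_lt continuousAt_const hfz
        exact this.filter_mono nhdsWithin_le_nhds
    · -- membership
      show |z0.re - t| + |z0.im| < a
      simp only [ht, sub_self, abs_zero, zero_add]
      exact hz0
  -- Step 3
  refine ⟨4 * C1 / a + C, by positivity, ?_⟩
  intro z
  have h4 : 0 ≤ 4 * C1 / a := by positivity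
  rcases lt_or_ge |z.im| a with h | h
  · have := step2 z h
    have := abs_nonneg z.im
    linarith
  · rcases le_total 0 z.im with h0 | h0
    · rw [abs_of_nonneg h0] at h ⊢
      have := hC z h
      linarith
    · rw [abs_of_nonpos h0] at h ⊢
      have := hC ((starRingEnd ℂ) z) (by rw [Complex.conj_im]; exact h)
      rw [hsymm, Complex.conj_im] at this
      linarith

end J687

alias bounded_all := J687.bounded_all

end LE
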