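import Mathlib
import Pool.Agent.Helper714.LE.Defs
import Pool.Agent.Helper714.LE.J685
import Pool.Agent.Helper714.LE.J686
import Pool.Agent.Helper714.LE.J687

open Set MeasureTheory Filter Topology Metric Complex InnerProductSpace

namespace LE

theorem subMeanAt_of_harmonicAt {U : ℂ → ℝ} {z : ℂ} (h : HarmonicAt U z) : SubMeanAt U z := by
  obtain ⟨r, hr, hr1⟩ := Metric.mem_nhds_iff.1 h.eventually
  refine ⟨r, hr, fun s hs0 hs1 => ?_⟩
  have : HarmonicOnNhd U (closedBall z |s|) := by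
    intro w hw
    apply hr1
    rw [abs_of_pos hs0] at hw
    exact closedBall_subset_ball hs1 hw
  rw [this.circleAverage_eq]

theorem not_mem_of_im {E : Set ℝ} {z : ℂ} (h : z.im ≠ 0) : z ∉ (fun x : ℝ => (x : ℂ)) '' E := by
  rintro ⟨x, _, rfl⟩
  simp at h

theorem apriori {E : Set ℝ} {U : ℂ → ℝ} {δ : ℝ} (hE : IsClosed E) (hδ : 0 < δ)
    (hdense : ∀ x : ℝ, ENNReal.ofReal δ ≤ volume (E ∩ Icc x (x + 1)))
    (hcont : Continuous U) (hzero : ∀ x ∈ E, U (x : ℂ) = 0)
    (hpos : ∀ z : ℂ, z ∉ (fun x : ℝ => (x : ℂ)) '' E → 0 < U z)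
    (hharm : ∀ z : ℂ, z ∉ (fun x : ℝ => (x : ℂ)) '' E → HarmonicAt U z)
    (hsymm : ∀ z, U ((starRingEnd ℂ) z) = U z)
    (hlim : Tendsto (fun y : ℝ => U ((y : ℂ) * I) / y) atTop (𝓝 1)) :
    ∃ M : ℝ, 0 ≤ M ∧ ∀ z : ℂ, U z ≤ |z.im| + M := by
  have hnn : ∀ z, 0 ≤ U z := by
    intro z
    by_cases hz : z ∈ (fun x : ℝ => (x : ℂ)) '' E
    · obtain ⟨x, hx, rfl⟩ := hz
      exact (hzero x hx).ge
    · exact (hpos z hz).le
  have hsub : ∀ z, SubMeanAt U z := by
    intro z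
    by_cases hz : z ∈ (fun x : ℝ => (x : ℂ)) '' E
    · obtain ⟨x, hx, rfl⟩ := hz
      refine ⟨1, one_pos, fun r _ _ => ?_⟩
      simp only [hzero x hx]
      exact Real.circleAverage_nonneg_of_nonneg (fun w _ => hnn w)
    · exact subMeanAt_of_harmonicAt (hharm z hz)
  have hhi : ∀ z : ℂ, 0 < z.im → HarmonicAt U z := fun z hz => hharm z (not_mem_of_im hz.ne')
  have hge : ∀ z : ℂ, 0 ≤ z.im → z.im ≤ U z := by
    intro z hz
    rcases hz.eq_or_lt with h | h
    · rw [← h]; exact hnn z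
    · have h1 : ∀ y : ℝ, 0 < y → U ((y : ℂ) * I) / y * z.im ≤ (1 + ‖z‖ ^ 2 / y ^ 2) * U z := by
        intro y hy
        have := harnackA hcont.continuousOn hhi (fun w _ => hnn w) z h y hy
        have h2 : (y ^ 2 + ‖z‖ ^ 2) * U z = (1 + ‖z‖ ^ 2 / y ^ 2) * U z * y ^ 2 := by
          field_simp
        have h3 : U ((y : ℂ) * I) * z.im * y = (U ((y : ℂ) * I) / y * z.im) * y ^ 2 := by
          field_simp
        rw [h2, h3] at this
        exact le_of_mul_le_mul_right this (by positivity)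
      have h2 : Tendsto (fun y : ℝ => U ((y : ℂ) * I) / y * z.im) atTop (𝓝 (1 * z.im)) :=
        hlim.mul_const _
      have h3 : Tendsto (fun y : ℝ => (1 + ‖z‖ ^ 2 / y ^ 2) * U z) atTop (𝓝 ((1 + 0) * U z)) := by
        apply Tendsto.mul_const
        apply Tendsto.const_add
        exact tendsto_const_nhds.div_atTop (tendsto_pow_atTop (by norm_num))
      have h4 := le_of_tendsto_of_tendsto h2 h3 (by
        filter_upwards [eventually_gt_atTop 0] with y hy using h1 y hy)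
      simpa using h4
  -- kappa
  have hvol : ∀ t : ℝ, δ ≤ (volume (E ∩ Icc (t - 1 / 2) (t + 1 / 2))).toReal := by
    intro t
    have h1 := hdense (t - 1 / 2)
    have h2 : t - 1 / 2 + 1 = t + 1 / 2 := by ring
    rw [h2] at h1
    have h3 : volume (E ∩ Icc (t - 1 / 2) (t + 1 / 2)) ≠ ⊤ := by
      apply ne_top_of_le_ne_top _ (measure_mono inter_subset_right)
      rw [Real.volume_Icc]; exact ENNReal.ofReal_ne_top
    exact (ENNReal.ofReal_le_iff_le_toReal h3).1 h1
  have hδ1 : δ ≤ 1 := by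
    have h1 := hdense 0
    have h2 : volume (E ∩ Icc (0 : ℝ) (0 + 1)) ≤ ENNReal.ofReal 1 := by
      refine (measure_mono inter_subset_right).trans ?_
      rw [Real.volume_Icc]; simp
    exact (ENNReal.ofReal_le_ofReal_iff one_pos.le).1 (h1.trans h2)
  have hlog : 0 < Real.log 2 := Real.log_pos (by norm_num)
  set κ : ℝ := 1 - δ * Real.log 2 / (2 * (1 + Real.log 2)) with hκ
  have hκ1 : κ < 1 := by
    have : 0 < δ * Real.log 2 / (2 * (1 + Real.log 2)) := by positivity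
    linarith
  have hκ0 : 0 ≤ κ := by
    have : δ * Real.log 2 / (2 * (1 + Real.log 2)) ≤ 1 := by
      rw [div_le_one (by positivity)]
      nlinarith
    linarith
  have hA : ∀ t : ℝ, U (t : ℂ) ≤ κ * Real.circleAverage U (t : ℂ) (3 / 2) :=
    fun t => lemmaA hE hδ hcont hzero hnn hharm t (hvol t)
  obtain ⟨a, C, ha, hC⟩ := bounded_high hcont hhi hsymm hge hlim hκ0 hκ1 hA
  exact bounded_all hcont hhi hsub hsymm hge ha hC

end LE
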