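import Mathlib
import Pool.Agent.Helper714.LE.Defs

open Set MeasureTheory Filter Topology Metric Complex InnerProductSpace

namespace LE

theorem cen_harmonic {V : ℂ → ℝ} {r : ℝ} (hr : 0 < r) (hV : HarmonicOnNhd V (ball 0 r)) :
    HarmonicOnNhd (fun w : ℂ => cen V w.re w.im) (ball 0 r) := by
  obtain ⟨A, hA, hAV⟩ := hV.exists_analyticOnNhd_ball_re_eq
  obtain ⟨B, hB⟩ := hA.differentiableOn.isExactOn_ball
  have hBd : DifferentiableOn ℂ B (ball 0 r) := fun z hz =>
    (hB z hz).differentiableAt.differentiableWithinAt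
  have hmem : ∀ w ∈ ball (0 : ℂ) r, -(starRingEnd ℂ) w ∈ ball (0 : ℂ) r := by
    intro w hw
    simpa using hw
  have hseg : ∀ w ∈ ball (0 : ℂ) r, ∀ s ∈ uIcc (-w.re) w.re,
      ((s : ℂ) + (w.im : ℂ) * I) ∈ ball (0 : ℂ) r := by
    intro w hw s hs
    have h1 : |s| ≤ |w.re| := by
      rcases le_total 0 w.re with h | h
      · rw [uIcc_of_le (by linarith)] at hs
        rw [abs_of_nonneg h, abs_le]
        exact hs
      · rw [uIcc_of_ge (by linarith)] at hs
        rw [abs_of_nonpos h, abs_le]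
        constructor <;> [linarith [hs.1]; linarith [hs.2]]
    have h2 : ‖w‖ < r := by simpa using hw
    have h3 : ‖(s : ℂ) + (w.im : ℂ) * I‖ ≤ ‖w‖ := by
      rw [Complex.norm_eq_sqrt_sq_add_sq, Complex.norm_eq_sqrt_sq_add_sq]
      apply Real.sqrt_le_sqrt
      have : s ^ 2 ≤ w.re ^ 2 := sq_le_sq.2 h1
      simpa using this
    simpa using lt_of_le_of_lt h3 h2
  have key : ∀ w ∈ ball (0 : ℂ) r,
      cen V w.re w.im = (B w).re - (B (-(starRingEnd ℂ) w)).re := by
    intro w hw
    have hder : ∀ s ∈ uIcc (-w.re) w.re,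
        HasDerivAt (fun s : ℝ => B ((s : ℂ) + (w.im : ℂ) * I)) (A ((s : ℂ) + (w.im : ℂ) * I)) s := by
      intro s hs
      have h1 := hB _ (hseg w hw s hs)
      have h2 : HasDerivAt (fun s : ℝ => (s : ℂ) + (w.im : ℂ) * I) 1 s :=
        (Complex.ofRealCLM.hasDerivAt (x := s)).add_const _
      have h3 := HasDerivAt.comp_of_eq s h1 h2 rfl
      simpa [Function.comp_def] using h3
    have hcont : ContinuousOn (fun s : ℝ => A ((s : ℂ) + (w.im : ℂ) * I)) (uIcc (-w.re) w.re) := by
      apply hA.continuousOn.comp (by fun_prop)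
      intro s hs
      exact hseg w hw s hs
    have hint : IntervalIntegrable (fun s : ℝ => A ((s : ℂ) + (w.im : ℂ) * I)) volume
        (-w.re) w.re := hcont.intervalIntegrable
    have hftc := intervalIntegral.integral_eq_sub_of_hasDerivAt hder hint
    have h1 : cen V w.re w.im = ∫ s in (-w.re)..w.re, (A ((s : ℂ) + (w.im : ℂ) * I)).re := by
      unfold cen
      apply intervalIntegral.integral_congr
      intro s hs
      exact (hAV (hseg w hw s hs)).symm
    have h2 : ∫ s in (-w.re)..w.re, (A ((s : ℂ) + (w.im : ℂ) * I)).re =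
        (∫ s in (-w.re)..w.re, A ((s : ℂ) + (w.im : ℂ) * I)).re := by
      have := Complex.reCLM.intervalIntegral_comp_comm hint
      simpa using this
    rw [h1, h2, hftc, Complex.sub_re]
    congr 3
    · exact Complex.re_add_im w
    · apply Complex.ext <;> simp
  intro w0 hw0
  have hev : (fun w : ℂ => cen V w.re w.im) =ᶠ[𝓝 w0]
      fun w => (B w).re - (B (-(starRingEnd ℂ) w)).re := by
    filter_upwards [isOpen_ball.mem_nhds hw0] with w hw using key w hw
  rw [harmonicAt_congr_nhds hev]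
  have h1 : HarmonicAt (fun w => (B w).re) w0 :=
    (hBd.analyticAt (isOpen_ball.mem_nhds hw0)).harmonicAt_re
  have h2 : AnalyticAt ℂ (fun w => (starRingEnd ℂ) (B (-(starRingEnd ℂ) w))) w0 := by
    apply DifferentiableOn.analyticAt (s := ball 0 r) _ (isOpen_ball.mem_nhds hw0)
    intro w hw
    have h3 : HasDerivAt (fun z => B (-z)) (-(A (-(starRingEnd ℂ) w))) ((starRingEnd ℂ) w) := by
      have h4 := hB _ (hmem w hw)
      have h5 := HasDerivAt.comp ((starRingEnd ℂ) w) h4 (hasDerivAt_neg ((starRingEnd ℂ) w))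
      simpa [Function.comp_def] using h5
    have h6 := h3.conj_conj
    rw [Complex.conj_conj] at h6
    exact h6.differentiableAt.differentiableWithinAt
  have h3 : HarmonicAt (fun w => (B (-(starRingEnd ℂ) w)).re) w0 := by
    have := h2.harmonicAt_re
    simpa using this
  exact h1.sub h3

theorem identity_upper {U V : ℂ → ℝ} (hU : ∀ z : ℂ, 0 < z.im → HarmonicAt U z)
    (hV : ∀ z : ℂ, 0 < z.im → HarmonicAt V z) {z0 : ℂ} (hz0 : 0 < z0.im)
    (h : U =ᶠ[𝓝 z0] V) : ∀ z : ℂ, 0 < z.im → U z = V z := by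
  have h1 : AnalyticOnNhd ℝ U {z : ℂ | 0 < z.im} := fun z hz => HarmonicAt.analyticAt (hU z hz)
  have h2 : AnalyticOnNhd ℝ V {z : ℂ | 0 < z.im} := fun z hz => HarmonicAt.analyticAt (hV z hz)
  have h3 : IsPreconnected {z : ℂ | 0 < z.im} := (convex_halfSpace_im_gt 0).isPreconnected
  exact fun z hz => h1.eqOn_of_preconnected_of_eventuallyEq h2 h3 hz0 h hz

end LE
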