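import Mathlib
import Pool.Agent.Helper714.LE.Defs

open Set MeasureTheory Filter Topology Metric Complex InnerProductSpace

namespace LE

namespace J774

lemma gr_S_ge_one (ζ : ℂ) : 1 ≤ (‖ζ + 1‖ + ‖ζ - 1‖) / 2 := by
  have h := norm_sub_le (ζ + 1) (ζ - 1)
  have h2 : (ζ + 1) - (ζ - 1) = 2 := by ring
  rw [h2] at h
  have h3 : ‖(2 : ℂ)‖ = 2 := by simp
  linarith

lemma gr_S_ge_norm (ζ : ℂ) : ‖ζ‖ ≤ (‖ζ + 1‖ + ‖ζ - 1‖) / 2 := by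
  have h := norm_add_le (ζ + 1) (ζ - 1)
  have h2 : (ζ + 1) + (ζ - 1) = 2 * ζ := by ring
  rw [h2, norm_mul] at h
  have h3 : ‖(2 : ℂ)‖ = 2 := by simp
  rw [h3] at h
  linarith

lemma gr_arg_ge (ζ : ℂ) : 1 ≤ (‖ζ + 1‖ + ‖ζ - 1‖) / 2 + Real.sqrt (((‖ζ + 1‖ + ‖ζ - 1‖) / 2) ^ 2 - 1) := by
  have := gr_S_ge_one ζ
  have := Real.sqrt_nonneg (((‖ζ + 1‖ + ‖ζ - 1‖) / 2) ^ 2 - 1)
  linarith

/-- TARGETS: properties of `gr`. -/
theorem gr_continuous : Continuous gr := by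
  unfold gr
  apply Continuous.log
  · fun_prop
  · intro ζ
    have := gr_arg_ge ζ
    linarith

theorem gr_nonneg (ζ : ℂ) : 0 ≤ gr ζ := Real.log_nonneg (gr_arg_ge ζ)

theorem gr_real (x : ℝ) (hx : 1 ≤ x) : gr (x : ℂ) = Real.log (x + Real.sqrt (x ^ 2 - 1)) := by
  unfold gr
  have h1 : ‖(x : ℂ) + 1‖ = x + 1 := by
    have : (x : ℂ) + 1 = ((x + 1 : ℝ) : ℂ) := by push_cast; ring
    rw [this, Complex.norm_real, Real.norm_eq_abs, abs_of_nonneg (by linarith)]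
  have h2 : ‖(x : ℂ) - 1‖ = x - 1 := by
    have : (x : ℂ) - 1 = ((x - 1 : ℝ) : ℂ) := by push_cast; ring
    rw [this, Complex.norm_real, Real.norm_eq_abs, abs_of_nonneg (by linarith)]
  rw [h1, h2]
  have h3 : (x + 1 + (x - 1)) / 2 = x := by ring
  rw [h3]

theorem gr_eq_zero_iff (ζ : ℂ) : gr ζ = 0 ↔ ∃ x : ℝ, |x| ≤ 1 ∧ ζ = (x : ℂ) := by
  constructor
  · intro h
    have h1 := gr_arg_ge ζ
    have h2 : (‖ζ + 1‖ + ‖ζ - 1‖) / 2 + Real.sqrt (((‖ζ + 1‖ + ‖ζ - 1‖) / 2) ^ 2 - 1) ≤ 1 := by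
      by_contra hcon
      push Not at hcon
      have := Real.log_pos hcon
      unfold gr at h
      linarith
    have h3 : (‖ζ + 1‖ + ‖ζ - 1‖) ≤ 2 := by
      have := Real.sqrt_nonneg (((‖ζ + 1‖ + ‖ζ - 1‖) / 2) ^ 2 - 1)
      linarith
    have h4 : |ζ.re + 1| ≤ ‖ζ + 1‖ := by
      have := Complex.abs_re_le_norm (ζ + 1)
      simpa using this
    have h5 : |ζ.re - 1| ≤ ‖ζ - 1‖ := by
      have := Complex.abs_re_le_norm (ζ - 1)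
      simpa using this
    have h6 : ζ.re + 1 ≤ |ζ.re + 1| := le_abs_self _
    have h7 : -(ζ.re + 1) ≤ |ζ.re + 1| := neg_le_abs _
    have h8 : ζ.re - 1 ≤ |ζ.re - 1| := le_abs_self _
    have h9 : -(ζ.re - 1) ≤ |ζ.re - 1| := neg_le_abs _
    have him : ζ.im = 0 := by
      by_contra hne
      have h10 : |ζ.re + 1| < ‖ζ + 1‖ := by
        rw [← Real.sqrt_sq_eq_abs, Complex.norm_def]
        apply Real.sqrt_lt_sqrt (sq_nonneg _)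
        rw [Complex.normSq_apply]
        simp only [Complex.add_re, Complex.one_re, Complex.add_im, Complex.one_im, add_zero]
        have := mul_self_pos.2 hne
        nlinarith
      linarith
    refine ⟨ζ.re, ?_, ?_⟩
    · rw [abs_le]
      constructor <;> linarith
    · apply Complex.ext <;> simp [him]
  · rintro ⟨x, hx, rfl⟩
    obtain ⟨hx1, hx2⟩ := abs_le.1 hx
    have h1 : ‖(x : ℂ) + 1‖ = x + 1 := by
      have : (x : ℂ) + 1 = ((x + 1 : ℝ) : ℂ) := by push_cast; ring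
      rw [this, Complex.norm_real, Real.norm_eq_abs, abs_of_nonneg (by linarith)]
    have h2 : ‖(x : ℂ) - 1‖ = 1 - x := by
      have : (x : ℂ) - 1 = ((x - 1 : ℝ) : ℂ) := by push_cast; ring
      rw [this, Complex.norm_real, Real.norm_eq_abs, abs_of_nonpos (by linarith)]
      ring
    unfold gr
    rw [h1, h2]
    have h3 : (x + 1 + (1 - x)) / 2 = 1 := by ring
    rw [h3]
    simp

theorem gr_conj (ζ : ℂ) : gr ((starRingEnd ℂ) ζ) = gr ζ := by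
  unfold gr
  have h1 : ‖(starRingEnd ℂ) ζ + 1‖ = ‖ζ + 1‖ := by
    rw [← Complex.norm_conj (ζ + 1)]; simp
  have h2 : ‖(starRingEnd ℂ) ζ - 1‖ = ‖ζ - 1‖ := by
    rw [← Complex.norm_conj (ζ - 1)]; simp
  rw [h1, h2]

theorem gr_neg (ζ : ℂ) : gr (-ζ) = gr ζ := by
  unfold gr
  have h1 : ‖-ζ + 1‖ = ‖ζ - 1‖ := by
    rw [← norm_neg (ζ - 1)]; congr 1; ring
  have h2 : ‖-ζ - 1‖ = ‖ζ + 1‖ := by
    rw [← norm_neg (ζ + 1)]; congr 1; ring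
  rw [h1, h2, add_comm ‖ζ - 1‖]

theorem norm_le_exp_gr (ζ : ℂ) : ‖ζ‖ ≤ Real.exp (gr ζ) := by
  unfold gr
  have h1 := gr_arg_ge ζ
  rw [Real.exp_log (by linarith)]
  have h2 := gr_S_ge_norm ζ
  have := Real.sqrt_nonneg (((‖ζ + 1‖ + ‖ζ - 1‖) / 2) ^ 2 - 1)
  linarith

theorem gr_I (t : ℝ) (ht : 0 ≤ t) : gr ((t : ℂ) * I) = Real.log (t + Real.sqrt (1 + t ^ 2)) := by
  have h1 : ‖(t : ℂ) * I + 1‖ = Real.sqrt (1 + t ^ 2) := by
    rw [Complex.norm_def, Complex.normSq_apply]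
    congr 1
    simp
    ring
  have h2 : ‖(t : ℂ) * I - 1‖ = Real.sqrt (1 + t ^ 2) := by
    rw [Complex.norm_def, Complex.normSq_apply]
    congr 1
    simp
    ring
  unfold gr
  rw [h1, h2]
  have h3 : (Real.sqrt (1 + t ^ 2) + Real.sqrt (1 + t ^ 2)) / 2 = Real.sqrt (1 + t ^ 2) := by ring
  rw [h3, Real.sq_sqrt (by positivity)]
  have h4 : 1 + t ^ 2 - 1 = t ^ 2 := by ring
  rw [h4, Real.sqrt_sq ht, add_comm]

lemma gr_key {w : ℂ} (hw : w ≠ 0) (hw1 : 1 ≤ ‖w‖) : gr ((w + w⁻¹) / 2) = Real.log ‖w‖ := by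
  have hr : 0 < ‖w‖ := norm_pos_iff.2 hw
  have e1 : (w + w⁻¹) / 2 + 1 = (w + 1) ^ 2 / (2 * w) := by
    field_simp
    ring
  have e2 : (w + w⁻¹) / 2 - 1 = (w - 1) ^ 2 / (2 * w) := by
    field_simp
    ring
  have h2 : ‖(2 : ℂ)‖ = 2 := by simp
  have n1 : ‖(w + w⁻¹) / 2 + 1‖ = ‖w + 1‖ ^ 2 / (2 * ‖w‖) := by
    rw [e1, norm_div, norm_pow, norm_mul, h2]
  have n2 : ‖(w + w⁻¹) / 2 - 1‖ = ‖w - 1‖ ^ 2 / (2 * ‖w‖) := by
    rw [e2, norm_div, norm_pow, norm_mul, h2]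
  have par : ‖w + 1‖ ^ 2 + ‖w - 1‖ ^ 2 = 2 * ‖w‖ ^ 2 + 2 := by
    rw [← Complex.normSq_eq_norm_sq, ← Complex.normSq_eq_norm_sq, ← Complex.normSq_eq_norm_sq]
    simp only [Complex.normSq_apply, Complex.add_re, Complex.add_im, Complex.sub_re, Complex.sub_im,
      Complex.one_re, Complex.one_im]
    ring
  have hS : (‖(w + w⁻¹) / 2 + 1‖ + ‖(w + w⁻¹) / 2 - 1‖) / 2 = (‖w‖ + ‖w‖⁻¹) / 2 := by
    rw [n1, n2, ← add_div, par]
    field_simp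
  unfold gr
  rw [hS]
  have h3 : ((‖w‖ + ‖w‖⁻¹) / 2) ^ 2 - 1 = ((‖w‖ - ‖w‖⁻¹) / 2) ^ 2 := by
    field_simp
    ring
  have h4 : 0 ≤ (‖w‖ - ‖w‖⁻¹) / 2 := by
    have : ‖w‖⁻¹ ≤ 1 := inv_le_one_of_one_le₀ hw1
    linarith
  rw [h3, Real.sqrt_sq h4]
  congr 1
  ring

lemma gr_harmonic_of {v : ℂ → ℂ} {ζ0 : ℂ} (hv : AnalyticAt ℂ v ζ0) (h1 : 1 < ‖v ζ0‖)
    (h2 : ∀ᶠ ζ in 𝓝 ζ0, (v ζ + (v ζ)⁻¹) / 2 = ζ) : HarmonicAt gr ζ0 := by
  have hne : v ζ0 ≠ 0 := by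
    intro h
    rw [h, norm_zero] at h1
    linarith
  have h3 : HarmonicAt (fun ζ => Real.log ‖v ζ‖) ζ0 := hv.harmonicAt_log_norm hne
  refine (harmonicAt_congr_nhds ?_).2 h3
  have h4 : ∀ᶠ ζ in 𝓝 ζ0, 1 < ‖v ζ‖ := hv.continuousAt.norm.eventually_const_lt h1
  filter_upwards [h2, h4] with ζ hz hz1
  have hzne : v ζ ≠ 0 := by
    intro h
    rw [h, norm_zero] at hz1
    linarith
  have h5 := gr_key hzne hz1.le
  rw [hz] at h5
  exact h5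

theorem gr_harmonic (ζ : ℂ) (h : ¬ ∃ x : ℝ, |x| ≤ 1 ∧ ζ = (x : ℂ)) : HarmonicAt gr ζ := by
  have hζ : ζ ≠ 0 := by
    intro h0
    exact h ⟨0, by simp, by simpa using h0⟩
  have hslit : 1 - ζ⁻¹ ^ 2 ∈ slitPlane := by
    by_contra hcon
    rw [Complex.mem_slitPlane_iff, not_or] at hcon
    obtain ⟨hre, him⟩ := hcon
    push Not at hre him
    set r : ℝ := (1 - ζ⁻¹ ^ 2).re with hr
    have hu : 1 - ζ⁻¹ ^ 2 = (r : ℂ) := Complex.ext (by rw [Complex.ofReal_re]) (by rw [him, Complex.ofReal_im])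
    have h1 : ζ⁻¹ ^ 2 = ((1 - r : ℝ) : ℂ) := by
      push_cast
      rw [← hu]; ring
    have hr1 : 0 < 1 - r := by linarith
    have h2 : ζ ^ 2 = (((Real.sqrt (1 - r))⁻¹ : ℝ) : ℂ) ^ 2 := by
      have h3 : ζ ^ 2 = (ζ⁻¹ ^ 2)⁻¹ := by rw [inv_pow, inv_inv]
      rw [h3, h1, ← Complex.ofReal_pow, inv_pow, Real.sq_sqrt hr1.le, Complex.ofReal_inv]
    have h4 : |(Real.sqrt (1 - r))⁻¹| ≤ 1 := by
      rw [abs_of_nonneg (inv_nonneg.2 (Real.sqrt_nonneg _))]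
      apply inv_le_one_of_one_le₀
      rw [Real.one_le_sqrt]
      linarith
    rcases sq_eq_sq_iff_eq_or_eq_neg.1 h2 with h5 | h5
    · exact h ⟨_, h4, h5⟩
    · refine h ⟨-(Real.sqrt (1 - r))⁻¹, by rwa [abs_neg], ?_⟩
      rw [h5, Complex.ofReal_neg]
  let w : ℂ → ℂ := fun z => z * (1 + (1 - z⁻¹ ^ 2) ^ (1 / 2 : ℂ))
  have hwan : AnalyticAt ℂ w ζ := by
    have h1 : AnalyticAt ℂ (fun z : ℂ => z⁻¹) ζ := analyticAt_inv hζ
    have h2 : AnalyticAt ℂ (fun z : ℂ => 1 - z⁻¹ ^ 2) ζ := analyticAt_const.sub (h1.pow 2)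
    have h3 : AnalyticAt ℂ (fun z : ℂ => (1 - z⁻¹ ^ 2) ^ (1 / 2 : ℂ)) ζ :=
      h2.cpow analyticAt_const hslit
    exact analyticAt_id.mul (analyticAt_const.add h3)
  have hquad : ∀ z : ℂ, z ≠ 0 → w z * (2 * z - w z) = 1 := by
    intro z hz
    have h1 : ((1 - z⁻¹ ^ 2) ^ (1 / 2 : ℂ)) ^ 2 = 1 - z⁻¹ ^ 2 := by
      rw [← Complex.cpow_nat_mul]
      norm_num
    show z * (1 + (1 - z⁻¹ ^ 2) ^ (1 / 2 : ℂ)) * (2 * z - z * (1 + (1 - z⁻¹ ^ 2) ^ (1 / 2 : ℂ))) = 1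
    have h2 : z * (1 + (1 - z⁻¹ ^ 2) ^ (1 / 2 : ℂ)) * (2 * z - z * (1 + (1 - z⁻¹ ^ 2) ^ (1 / 2 : ℂ)))
        = z ^ 2 * (1 - ((1 - z⁻¹ ^ 2) ^ (1 / 2 : ℂ)) ^ 2) := by ring
    rw [h2, h1]
    field_simp
    ring
  have hev : ∀ᶠ z in 𝓝 ζ, z ≠ 0 := isOpen_ne.mem_nhds hζ
  have hw0 : w ζ ≠ 0 := by
    intro h0
    have := hquad ζ hζ
    rw [h0, zero_mul] at this
    exact zero_ne_one this
  have hinv : ∀ z : ℂ, z ≠ 0 → (w z)⁻¹ = 2 * z - w z := by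
    intro z hz
    exact inv_eq_of_mul_eq_one_right (hquad z hz)
  rcases lt_trichotomy ‖w ζ‖ 1 with h1 | h1 | h1
  · refine gr_harmonic_of (v := fun z => (w z)⁻¹) (hwan.inv hw0) ?_ ?_
    · rw [norm_inv]
      exact (one_lt_inv₀ (norm_pos_iff.2 hw0)).2 h1
    · filter_upwards [hev] with z hz
      rw [inv_inv, hinv z hz]
      ring
  · exfalso
    apply h
    refine ⟨(w ζ).re, ?_, ?_⟩
    · have := Complex.abs_re_le_norm (w ζ)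
      rwa [h1] at this
    · have h2 : (w ζ)⁻¹ = (starRingEnd ℂ) (w ζ) := by
        rw [Complex.inv_def, Complex.normSq_eq_norm_sq, h1]
        simp
      have h3 : w ζ + (w ζ)⁻¹ = 2 * ζ := by
        rw [hinv ζ hζ]; ring
      rw [h2, Complex.add_conj] at h3
      have h4 : (2 : ℂ) * ζ = 2 * ((w ζ).re : ℂ) := by
        rw [← h3]; push_cast; ring
      exact mul_left_cancel₀ two_ne_zero h4
  · refine gr_harmonic_of hwan h1 ?_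
    filter_upwards [hev] with z hz
    rw [hinv z hz]
    ring

end J774

alias gr_continuous := J774.gr_continuous
alias gr_nonneg := J774.gr_nonneg
alias gr_eq_zero_iff := J774.gr_eq_zero_iff
alias gr_conj := J774.gr_conj
alias gr_neg := J774.gr_neg
alias norm_le_exp_gr := J774.norm_le_exp_gr
alias gr_I := J774.gr_I
alias gr_real := J774.gr_real
alias gr_harmonic := J774.gr_harmonic

end LE
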