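import Mathlib
import Pool.Agent.Helper714.LE.Defs
import Pool.Agent.Helper714.LE.J774

open Set MeasureTheory Filter Topology Metric Complex InnerProductSpace

namespace LE

namespace J784

/-! ### auxiliary lemmas -/

theorem sg_pos {δ : ℝ} (h0 : 0 < δ) (h1 : δ < 1) : 0 < Real.sin (Real.pi * δ / 2) := by
  have hpi := Real.pi_pos
  apply Real.sin_pos_of_pos_of_lt_pi
  · positivity
  · nlinarith

theorem sg_lt {δ : ℝ} (h0 : 0 < δ) (h1 : δ < 1) : Real.sin (Real.pi * δ / 2) < 1 := by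
  have hpi := Real.pi_pos
  have := Real.strictMonoOn_sin (a := Real.pi * δ / 2) (b := Real.pi / 2)
    ⟨by nlinarith, by nlinarith⟩ ⟨by linarith, le_refl _⟩ (by nlinarith)
  rwa [Real.sin_pi_div_two] at this

theorem abs_sin_near (x : ℝ) (n : ℤ) (hn : |x - n| ≤ 1 / 2) :
    |Real.sin (Real.pi * x)| = Real.sin (Real.pi * |x - n|) := by
  have hpi := Real.pi_pos
  have h1 : Real.sin (Real.pi * (x - n)) = (-1) ^ n * Real.sin (Real.pi * x) := by
    rw [← Real.sin_sub_int_mul_pi]
    congr 1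
    ring
  have h2 : |Real.sin (Real.pi * (x - n))| = |Real.sin (Real.pi * x)| := by
    rw [h1, abs_mul, abs_zpow, abs_neg, abs_one, one_zpow, one_mul]
  rw [← h2]
  rcases le_total 0 (x - n) with h | h
  · rw [abs_of_nonneg h] at hn ⊢
    apply abs_of_nonneg
    apply Real.sin_nonneg_of_nonneg_of_le_pi
    · positivity
    · nlinarith
  · rw [abs_of_nonpos h] at hn ⊢
    rw [mul_neg, Real.sin_neg]
    apply abs_of_nonpos
    apply Real.sin_nonpos_of_nonpos_of_neg_pi_le
    · nlinarith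
    · nlinarith

theorem abs_sin_le_iff {δ : ℝ} (h0 : 0 < δ) (h1 : δ < 1) (x : ℝ) :
    |Real.sin (Real.pi * x)| ≤ Real.sin (Real.pi * δ / 2) ↔ x ∈ Et δ 0 := by
  have hpi := Real.pi_pos
  constructor
  · intro h
    have hn : |x - round x| ≤ 1 / 2 := abs_sub_round x
    refine ⟨round x, ?_⟩
    rw [sub_zero]
    rw [abs_sin_near x (round x) hn] at h
    by_contra hcon
    push Not at hcon
    have h2 := Real.strictMonoOn_sin (a := Real.pi * δ / 2) (b := Real.pi * |x - round x|)
      ⟨by nlinarith, by nlinarith⟩ ⟨by nlinarith [abs_nonneg (x - round x)], by nlinarith⟩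
      (by nlinarith)
    linarith
  · rintro ⟨n, hn⟩
    rw [sub_zero] at hn
    rw [abs_sin_near x n (by linarith)]
    apply Real.strictMonoOn_sin.monotoneOn
    · exact ⟨by nlinarith [abs_nonneg (x - n)], by nlinarith⟩
    · exact ⟨by nlinarith, by nlinarith⟩
    · nlinarith

theorem seg_iff {δ : ℝ} (h0 : 0 < δ) (h1 : δ < 1) (z : ℂ) :
    (∃ r : ℝ, |r| ≤ 1 ∧ Complex.sin (Real.pi * z) / (Real.sin (Real.pi * δ / 2) : ℂ) = (r : ℂ)) ↔
      z ∈ (fun x : ℝ => (x : ℂ)) '' Et δ 0 := by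
  have hσ := sg_pos h0 h1
  have hσ1 := sg_lt h0 h1
  set σ := Real.sin (Real.pi * δ / 2) with hσdef
  have hσc : (σ : ℂ) ≠ 0 := by exact_mod_cast hσ.ne'
  constructor
  · rintro ⟨r, hr, hz⟩
    rw [div_eq_iff hσc, Complex.sin_eq] at hz
    have e1 : ((Real.pi : ℂ) * z).re = Real.pi * z.re := by simp
    have e2 : ((Real.pi : ℂ) * z).im = Real.pi * z.im := by simp
    rw [e1, e2] at hz
    have hz' : ((Real.sin (Real.pi * z.re) * Real.cosh (Real.pi * z.im) : ℝ) : ℂ) +
        ((Real.cos (Real.pi * z.re) * Real.sinh (Real.pi * z.im) : ℝ) : ℂ) * I =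
        ((r * σ : ℝ) : ℂ) := by
      push_cast
      push_cast at hz
      exact hz
    have hre := congrArg Complex.re hz'
    have him := congrArg Complex.im hz'
    simp only [Complex.add_re, Complex.mul_re, Complex.ofReal_re, Complex.I_re, Complex.ofReal_im,
      Complex.I_im, mul_zero, mul_one, sub_self, add_zero, Complex.add_im, Complex.mul_im,
      zero_add] at hre him
    have habs : |r * σ| ≤ σ := by
      rw [abs_mul, abs_of_pos hσ]
      nlinarith
    rcases mul_eq_zero.1 him with h | h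
    · exfalso
      have h2 : |Real.sin (Real.pi * z.re)| = 1 := by
        have := Real.sin_sq_add_cos_sq (Real.pi * z.re)
        rw [h] at this
        have h3 : Real.sin (Real.pi * z.re) ^ 2 = 1 := by linarith
        exact (pow_eq_one_iff_of_nonneg (abs_nonneg _) two_ne_zero).1 (by rw [sq_abs]; exact h3)
      have h3 : 1 ≤ |r * σ| := by
        rw [← hre, abs_mul, h2, one_mul]
        exact le_trans (Real.one_le_cosh _) (le_abs_self _)
      linarith
    · rw [Real.sinh_eq_zero] at h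
      have hpi := Real.pi_pos
      have him0 : z.im = 0 := by
        rcases mul_eq_zero.1 h with h | h
        · exact absurd h hpi.ne'
        · exact h
      rw [him0, mul_zero, Real.cosh_zero, mul_one] at hre
      refine ⟨z.re, ?_, ?_⟩
      · rw [← abs_sin_le_iff h0 h1, hre]
        exact habs
      · apply Complex.ext
        · simp
        · simp [him0]
  · rintro ⟨x, hx, rfl⟩
    rw [← abs_sin_le_iff h0 h1] at hx
    refine ⟨Real.sin (Real.pi * x) / σ, ?_, ?_⟩
    · rw [abs_div, abs_of_pos hσ, div_le_one hσ]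
      exact hx
    · push_cast
      rfl

theorem harm_comp {g : ℂ → ℝ} {φ : ℂ → ℂ} {z : ℂ} (hg : HarmonicAt g (φ z))
    (hφ : AnalyticAt ℂ φ z) : HarmonicAt (fun w => g (φ w)) z := by
  obtain ⟨ε, hε, hball⟩ := Metric.eventually_nhds_iff_ball.1 hg.eventually
  obtain ⟨G, hG, hGe⟩ := InnerProductSpace.HarmonicOnNhd.exists_analyticOnNhd_ball_re_eq
    (f := g) (z := φ z) (R := ε) (fun y hy => hball y hy)
  have h1 : AnalyticAt ℂ (fun w => G (φ w)) z :=
    AnalyticAt.fun_comp (hG (φ z) (Metric.mem_ball_self hε)) hφ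
  have h2 := AnalyticAt.harmonicAt_re h1
  refine (harmonicAt_congr_nhds ?_).1 h2
  have h3 : ∀ᶠ w in 𝓝 z, φ w ∈ Metric.ball (φ z) ε :=
    hφ.continuousAt.eventually_mem (Metric.ball_mem_nhds _ hε)
  filter_upwards [h3] with w hw
  exact hGe hw

theorem sinh_ge (t : ℝ) (ht : 0 ≤ t) : (Real.exp t - 1) / 2 ≤ Real.sinh t := by
  rw [Real.sinh_eq]
  have : Real.exp (-t) ≤ 1 := Real.exp_le_one_iff.2 (by linarith)
  linarith

theorem sinh_le_exp (t : ℝ) : Real.sinh t ≤ Real.exp t / 2 := by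
  rw [Real.sinh_eq]
  have : 0 < Real.exp (-t) := Real.exp_pos _
  linarith

/-- TARGETS. -/
theorem UT_continuous {δ : ℝ} (h0 : 0 < δ) (h1 : δ < 1) : Continuous (UT δ) := by
  unfold UT
  exact (gr_continuous.comp ((Complex.continuous_sin.comp
    (continuous_const.mul continuous_id)).div_const _)).div_const _

theorem UT_zero {δ : ℝ} (h0 : 0 < δ) (h1 : δ < 1) : ∀ x ∈ Et δ 0, UT δ (x : ℂ) = 0 := by
  intro x hx
  unfold UT
  rw [(gr_eq_zero_iff _).2 ((seg_iff h0 h1 (x : ℂ)).2 ⟨x, hx, rfl⟩), zero_div]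

theorem UT_pos {δ : ℝ} (h0 : 0 < δ) (h1 : δ < 1) :
    ∀ z : ℂ, z ∉ (fun x : ℝ => (x : ℂ)) '' Et δ 0 → 0 < UT δ z := by
  intro z hz
  unfold UT
  refine div_pos ((gr_nonneg _).lt_of_ne fun h => hz ?_) Real.pi_pos
  exact (seg_iff h0 h1 z).1 ((gr_eq_zero_iff _).1 h.symm)

theorem UT_harmonic {δ : ℝ} (h0 : 0 < δ) (h1 : δ < 1) :
    ∀ z : ℂ, z ∉ (fun x : ℝ => (x : ℂ)) '' Et δ 0 → HarmonicAt (UT δ) z := by
  intro z hz
  have h2 : ¬ ∃ x : ℝ, |x| ≤ 1 ∧
      Complex.sin (Real.pi * z) / (Real.sin (Real.pi * δ / 2) : ℂ) = (x : ℂ) :=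
    fun h => hz ((seg_iff h0 h1 z).1 h)
  have h3 : AnalyticAt ℂ (fun z : ℂ =>
      Complex.sin (Real.pi * z) / (Real.sin (Real.pi * δ / 2) : ℂ)) z := by
    have : Differentiable ℂ (fun z : ℂ =>
        Complex.sin (Real.pi * z) / (Real.sin (Real.pi * δ / 2) : ℂ)) := by fun_prop
    exact this.analyticAt z
  have h4 := (harm_comp (φ := fun z : ℂ =>
      Complex.sin (Real.pi * z) / (Real.sin (Real.pi * δ / 2) : ℂ))
      (gr_harmonic _ h2) h3).const_smul (c := (Real.pi)⁻¹)
  have e : UT δ = (Real.pi)⁻¹ • fun w : ℂ =>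
      gr (Complex.sin (Real.pi * w) / (Real.sin (Real.pi * δ / 2) : ℂ)) := by
    funext w
    unfold UT
    simp only [Pi.smul_apply, smul_eq_mul]
    rw [div_eq_inv_mul]
  rw [e]
  exact h4

theorem UT_conj (δ : ℝ) : ∀ z : ℂ, UT δ ((starRingEnd ℂ) z) = UT δ z := by
  intro z
  unfold UT
  rw [← gr_conj (Complex.sin (Real.pi * z) / (Real.sin (Real.pi * δ / 2) : ℂ))]
  congr 2
  rw [map_div₀, ← Complex.sin_conj, map_mul, Complex.conj_ofReal, Complex.conj_ofReal]

theorem UT_lim {δ : ℝ} (h0 : 0 < δ) (h1 : δ < 1) :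
    Tendsto (fun y : ℝ => UT δ ((y : ℂ) * I) / y) atTop (𝓝 1) := by
  have hσ := sg_pos h0 h1
  have hσ1 := sg_lt h0 h1
  have hpi := Real.pi_pos
  set σ := Real.sin (Real.pi * δ / 2) with hσdef
  have hval : ∀ y : ℝ, 0 ≤ y → UT δ ((y : ℂ) * I) =
      Real.log (Real.sinh (Real.pi * y) / σ + Real.sqrt (1 + (Real.sinh (Real.pi * y) / σ) ^ 2)) /
        Real.pi := by
    intro y hy
    have h2 : 0 ≤ Real.sinh (Real.pi * y) / σ :=
      div_nonneg (Real.sinh_nonneg_iff.2 (by positivity)) hσ.le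
    unfold UT
    rw [← gr_I _ h2, ← hσdef]
    congr 2
    rw [← mul_assoc, Complex.sin_mul_I]
    push_cast
    ring
  set C1 := Real.log (1 / σ + 1) with hC1
  have hup : ∀ y : ℝ, 1 ≤ y → UT δ ((y : ℂ) * I) / y ≤ 1 + C1 / Real.pi / y := by
    intro y hy
    have hy0 : 0 < y := by linarith
    rw [hval y hy0.le]
    set t := Real.sinh (Real.pi * y) / σ with ht
    have ht0 : 0 ≤ t := div_nonneg (Real.sinh_nonneg_iff.2 (by positivity)) hσ.le
    have hs : Real.sqrt (1 + t ^ 2) ≤ 1 + t := by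
      rw [Real.sqrt_le_left (by linarith)]
      nlinarith
    have hE : 1 ≤ Real.exp (Real.pi * y) := Real.one_le_exp (by positivity)
    have h3 : t + Real.sqrt (1 + t ^ 2) ≤ Real.exp (Real.pi * y) * (1 / σ + 1) := by
      have h4 : t ≤ Real.exp (Real.pi * y) / 2 / σ := by
        rw [ht]
        gcongr
        exact sinh_le_exp _
      have h5 : Real.exp (Real.pi * y) / 2 / σ * 2 = Real.exp (Real.pi * y) * (1 / σ) := by
        ring
      nlinarith
    have h6 : Real.log (t + Real.sqrt (1 + t ^ 2)) ≤ Real.pi * y + C1 := by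
      have h7 : 0 < t + Real.sqrt (1 + t ^ 2) := by positivity
      have h8 := Real.log_le_log h7 h3
      rwa [Real.log_mul (Real.exp_pos _).ne' (by positivity), Real.log_exp] at h8
    rw [div_div, div_le_iff₀ (by positivity)]
    have : (1 + C1 / Real.pi / y) * (Real.pi * y) = Real.pi * y + C1 := by
      field_simp
    rw [this]
    exact h6
  have hlow : ∀ y : ℝ, 1 ≤ y → 1 - Real.log 4 / Real.pi / y ≤ UT δ ((y : ℂ) * I) / y := by
    intro y hy
    have hy0 : 0 < y := by linarith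
    rw [hval y hy0.le]
    set t := Real.sinh (Real.pi * y) / σ with ht
    have hsn : 0 ≤ Real.sinh (Real.pi * y) := Real.sinh_nonneg_iff.2 (by positivity)
    have ht0 : 0 ≤ t := div_nonneg hsn hσ.le
    have hE : 2 ≤ Real.exp (Real.pi * y) := by
      have h3 := Real.add_one_le_exp (Real.pi * y)
      have h4 := Real.pi_gt_three
      nlinarith
    have h3 : Real.exp (Real.pi * y) / 4 ≤ t := by
      have h4 : Real.sinh (Real.pi * y) ≤ t := by
        rw [ht, le_div_iff₀ hσ]
        nlinarith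
      have h5 := sinh_ge (Real.pi * y) (by positivity)
      linarith
    have h6 : Real.pi * y - Real.log 4 ≤ Real.log (t + Real.sqrt (1 + t ^ 2)) := by
      have h7 : Real.exp (Real.pi * y) / 4 ≤ t + Real.sqrt (1 + t ^ 2) :=
        le_trans h3 (by linarith [Real.sqrt_nonneg (1 + t ^ 2)])
      have h8 := Real.log_le_log (by positivity) h7
      rwa [Real.log_div (Real.exp_pos _).ne' (by norm_num), Real.log_exp] at h8
    rw [le_div_iff₀ hy0, le_div_iff₀ hpi]
    have : (1 - Real.log 4 / Real.pi / y) * y * Real.pi = Real.pi * y - Real.log 4 := by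
      field_simp
    rw [this]
    exact h6
  have l1 : Tendsto (fun y : ℝ => 1 + C1 / Real.pi / y) atTop (𝓝 1) := by
    have := (tendsto_const_nhds (x := C1 / Real.pi) (f := (atTop : Filter ℝ))).div_atTop tendsto_id
    simpa using this.const_add 1
  have l2 : Tendsto (fun y : ℝ => 1 - Real.log 4 / Real.pi / y) atTop (𝓝 1) := by
    have := (tendsto_const_nhds (x := Real.log 4 / Real.pi)
      (f := (atTop : Filter ℝ))).div_atTop tendsto_id
    simpa using this.const_sub 1
  exact tendsto_of_tendsto_of_tendsto_of_le_of_le' l2 l1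
    (by filter_upwards [eventually_ge_atTop (1 : ℝ)] with y hy using hlow y hy)
    (by filter_upwards [eventually_ge_atTop (1 : ℝ)] with y hy using hup y hy)

theorem UT_add_one (δ : ℝ) : ∀ z : ℂ, UT δ (z + 1) = UT δ z := by
  intro z
  unfold UT
  rw [mul_add, mul_one, Complex.sin_add_pi, neg_div, gr_neg]

theorem UT_neg (δ : ℝ) : ∀ z : ℂ, UT δ (-z) = UT δ z := by
  intro z
  unfold UT
  rw [mul_neg, Complex.sin_neg, neg_div, gr_neg]

theorem UT_half {δ : ℝ} (h0 : 0 < δ) (h1 : δ < 1) :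
    UT δ (1 / 2) = 1 / Real.pi * Real.log (Real.cot (Real.pi * δ / 4)) := by
  have hσ := sg_pos h0 h1
  have hσ1 := sg_lt h0 h1
  have hpi := Real.pi_pos
  unfold UT
  have e1 : Complex.sin (Real.pi * (1 / 2)) = 1 := by
    rw [mul_one_div, Complex.sin_pi_div_two]
  have e2 : (1 : ℂ) / (Real.sin (Real.pi * δ / 2) : ℂ) =
      ((1 / Real.sin (Real.pi * δ / 2) : ℝ) : ℂ) := by
    rw [Complex.ofReal_div, Complex.ofReal_one]
  rw [e1, e2, gr_real _ (by rw [le_div_iff₀ hσ]; linarith)]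
  rw [one_div_mul_eq_div]
  congr 2
  set a := Real.pi * δ / 4 with ha
  have ha2 : Real.pi * δ / 2 = 2 * a := by rw [ha]; ring
  have ha0 : 0 < a := by positivity
  have ha1 : a < Real.pi / 4 := by rw [ha]; nlinarith
  have hsin : 0 < Real.sin a := Real.sin_pos_of_pos_of_lt_pi ha0 (by linarith)
  have hcos : 0 < Real.cos a := Real.cos_pos_of_mem_Ioo ⟨by linarith, by linarith⟩
  have hcos2 : 0 < Real.cos (2 * a) := Real.cos_pos_of_mem_Ioo ⟨by linarith, by linarith⟩
  rw [ha2] at hσ ⊢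
  have e3 : Real.sqrt ((1 / Real.sin (2 * a)) ^ 2 - 1) = Real.cos (2 * a) / Real.sin (2 * a) := by
    rw [Real.sqrt_eq_iff_mul_self_eq_of_pos (by positivity)]
    have := Real.sin_sq_add_cos_sq (2 * a)
    field_simp
    nlinarith
  rw [e3, Real.cot_eq_cos_div_sin, Real.cos_two_mul, Real.sin_two_mul]
  field_simp
  ring

theorem UT_lower {δ : ℝ} (h0 : 0 < δ) (h1 : δ < 1) :
    ∃ C : ℝ, ∀ z : ℂ, |z.im| - C ≤ UT δ z := by
  have hσ := sg_pos h0 h1
  have hσ1 := sg_lt h0 h1
  have hpi := Real.pi_pos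
  refine ⟨1 + Real.log 4, fun z => ?_⟩
  have hlog4 : 0 ≤ Real.log 4 := Real.log_nonneg (by norm_num)
  rcases le_total |z.im| 1 with hy | hy
  · have h2 : 0 ≤ UT δ z := div_nonneg (gr_nonneg _) hpi.le
    linarith
  · set ζ := Complex.sin (Real.pi * z) / (Real.sin (Real.pi * δ / 2) : ℂ) with hζ
    have hnorm : Real.sinh (Real.pi * |z.im|) ≤ ‖Complex.sin (Real.pi * z)‖ := by
      have e1 : ((Real.pi : ℂ) * z).re = Real.pi * z.re := by simp
      have e2 : ((Real.pi : ℂ) * z).im = Real.pi * z.im := by simp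
      have hsn : 0 ≤ Real.sinh (Real.pi * |z.im|) := Real.sinh_nonneg_iff.2 (by positivity)
      refine (pow_le_pow_iff_left₀ hsn (norm_nonneg _) two_ne_zero).1 ?_
      have h3 : Complex.sin (Real.pi * z) =
          ((Real.sin (Real.pi * z.re) * Real.cosh (Real.pi * z.im) : ℝ) : ℂ) +
          ((Real.cos (Real.pi * z.re) * Real.sinh (Real.pi * z.im) : ℝ) : ℂ) * I := by
        rw [Complex.sin_eq, e1, e2]
        push_cast
        ring
      rw [h3, ← Complex.normSq_eq_norm_sq, Complex.normSq_add_mul_I]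
      have h4 : Real.sinh (Real.pi * |z.im|) ^ 2 = Real.sinh (Real.pi * z.im) ^ 2 := by
        rcases abs_choice z.im with h | h
        · rw [h]
        · rw [h, mul_neg, Real.sinh_neg, neg_sq]
      rw [h4]
      have h5 := Real.sin_sq_add_cos_sq (Real.pi * z.re)
      have h6 := Real.cosh_sq (Real.pi * z.im)
      have h7 : (Real.sin (Real.pi * z.re) * Real.cosh (Real.pi * z.im)) ^ 2 +
          (Real.cos (Real.pi * z.re) * Real.sinh (Real.pi * z.im)) ^ 2 =
          Real.sinh (Real.pi * z.im) ^ 2 + Real.sin (Real.pi * z.re) ^ 2 := by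
        have h8 : Real.cos (Real.pi * z.re) ^ 2 = 1 - Real.sin (Real.pi * z.re) ^ 2 := by linarith
        rw [mul_pow, mul_pow, h6, h8]
        ring
      rw [h7]
      nlinarith [sq_nonneg (Real.sin (Real.pi * z.re))]
    have hζn : Real.sinh (Real.pi * |z.im|) ≤ ‖ζ‖ := by
      rw [hζ, norm_div, Complex.norm_real, Real.norm_of_nonneg hσ.le, le_div_iff₀ hσ]
      have hsn : 0 ≤ Real.sinh (Real.pi * |z.im|) := Real.sinh_nonneg_iff.2 (by positivity)
      nlinarith
    have h2 := le_trans hζn (norm_le_exp_gr ζ)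
    have hE : 2 ≤ Real.exp (Real.pi * |z.im|) := by
      have h3 := Real.add_one_le_exp (Real.pi * |z.im|)
      have h4 := Real.pi_gt_three
      nlinarith
    have h5 := sinh_ge (Real.pi * |z.im|) (by positivity)
    have h6 : Real.exp (Real.pi * |z.im|) / 4 ≤ Real.exp (gr ζ) := by linarith
    have h7 := Real.log_le_log (by positivity) h6
    rw [Real.log_div (Real.exp_pos _).ne' (by norm_num), Real.log_exp, Real.log_exp] at h7
    have h8 : UT δ z = gr ζ / Real.pi := rfl
    rw [h8, le_div_iff₀ hpi]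
    have h9 := Real.pi_gt_three
    nlinarith

end J784

alias UT_continuous := J784.UT_continuous
alias UT_zero := J784.UT_zero
alias UT_pos := J784.UT_pos
alias UT_harmonic := J784.UT_harmonic
alias UT_conj := J784.UT_conj
alias UT_lim := J784.UT_lim
alias UT_add_one := J784.UT_add_one
alias UT_neg := J784.UT_neg
alias UT_half := J784.UT_half
alias UT_lower := J784.UT_lower

end LE
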