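import Mathlib
import Pool.Agent.Helper714.LE.Defs

open Set MeasureTheory Filter Topology Metric Complex InnerProductSpace

namespace LE

namespace J785

/-- TARGET 1 -/
theorem Et_isClosed (δ c : ℝ) : IsClosed (Et δ c) := by
  have hcl : IsClosed (range ((↑) : ℤ → ℝ)) := Int.isClosedEmbedding_coe_real.isClosed_range
  have hne : (range ((↑) : ℤ → ℝ)).Nonempty := range_nonempty _
  have h : Et δ c = {t | infDist (t - c) (range ((↑) : ℤ → ℝ)) ≤ δ / 2} := by
    ext t
    constructor
    · rintro ⟨n, hn⟩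
      refine (infDist_le_dist_of_mem (mem_range_self n)).trans ?_
      rwa [Real.dist_eq]
    · intro ht
      obtain ⟨y, ⟨n, rfl⟩, hy⟩ := hcl.exists_infDist_eq_dist hne (t - c)
      refine ⟨n, ?_⟩
      have ht' : infDist (t - c) (range ((↑) : ℤ → ℝ)) ≤ δ / 2 := ht
      rw [hy, Real.dist_eq] at ht'
      exact ht'
  rw [h]
  exact isClosed_le ((continuous_infDist_pt _).comp (by fun_prop)) continuous_const

/-- TARGET 2 -/
theorem Et_volume {δ : ℝ} (h0 : 0 < δ) (h1 : δ < 1) (c x : ℝ) :
    ENNReal.ofReal δ ≤ volume (Et δ c ∩ Icc x (x + 1)) := by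
  set n : ℤ := ⌈x - c + δ / 2⌉ with hn
  have hn1 : x - c + δ / 2 ≤ n := Int.le_ceil _
  have hn2 : (n : ℝ) < x - c + δ / 2 + 1 := Int.ceil_lt_add_one _
  by_cases hc : (n : ℝ) + c + δ / 2 ≤ x + 1
  · have hsub : Icc ((n : ℝ) + c - δ / 2) (n + c + δ / 2) ⊆ Et δ c ∩ Icc x (x + 1) := by
      intro t ht
      refine ⟨⟨n, ?_⟩, ?_, ?_⟩
      · rw [abs_le]; constructor <;> linarith [ht.1, ht.2]
      · linarith [ht.1]
      · linarith [ht.2]
    calc ENNReal.ofReal δ = volume (Icc ((n : ℝ) + c - δ / 2) (n + c + δ / 2)) := by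
          rw [Real.volume_Icc]; congr 1; ring
      _ ≤ _ := measure_mono hsub
  · push Not at hc
    have hsub : Icc ((n : ℝ) + c - δ / 2) (x + 1) ∪ Icc x ((n : ℝ) - 1 + c + δ / 2)
        ⊆ Et δ c ∩ Icc x (x + 1) := by
      rintro t (ht | ht)
      · refine ⟨⟨n, ?_⟩, ?_, ?_⟩
        · rw [abs_le]; constructor <;> linarith [ht.1, ht.2]
        · linarith [ht.1]
        · linarith [ht.2]
      · refine ⟨⟨n - 1, ?_⟩, ?_, ?_⟩
        · push_cast
          rw [abs_le]; constructor <;> linarith [ht.1, ht.2]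
        · linarith [ht.1]
        · linarith [ht.2]
    have hdis : Disjoint (Icc ((n : ℝ) + c - δ / 2) (x + 1)) (Icc x ((n : ℝ) - 1 + c + δ / 2)) := by
      rw [Set.disjoint_left]
      intro t ht ht'
      linarith [ht.1, ht'.2]
    calc ENNReal.ofReal δ = volume (Icc ((n : ℝ) + c - δ / 2) (x + 1)) +
          volume (Icc x ((n : ℝ) - 1 + c + δ / 2)) := by
          rw [Real.volume_Icc, Real.volume_Icc, ← ENNReal.ofReal_add (by linarith) (by linarith)]
          congr 1; ring
      _ = volume (Icc ((n : ℝ) + c - δ / 2) (x + 1) ∪ Icc x ((n : ℝ) - 1 + c + δ / 2)) :=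
          (measure_union hdis measurableSet_Icc).symm
      _ ≤ _ := measure_mono hsub

theorem avg_zero {A : ℂ → ℂ} {r ρ : ℝ} (hρ : 0 < ρ) (hρr : ρ < r)
    (hA : DifferentiableOn ℂ A (ball 0 r)) (hA0 : (deriv A 0).re = 0) :
    Real.circleAverage (fun w : ℂ => (A w).re * w.re) 0 ρ = 0 := by
  have hsub : closedBall (0 : ℂ) ρ ⊆ ball 0 r := closedBall_subset_ball hρr
  have hsph : sphere (0 : ℂ) |ρ| ⊆ ball 0 r := by
    rw [abs_of_pos hρ]; exact sphere_subset_closedBall.trans hsub
  have hne : ∀ w ∈ sphere (0 : ℂ) |ρ|, w ≠ 0 := by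
    intro w hw h
    rw [h, mem_sphere, dist_self, abs_of_pos hρ] at hw
    linarith
  have hcA : ContinuousOn A (sphere 0 |ρ|) := hA.continuousOn.mono hsph
  have hi1 : CircleIntegrable (fun w => A w * w) 0 ρ :=
    ContinuousOn.circleIntegrable' (hcA.mul continuousOn_id)
  have hi2 : CircleIntegrable (fun w => A w * w⁻¹) 0 ρ :=
    ContinuousOn.circleIntegrable' (hcA.mul (continuousOn_id.inv₀ hne))
  have e1 : Real.circleAverage (fun w => A w * w) 0 ρ = 0 := by
    have hd : DiffContOnCl ℂ (fun w => A w * w) (ball 0 |ρ|) := by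
      rw [abs_of_pos hρ]
      exact DifferentiableOn.diffContOnCl ((hA.mul differentiableOn_id).mono
        ((closure_ball_subset_closedBall).trans hsub))
    have := hd.circleAverage
    simpa using this
  have e2 : Real.circleAverage (fun w => A w * w⁻¹) 0 ρ = deriv A 0 := by
    rw [Real.circleAverage_eq_circleIntegral hρ.ne']
    have := two_pi_I_inv_smul_circleIntegral_sub_sq_inv_smul_of_differentiable
      (isOpen_ball) hsub hA (mem_ball_self hρ)
    rw [← this]
    congr 2
    funext w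
    simp only [sub_zero, smul_eq_mul]
    ring
  have hi3 : CircleIntegrable (fun w => (1 / 2 : ℂ) * (A w * w) + ((ρ : ℂ) ^ 2 / 2) * (A w * w⁻¹)) 0 ρ := by
    apply ContinuousOn.circleIntegrable'
    exact (continuousOn_const.mul (hcA.mul continuousOn_id)).add
      (continuousOn_const.mul (hcA.mul (continuousOn_id.inv₀ hne)))
  have e3 : Real.circleAverage (fun w => (1 / 2 : ℂ) * (A w * w) +
      ((ρ : ℂ) ^ 2 / 2) * (A w * w⁻¹)) 0 ρ = ((ρ : ℂ) ^ 2 / 2) * deriv A 0 := by
    rw [Real.circleAverage_fun_add]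
    · have h1 : Real.circleAverage (fun w => (1 / 2 : ℂ) * (A w * w)) 0 ρ = 0 := by
        have := Real.circleAverage_fun_smul (a := (1 / 2 : ℂ)) (f := fun w => A w * w) (c := 0) (R := ρ)
        simp only [smul_eq_mul] at this
        rw [this, e1, mul_zero]
      have h2 : Real.circleAverage (fun w => ((ρ : ℂ) ^ 2 / 2) * (A w * w⁻¹)) 0 ρ
          = ((ρ : ℂ) ^ 2 / 2) * deriv A 0 := by
        have := Real.circleAverage_fun_smul (a := ((ρ : ℂ) ^ 2 / 2)) (f := fun w => A w * w⁻¹) (c := 0) (R := ρ)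
        simp only [smul_eq_mul] at this
        rw [this, e2]
      rw [h1, h2, zero_add]
    · exact ContinuousOn.circleIntegrable' (continuousOn_const.mul (hcA.mul continuousOn_id))
    · exact ContinuousOn.circleIntegrable'
        (continuousOn_const.mul (hcA.mul (continuousOn_id.inv₀ hne)))
  have e4 : Real.circleAverage (fun w : ℂ => (A w).re * w.re) 0 ρ =
      Real.circleAverage (reCLM ∘ (fun w => (1 / 2 : ℂ) * (A w * w) +
      ((ρ : ℂ) ^ 2 / 2) * (A w * w⁻¹))) 0 ρ := by
    apply Real.circleAverage_congr_sphere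
    intro w hw
    have hw0 := hne w hw
    have hn : (ρ : ℂ) ^ 2 = w * (starRingEnd ℂ) w := by
      rw [Complex.mul_conj, Complex.normSq_eq_norm_sq]
      have : ‖w‖ = ρ := by
        rw [mem_sphere, dist_zero_right, abs_of_pos hρ] at hw; exact hw
      rw [this]; push_cast; rfl
    have : (1 / 2 : ℂ) * (A w * w) + ((ρ : ℂ) ^ 2 / 2) * (A w * w⁻¹) = A w * ((w.re : ℝ) : ℂ) := by
      rw [hn, Complex.re_eq_add_conj]
      field_simp
    simp only [Function.comp_apply, reCLM_apply]
    rw [this]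
    simp
  rw [e4, ContinuousLinearMap.circleAverage_comp_comm _ hi3, e3]
  simp only [reCLM_apply]
  have : ((ρ : ℂ) ^ 2 / 2) * deriv A 0 = (((ρ ^ 2 / 2 : ℝ)) : ℂ) * deriv A 0 := by push_cast; ring
  rw [this, Complex.re_ofReal_mul, hA0, mul_zero]

/-- TARGET 3. Hopf lemma for odd harmonic functions. -/
theorem hopf_odd {D : ℂ → ℝ} {r : ℝ} (hr : 0 < r) (hD : HarmonicOnNhd D (ball 0 r))
    (hodd : ∀ w ∈ ball (0 : ℂ) r, D (-(starRingEnd ℂ) w) = -D w)
    (hnn : ∀ w ∈ ball (0 : ℂ) r, 0 ≤ w.re → 0 ≤ D w)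
    (hder : Tendsto (fun t : ℝ => D (t : ℂ) / t) (𝓝[>] 0) (𝓝 0)) :
    ∀ w ∈ ball (0 : ℂ) r, D w = 0 := by
  obtain ⟨A, hA, hAD⟩ := hD.exists_analyticOnNhd_ball_re_eq
  have hD0 : D 0 = 0 := by
    have := hodd 0 (mem_ball_self hr)
    simp only [map_zero, neg_zero] at this
    linarith
  have hA0 : (A 0).re = 0 := by
    have := hAD (mem_ball_self hr)
    simpa [hD0] using this
  have hAd : DifferentiableOn ℂ A (ball 0 r) := hA.differentiableOn
  have hder0 : (deriv A 0).re = 0 := by
    have h1 : HasDerivAt A (deriv A 0) ((0 : ℝ) : ℂ) := by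
      simpa using (hA 0 (mem_ball_self hr)).differentiableAt.hasDerivAt
    have h2 := h1.real_of_complex
    have h3 := h2.tendsto_slope_zero_right
    have h4 : Tendsto (fun t : ℝ => t⁻¹ • ((A ((0 + t : ℝ) : ℂ)).re - (A ((0 : ℝ) : ℂ)).re)) (𝓝[>] 0) (𝓝 0) := by
      refine hder.congr' ?_
      have hev : ∀ᶠ t : ℝ in 𝓝[>] 0, t < r := by
        apply eventually_nhdsWithin_of_eventually_nhds
        exact eventually_lt_nhds hr
      filter_upwards [hev, self_mem_nhdsWithin] with t ht ht0
      have ht0' : 0 < t := ht0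
      have hm : ((t : ℝ) : ℂ) ∈ ball (0 : ℂ) r := by
        rw [mem_ball, dist_zero_right, Complex.norm_real, Real.norm_eq_abs, abs_of_pos ht0']
        exact ht
      have := hAD hm
      simp only at this
      simp only [zero_add, ofReal_zero, hA0, sub_zero, smul_eq_mul]
      rw [this]
      field_simp
    exact tendsto_nhds_unique h3 h4
  intro w hw
  by_cases hw0 : w = 0
  · rw [hw0, hD0]
  set ρ := ‖w‖ with hρdef
  have hρ : 0 < ρ := norm_pos_iff.2 hw0
  have hρr : ρ < r := by simpa using hw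
  have hball : ∀ z : ℂ, ‖z‖ = ρ → z ∈ ball (0 : ℂ) r := by
    intro z hz; rw [mem_ball, dist_zero_right, hz]; exact hρr
  have hnn' : ∀ z : ℂ, ‖z‖ = ρ → 0 ≤ D z * z.re := by
    intro z hz
    rcases le_total 0 z.re with h | h
    · exact mul_nonneg (hnn z (hball z hz) h) h
    · have h1 := hodd z (hball z hz)
      have h2 : 0 ≤ D (-(starRingEnd ℂ) z) := by
        apply hnn
        · apply hball; simp [hz]
        · simp [h]
      have : D z ≤ 0 := by linarith
      exact mul_nonneg_of_nonpos_of_nonpos this h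
  have havg : Real.circleAverage (fun z : ℂ => (A z).re * z.re) 0 ρ = 0 :=
    avg_zero hρ hρr hAd hder0
  have hcont : ContinuousOn (fun θ : ℝ => (A (circleMap 0 ρ θ)).re * (circleMap 0 ρ θ).re)
      (Icc 0 (2 * Real.pi)) := by
    apply Continuous.continuousOn
    have hcA : ContinuousOn A (ball 0 r) := hAd.continuousOn
    have h1 : Continuous (fun θ : ℝ => A (circleMap 0 ρ θ)) := by
      apply hcA.comp_continuous (continuous_circleMap 0 ρ)
      intro θ
      apply hball
      simp [abs_of_pos hρ]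
    have h2 : Continuous (fun θ : ℝ => circleMap 0 ρ θ) := continuous_circleMap 0 ρ
    exact (Complex.continuous_re.comp h1).mul (Complex.continuous_re.comp h2)
  have hkey : D w * w.re = 0 := by
    by_contra hne
    have hpos : 0 < D w * w.re := lt_of_le_of_ne (hnn' w rfl) (Ne.symm hne)
    have hws : w ∈ sphere (0 : ℂ) |ρ| := by
      rw [mem_sphere, dist_zero_right, abs_of_pos hρ]
    rw [← image_circleMap_Ioc] at hws
    obtain ⟨θ, hθ, hθw⟩ := hws
    have hval : ∀ θ : ℝ, (A (circleMap 0 ρ θ)).re = D (circleMap 0 ρ θ) := by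
      intro θ
      have := hAD (hball (circleMap 0 ρ θ) (by simp [abs_of_pos hρ]))
      simpa using this
    have hint : 0 < ∫ θ in (0 : ℝ)..(2 * Real.pi),
        (A (circleMap 0 ρ θ)).re * (circleMap 0 ρ θ).re := by
      apply intervalIntegral.integral_pos Real.two_pi_pos hcont
      · intro x _
        rw [hval]
        exact hnn' _ (by simp [abs_of_pos hρ])
      · refine ⟨θ, ⟨hθ.1.le, hθ.2⟩, ?_⟩
        rw [hval, hθw]
        exact hpos
    rw [Real.circleAverage_def, smul_eq_mul] at havg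
    have h2 : (2 * Real.pi)⁻¹ > 0 := inv_pos.2 Real.two_pi_pos
    have h3 := mul_pos h2 hint
    linarith
  rcases mul_eq_zero.1 hkey with h | h
  · exact h
  · have hw' : -(starRingEnd ℂ) w = w := by
      apply Complex.ext
      · simp [h]
      · simp
    have := hodd w hw
    rw [hw'] at this
    linarith

end J785

alias Et_isClosed := J785.Et_isClosed
alias Et_volume := J785.Et_volume
alias hopf_odd := J785.hopf_odd

end LE
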