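import Mathlib
import Pool.Agent.Helper714.LE.Defs

open Set MeasureTheory Filter Topology Metric

namespace LE

namespace J715

theorem exists_bound {f : ℝ → ℝ} (hf : Continuous f) (x : ℝ) :
    ∃ A, 0 ≤ A ∧ ∀ s ∈ Icc x (x + 1), |f s| ≤ A := by
  obtain ⟨A, hA⟩ := isCompact_Icc.exists_bound_of_continuousOn (s := Icc x (x + 1)) hf.continuousOn
  refine ⟨|A|, abs_nonneg _, fun s hs => ?_⟩
  exact (hA s hs).trans (le_abs_self _)

theorem intOn {f : ℝ → ℝ} (hf : Continuous f) {x : ℝ} {F : Set ℝ} (hFx : F ⊆ Icc x (x + 1)) :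
    IntegrableOn f F :=
  (hf.continuousOn.integrableOn_Icc).mono_set hFx

theorem abs_int_le {f : ℝ → ℝ} {F : Set ℝ} {A m : ℝ} (hm : 0 ≤ m)
    (hv : volume F = ENNReal.ofReal m) (h : ∀ s ∈ F, |f s| ≤ A) : |∫ s in F, f s| ≤ A * m := by
  have h1 : volume F < ⊤ := by rw [hv]; exact ENNReal.ofReal_lt_top
  have := norm_setIntegral_le_of_norm_le_const (μ := volume) (f := f) h1 (C := A) h
  rw [Real.norm_eq_abs] at this
  rwa [measureReal_def, hv, ENNReal.toReal_ofReal hm] at this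

theorem bdd_star {f : ℝ → ℝ} (hf : Continuous f) (x θ : ℝ) :
    BddAbove {v | ∃ F : Set ℝ, MeasurableSet F ∧ F ⊆ Icc x (x + 1) ∧
      volume F = ENNReal.ofReal (2 * θ) ∧ v = ∫ s in F, f s} := by
  obtain ⟨A, hA0, hA⟩ := exists_bound hf x
  refine ⟨A * max (2 * θ) 0, ?_⟩
  rintro v ⟨F, hF, hFx, hv, rfl⟩
  have hv' : volume F = ENNReal.ofReal (max (2 * θ) 0) := by
    rw [hv]
    rcases le_total (2 * θ) 0 with h | h
    · rw [max_eq_right h, ENNReal.ofReal_of_nonpos h, ENNReal.ofReal_zero]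
    · rw [max_eq_left h]
  exact (le_abs_self _).trans (abs_int_le (le_max_right _ _) hv' fun s hs => hA s (hFx hs))

/-- TARGET 1 -/
theorem le_star {f : ℝ → ℝ} (hf : Continuous f) {x θ : ℝ} {F : Set ℝ} (hF : MeasurableSet F)
    (hFx : F ⊆ Icc x (x + 1)) (hv : volume F = ENNReal.ofReal (2 * θ)) :
    ∫ s in F, f s ≤ star f x θ :=
  le_csSup (bdd_star hf x θ) ⟨F, hF, hFx, hv, rfl⟩

/-- TARGET 2 -/
theorem star_le {f : ℝ → ℝ} {x θ B : ℝ} (hθ0 : 0 ≤ θ) (hθ1 : θ ≤ 1 / 2)
    (h : ∀ F : Set ℝ, MeasurableSet F → F ⊆ Icc x (x + 1) →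
      volume F = ENNReal.ofReal (2 * θ) → ∫ s in F, f s ≤ B) :
    star f x θ ≤ B := by
  refine csSup_le ⟨_, Icc x (x + 2 * θ), measurableSet_Icc,
    Icc_subset_Icc le_rfl (by linarith), by rw [Real.volume_Icc]; congr 1; ring, rfl⟩ ?_
  rintro v ⟨F, hF, hFx, hv, rfl⟩
  exact h F hF hFx hv

/-- TARGET 3 -/
theorem star_le_mul {f : ℝ → ℝ} (hf : Continuous f) {x θ B : ℝ} (hθ0 : 0 ≤ θ) (hθ1 : θ ≤ 1 / 2)
    (h : ∀ s ∈ Icc x (x + 1), f s ≤ B) : star f x θ ≤ 2 * θ * B := by
  refine star_le hθ0 hθ1 fun F hF hFx hv => ?_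
  have h1 : volume F < ⊤ := by rw [hv]; exact ENNReal.ofReal_lt_top
  have h2 : ∫ s in F, f s ≤ ∫ _ in F, B :=
    setIntegral_mono_on (intOn hf hFx) (integrableOn_const h1.ne) hF fun s hs => h s (hFx hs)
  rw [setIntegral_const, measureReal_def, hv, ENNReal.toReal_ofReal (by linarith), smul_eq_mul]
    at h2
  exact h2

theorem exists_sub {F : Set ℝ} (hF : MeasurableSet F) {x m m' : ℝ} (hFx : F ⊆ Icc x (x + 1))
    (hm : 0 ≤ m) (hmm : m ≤ m') (hv : volume F = ENNReal.ofReal m') :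
    ∃ F1 ⊆ F, MeasurableSet F1 ∧ volume F1 = ENNReal.ofReal m := by
  have hfin : ∀ c : ℝ, volume (F ∩ Iic c) ≠ ⊤ := fun c =>
    ((measure_mono inter_subset_left).trans_lt (by rw [hv]; exact ENNReal.ofReal_lt_top)).ne
  have hlip : ∀ c c', c ≤ c' → (volume (F ∩ Iic c')).toReal ≤
      (volume (F ∩ Iic c)).toReal + (c' - c) := by
    intro c c' hcc
    have h1 : volume (F ∩ Iic c') ≤ volume (F ∩ Iic c) + ENNReal.ofReal (c' - c) := by
      rw [← Real.volume_Ioc]
      refine (measure_mono ?_).trans (measure_union_le _ _)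
      rintro s ⟨hs, hs'⟩
      rcases le_or_gt s c with h | h
      · exact Or.inl ⟨hs, h⟩
      · exact Or.inr ⟨h, hs'⟩
    have h2 := ENNReal.toReal_mono (ENNReal.add_ne_top.mpr ⟨hfin c, ENNReal.ofReal_ne_top⟩) h1
    rwa [ENNReal.toReal_add (hfin c) ENNReal.ofReal_ne_top,
      ENNReal.toReal_ofReal (by linarith)] at h2
  have hmono : ∀ c c', c ≤ c' → (volume (F ∩ Iic c)).toReal ≤ (volume (F ∩ Iic c')).toReal :=
    fun c c' hcc => ENNReal.toReal_mono (hfin c')
      (measure_mono (inter_subset_inter_right _ (Iic_subset_Iic.mpr hcc)))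
  have hcont : Continuous fun c : ℝ => (volume (F ∩ Iic c)).toReal := by
    have : LipschitzWith 1 fun c : ℝ => (volume (F ∩ Iic c)).toReal := by
      refine LipschitzWith.of_dist_le_mul fun c c' => ?_
      rw [NNReal.coe_one, one_mul, Real.dist_eq, Real.dist_eq]
      rcases le_total c c' with h | h
      · rw [abs_sub_comm, abs_sub_comm c, abs_of_nonneg (by linarith [hmono c c' h]),
          abs_of_nonneg (by linarith)]
        linarith [hlip c c' h]
      · rw [abs_of_nonneg (by linarith [hmono c' c h]), abs_of_nonneg (by linarith)]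
        linarith [hlip c' c h]
    exact this.continuous
  have h0 : (volume (F ∩ Iic (x - 1))).toReal = 0 := by
    have : F ∩ Iic (x - 1) = ∅ := by
      rw [eq_empty_iff_forall_notMem]
      rintro s ⟨hs, hs'⟩
      have := (hFx hs).1
      simp only [mem_Iic] at hs'
      linarith
    rw [this]; simp
  have h1 : (volume (F ∩ Iic (x + 1))).toReal = m' := by
    have : F ∩ Iic (x + 1) = F := inter_eq_left.mpr fun s hs => (hFx hs).2
    rw [this, hv, ENNReal.toReal_ofReal (hm.trans hmm)]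
  obtain ⟨c, -, hc⟩ := intermediate_value_Icc (show x - 1 ≤ x + 1 by linarith)
    hcont.continuousOn (show m ∈ Icc _ _ from ⟨by rw [h0]; exact hm, by rw [h1]; exact hmm⟩)
  refine ⟨F ∩ Iic c, inter_subset_left, hF.inter measurableSet_Iic, ?_⟩
  rw [← ENNReal.ofReal_toReal (hfin c)]
  exact congrArg _ hc

theorem exists_sup {F : Set ℝ} (hF : MeasurableSet F) {x m m' : ℝ} (hFx : F ⊆ Icc x (x + 1))
    (hm : 0 ≤ m) (hmm : m ≤ m') (hm1 : m' ≤ 1) (hv : volume F = ENNReal.ofReal m) :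
    ∃ F', F ⊆ F' ∧ F' ⊆ Icc x (x + 1) ∧ MeasurableSet F' ∧ volume F' = ENNReal.ofReal m' := by
  have hR : volume (Icc x (x + 1) \ F) = ENNReal.ofReal (1 - m) := by
    rw [measure_sdiff hFx hF.nullMeasurableSet (by rw [hv]; exact ENNReal.ofReal_ne_top), hv,
      Real.volume_Icc, ENNReal.ofReal_sub _ hm]
    congr 2
    ring
  obtain ⟨R, hR1, hR2, hR3⟩ := exists_sub (measurableSet_Icc.diff hF) (x := x) (m := m' - m)
    sdiff_subset (by linarith) (by linarith) hR
  refine ⟨F ∪ R, subset_union_left, union_subset hFx (hR1.trans sdiff_subset), hF.union hR2, ?_⟩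
  rw [measure_union (disjoint_left.mpr fun s hs hs' => (hR1 hs').2 hs) hR2, hv, hR3,
    ← ENNReal.ofReal_add hm (by linarith)]
  congr 1
  ring

theorem star_theta {f : ℝ → ℝ} (hf : Continuous f) {x θ θ' A : ℝ} (h0 : 0 ≤ θ) (hθ : θ ≤ θ')
    (h1 : θ' ≤ 1 / 2) (hA : ∀ s ∈ Icc x (x + 1), |f s| ≤ A) :
    |star f x θ - star f x θ'| ≤ A * (2 * (θ' - θ)) := by
  have key : ∀ F1 F : Set ℝ, F1 ⊆ F → MeasurableSet F1 → MeasurableSet F → F ⊆ Icc x (x + 1) →
      volume F1 = ENNReal.ofReal (2 * θ) → volume F = ENNReal.ofReal (2 * θ') →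
      |(∫ s in F, f s) - ∫ s in F1, f s| ≤ A * (2 * (θ' - θ)) := by
    intro F1 F hsub hF1 hF hFx hv1 hv
    have hd : (∫ s in F, f s) - ∫ s in F1, f s = ∫ s in F \ F1, f s := by
      rw [setIntegral_sdiff hF1 (intOn hf hFx) hsub]
    rw [hd]
    refine abs_int_le (by linarith) ?_ fun s hs => hA s (hFx hs.1)
    rw [measure_sdiff hsub hF1.nullMeasurableSet (by rw [hv1]; exact ENNReal.ofReal_ne_top), hv,
      hv1, ← ENNReal.ofReal_sub _ (by linarith)]
    congr 1
    ring
  rw [abs_le]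
  constructor
  · have : star f x θ' ≤ star f x θ + A * (2 * (θ' - θ)) := by
      refine star_le (by linarith) h1 fun F hF hFx hv => ?_
      obtain ⟨F1, hs, hm, hv1⟩ := exists_sub hF hFx (by linarith : (0 : ℝ) ≤ 2 * θ)
        (by linarith) hv
      have h3 := key F1 F hs hm hF hFx hv1 hv
      have h4 := le_star hf hm (hs.trans hFx) hv1
      have h5 := (abs_le.mp h3).2
      linarith
    linarith
  · have : star f x θ ≤ star f x θ' + A * (2 * (θ' - θ)) := by
      refine star_le h0 (by linarith) fun F hF hFx hv => ?_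
      obtain ⟨F', hs, hx, hm, hv1⟩ := exists_sup hF hFx (by linarith : (0 : ℝ) ≤ 2 * θ)
        (by linarith : 2 * θ ≤ 2 * θ') (by linarith) hv
      have h3 := key F F' hs hF hm hx hv hv1
      have h4 := le_star hf hm hx hv1
      have h5 := (abs_le.mp h3).1
      linarith
    linarith

theorem star_shift {f g : ℝ → ℝ} (hf : Continuous f) (hg : Continuous g) {x x' θ ε : ℝ}
    (h0 : 0 ≤ θ) (h1 : θ ≤ 1 / 2)
    (h : ∀ s ∈ Icc x (x + 1), |f s - g (s + (x' - x))| ≤ ε) :
    star f x θ ≤ star g x' θ + ε := by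
  refine star_le h0 h1 fun F hF hFx hv => ?_
  have hε : 0 ≤ ε := (abs_nonneg _).trans (h x ⟨le_rfl, by linarith⟩)
  set F' : Set ℝ := (fun s => s - (x' - x)) ⁻¹' F with hF'
  have hmeas : MeasurableSet F' := hF.preimage (by fun_prop)
  have hsub : F' ⊆ Icc x' (x' + 1) := by
    intro s hs
    have := hFx hs
    exact ⟨by linarith [this.1], by linarith [this.2]⟩
  have hvol : volume F' = volume F := by
    have := measure_preimage_add_right (volume : Measure ℝ) (-(x' - x)) F
    simpa [hF', sub_eq_add_neg] using this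
  have hint : ∫ s in F', g s = ∫ s in F, g (s + (x' - x)) := by
    rw [← integral_indicator hmeas, ← integral_indicator hF,
      ← integral_add_right_eq_self (fun s => F'.indicator g s) (x' - x)]
    apply integral_congr_ae
    refine Eventually.of_forall fun s => ?_
    by_cases hs : s ∈ F
    · have : s + (x' - x) ∈ F' := by simpa [hF'] using hs
      simp only [indicator_of_mem this, indicator_of_mem hs]
    · have : s + (x' - x) ∉ F' := by simpa [hF'] using hs
      simp only [indicator_of_notMem this, indicator_of_notMem hs]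
  have h3 := le_star hg hmeas hsub (hvol.trans hv)
  rw [hint] at h3
  have hfin : volume F < ⊤ := by rw [hv]; exact ENNReal.ofReal_lt_top
  have hg' : Continuous fun s => g (s + (x' - x)) := by fun_prop
  have h4 : |(∫ s in F, f s) - ∫ s in F, g (s + (x' - x))| ≤ ε * (2 * θ) := by
    rw [← integral_sub (intOn hf hFx) (intOn hg' hFx)]
    exact abs_int_le (by linarith) hv fun s hs => h s (hFx hs)
  have h5 := (abs_le.mp h4).2
  nlinarith

/-- TARGET 4 -/
theorem star_continuousOn {U : ℂ → ℝ} (hU : Continuous U) :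
    ContinuousOn (fun p : ℝ × ℝ × ℝ => star (fun s : ℝ => U ((s : ℂ) + (p.2.2 : ℂ) * Complex.I)) p.1 p.2.1)
      {p | 0 ≤ p.2.1 ∧ p.2.1 ≤ 1 / 2} := by
  have hc : ∀ y : ℝ, Continuous fun s : ℝ => U ((s : ℂ) + (y : ℂ) * Complex.I) := fun y => by
    fun_prop
  rw [Metric.continuousOn_iff]
  rintro ⟨x₀, θ₀, y₀⟩ ⟨h0, h1⟩ ε hε
  simp only at h0 h1
  -- uniform continuity
  have hΦ : Continuous fun q : ℝ × ℝ => U ((q.1 : ℂ) + (q.2 : ℂ) * Complex.I) := by fun_prop
  have hK : IsCompact (Icc (x₀ - 2) (x₀ + 3) ×ˢ Icc (y₀ - 2) (y₀ + 2)) :=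
    isCompact_Icc.prod isCompact_Icc
  have huc := hK.uniformContinuousOn_of_continuous hΦ.continuousOn
  rw [Metric.uniformContinuousOn_iff] at huc
  obtain ⟨δ, hδ, huc⟩ := huc (ε / 4) (by linarith)
  obtain ⟨A, hA⟩ := exists_bound (hc y₀) x₀
  obtain ⟨hA0, hA⟩ := hA
  set η : ℝ := min (min δ 1) (ε / (8 * (A + 1))) with hη
  have hηpos : 0 < η := lt_min (lt_min hδ one_pos) (by positivity)
  refine ⟨η, hηpos, ?_⟩
  rintro ⟨x, θ, y⟩ ⟨h0', h1'⟩ hd
  simp only at h0' h1'
  rw [Prod.dist_eq, Prod.dist_eq, max_lt_iff, max_lt_iff] at hd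
  obtain ⟨hx, hθ, hy⟩ := hd
  simp only [Real.dist_eq] at hx hθ hy
  have hηδ : η ≤ δ := (min_le_left _ _).trans (min_le_left _ _)
  have hη1 : η ≤ 1 := (min_le_left _ _).trans (min_le_right _ _)
  have hηA : η ≤ ε / (8 * (A + 1)) := min_le_right _ _
  have hx' := abs_lt.mp hx
  have hy' := abs_lt.mp hy
  -- shifting in both directions
  have e1 : star (fun s : ℝ => U ((s : ℂ) + (y : ℂ) * Complex.I)) x θ ≤
      star (fun s : ℝ => U ((s : ℂ) + (y₀ : ℂ) * Complex.I)) x₀ θ + ε / 4 := by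
    refine star_shift (hc y) (hc y₀) h0' h1' fun s hs => ?_
    have := huc (s, y) ⟨⟨by linarith [hs.1], by linarith [hs.2]⟩, ⟨by linarith, by linarith⟩⟩
      (s + (x₀ - x), y₀) ⟨⟨by simp only; linarith [hs.1], by simp only; linarith [hs.2]⟩,
        ⟨by simp only; linarith, by simp only; linarith⟩⟩ (by
        rw [Prod.dist_eq, max_lt_iff, Real.dist_eq, Real.dist_eq]
        refine ⟨?_, by simpa using hy.trans_le hηδ⟩
        have : s - (s + (x₀ - x)) = x - x₀ := by ring
        simp only [this]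
        exact hx.trans_le hηδ)
    rw [Real.dist_eq] at this
    exact this.le
  have e2 : star (fun s : ℝ => U ((s : ℂ) + (y₀ : ℂ) * Complex.I)) x₀ θ ≤
      star (fun s : ℝ => U ((s : ℂ) + (y : ℂ) * Complex.I)) x θ + ε / 4 := by
    refine star_shift (hc y₀) (hc y) h0' h1' fun s hs => ?_
    have := huc (s, y₀) ⟨⟨by linarith [hs.1], by linarith [hs.2]⟩, ⟨by linarith, by linarith⟩⟩
      (s + (x - x₀), y) ⟨⟨by simp only; linarith [hs.1], by simp only; linarith [hs.2]⟩,
        ⟨by simp only; linarith, by simp only; linarith⟩⟩ (by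
        rw [Prod.dist_eq, max_lt_iff, Real.dist_eq, Real.dist_eq]
        refine ⟨?_, ?_⟩
        · have : s - (s + (x - x₀)) = -(x - x₀) := by ring
          simp only [this, abs_neg]
          exact hx.trans_le hηδ
        · simp only
          rw [abs_sub_comm]
          exact hy.trans_le hηδ)
    rw [Real.dist_eq] at this
    exact this.le
  have e3 : |star (fun s : ℝ => U ((s : ℂ) + (y₀ : ℂ) * Complex.I)) x₀ θ -
      star (fun s : ℝ => U ((s : ℂ) + (y₀ : ℂ) * Complex.I)) x₀ θ₀| ≤ ε / 4 := by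
    have hsmall : A * (2 * |θ - θ₀|) ≤ ε / 4 := by
      have h3 : |θ - θ₀| ≤ ε / (8 * (A + 1)) := hθ.le.trans hηA
      have h4 : (A + 1) * (2 * |θ - θ₀|) ≤ (A + 1) * (2 * (ε / (8 * (A + 1)))) := by gcongr
      have h5 : (A + 1) * (2 * (ε / (8 * (A + 1)))) = ε / 4 := by field_simp; ring
      have h6 : 0 ≤ 2 * |θ - θ₀| := by positivity
      nlinarith
    refine le_trans ?_ hsmall
    rcases le_total θ θ₀ with h | h
    · have := star_theta (hc y₀) h0' h h1 hA
      rwa [abs_sub_comm θ, abs_of_nonneg (show 0 ≤ θ₀ - θ by linarith)]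
    · have := star_theta (hc y₀) h0 h h1' hA
      rw [abs_sub_comm, abs_of_nonneg (show 0 ≤ θ - θ₀ by linarith)]
      exact this
  rw [Real.dist_eq, abs_lt]
  have := abs_le.mp e3
  constructor <;> simp only <;> linarith

end J715

alias le_star := J715.le_star
alias star_le := J715.star_le
alias star_le_mul := J715.star_le_mul
alias star_continuousOn := J715.star_continuousOn

end LE
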