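import Mathlib
import Pool.Agent.Helper714.LE.Defs

open Set MeasureTheory Filter Topology Metric

namespace LE

namespace J717

/-- TARGET 1. Second derivative test. -/
theorem second_test {g g1 : ℝ → ℝ} {g2 a : ℝ} (h1 : ∀ᶠ h in 𝓝 a, HasDerivAt g (g1 h) h)
    (h2 : HasDerivAt g1 g2 a) (hmax : IsLocalMax g a) : g2 ≤ 0 := by
  by_contra hcon
  push Not at hcon
  have e1 : deriv g =ᶠ[𝓝 a] g1 := h1.mono fun h hh => hh.deriv
  have e2 : deriv (deriv g) a = g2 := by
    rw [e1.deriv_eq]
    exact h2.deriv
  have e3 : deriv g a = 0 := hmax.deriv_eq_zero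
  have hc : ContinuousAt g a := (h1.self_of_nhds).continuousAt
  have hmin : IsLocalMin g a := isLocalMin_of_deriv_deriv_pos (by rw [e2]; exact hcon) e3 hc
  have e4 : g =ᶠ[𝓝 a] fun _ => g a := by
    filter_upwards [hmin, hmax] with x hx1 hx2
    exact le_antisymm hx2 hx1
  have e5 : deriv g =ᶠ[𝓝 a] deriv (fun _ : ℝ => g a) := e4.deriv
  have e6 : deriv (deriv g) a = 0 := by
    rw [e5.deriv_eq]
    simp
  rw [e2] at e6
  linarith

/-- helper: rewriting the set integral -/
theorem conv_int {f g : ℝ → ℝ} (hf : Continuous f) {p q t : ℝ} (hpq : p ≤ q) :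
    ∫ s in {s ∈ Icc p q | t ≤ f s}, g s = ∫ s in p..q, ({s | t ≤ f s}.indicator g s) := by
  have hm : MeasurableSet {s | t ≤ f s} := (isClosed_le continuous_const hf).measurableSet
  rw [intervalIntegral.integral_of_le hpq, ← integral_Icc_eq_integral_Ioc,
    setIntegral_indicator hm]
  rfl

theorem F_integrable {f : ℝ → ℝ} (hf : Continuous f) {p q t : ℝ} (hpq : p ≤ q)
    (han : ∀ s ∈ Icc p q, t ≤ f s → AnalyticAt ℝ f s) :
    IntervalIntegrable ({s | t ≤ f s}.indicator (deriv (deriv f))) volume p q := by
  have hc : IsClosed {s | t ≤ f s} := isClosed_le continuous_const hf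
  have hcomp : IsCompact (Icc p q ∩ {s | t ≤ f s}) := isCompact_Icc.inter_right hc
  have hcont : ContinuousOn (deriv (deriv f)) (Icc p q ∩ {s | t ≤ f s}) := by
    intro s hs
    exact ((han s hs.1 hs.2).deriv.deriv.continuousAt).continuousWithinAt
  have h1 : IntegrableOn (deriv (deriv f)) (Icc p q ∩ {s | t ≤ f s}) volume :=
    hcont.integrableOn_compact hcomp
  rw [intervalIntegrable_iff_integrableOn_Icc_of_le hpq]
  unfold IntegrableOn
  rw [integrable_indicator_iff hc.measurableSet]
  unfold IntegrableOn
  rw [Measure.restrict_restrict hc.measurableSet, inter_comm]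
  exact h1

/-- the cut-off -/
noncomputable def chi (f : ℝ → ℝ) (t c s : ℝ) : ℝ := Real.smoothTransition ((f s - t) * c)

noncomputable def chi' (f : ℝ → ℝ) (t c s : ℝ) : ℝ :=
  deriv Real.smoothTransition ((f s - t) * c)

theorem diff_st : Differentiable ℝ Real.smoothTransition :=
  (Real.smoothTransition.contDiff (n := 1)).differentiable (by norm_num)

theorem cont_dst : Continuous (deriv Real.smoothTransition) :=
  (Real.smoothTransition.contDiff (n := 1)).continuous_deriv (by norm_num)

theorem hasDeriv_G {f : ℝ → ℝ} (hf : Continuous f) {t c s : ℝ} (hc : 0 < c)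
    (han : t ≤ f s → AnalyticAt ℝ f s) :
    HasDerivAt (fun s => chi f t c s * deriv f s)
      (chi' f t c s * (deriv f s * c) * deriv f s + chi f t c s * deriv (deriv f) s) s := by
  by_cases hs : t ≤ f s
  · have ha := han hs
    have h1 : HasDerivAt f (deriv f s) s := ha.differentiableAt.hasDerivAt
    have h2 : HasDerivAt (deriv f) (deriv (deriv f) s) s := ha.deriv.differentiableAt.hasDerivAt
    have h3 : HasDerivAt (fun s => (f s - t) * c) (deriv f s * c) s :=
      (h1.sub_const t).mul_const c
    have h4 : HasDerivAt (fun s => chi f t c s) (chi' f t c s * (deriv f s * c)) s :=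
      HasDerivAt.comp s (diff_st _).hasDerivAt h3
    exact h4.mul h2
  · push Not at hs
    have h0 : ∀ x, f x < t → chi f t c x = 0 := by
      intro x hx
      apply Real.smoothTransition.zero_of_nonpos
      nlinarith
    have hev : ∀ᶠ x in 𝓝 s, f x < t := hf.continuousAt.eventually (gt_mem_nhds hs)
    have h1 : (fun s => chi f t c s * deriv f s) =ᶠ[𝓝 s] fun _ => (0:ℝ) := by
      filter_upwards [hev] with x hx
      rw [h0 x hx, zero_mul]
    have h2 : chi' f t c s = 0 := by
      unfold chi'
      have h3 : Real.smoothTransition =ᶠ[𝓝 ((f s - t) * c)] fun _ => (0:ℝ) := by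
        have h4 : (f s - t) * c < 0 := by nlinarith
        filter_upwards [gt_mem_nhds h4] with x hx
        exact Real.smoothTransition.zero_of_nonpos (le_of_lt hx)
      rw [h3.deriv_eq]
      simp
    rw [h2, h0 s hs]
    have h3 := (hasDerivAt_const s (0:ℝ)).congr_of_eventuallyEq h1
    simpa using h3

theorem cont_E {f : ℝ → ℝ} (hf : Continuous f) {t c s : ℝ} (hc : 0 < c)
    (han : t ≤ f s → AnalyticAt ℝ f s) :
    ContinuousAt (fun s => chi f t c s * deriv (deriv f) s) s := by
  by_cases hs : t ≤ f s
  · have ha := han hs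
    refine ContinuousAt.mul ?_ ha.deriv.deriv.continuousAt
    exact (Real.smoothTransition.continuous.comp
      ((hf.sub continuous_const).mul continuous_const)).continuousAt
  · push Not at hs
    have hev : ∀ᶠ x in 𝓝 s, f x < t := hf.continuousAt.eventually (gt_mem_nhds hs)
    have h1 : (fun s => chi f t c s * deriv (deriv f) s) =ᶠ[𝓝 s] fun _ => (0:ℝ) := by
      filter_upwards [hev] with x hx
      have : chi f t c x = 0 := by
        apply Real.smoothTransition.zero_of_nonpos
        nlinarith
      rw [this, zero_mul]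
    exact continuousAt_const.congr h1.symm

theorem cont_D {f : ℝ → ℝ} (hf : Continuous f) {t c s : ℝ} (hc : 0 < c)
    (han : t ≤ f s → AnalyticAt ℝ f s) :
    ContinuousAt (fun s => chi' f t c s * (deriv f s * c) * deriv f s) s := by
  by_cases hs : t ≤ f s
  · have ha := han hs
    have h1 : ContinuousAt (fun s => chi' f t c s) s :=
      (cont_dst.comp ((hf.sub continuous_const).mul continuous_const)).continuousAt
    have h2 := ha.deriv.continuousAt
    exact (h1.mul (h2.mul continuousAt_const)).mul h2
  · push Not at hs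
    have hev : ∀ᶠ x in 𝓝 s, f x < t := hf.continuousAt.eventually (gt_mem_nhds hs)
    have h1 : (fun s => chi' f t c s * (deriv f s * c) * deriv f s) =ᶠ[𝓝 s]
        fun _ => (0:ℝ) := by
      filter_upwards [hev] with x hx
      have : chi' f t c x = 0 := by
        unfold chi'
        have h3 : Real.smoothTransition =ᶠ[𝓝 ((f x - t) * c)] fun _ => (0:ℝ) := by
          have h4 : (f x - t) * c < 0 := by nlinarith
          filter_upwards [gt_mem_nhds h4] with y hy
          exact Real.smoothTransition.zero_of_nonpos (le_of_lt hy)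
        rw [h3.deriv_eq]
        simp
      rw [this, zero_mul, zero_mul]
    exact continuousAt_const.congr h1.symm

theorem int_le {f : ℝ → ℝ} (hf : Continuous f) {p q t c : ℝ} (hpq : p ≤ q) (hc : 0 < c)
    (han : ∀ s ∈ Icc p q, t ≤ f s → AnalyticAt ℝ f s) :
    IntervalIntegrable (fun s => chi f t c s * deriv (deriv f) s) volume p q ∧
    ∫ s in p..q, chi f t c s * deriv (deriv f) s ≤
      chi f t c q * deriv f q - chi f t c p * deriv f p := by
  have hE : IntervalIntegrable (fun s => chi f t c s * deriv (deriv f) s) volume p q := by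
    apply ContinuousOn.intervalIntegrable
    rw [uIcc_of_le hpq]
    intro s hs
    exact (cont_E hf hc (han s hs)).continuousWithinAt
  have hD : IntervalIntegrable (fun s => chi' f t c s * (deriv f s * c) * deriv f s)
      volume p q := by
    apply ContinuousOn.intervalIntegrable
    rw [uIcc_of_le hpq]
    intro s hs
    exact (cont_D hf hc (han s hs)).continuousWithinAt
  refine ⟨hE, ?_⟩
  have h1 := intervalIntegral.integral_eq_sub_of_hasDerivAt (a := p) (b := q)
    (f := fun s => chi f t c s * deriv f s)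
    (f' := fun s => chi' f t c s * (deriv f s * c) * deriv f s + chi f t c s * deriv (deriv f) s)
    (fun s hs => by
      rw [uIcc_of_le hpq] at hs
      exact hasDeriv_G hf hc (han s hs)) (hD.add hE)
  rw [← h1]
  refine intervalIntegral.integral_mono_on hpq hE (hD.add hE) ?_
  intro s _
  have h2 : 0 ≤ chi' f t c s := Real.smoothTransition.monotone.deriv_nonneg
  have h3 : 0 ≤ chi' f t c s * (deriv f s * c) * deriv f s := by
    have : chi' f t c s * (deriv f s * c) * deriv f s = chi' f t c s * c * (deriv f s) ^ 2 := by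
      ring
    rw [this]
    positivity
  linarith

theorem tendsto_chi (f : ℝ → ℝ) (t s : ℝ) :
    Tendsto (fun n : ℕ => chi f t ((n:ℝ) + 1) s) atTop (𝓝 (if t < f s then 1 else 0)) := by
  by_cases hs : t < f s
  · rw [if_pos hs]
    refine tendsto_const_nhds.congr' ?_
    obtain ⟨N, hN⟩ := exists_nat_gt (1 / (f s - t))
    filter_upwards [eventually_ge_atTop N] with n hn
    symm
    apply Real.smoothTransition.one_of_one_le
    have h1 : 0 < f s - t := by linarith
    rw [div_lt_iff₀ h1] at hN
    have h2 : (N:ℝ) ≤ n := by exact_mod_cast hn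
    nlinarith
  · rw [if_neg hs]
    push Not at hs
    refine tendsto_const_nhds.congr' ?_
    filter_upwards with n
    symm
    apply Real.smoothTransition.zero_of_nonpos
    have : (0:ℝ) < (n:ℝ) + 1 := by positivity
    nlinarith

/-- TARGET 2. Integral of the second derivative over a superlevel set. -/
theorem superlevel_deriv2 {f : ℝ → ℝ} (hf : Continuous f) {p q t : ℝ} (hpq : p ≤ q)
    (han : ∀ s ∈ Icc p q, t ≤ f s → AnalyticAt ℝ f s)
    (hfin : {s ∈ Icc p q | f s = t}.Finite) :
    ∫ s in {s ∈ Icc p q | t ≤ f s}, deriv (deriv f) s ≤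
      (if t < f q then deriv f q else 0) - (if t < f p then deriv f p else 0) := by
  rw [conv_int hf hpq]
  have hF := F_integrable hf hpq han
  have hn : ∀ n : ℕ, (0:ℝ) < (n:ℝ) + 1 := fun n => by positivity
  have hlim1 : Tendsto (fun n : ℕ => ∫ s in p..q, chi f t ((n:ℝ) + 1) s * deriv (deriv f) s)
      atTop (𝓝 (∫ s in p..q, ({s | t ≤ f s}.indicator (deriv (deriv f)) s))) := by
    refine intervalIntegral.tendsto_integral_filter_of_dominated_convergence
      (fun s => ‖{s | t ≤ f s}.indicator (deriv (deriv f)) s‖) ?_ ?_ hF.norm ?_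
    · refine Eventually.of_forall fun n => ?_
      exact ((int_le hf hpq (hn n) han).1).def'.aestronglyMeasurable
    · refine Eventually.of_forall fun n => Eventually.of_forall fun s _ => ?_
      by_cases hs : t ≤ f s
      · rw [indicator_of_mem (by exact hs), norm_mul]
        have h1 : ‖chi f t ((n:ℝ) + 1) s‖ ≤ 1 := by
          rw [Real.norm_eq_abs, abs_le]
          constructor
          · have := Real.smoothTransition.nonneg ((f s - t) * ((n:ℝ) + 1))
            unfold chi
            linarith
          · exact Real.smoothTransition.le_one _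
        exact mul_le_of_le_one_left (norm_nonneg _) h1
      · have h1 : chi f t ((n:ℝ) + 1) s = 0 := by
          apply Real.smoothTransition.zero_of_nonpos
          push Not at hs
          have := hn n
          nlinarith
        rw [h1, zero_mul, norm_zero]
        exact norm_nonneg _
    · have h0 : volume {s ∈ Icc p q | f s = t} = 0 := hfin.measure_zero _
      have h1 : ∀ᵐ s : ℝ, s ∉ {s ∈ Icc p q | f s = t} := measure_eq_zero_iff_ae_notMem.mp h0
      filter_upwards [h1] with s hs hsI
      have hs2 : f s ≠ t := by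
        intro h
        rw [uIoc_of_le hpq] at hsI
        exact hs ⟨⟨hsI.1.le, hsI.2⟩, h⟩
      have h2 := (tendsto_chi f t s).mul_const (deriv (deriv f) s)
      convert h2 using 2
      by_cases hs3 : t < f s
      · rw [if_pos hs3, indicator_of_mem (by exact hs3.le), one_mul]
      · rw [if_neg hs3, indicator_of_notMem, zero_mul]
        intro h
        exact hs3 (lt_of_le_of_ne h hs2.symm)
  have hlim2 : Tendsto (fun n : ℕ => chi f t ((n:ℝ) + 1) q * deriv f q -
      chi f t ((n:ℝ) + 1) p * deriv f p) atTop
      (𝓝 ((if t < f q then deriv f q else 0) - (if t < f p then deriv f p else 0))) := by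
    have h2 := ((tendsto_chi f t q).mul_const (deriv f q)).sub
      ((tendsto_chi f t p).mul_const (deriv f p))
    convert h2 using 2
    congr 1 <;> split_ifs <;> simp
  exact le_of_tendsto_of_tendsto' hlim1 hlim2 fun n => (int_le hf hpq (hn n) han).2

/-- TARGET 3. Version with one-sided information at the end points. -/
theorem superlevel_deriv2' {f : ℝ → ℝ} (hf : Continuous f) {p q t : ℝ} (hpq : p < q)
    (han : ∀ s ∈ Icc p q, t ≤ f s → AnalyticAt ℝ f s)
    (hfin : {s ∈ Icc p q | f s = t}.Finite)
    (hp : ∃ r > 0, ∀ s ∈ Ioo p (p + r), t < f s)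
    (hq : ∃ r > 0, ∀ s ∈ Ioo (q - r) q, t < f s) :
    ∫ s in {s ∈ Icc p q | t ≤ f s}, deriv (deriv f) s ≤ deriv f q - deriv f p := by
  obtain ⟨r, hr, hpr⟩ := hp
  obtain ⟨r', hr', hqr⟩ := hq
  set p' := min (p + r / 2) ((p + q) / 2) with hp'
  set q' := max (q - r' / 2) ((p + q) / 2) with hq'
  have hpp' : p < p' := lt_min (by linarith) (by linarith)
  have hqq' : q' < q := max_lt (by linarith) (by linarith)
  have hp'q' : p' ≤ q' := le_trans (min_le_right _ _) (le_max_right _ _)
  have hp'r : p' < p + r := lt_of_le_of_lt (min_le_left _ _) (by linarith)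
  have hq'r : q - r' < q' := lt_of_lt_of_le (by linarith) (le_max_left _ _)
  -- values at the end points
  have hfp : t ≤ f p := by
    have h1 : Tendsto f (𝓝[>] p) (𝓝 (f p)) := hf.continuousAt.continuousWithinAt
    refine ge_of_tendsto h1 ?_
    filter_upwards [Ioo_mem_nhdsGT (show p < p + r by linarith)] with s hs
    exact (hpr s hs).le
  have hfq : t ≤ f q := by
    have h1 : Tendsto f (𝓝[<] q) (𝓝 (f q)) := hf.continuousAt.continuousWithinAt
    refine ge_of_tendsto h1 ?_
    filter_upwards [Ioo_mem_nhdsLT (show q - r' < q by linarith)] with s hs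
    exact (hqr s hs).le
  have hP : ∀ s ∈ Icc p p', t ≤ f s := by
    intro s hs
    rcases eq_or_lt_of_le hs.1 with h | h
    · rw [← h]; exact hfp
    · exact (hpr s ⟨h, lt_of_le_of_lt hs.2 hp'r⟩).le
  have hQ : ∀ s ∈ Icc q' q, t ≤ f s := by
    intro s hs
    rcases eq_or_lt_of_le hs.2 with h | h
    · rw [h]; exact hfq
    · exact (hqr s ⟨lt_of_lt_of_le hq'r hs.1, h⟩).le
  have hmid := superlevel_deriv2 hf hp'q'
    (fun s hs h => han s ⟨le_trans hpp'.le hs.1, le_trans hs.2 hqq'.le⟩ h)
    (hfin.subset fun s hs => ⟨⟨le_trans hpp'.le hs.1.1, le_trans hs.1.2 hqq'.le⟩, hs.2⟩)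
  rw [if_pos (hqr q' ⟨hq'r, hqq'⟩), if_pos (hpr p' ⟨hpp', hp'r⟩), conv_int hf hp'q'] at hmid
  rw [conv_int hf hpq.le]
  have hF := F_integrable hf hpq.le han
  have hmono : ∀ a b, a ∈ Icc p q → b ∈ Icc p q →
      IntervalIntegrable ({s | t ≤ f s}.indicator (deriv (deriv f))) volume a b := by
    intro a b ha hb
    refine hF.mono_set ?_
    rw [uIcc_of_le hpq.le]
    exact uIcc_subset_Icc ha hb
  have mp : p ∈ Icc p q := ⟨le_rfl, hpq.le⟩
  have mq : q ∈ Icc p q := ⟨hpq.le, le_rfl⟩
  have mp' : p' ∈ Icc p q := ⟨hpp'.le, le_trans hp'q' hqq'.le⟩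
  have mq' : q' ∈ Icc p q := ⟨le_trans hpp'.le hp'q', hqq'.le⟩
  have hsplit := intervalIntegral.integral_add_adjacent_intervals (hmono p p' mp mp')
    (hmono p' q mp' mq)
  have hsplit2 := intervalIntegral.integral_add_adjacent_intervals (hmono p' q' mp' mq')
    (hmono q' q mq' mq)
  -- FTC on end pieces
  have hftc : ∀ a b, a ≤ b → a ∈ Icc p q → b ∈ Icc p q → (∀ s ∈ Icc a b, t ≤ f s) →
      ∫ s in a..b, ({s | t ≤ f s}.indicator (deriv (deriv f)) s) = deriv f b - deriv f a := by
    intro a b hab ha hb hab2
    have h1 : ∫ s in a..b, ({s | t ≤ f s}.indicator (deriv (deriv f)) s) =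
        ∫ s in a..b, deriv (deriv f) s := by
      refine intervalIntegral.integral_congr fun s hs => ?_
      rw [uIcc_of_le hab] at hs
      exact indicator_of_mem (s := {s | t ≤ f s}) (hab2 s hs) (deriv (deriv f))
    have han' : ∀ s ∈ Icc a b, AnalyticAt ℝ f s := fun s hs =>
      han s ⟨le_trans ha.1 hs.1, le_trans hs.2 hb.2⟩ (hab2 s hs)
    rw [h1]
    refine intervalIntegral.integral_eq_sub_of_hasDerivAt (fun s hs => ?_) ?_
    · rw [uIcc_of_le hab] at hs
      exact (han' s hs).deriv.differentiableAt.hasDerivAt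
    · apply ContinuousOn.intervalIntegrable
      rw [uIcc_of_le hab]
      intro s hs
      exact ((han' s hs).deriv.deriv.continuousAt).continuousWithinAt
  have e1 := hftc p p' hpp'.le mp mp' hP
  have e2 := hftc q' q hqq'.le mq' mq hQ
  linarith

end J717

alias second_test := J717.second_test
alias superlevel_deriv2 := J717.superlevel_deriv2
alias superlevel_deriv2' := J717.superlevel_deriv2'

end LE
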