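import Mathlib
import Pool.Agent.Helper714.LE.Defs
import Pool.Agent.Helper714.LE.J715
import Pool.Agent.Helper714.LE.J717

open Set MeasureTheory Filter Topology Metric

namespace LE

namespace J736

theorem left_info {f : ℝ → ℝ} (hf : Continuous f) {p c t : ℝ} (hpc : p < c) (hc : t < f c)
    (hfin : {s ∈ Icc p c | f s = t}.Finite) (hex : ∃ s ∈ Icc p c, f s < t) :
    ∃ a, p < a ∧ a < c ∧ f a = t ∧ (∀ s ∈ Icc a c, t ≤ f s) ∧
      ∃ r > 0, p ≤ a - r ∧ ∀ s ∈ Ioo (a - r) a, f s < t := by
  set A : Set ℝ := {s ∈ Icc p c | f s < t} with hA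
  obtain ⟨s₀, hs₀, hs₀t⟩ := hex
  have hne : A.Nonempty := ⟨s₀, hs₀, hs₀t⟩
  have hbdd : BddAbove A := ⟨c, fun s hs => hs.1.2⟩
  set a := sSup A with ha
  have has₀ : s₀ ≤ a := le_csSup hbdd ⟨hs₀, hs₀t⟩
  have hac : a ≤ c := csSup_le hne fun s hs => hs.1.2
  have hpa : p ≤ a := hs₀.1.trans has₀
  have hge : ∀ s, a < s → s ≤ c → t ≤ f s := by
    intro s hs hsc
    by_contra hcon
    push Not at hcon
    exact absurd (le_csSup hbdd ⟨⟨hpa.trans hs.le, hsc⟩, hcon⟩) (not_le.mpr hs)
  have hfa : f a ≤ t := by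
    have hcl : a ∈ closure A := csSup_mem_closure hne hbdd
    have : closure A ⊆ {s | f s ≤ t} := by
      apply closure_minimal
      · intro s hs; exact hs.2.le
      · exact isClosed_le hf continuous_const
    exact this hcl
  have hac' : a < c := lt_of_le_of_ne hac fun he => by
    rw [he] at hfa; linarith
  have hfa' : t ≤ f a := by
    have hcl : a ∈ closure (Ioo a c) := by
      rw [closure_Ioo hac'.ne]; exact ⟨le_rfl, hac⟩
    have : closure (Ioo a c) ⊆ {s | t ≤ f s} := by
      apply closure_minimal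
      · intro s hs; exact hge s hs.1 hs.2.le
      · exact isClosed_le continuous_const hf
    exact this hcl
  have hfat : f a = t := le_antisymm hfa hfa'
  have hs₀a : s₀ < a := lt_of_le_of_ne has₀ fun he => by
    rw [he] at hs₀t; linarith
  -- points of `A` close to `a`
  have hnear : ∀ b < a, ∃ s ∈ A, b < s ∧ s < a := by
    intro b hb
    obtain ⟨s, hs, hbs⟩ := exists_lt_of_lt_csSup hne hb
    refine ⟨s, hs, hbs, lt_of_le_of_ne (le_csSup hbdd hs) fun he => ?_⟩
    have := hs.2
    rw [he] at this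
    linarith
  -- no zeros close to `a` on the left
  have hzero : ∃ b, s₀ ≤ b ∧ b < a ∧ ∀ s ∈ Ioo b a, f s ≠ t := by
    have hfin2 : ({s ∈ Icc p c | f s = t} ∩ Iio a ∪ {s₀}).Finite :=
      (hfin.inter_of_left _).union (finite_singleton _)
    obtain ⟨b, hb, hbmax⟩ := hfin2.exists_maximal ⟨s₀, Or.inr rfl⟩
    have hba : b < a := by
      rcases hb with hb | hb
      · exact hb.2
      · rw [mem_singleton_iff.mp hb]; exact hs₀a
    refine ⟨b, ?_, hba, ?_⟩
    · rcases le_total s₀ b with h | h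
      · exact h
      · exact hbmax (Or.inr rfl) h
    · intro s hs hst
      have hsb : s ≤ b := by
        refine hbmax (Or.inl ⟨⟨⟨?_, hs.2.le.trans hac⟩, hst⟩, hs.2⟩) hs.1.le
        have : s₀ ≤ b := by
          rcases le_total s₀ b with h | h
          · exact h
          · exact hbmax (Or.inr rfl) h
        linarith [hs₀.1, hs.1]
      exact absurd hsb (not_le.mpr hs.1)
  obtain ⟨b, hs₀b, hba, hb⟩ := hzero
  refine ⟨a, lt_of_le_of_lt hs₀.1 hs₀a, hac', hfat, fun s hs => ?_, a - b, by linarith,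
    by linarith [hs₀.1], ?_⟩
  · rcases hs.1.eq_or_lt with h | h
    · rw [← h]; exact hfa'
    · exact hge s h hs.2
  · intro s hs
    rw [sub_sub_cancel] at hs
    by_contra hcon
    push Not at hcon
    obtain ⟨s', hs', hbs', hs'a⟩ := hnear b hba
    have hpre : IsPreconnected (Ioo b a) := isPreconnected_Ioo
    obtain ⟨z, hz, hzt⟩ := hpre.intermediate_value ⟨hbs', hs'a⟩ hs hf.continuousOn
      (show t ∈ Icc (f s') (f s) from ⟨hs'.2.le, hcon⟩)
    exact hb z hz hzt

theorem right_info {f : ℝ → ℝ} (hf : Continuous f) {p c t : ℝ} (hpc : c < p) (hc : t < f c)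
    (hfin : {s ∈ Icc c p | f s = t}.Finite) (hex : ∃ s ∈ Icc c p, f s < t) :
    ∃ b, c < b ∧ b < p ∧ f b = t ∧ (∀ s ∈ Icc c b, t ≤ f s) ∧
      ∃ r > 0, b + r ≤ p ∧ ∀ s ∈ Ioo b (b + r), f s < t := by
  have hfin' : {s ∈ Icc (-p) (-c) | f (-s) = t}.Finite := by
    refine (hfin.image fun s => -s).subset ?_
    rintro s ⟨hs, hst⟩
    exact ⟨-s, ⟨⟨by linarith [hs.2], by linarith [hs.1]⟩, hst⟩, neg_neg s⟩
  obtain ⟨s, hs, hst⟩ := hex
  obtain ⟨a, h1, h2, h3, h4, r, hr, h5, h6⟩ := left_info (f := fun s => f (-s)) (hf.comp continuous_neg)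
    (p := -p) (c := -c) (t := t) (by linarith) (by simpa using hc) hfin'
    ⟨-s, ⟨by linarith [hs.2], by linarith [hs.1]⟩, by simpa using hst⟩
  refine ⟨-a, by linarith, by linarith, h3, fun s hs => ?_, r, hr, by linarith, fun s hs => ?_⟩
  · have := h4 (-s) ⟨by linarith [hs.2], by linarith [hs.1]⟩
    simpa using this
  · have := h6 (-s) ⟨by linarith [hs.2], by linarith [hs.1]⟩
    simpa using this

theorem int_Ioo {f : ℝ → ℝ} {p q : ℝ} (hpq : p ≤ q) : ∫ s in p..q, f s = ∫ s in Ioo p q, f s := by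
  rw [intervalIntegral.integral_of_le hpq, integral_Ioc_eq_integral_Ioo]

/-- TARGET. Case where the superlevel set touches neither end of the window. -/
theorem case_neither {f : ℝ → ℝ} (hf : Continuous f) {x0 θ0 t : ℝ} (hθ0 : 0 < θ0)
    (hθ1 : θ0 < 1 / 2)
    (han : ∀ s ∈ Icc x0 (x0 + 1), t ≤ f s → AnalyticAt ℝ f s)
    (hfin : {s ∈ Icc x0 (x0 + 1) | f s = t}.Finite)
    (hvol : volume {s ∈ Icc x0 (x0 + 1) | t ≤ f s} = ENNReal.ofReal (2 * θ0))
    (hstar : star f x0 θ0 = ∫ s in {s ∈ Icc x0 (x0 + 1) | t ≤ f s}, f s)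
    (hL : ∃ r > 0, ∀ s ∈ Ioo x0 (x0 + r), f s < t)
    (hR : ∃ r > 0, ∀ s ∈ Ioo (x0 + 1 - r) (x0 + 1), f s < t)
    {P P1 : ℝ → ℝ} {P2 : ℝ} (hP : ∀ᶠ θ in 𝓝 θ0, HasDerivAt P (P1 θ) θ) (hP2 : HasDerivAt P1 P2 θ0)
    (hmax : ∀ᶠ θ in 𝓝 θ0, star f x0 θ - P θ ≤ star f x0 θ0 - P θ0) :
    ∫ s in {s ∈ Icc x0 (x0 + 1) | t ≤ f s}, deriv (deriv f) s ≤ P2 := by
  set W := Icc x0 (x0 + 1) with hW
  set S := {s ∈ W | t ≤ f s} with hS
  have hSc : IsClosed S := isClosed_Icc.inter (isClosed_le continuous_const hf)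
  have hSm : MeasurableSet S := hSc.measurableSet
  have hSW : S ⊆ W := fun s hs => hs.1
  have hSk : IsCompact S := isCompact_Icc.of_isClosed_subset hSc hSW
  obtain ⟨rL, hrL, hL⟩ := hL
  obtain ⟨rR, hrR, hR⟩ := hR
  -- boundary values
  have hfx0 : f x0 ≤ t := by
    have hcl : x0 ∈ closure (Ioo x0 (x0 + rL)) := by
      rw [closure_Ioo (by linarith)]; exact ⟨le_rfl, by linarith⟩
    have : closure (Ioo x0 (x0 + rL)) ⊆ {s | f s ≤ t} :=
      closure_minimal (fun s hs => (hL s hs).le) (isClosed_le hf continuous_const)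
    exact this hcl
  have hfx1 : f (x0 + 1) ≤ t := by
    have hcl : x0 + 1 ∈ closure (Ioo (x0 + 1 - rR) (x0 + 1)) := by
      rw [closure_Ioo (by linarith)]; exact ⟨by linarith, le_rfl⟩
    have : closure (Ioo (x0 + 1 - rR) (x0 + 1)) ⊆ {s | f s ≤ t} :=
      closure_minimal (fun s hs => (hR s hs).le) (isClosed_le hf continuous_const)
    exact this hcl
  -- a point with large value
  obtain ⟨c, hcW, hct⟩ : ∃ c ∈ W, t < f c := by
    by_contra hcon
    push Not at hcon
    have hsub : S ⊆ {s ∈ Icc x0 (x0 + 1) | f s = t} := fun s hs => ⟨hs.1, le_antisymm (hcon s hs.1) hs.2⟩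
    have := (hfin.subset hsub).measure_zero volume
    rw [hvol, ENNReal.ofReal_eq_zero] at this
    linarith
  have hc0 : x0 < c := lt_of_le_of_ne hcW.1 fun he => by rw [← he] at hct; linarith
  have hc1 : c < x0 + 1 := lt_of_le_of_ne hcW.2 fun he => by rw [he] at hct; linarith
  obtain ⟨a, ha0, hac, hfa, hage, r1, hr1, har1, hr1'⟩ := left_info hf hc0 hct
    (hfin.subset fun s hs => ⟨⟨hs.1.1, hs.1.2.trans hc1.le⟩, hs.2⟩) (by
      have hm : 0 < min rL (c - x0) := lt_min hrL (by linarith)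
      refine ⟨x0 + min rL (c - x0) / 2, ⟨by linarith, ?_⟩, hL _ ⟨by linarith, ?_⟩⟩
      · have := min_le_right rL (c - x0); linarith
      · have := min_le_left rL (c - x0); linarith)
  obtain ⟨b, hcb, hb1, hfb, hbge, r2, hr2, hbr2, hr2'⟩ := right_info hf hc1 hct
    (hfin.subset fun s hs => ⟨⟨hc0.le.trans hs.1.1, hs.1.2⟩, hs.2⟩) (by
      have hm : 0 < min rR (x0 + 1 - c) := lt_min hrR (by linarith)
      refine ⟨x0 + 1 - min rR (x0 + 1 - c) / 2, ⟨?_, by linarith⟩, hR _ ⟨?_, by linarith⟩⟩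
      · have := min_le_right rR (x0 + 1 - c); linarith
      · have := min_le_left rR (x0 + 1 - c); linarith)
  have hab : a < b := hac.trans hcb
  have hmid : ∀ s ∈ Icc a b, t ≤ f s := by
    intro s hs
    rcases le_total s c with h | h
    · exact hage s ⟨hs.1, h⟩
    · exact hbge s ⟨h, hs.2⟩
  have hmidS : Icc a b ⊆ S := fun s hs => ⟨⟨by linarith [hs.1], by linarith [hs.2]⟩, hmid s hs⟩
  have hint : ∀ F : Set ℝ, F ⊆ W → IntegrableOn f F := fun F hF =>
    (hf.continuousOn.integrableOn_Icc).mono_set hF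
  -- the function Φ
  set Φ : ℝ → ℝ := fun h => (∫ s in S, f s) + (∫ s in (a - h)..a, f s) + ∫ s in b..(b + h), f s
    with hΦ
  set m := min (min r1 r2) ((b - a) / 2) with hm
  have hm0 : 0 < m := lt_min (lt_min hr1 hr2) (by linarith)
  have hm1 : m ≤ r1 := (min_le_left _ _).trans (min_le_left _ _)
  have hm2 : m ≤ r2 := (min_le_left _ _).trans (min_le_right _ _)
  have hm3 : m ≤ (b - a) / 2 := min_le_right _ _
  have hΦle : ∀ h, |h| < m → Φ h ≤ star f x0 (θ0 + h) := by
    intro h hh
    have hh' := abs_lt.mp hh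
    rcases le_total 0 h with h0 | h0
    · have d1 : Disjoint S (Ioo (a - h) a) := by
        rw [disjoint_left]
        intro s hs hs'
        exact absurd hs.2 (not_le.mpr (hr1' s ⟨by linarith [hs'.1], hs'.2⟩))
      have d2 : Disjoint (S ∪ Ioo (a - h) a) (Ioo b (b + h)) := by
        rw [disjoint_left]
        rintro s (hs | hs) hs'
        · exact absurd hs.2 (not_le.mpr (hr2' s ⟨hs'.1, by linarith [hs'.2]⟩))
        · linarith [hs.2, hs'.1]
      have w1 : Ioo (a - h) a ⊆ W := fun s hs => ⟨by linarith [hs.1], by linarith [hs.2]⟩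
      have w2 : Ioo b (b + h) ⊆ W := fun s hs => ⟨by linarith [hs.1], by linarith [hs.2]⟩
      have e : Φ h = ∫ s in (S ∪ Ioo (a - h) a) ∪ Ioo b (b + h), f s := by
        rw [setIntegral_union d2 measurableSet_Ioo (hint _ (union_subset hSW w1)) (hint _ w2),
          setIntegral_union d1 measurableSet_Ioo (hint _ hSW) (hint _ w1), hΦ]
        simp only
        rw [int_Ioo (by linarith), int_Ioo (by linarith)]
      rw [e]
      refine le_star hf ((hSm.union measurableSet_Ioo).union measurableSet_Ioo)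
        (union_subset (union_subset hSW w1) w2) ?_
      rw [measure_union d2 measurableSet_Ioo, measure_union d1 measurableSet_Ioo, hvol,
        Real.volume_Ioo, Real.volume_Ioo, ← ENNReal.ofReal_add (by linarith) (by linarith),
        ← ENNReal.ofReal_add (by linarith) (by linarith)]
      congr 1
      ring
    · have s1 : Ioo a (a - h) ⊆ S := fun s hs => hmidS ⟨hs.1.le, by linarith [hs.2]⟩
      have s2 : Ioo (b + h) b ⊆ S := fun s hs => hmidS ⟨by linarith [hs.1], hs.2.le⟩
      have d1 : Disjoint (Ioo a (a - h)) (Ioo (b + h) b) := by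
        rw [disjoint_left]
        intro s hs hs'
        linarith [hs.2, hs'.1]
      have s12 : Ioo a (a - h) ∪ Ioo (b + h) b ⊆ S := union_subset s1 s2
      have e : Φ h = ∫ s in S \ (Ioo a (a - h) ∪ Ioo (b + h) b), f s := by
        rw [setIntegral_sdiff (measurableSet_Ioo.union measurableSet_Ioo) (hint _ hSW) s12,
          setIntegral_union d1 measurableSet_Ioo (hint _ (s1.trans hSW)) (hint _ (s2.trans hSW)), hΦ]
        simp only
        rw [intervalIntegral.integral_symm a, intervalIntegral.integral_symm (b + h),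
          int_Ioo (by linarith), int_Ioo (by linarith)]
        ring
      rw [e]
      refine le_star hf (hSm.diff (measurableSet_Ioo.union measurableSet_Ioo))
        (sdiff_subset.trans hSW) ?_
      rw [measure_sdiff s12 (measurableSet_Ioo.union measurableSet_Ioo).nullMeasurableSet
        ((measure_mono s12).trans_lt (by rw [hvol]; exact ENNReal.ofReal_lt_top)).ne, hvol,
        measure_union d1 measurableSet_Ioo, Real.volume_Ioo, Real.volume_Ioo,
        ← ENNReal.ofReal_add (by linarith) (by linarith), ← ENNReal.ofReal_sub _ (by linarith)]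
      congr 1
      ring
  have hΦ0 : Φ 0 = star f x0 θ0 := by
    rw [hstar, hΦ]
    simp
  -- local maximum
  have hlm : IsLocalMax (fun h => Φ h - P (θ0 + h)) 0 := by
    have t1 : Tendsto (fun h : ℝ => θ0 + h) (𝓝 0) (𝓝 θ0) := by
      have : Tendsto (fun h : ℝ => θ0 + h) (𝓝 0) (𝓝 (θ0 + 0)) :=
        (continuous_const.add continuous_id).tendsto 0
      rwa [add_zero] at this
    filter_upwards [t1.eventually hmax, Metric.ball_mem_nhds (0 : ℝ) hm0] with h h1 h2
    have h3 := hΦle h (by simpa using h2)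
    simp only [add_zero]
    linarith
  have hdΦ : ∀ h, HasDerivAt Φ (f (a - h) + f (b + h)) h := by
    intro h
    have i1 : HasDerivAt (fun h => ∫ s in (a - h)..a, f s) (f (a - h)) h := by
      have j1 : HasDerivAt (fun u => ∫ s in u..a, f s) (-f (a - h)) (a - h) :=
        intervalIntegral.integral_hasDerivAt_left (hf.intervalIntegrable _ _)
          (hf.stronglyMeasurableAtFilter _ _) hf.continuousAt
      have := HasDerivAt.comp_const_sub a h j1
      rwa [neg_neg] at this
    have i2 : HasDerivAt (fun h => ∫ s in b..(b + h), f s) (f (b + h)) h := by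
      have j1 : HasDerivAt (fun u => ∫ s in b..u, f s) (f (b + h)) (b + h) :=
        intervalIntegral.integral_hasDerivAt_right (hf.intervalIntegrable _ _)
          (hf.stronglyMeasurableAtFilter _ _) hf.continuousAt
      exact HasDerivAt.comp_const_add b h j1
    have := (i1.const_add (∫ s in S, f s)).add i2
    exact this
  have haS : a ∈ S := hmidS ⟨le_rfl, hab.le⟩
  have hbS : b ∈ S := hmidS ⟨hab.le, le_rfl⟩
  have hdiff : ∀ s ∈ S, DifferentiableAt ℝ f s := fun s hs => (han s hs.1 hs.2).differentiableAt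
  have hmain : deriv f b - deriv f a - P2 ≤ 0 := by
    refine second_test (g := fun h => Φ h - P (θ0 + h))
      (g1 := fun h => f (a - h) + f (b + h) - P1 (θ0 + h)) (a := 0) ?_ ?_ hlm
    · have t1 : Tendsto (fun h : ℝ => θ0 + h) (𝓝 0) (𝓝 θ0) := by
        have : Tendsto (fun h : ℝ => θ0 + h) (𝓝 0) (𝓝 (θ0 + 0)) :=
          (continuous_const.add continuous_id).tendsto 0
        rwa [add_zero] at this
      filter_upwards [t1.eventually hP] with h hh
      have j3 : HasDerivAt (fun h : ℝ => P (θ0 + h)) (P1 (θ0 + h)) h :=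
        HasDerivAt.comp_const_add θ0 h hh
      exact (hdΦ h).sub j3
    · have k1 : HasDerivAt (fun h : ℝ => f (a - h)) (-deriv f a) 0 := by
        have j1 : HasDerivAt f (deriv f a) (a - 0) := by
          rw [sub_zero]; exact (hdiff a haS).hasDerivAt
        exact HasDerivAt.comp_const_sub a 0 j1
      have k2 : HasDerivAt (fun h : ℝ => f (b + h)) (deriv f b) 0 := by
        have j1 : HasDerivAt f (deriv f b) (b + 0) := by
          rw [add_zero]; exact (hdiff b hbS).hasDerivAt
        exact HasDerivAt.comp_const_add b 0 j1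
      have k3 : HasDerivAt (fun h : ℝ => P1 (θ0 + h)) P2 0 := by
        have j1 : HasDerivAt P1 P2 (θ0 + 0) := by rw [add_zero]; exact hP2
        exact HasDerivAt.comp_const_add θ0 0 j1
      have := (k1.add k2).sub k3
      have e : deriv f b - deriv f a - P2 = -deriv f a + deriv f b - P2 := by ring
      rw [e]
      exact this
  -- the integral of the second derivative
  have hcont2 : ContinuousOn (deriv (deriv f)) S := fun s hs =>
    ((han s hs.1 hs.2).deriv.deriv.continuousAt).continuousWithinAt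
  have hint2 : IntegrableOn (deriv (deriv f)) S := hcont2.integrableOn_compact hSk
  set S1 : Set ℝ := {s ∈ Icc x0 a | t ≤ f s} with hS1
  set S3 : Set ℝ := {s ∈ Icc b (x0 + 1) | t ≤ f s} with hS3
  have hS1S : S1 ⊆ S := fun s hs => ⟨⟨hs.1.1, by linarith [hs.1.2]⟩, hs.2⟩
  have hS3S : S3 ⊆ S := fun s hs => ⟨⟨by linarith [hs.1.1], hs.1.2⟩, hs.2⟩
  have hS3m : MeasurableSet S3 :=
    (isClosed_Icc.inter (isClosed_le continuous_const hf)).measurableSet
  have hSeq : S = (S1 ∪ Icc a b) ∪ S3 := by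
    apply Subset.antisymm
    · intro s hs
      rcases le_total s a with h | h
      · exact Or.inl (Or.inl ⟨⟨hs.1.1, h⟩, hs.2⟩)
      · rcases le_total s b with h' | h'
        · exact Or.inl (Or.inr ⟨h, h'⟩)
        · exact Or.inr ⟨⟨h', hs.1.2⟩, hs.2⟩
    · exact union_subset (union_subset hS1S hmidS) hS3S
  have ad1 : AEDisjoint volume S1 (Icc a b) := by
    refine measure_mono_null (t := {a}) ?_ (by simp)
    rintro s ⟨hs, hs'⟩
    exact le_antisymm hs.1.2 hs'.1
  have ad2 : AEDisjoint volume (S1 ∪ Icc a b) S3 := by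
    refine measure_mono_null (t := {b}) ?_ (by simp)
    rintro s ⟨hs | hs, hs'⟩
    · exact absurd (hs'.1.1.trans hs.1.2) (not_le.mpr hab)
    · exact le_antisymm hs.2 hs'.1.1
  have hsplit : ∫ s in S, deriv (deriv f) s = (∫ s in S1, deriv (deriv f) s) +
      (∫ s in Icc a b, deriv (deriv f) s) + ∫ s in S3, deriv (deriv f) s := by
    conv_lhs => rw [hSeq]
    rw [setIntegral_union₀ ad2 hS3m.nullMeasurableSet
        (hint2.mono_set (union_subset hS1S hmidS)) (hint2.mono_set hS3S),
      setIntegral_union₀ ad1 measurableSet_Icc.nullMeasurableSet (hint2.mono_set hS1S)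
        (hint2.mono_set hmidS)]
  have hI1 : ∫ s in S1, deriv (deriv f) s ≤ 0 := by
    have := superlevel_deriv2 hf ha0.le (t := t)
      (fun s hs hst => han s ⟨hs.1, by linarith [hs.2]⟩ hst)
      (hfin.subset fun s hs => ⟨⟨hs.1.1, by linarith [hs.1.2]⟩, hs.2⟩)
    rwa [if_neg (by rw [hfa]; exact lt_irrefl _), if_neg (not_lt.mpr hfx0), sub_zero] at this
  have hI3 : ∫ s in S3, deriv (deriv f) s ≤ 0 := by
    have := superlevel_deriv2 hf hb1.le (t := t)
      (fun s hs hst => han s ⟨by linarith [hs.1], hs.2⟩ hst)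
      (hfin.subset fun s hs => ⟨⟨by linarith [hs.1.1], hs.1.2⟩, hs.2⟩)
    rwa [if_neg (not_lt.mpr hfx1), if_neg (by rw [hfb]; exact lt_irrefl _), sub_zero] at this
  have hI2 : ∫ s in Icc a b, deriv (deriv f) s = deriv f b - deriv f a := by
    rw [integral_Icc_eq_integral_Ioc, ← intervalIntegral.integral_of_le hab.le]
    apply intervalIntegral.integral_eq_sub_of_hasDerivAt
    · intro s hs
      rw [uIcc_of_le hab.le] at hs
      have := hmidS hs
      exact (han s this.1 this.2).deriv.differentiableAt.hasDerivAt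
    · apply ContinuousOn.intervalIntegrable
      rw [uIcc_of_le hab.le]
      exact hcont2.mono hmidS
  rw [hsplit, hI2]
  linarith

end J736

alias case_neither := J736.case_neither

end LE
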