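import Mathlib
import Pool.Agent.Helper714.LE.Defs
import Pool.Agent.Helper714.LE.J715
import Pool.Agent.Helper714.LE.J717

open Set MeasureTheory Filter Topology Metric

namespace LE

namespace J737

/-- geometry of the first exit point -/
theorem exit_point {f : ℝ → ℝ} (hf : Continuous f) {x0 t rL rR : ℝ} (hrL : 0 < rL) (hrR : 0 < rR)
    (hfin : {s ∈ Icc x0 (x0 + 1) | f s = t}.Finite)
    (hL : ∀ s ∈ Ioo x0 (x0 + rL), t < f s)
    (hR : ∀ s ∈ Ioo (x0 + 1 - rR) (x0 + 1), f s < t) :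
    t ≤ f x0 ∧ f (x0 + 1) ≤ t ∧ ∃ b r' : ℝ, x0 < b ∧ 0 < r' ∧ b + r' < x0 + 1 ∧ f b = t ∧
      (∀ s ∈ Icc x0 b, t ≤ f s) ∧ (∀ s ∈ Ioo b (b + r'), f s < t) := by
  have hx0t : t ≤ f x0 := by
    have h1 : Tendsto f (𝓝[>] x0) (𝓝 (f x0)) := hf.continuousAt.tendsto.mono_left nhdsWithin_le_nhds
    refine ge_of_tendsto h1 ?_
    filter_upwards [Ioo_mem_nhdsGT (show x0 < x0 + rL by linarith)] with s hs
    exact (hL s hs).le
  have hx1t : f (x0 + 1) ≤ t := by
    have h1 : Tendsto f (𝓝[<] (x0 + 1)) (𝓝 (f (x0 + 1))) :=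
      hf.continuousAt.tendsto.mono_left nhdsWithin_le_nhds
    refine le_of_tendsto h1 ?_
    filter_upwards [Ioo_mem_nhdsLT (show x0 + 1 - rR < x0 + 1 by linarith)] with s hs
    exact (hR s hs).le
  refine ⟨hx0t, hx1t, ?_⟩
  set D : Set ℝ := {s | s ∈ Icc x0 (x0 + 1) ∧ f s < t} with hD
  have hmem : x0 + 1 - min rR 1 / 2 ∈ D := by
    have h1 : 0 < min rR 1 := lt_min hrR one_pos
    have h2 : min rR 1 ≤ rR := min_le_left _ _
    have h3 : min rR 1 ≤ 1 := min_le_right _ _
    exact ⟨⟨by linarith, by linarith⟩, hR _ ⟨by linarith, by linarith⟩⟩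
  have hDne : D.Nonempty := ⟨_, hmem⟩
  have hDbd : BddBelow D := ⟨x0, fun s hs => hs.1.1⟩
  set b := sInf D with hb
  have hb1 : x0 + rL ≤ b := by
    refine le_csInf hDne fun s hs => ?_
    by_contra hcon
    push Not at hcon
    rcases hs.1.1.eq_or_lt with h | h
    · rw [← h] at hs
      exact absurd hs.2 (not_lt.2 hx0t)
    · exact absurd hs.2 (not_lt.2 (hL s ⟨h, hcon⟩).le)
  have hx0b : x0 < b := by linarith
  have hb2 : b < x0 + 1 := by
    have h1 : 0 < min rR 1 := lt_min hrR one_pos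
    have := csInf_le hDbd hmem
    linarith
  have hfb_le : f b ≤ t := by
    have h1 : b ∈ closure D := csInf_mem_closure hDne hDbd
    have h2 : closure D ⊆ {s | f s ≤ t} :=
      closure_minimal (fun s hs => hs.2.le) (isClosed_le hf continuous_const)
    exact h2 h1
  have hge : ∀ s ∈ Ico x0 b, t ≤ f s := by
    intro s hs
    by_contra hcon
    push Not at hcon
    have : b ≤ s := csInf_le hDbd ⟨⟨hs.1, by linarith [hs.2]⟩, hcon⟩
    linarith [hs.2]
  have hfb_ge : t ≤ f b := by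
    have h1 : Tendsto f (𝓝[<] b) (𝓝 (f b)) :=
      hf.continuousAt.tendsto.mono_left nhdsWithin_le_nhds
    refine ge_of_tendsto h1 ?_
    filter_upwards [Ioo_mem_nhdsLT hx0b] with s hs
    exact hge s ⟨hs.1.le, hs.2⟩
  have hfb : f b = t := le_antisymm hfb_le hfb_ge
  -- isolate the zero b
  have hfin' : ({s | s ∈ Icc x0 (x0 + 1) ∧ f s = t} \ {b}).Finite := hfin.subset sdiff_subset
  have hnhds : ({s | s ∈ Icc x0 (x0 + 1) ∧ f s = t} \ {b})ᶜ ∈ 𝓝 b :=
    hfin'.isClosed.isOpen_compl.mem_nhds (fun h => h.2 rfl)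
  obtain ⟨ε, hε, hball⟩ := Metric.mem_nhds_iff.1 hnhds
  set r' := min ε ((x0 + 1 - b) / 2) with hr'
  have hr'0 : 0 < r' := lt_min hε (by linarith)
  have hr'1 : r' ≤ ε := min_le_left _ _
  have hr'2 : r' ≤ (x0 + 1 - b) / 2 := min_le_right _ _
  have hnz : ∀ s ∈ Ioo b (b + r'), f s ≠ t := by
    intro s hs h
    have h1 : s ∈ ball b ε := by
      rw [Metric.mem_ball, Real.dist_eq, abs_lt]
      constructor <;> linarith [hs.1, hs.2]
    refine hball h1 ⟨⟨⟨by linarith [hs.1], by linarith [hs.2]⟩, h⟩, ?_⟩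
    intro h2
    rw [mem_singleton_iff] at h2
    linarith [hs.1]
  obtain ⟨d, hd, hdlt⟩ := exists_lt_of_csInf_lt hDne (show sInf D < b + r' by
    rw [← hb]; linarith)
  have hbd : b < d := by
    rcases (csInf_le hDbd hd).eq_or_lt with h | h
    · rw [← hb] at h
      have := hd.2
      rw [← h, hfb] at this
      exact absurd this (lt_irrefl _)
    · exact h
  refine ⟨b, r', hx0b, hr'0, by linarith, hfb, ?_, ?_⟩
  · intro s hs
    rcases hs.2.eq_or_lt with h | h
    · rw [h, hfb]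
    · exact hge s ⟨hs.1, h⟩
  · intro s hs
    by_contra hcon
    push Not at hcon
    have h1 : t ∈ uIcc (f s) (f d) := by
      rw [mem_uIcc]
      right
      exact ⟨hd.2.le, hcon⟩
    obtain ⟨z, hz, hzt⟩ := intermediate_value_uIcc (hf.continuousOn) h1
    have h2 : z ∈ Ioo b (b + r') := by
      rw [mem_uIcc] at hz
      rcases hz with ⟨h3, h4⟩ | ⟨h3, h4⟩
      · exact ⟨by linarith [hs.1], by linarith⟩
      · exact ⟨by linarith, by linarith [hs.2]⟩
    exact hnz z h2 hzt

theorem phi_pos {f : ℝ → ℝ} (hf : Continuous f) {x0 θ0 t b r' rR : ℝ} (hθ0 : 0 < θ0)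
    (hx0b : x0 < b) (hbr : b + r' < x0 + 1)
    (hR : ∀ s ∈ Ioo (x0 + 1 - rR) (x0 + 1), f s < t)
    (hlt : ∀ s ∈ Ioo b (b + r'), f s < t)
    (hvol : volume {s ∈ Icc x0 (x0 + 1) | t ≤ f s} = ENNReal.ofReal (2 * θ0))
    {h : ℝ} (h0 : 0 ≤ h) (h1 : 2 * h < r') (h2 : h < rR) :
    (∫ s in {s ∈ Icc x0 (x0 + 1) | t ≤ f s}, f s) + (∫ s in (x0 - h)..x0, f s) +
      (∫ s in b..(b + h), f s) ≤ star f (x0 - h) (θ0 + h) := by
  set S : Set ℝ := {s ∈ Icc x0 (x0 + 1) | t ≤ f s} with hS
  have hSm : MeasurableSet S :=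
    measurableSet_Icc.inter (measurableSet_le measurable_const hf.measurable)
  have hSint : IntegrableOn f S := (hf.integrableOn_Icc).mono_set (fun s hs => hs.1)
  set A := S \ {x0 + 1} with hA
  have hAm : MeasurableSet A := hSm.diff (measurableSet_singleton _)
  have hd1 : Disjoint A (Ioo (x0 - h) x0) := by
    rw [Set.disjoint_left]
    intro s hs hs'
    have := hs.1.1.1
    linarith [hs'.2]
  have hd2 : Disjoint (A ∪ Ioo (x0 - h) x0) (Ioc b (b + h)) := by
    rw [Set.disjoint_left]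
    rintro s (hs | hs) hs'
    · have h3 := hlt s ⟨hs'.1, by linarith [hs'.2]⟩
      exact absurd hs.1.2 (not_le.2 h3)
    · linarith [hs.2, hs'.1]
  have hAv : volume A = ENNReal.ofReal (2 * θ0) := by
    rw [hA, measure_sdiff_null (by simp), hvol]
  have hFv : volume ((A ∪ Ioo (x0 - h) x0) ∪ Ioc b (b + h)) = ENNReal.ofReal (2 * (θ0 + h)) := by
    rw [measure_union hd2 measurableSet_Ioc, measure_union hd1 measurableSet_Ioo, hAv,
      Real.volume_Ioo, Real.volume_Ioc, ← ENNReal.ofReal_add (by linarith) (by linarith),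
      ← ENNReal.ofReal_add (by linarith) (by linarith)]
    congr 1
    ring
  have hFs : (A ∪ Ioo (x0 - h) x0) ∪ Ioc b (b + h) ⊆ Icc (x0 - h) (x0 - h + 1) := by
    rintro s ((hs | hs) | hs)
    · have h3 := hs.1.1.1
      have h4 := hs.1.1.2
      have h5 : s ≠ x0 + 1 := fun h => hs.2 h
      have h6 : s < x0 + 1 := lt_of_le_of_ne h4 h5
      refine ⟨by linarith, ?_⟩
      by_contra hcon
      push Not at hcon
      have := hR s ⟨by linarith, h6⟩
      exact absurd hs.1.2 (not_le.2 this)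
    · exact ⟨hs.1.le, by linarith [hs.2]⟩
    · exact ⟨by linarith [hs.1], by linarith [hs.2]⟩
  have hFm : MeasurableSet ((A ∪ Ioo (x0 - h) x0) ∪ Ioc b (b + h)) :=
    (hAm.union measurableSet_Ioo).union measurableSet_Ioc
  have hle := le_star hf hFm hFs hFv
  have i1 : IntegrableOn f A := hSint.mono_set sdiff_subset
  have i2 : IntegrableOn f (Ioo (x0 - h) x0) :=
    (hf.integrableOn_Icc).mono_set Ioo_subset_Icc_self
  have i3 : IntegrableOn f (Ioc b (b + h)) := (hf.integrableOn_Icc).mono_set Ioc_subset_Icc_self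
  rw [setIntegral_union hd2 measurableSet_Ioc (i1.union i2) i3,
    setIntegral_union hd1 measurableSet_Ioo i1 i2] at hle
  have e1 : ∫ s in A, f s = ∫ s in S, f s :=
    setIntegral_congr_set (sdiff_null_ae_eq_self (by simp))
  rw [e1] at hle
  rw [intervalIntegral.integral_of_le (by linarith), intervalIntegral.integral_of_le (by linarith),
    integral_Ioc_eq_integral_Ioo (x := x0 - h)]
  exact hle

theorem phi_neg {f : ℝ → ℝ} (hf : Continuous f) {x0 θ0 t b : ℝ}
    (hx0b : x0 < b) (hb1 : b < x0 + 1)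
    (hge : ∀ s ∈ Icc x0 b, t ≤ f s)
    (hvol : volume {s ∈ Icc x0 (x0 + 1) | t ≤ f s} = ENNReal.ofReal (2 * θ0))
    {k : ℝ} (h0 : 0 ≤ k) (h1 : k < (b - x0) / 2) :
    (∫ s in {s ∈ Icc x0 (x0 + 1) | t ≤ f s}, f s) + (∫ s in (x0 + k)..x0, f s) +
      (∫ s in b..(b - k), f s) ≤ star f (x0 + k) (θ0 - k) := by
  set S : Set ℝ := {s ∈ Icc x0 (x0 + 1) | t ≤ f s} with hS
  have hSm : MeasurableSet S :=
    measurableSet_Icc.inter (measurableSet_le measurable_const hf.measurable)
  have hSint : IntegrableOn f S := (hf.integrableOn_Icc).mono_set (fun s hs => hs.1)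
  set B := Ico x0 (x0 + k) ∪ Ioc (b - k) b with hB
  have hd : Disjoint (Ico x0 (x0 + k)) (Ioc (b - k) b) := by
    rw [Set.disjoint_left]
    intro s hs hs'
    linarith [hs.2, hs'.1]
  have hBm : MeasurableSet B := measurableSet_Ico.union measurableSet_Ioc
  have hBS : B ⊆ S := by
    rintro s (hs | hs)
    · exact ⟨⟨hs.1, by linarith [hs.2]⟩, hge s ⟨hs.1, by linarith [hs.2]⟩⟩
    · exact ⟨⟨by linarith [hs.1], by linarith [hs.2]⟩, hge s ⟨by linarith [hs.1], hs.2⟩⟩
  have hBv : volume B = ENNReal.ofReal (2 * k) := by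
    rw [hB, measure_union hd measurableSet_Ioc, Real.volume_Ico, Real.volume_Ioc,
      ← ENNReal.ofReal_add (by linarith) (by linarith)]
    congr 1
    ring
  have hFv : volume (S \ B) = ENNReal.ofReal (2 * (θ0 - k)) := by
    rw [measure_sdiff hBS hBm.nullMeasurableSet (by rw [hBv]; exact ENNReal.ofReal_ne_top), hvol,
      hBv, ← ENNReal.ofReal_sub _ (by linarith)]
    congr 1
    ring
  have hFs : S \ B ⊆ Icc (x0 + k) (x0 + k + 1) := by
    intro s hs
    refine ⟨?_, by linarith [hs.1.1.2]⟩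
    by_contra hcon
    push Not at hcon
    exact hs.2 (Or.inl ⟨hs.1.1.1, hcon⟩)
  have hle := le_star hf (hSm.diff hBm) hFs hFv
  have i2 : IntegrableOn f (Ico x0 (x0 + k)) :=
    (hf.integrableOn_Icc).mono_set Ico_subset_Icc_self
  have i3 : IntegrableOn f (Ioc (b - k) b) := (hf.integrableOn_Icc).mono_set Ioc_subset_Icc_self
  rw [setIntegral_sdiff hBm hSint hBS, hB, setIntegral_union hd measurableSet_Ioc i2 i3] at hle
  rw [intervalIntegral.integral_symm x0, intervalIntegral.integral_symm (b - k),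
    intervalIntegral.integral_of_le (by linarith), intervalIntegral.integral_of_le (by linarith),
    integral_Ioc_eq_integral_Ioo (x := x0), ← integral_Ico_eq_integral_Ioo]
  linarith

/-- TARGET. Case where the superlevel set touches only the left end of the window. -/
theorem case_left {f : ℝ → ℝ} (hf : Continuous f) {x0 θ0 t : ℝ} (hθ0 : 0 < θ0)
    (hθ1 : θ0 < 1 / 2)
    (han : ∀ s ∈ Icc x0 (x0 + 1), t ≤ f s → AnalyticAt ℝ f s)
    (hfin : {s ∈ Icc x0 (x0 + 1) | f s = t}.Finite)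
    (hvol : volume {s ∈ Icc x0 (x0 + 1) | t ≤ f s} = ENNReal.ofReal (2 * θ0))
    (hstar : star f x0 θ0 = ∫ s in {s ∈ Icc x0 (x0 + 1) | t ≤ f s}, f s)
    (hL : ∃ r > 0, ∀ s ∈ Ioo x0 (x0 + r), t < f s)
    (hR : ∃ r > 0, ∀ s ∈ Ioo (x0 + 1 - r) (x0 + 1), f s < t)
    {P P1 : ℝ → ℝ} {P2 : ℝ} (hP : ∀ᶠ θ in 𝓝 θ0, HasDerivAt P (P1 θ) θ) (hP2 : HasDerivAt P1 P2 θ0)
    {lam : ℝ}
    (hmax : ∀ᶠ p : ℝ × ℝ in 𝓝 (x0, θ0),
      star f p.1 p.2 - lam * p.1 ^ 2 - P p.2 ≤ star f x0 θ0 - lam * x0 ^ 2 - P θ0) :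
    ∫ s in {s ∈ Icc x0 (x0 + 1) | t ≤ f s}, deriv (deriv f) s ≤ P2 + 2 * lam := by
  obtain ⟨rL, hrL, hL⟩ := hL
  obtain ⟨rR, hrR, hR⟩ := hR
  obtain ⟨hx0t, hx1t, b, r', hx0b, hr', hbr, hfb, hge, hlt⟩ :=
    exit_point hf hrL hrR hfin hL hR
  set S : Set ℝ := {s ∈ Icc x0 (x0 + 1) | t ≤ f s} with hS
  have hb1 : b < x0 + 1 := by linarith
  -- step 2: comparison
  set g : ℝ → ℝ := fun h => (∫ s in S, f s) + (∫ s in (x0 - h)..x0, f s) +
      (∫ s in b..(b + h), f s) - lam * (x0 - h) ^ 2 - P (θ0 + h) with hg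
  have hg0 : g 0 = star f x0 θ0 - lam * x0 ^ 2 - P θ0 := by
    simp only [hg]
    rw [sub_zero, add_zero, add_zero, intervalIntegral.integral_same,
      intervalIntegral.integral_same, hstar]
    ring
  have hcomp : ∀ᶠ h in 𝓝 (0 : ℝ), (∫ s in S, f s) + (∫ s in (x0 - h)..x0, f s) +
      (∫ s in b..(b + h), f s) ≤ star f (x0 - h) (θ0 + h) := by
    have hε : 0 < min (min (r' / 2) rR) ((b - x0) / 2) :=
      lt_min (lt_min (by linarith) hrR) (by linarith)
    filter_upwards [Ioo_mem_nhds (neg_lt_zero.2 hε) hε] with h hh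
    have h1 : h < r' / 2 := lt_of_lt_of_le hh.2 (le_trans (min_le_left _ _) (min_le_left _ _))
    have h2 : h < rR := lt_of_lt_of_le hh.2 (le_trans (min_le_left _ _) (min_le_right _ _))
    have h3 : -h < (b - x0) / 2 := by
      have := lt_of_lt_of_le (neg_lt.1 hh.1) (min_le_right _ _)
      exact this
    rcases le_total 0 h with h0 | h0
    · exact phi_pos hf hθ0 hx0b hbr hR hlt hvol h0 (by linarith) h2
    · have := phi_neg hf hx0b hb1 hge hvol (k := -h) (by linarith) h3
      rw [← sub_eq_add_neg, sub_neg_eq_add, sub_neg_eq_add] at this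
      exact this
  have hcurve : Tendsto (fun h : ℝ => (x0 - h, θ0 + h)) (𝓝 0) (𝓝 (x0, θ0)) := by
    have : Continuous fun h : ℝ => (x0 - h, θ0 + h) := by fun_prop
    have h1 := this.tendsto 0
    rwa [sub_zero, add_zero] at h1
  have hgmax : IsLocalMax g 0 := by
    have h1 := hcurve.eventually hmax
    filter_upwards [h1, hcomp] with h h2 h3
    rw [hg0]
    simp only [hg]
    linarith
  -- step 3: derivatives
  have hPev : ∀ᶠ h in 𝓝 (0 : ℝ), HasDerivAt P (P1 (θ0 + h)) (θ0 + h) := by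
    have h1 : Tendsto (fun h : ℝ => θ0 + h) (𝓝 0) (𝓝 θ0) := by
      have : Continuous fun h : ℝ => θ0 + h := by fun_prop
      have h1 := this.tendsto 0
      rwa [add_zero] at h1
    exact h1.eventually hP
  have hD1 : ∀ᶠ h in 𝓝 (0 : ℝ),
      HasDerivAt g (f (x0 - h) + f (b + h) + 2 * lam * (x0 - h) - P1 (θ0 + h)) h := by
    filter_upwards [hPev] with h hPh
    have e1 : HasDerivAt (fun h : ℝ => ∫ s in (x0 - h)..x0, f s) (f (x0 - h)) h := by
      have h2 : HasDerivAt (fun u => ∫ s in x0..u, f s) (f (x0 - h)) (x0 - h) :=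
        (hf.integral_hasStrictDerivAt x0 (x0 - h)).hasDerivAt
      have h3 : HasDerivAt (fun h : ℝ => x0 - h) (-1) h := by
        simpa using (hasDerivAt_id h).const_sub x0
      have h4 := (h2.comp h h3).neg
      have h5 : (fun h : ℝ => ∫ s in (x0 - h)..x0, f s) =
          -((fun u => ∫ s in x0..u, f s) ∘ fun h : ℝ => x0 - h) := by
        funext h
        simp only [Pi.neg_apply, Function.comp]
        rw [intervalIntegral.integral_symm]
      rw [h5]
      exact h4.congr_deriv (by ring)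
    have e2 : HasDerivAt (fun h : ℝ => ∫ s in b..(b + h), f s) (f (b + h)) h := by
      have h2 : HasDerivAt (fun u => ∫ s in b..u, f s) (f (b + h)) (b + h) :=
        (hf.integral_hasStrictDerivAt b (b + h)).hasDerivAt
      have h3 : HasDerivAt (fun h : ℝ => b + h) 1 h := by
        simpa using (hasDerivAt_id h).const_add b
      have h4 := h2.comp h h3
      rw [mul_one] at h4
      exact h4
    have e3 : HasDerivAt (fun h : ℝ => lam * (x0 - h) ^ 2) (-(2 * lam * (x0 - h))) h := by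
      have h3 : HasDerivAt (fun h : ℝ => x0 - h) (-1) h := by
        simpa using (hasDerivAt_id h).const_sub x0
      have h4 := (h3.pow 2).const_mul lam
      exact h4.congr_deriv (by ring)
    have e4 : HasDerivAt (fun h : ℝ => P (θ0 + h)) (P1 (θ0 + h)) h := by
      have h3 : HasDerivAt (fun h : ℝ => θ0 + h) 1 h := by
        simpa using (hasDerivAt_id h).const_add θ0
      have h4 := hPh.comp h h3
      rw [mul_one] at h4
      exact h4
    have e5 := (((e1.const_add (∫ s in S, f s)).add e2).sub e3).sub e4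
    exact e5.congr_deriv (by ring)
  have hanx : AnalyticAt ℝ f x0 := han x0 ⟨le_refl _, by linarith⟩ hx0t
  have hanb : AnalyticAt ℝ f b := han b ⟨hx0b.le, hb1.le⟩ hfb.ge
  have hD2 : HasDerivAt (fun h : ℝ => f (x0 - h) + f (b + h) + 2 * lam * (x0 - h) - P1 (θ0 + h))
      (-deriv f x0 + deriv f b - 2 * lam - P2) 0 := by
    have e1 : HasDerivAt (fun h : ℝ => f (x0 - h)) (-deriv f x0) 0 := by
      have h2 : HasDerivAt f (deriv f x0) (x0 - 0) := by
        rw [sub_zero]; exact hanx.differentiableAt.hasDerivAt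
      have h3 : HasDerivAt (fun h : ℝ => x0 - h) (-1) 0 := by
        simpa using (hasDerivAt_id (0 : ℝ)).const_sub x0
      have h4 := h2.comp (0 : ℝ) h3
      exact h4.congr_deriv (by ring)
    have e2 : HasDerivAt (fun h : ℝ => f (b + h)) (deriv f b) 0 := by
      have h2 : HasDerivAt f (deriv f b) (b + 0) := by
        rw [add_zero]; exact hanb.differentiableAt.hasDerivAt
      have h3 : HasDerivAt (fun h : ℝ => b + h) 1 0 := by
        simpa using (hasDerivAt_id (0 : ℝ)).const_add b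
      have h4 := h2.comp (0 : ℝ) h3
      rw [mul_one] at h4
      exact h4
    have e3 : HasDerivAt (fun h : ℝ => 2 * lam * (x0 - h)) (-(2 * lam)) 0 := by
      have h3 : HasDerivAt (fun h : ℝ => x0 - h) (-1) 0 := by
        simpa using (hasDerivAt_id (0 : ℝ)).const_sub x0
      have h4 := h3.const_mul (2 * lam)
      exact h4.congr_deriv (by ring)
    have e4 : HasDerivAt (fun h : ℝ => P1 (θ0 + h)) P2 0 := by
      have h2 : HasDerivAt P1 P2 (θ0 + 0) := by rw [add_zero]; exact hP2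
      have h3 : HasDerivAt (fun h : ℝ => θ0 + h) 1 0 := by
        simpa using (hasDerivAt_id (0 : ℝ)).const_add θ0
      have h4 := h2.comp (0 : ℝ) h3
      rw [mul_one] at h4
      exact h4
    have e5 := ((e1.add e2).add e3).sub e4
    exact e5.congr_deriv (by ring)
  have hsec := second_test hD1 hD2 hgmax
  -- step 4: the integral of f''
  have hSc : IsCompact S := by
    have : S = Icc x0 (x0 + 1) ∩ {s | t ≤ f s} := rfl
    rw [this]
    exact isCompact_Icc.inter_right (isClosed_le continuous_const hf)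
  have hdd : ContinuousOn (deriv (deriv f)) S := fun s hs =>
    ((han s hs.1 hs.2).deriv.deriv.continuousAt).continuousWithinAt
  have hddint : IntegrableOn (deriv (deriv f)) S := hdd.integrableOn_compact hSc
  set S2 : Set ℝ := {s ∈ Icc b (x0 + 1) | t ≤ f s} with hS2
  have hS2m : MeasurableSet S2 :=
    measurableSet_Icc.inter (measurableSet_le measurable_const hf.measurable)
  have hSsplit : S = Ico x0 b ∪ S2 := by
    ext s
    constructor
    · rintro ⟨⟨h1, h2⟩, h3⟩
      rcases lt_or_ge s b with h | h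
      · exact Or.inl ⟨h1, h⟩
      · exact Or.inr ⟨⟨h, h2⟩, h3⟩
    · rintro (⟨h1, h2⟩ | ⟨⟨h1, h2⟩, h3⟩)
      · exact ⟨⟨h1, by linarith⟩, hge s ⟨h1, h2.le⟩⟩
      · exact ⟨⟨by linarith, h2⟩, h3⟩
  have hdisj : Disjoint (Ico x0 b) S2 := by
    rw [Set.disjoint_left]
    intro s hs hs'
    linarith [hs.2, hs'.1.1]
  have hint1 : ∫ s in Ico x0 b, deriv (deriv f) s = deriv f b - deriv f x0 := by
    rw [integral_Ico_eq_integral_Ioo, ← integral_Ioc_eq_integral_Ioo,
      ← intervalIntegral.integral_of_le hx0b.le]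
    apply intervalIntegral.integral_eq_sub_of_hasDerivAt
    · intro s hs
      rw [uIcc_of_le hx0b.le] at hs
      exact (han s ⟨hs.1, by linarith [hs.2]⟩ (hge s hs)).deriv.differentiableAt.hasDerivAt
    · rw [intervalIntegrable_iff_integrableOn_Ioc_of_le hx0b.le]
      refine hddint.mono_set fun s hs => ⟨⟨hs.1.le, by linarith [hs.2]⟩, hge s ⟨hs.1.le, hs.2⟩⟩
  have hint2 : ∫ s in S2, deriv (deriv f) s ≤ 0 := by
    have h1 := superlevel_deriv2 hf (p := b) (q := x0 + 1) (t := t) hb1.le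
      (fun s hs hts => han s ⟨by linarith [hs.1], hs.2⟩ hts)
      (hfin.subset fun s hs => ⟨⟨by linarith [hs.1.1], hs.1.2⟩, hs.2⟩)
    rw [if_neg (not_lt.2 hx1t), if_neg (not_lt.2 hfb.le), sub_zero] at h1
    exact h1
  have hfinal : ∫ s in S, deriv (deriv f) s =
      (∫ s in Ico x0 b, deriv (deriv f) s) + ∫ s in S2, deriv (deriv f) s := by
    conv_lhs => rw [hSsplit]
    exact setIntegral_union hdisj hS2m (hddint.mono_set (by rw [hSsplit]; exact subset_union_left))
      (hddint.mono_set (by rw [hSsplit]; exact subset_union_right))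
  rw [hfinal, hint1]
  linarith

end J737

alias case_left := J737.case_left

end LE
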