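import Mathlib
import Pool.Agent.Helper714.LE.Defs
import Pool.Agent.Helper714.LE.J715
import Pool.Agent.Helper714.LE.J717

open Set MeasureTheory Filter Topology Metric

namespace LE

namespace J738

/-- the left boundary point of the last piece. -/
theorem case_right_exists_left_end {f : ℝ → ℝ} (hf : Continuous f) {x0 t r1 r2 : ℝ}
    (hfin : {s ∈ Icc x0 (x0 + 1) | f s = t}.Finite)
    (hr1 : 0 < r1) (hr2 : 0 < r2) (hr2' : r2 ≤ 1)
    (hL : ∀ s ∈ Ioo x0 (x0 + r1), f s < t)
    (hR : ∀ s ∈ Ioo (x0 + 1 - r2) (x0 + 1), t < f s) :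
    ∃ a, x0 < a ∧ a < x0 + 1 ∧ f a = t ∧ (∀ s ∈ Icc a (x0 + 1), t ≤ f s) ∧
      ∃ r > 0, x0 + r ≤ a ∧ ∀ s ∈ Ioo (a - r) a, f s < t := by
  set c := x0 + 1 - r2 / 2 with hc
  have hfc : t < f c := hR c ⟨by linarith, by linarith⟩
  set A := {s ∈ Icc x0 c | f s < t} with hA
  have hm1 : x0 + min r1 (1 - r2 / 2) / 2 ∈ A := by
    have h1 : min r1 (1 - r2 / 2) ≤ r1 := min_le_left _ _
    have h2 : min r1 (1 - r2 / 2) ≤ 1 - r2 / 2 := min_le_right _ _
    have h3 : 0 < min r1 (1 - r2 / 2) := lt_min hr1 (by linarith)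
    exact ⟨⟨by linarith, by linarith⟩, hL _ ⟨by linarith, by linarith⟩⟩
  have hbdd : BddAbove A := ⟨c, fun s hs => hs.1.2⟩
  have h3 : 0 < min r1 (1 - r2 / 2) := lt_min hr1 (by linarith)
  set a := sSup A with ha
  have hx0a : x0 < a := by
    have := le_csSup hbdd hm1
    linarith
  have hac : a ≤ c := csSup_le ⟨_, hm1⟩ fun s hs => hs.1.2
  -- f a ≤ t
  have hfa1 : f a ≤ t := by
    have hcl : IsClosed {s | f s ≤ t} := isClosed_le hf continuous_const
    have : a ∈ closure A := csSup_mem_closure ⟨_, hm1⟩ hbdd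
    have h2 : closure A ⊆ {s | f s ≤ t} := closure_minimal (fun s hs => le_of_lt hs.2) hcl
    exact h2 this
  have hac' : a < c := lt_of_le_of_ne hac (by rintro h; rw [h] at hfa1; linarith)
  have habove : ∀ s, a < s → s ≤ c → t ≤ f s := by
    intro s hs1 hs2
    by_contra hcon
    push Not at hcon
    have : s ∈ A := ⟨⟨by linarith, hs2⟩, hcon⟩
    have := le_csSup hbdd this
    linarith
  have hfa2 : t ≤ f a := by
    have hcl : IsClosed {s | t ≤ f s} := isClosed_le continuous_const hf
    have : a ∈ closure (Ioc a c) := by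
      rw [closure_Ioc hac'.ne]
      exact ⟨le_refl _, hac⟩
    have h2 : closure (Ioc a c) ⊆ {s | t ≤ f s} :=
      closure_minimal (fun s hs => habove s hs.1 hs.2) hcl
    exact h2 this
  have hfa : f a = t := le_antisymm hfa1 hfa2
  have hend : t ≤ f (x0 + 1) := by
    have hcl : IsClosed {s | t ≤ f s} := isClosed_le continuous_const hf
    have : x0 + 1 ∈ closure (Ioo (x0 + 1 - r2) (x0 + 1)) := by
      rw [closure_Ioo (by linarith)]
      exact ⟨by linarith, le_refl _⟩
    have h2 : closure (Ioo (x0 + 1 - r2) (x0 + 1)) ⊆ {s | t ≤ f s} :=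
      closure_minimal (fun s hs => (hR s hs).le) hcl
    exact h2 this
  have hge : ∀ s ∈ Icc a (x0 + 1), t ≤ f s := by
    intro s hs
    rcases eq_or_lt_of_le hs.1 with h | h
    · rw [← h]; exact hfa2
    · rcases le_or_gt s c with h' | h'
      · exact habove s h h'
      · rcases eq_or_lt_of_le hs.2 with h'' | h''
        · rw [h'']; exact hend
        · exact (hR s ⟨by linarith, h''⟩).le
  refine ⟨a, hx0a, by linarith, hfa, hge, ?_⟩
  -- no zeros near a on the left
  have hfin' : ({s ∈ Icc x0 (x0 + 1) | f s = t} \ {a}).Finite := hfin.subset sdiff_subset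
  have hopen : IsOpen ({s ∈ Icc x0 (x0 + 1) | f s = t} \ {a})ᶜ := hfin'.isClosed.isOpen_compl
  have hmem : a ∈ ({s ∈ Icc x0 (x0 + 1) | f s = t} \ {a})ᶜ := by
    simp
  obtain ⟨e, he, hball⟩ := Metric.isOpen_iff.mp hopen a hmem
  refine ⟨min e (a - x0), lt_min he (by linarith), by
    have := min_le_right e (a - x0)
    linarith, ?_⟩
  have hmin1 := min_le_left e (a - x0)
  have hmin2 := min_le_right e (a - x0)
  have hnz : ∀ s ∈ Ioo (a - min e (a - x0)) a, f s ≠ t := by
    intro s hs hfs
    have h1 : s ∈ ball a e := by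
      rw [mem_ball, Real.dist_eq, abs_lt]
      constructor <;> linarith [hs.1, hs.2]
    have h2 := hball h1
    apply h2
    refine ⟨⟨⟨by linarith [hs.1], by linarith [hs.2]⟩, hfs⟩, ?_⟩
    simp only [mem_singleton_iff]
    exact hs.2.ne
  intro s hs
  by_contra hcon
  push Not at hcon
  have hgt : t < f s := lt_of_le_of_ne hcon (hnz s hs).symm
  -- a point s' in (s,a) with f s' < t
  obtain ⟨s', hs'A, hs'⟩ := exists_lt_of_lt_csSup ⟨_, hm1⟩ (show s < sSup A from hs.2)
  have hs'a : s' < a := by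
    rcases eq_or_lt_of_le (le_csSup hbdd hs'A) with h | h
    · exfalso
      have h5 := hs'A.2
      rw [h, ← ha, hfa] at h5
      exact lt_irrefl _ h5
    · exact h
  have hivt := intermediate_value_Icc' hs'.le hf.continuousOn
  obtain ⟨z, hz, hfz⟩ := hivt ⟨hs'A.2.le, hgt.le⟩
  exact hnz z ⟨by linarith [hs.1, hz.1], by linarith [hz.2]⟩ hfz


/-- the variation. -/
theorem case_right_variation {f : ℝ → ℝ} (hf : Continuous f) {x0 θ0 t a r r1 : ℝ} (hθ0 : 0 < θ0)
    (hvol : volume {s ∈ Icc x0 (x0 + 1) | t ≤ f s} = ENNReal.ofReal (2 * θ0))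
    (hr1 : 0 < r1)
    (hL : ∀ s ∈ Ioo x0 (x0 + r1), f s < t)
    (hax : x0 < a) (hax1 : a < x0 + 1)
    (hge : ∀ s ∈ Icc a (x0 + 1), t ≤ f s)
    (hr : 0 < r) (hlt : ∀ s ∈ Ioo (a - r) a, f s < t) :
    ∀ᶠ h in 𝓝 (0:ℝ), (∫ s in {s ∈ Icc x0 (x0 + 1) | t ≤ f s}, f s) + (∫ s in (a - h)..a, f s) +
      (∫ s in (x0 + 1)..(x0 + 1 + h), f s) ≤ star f (x0 + h) (θ0 + h) := by
  set S := {s ∈ Icc x0 (x0 + 1) | t ≤ f s} with hS
  have hSm : MeasurableSet S :=
    (measurableSet_Icc).inter (measurableSet_le measurable_const hf.measurable)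
  have hSint : IntegrableOn f S :=
    (hf.continuousOn.integrableOn_compact isCompact_Icc).mono_set (fun s hs => hs.1)
  set e := min (min r1 r) (min (θ0 / 2) (min ((x0 + 1 - a) / 4) ((a - x0) / 4))) with he
  have he0 : 0 < e := by
    refine lt_min (lt_min hr1 hr) (lt_min (by linarith) (lt_min (by linarith) (by linarith)))
  have e1 : e ≤ r1 := (min_le_left _ _).trans (min_le_left _ _)
  have e2 : e ≤ r := (min_le_left _ _).trans (min_le_right _ _)
  have e3 : e ≤ θ0 / 2 := (min_le_right _ _).trans (min_le_left _ _)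
  have e4 : e ≤ (x0 + 1 - a) / 4 :=
    (min_le_right _ _).trans ((min_le_right _ _).trans (min_le_left _ _))
  have e5 : e ≤ (a - x0) / 4 :=
    (min_le_right _ _).trans ((min_le_right _ _).trans (min_le_right _ _))
  filter_upwards [Ioo_mem_nhds (show -e < 0 by linarith) he0] with h hh
  rcases le_or_gt 0 h with h0 | h0
  · -- h ≥ 0
    have hhe := hh.2
    set S' := S \ {x0} with hS'
    have hS'm : MeasurableSet S' := hSm.diff (measurableSet_singleton _)
    have hvS' : volume S' = ENNReal.ofReal (2 * θ0) := by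
      rw [hS', measure_sdiff_null (by simp), hvol]
    have hintS' : ∫ s in S', f s = ∫ s in S, f s := by
      apply setIntegral_congr_set
      exact sdiff_null_ae_eq_self (by simp)
    set I1 := Ico (a - h) a with hI1
    set I2 := Ioc (x0 + 1) (x0 + 1 + h) with hI2
    have hI1lt : ∀ s ∈ I1, f s < t := by
      intro s hs
      exact hlt s ⟨by linarith [hs.1], hs.2⟩
    have hd1 : Disjoint S' I1 := by
      rw [Set.disjoint_left]
      intro s hs1 hs2
      have := hI1lt s hs2
      have h4 : t ≤ f s := hs1.1.2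
      linarith
    have hd2 : Disjoint (S' ∪ I1) I2 := by
      rw [Set.disjoint_left]
      rintro s (hs1 | hs1) hs2
      · have h4 : s ≤ x0 + 1 := hs1.1.1.2
        linarith [hs2.1]
      · linarith [hs2.1, hs1.2]
    set F := (S' ∪ I1) ∪ I2 with hF
    have hFm : MeasurableSet F := (hS'm.union measurableSet_Ico).union measurableSet_Ioc
    have hv : volume F = ENNReal.ofReal (2 * (θ0 + h)) := by
      rw [hF, measure_union hd2 measurableSet_Ioc, measure_union hd1 measurableSet_Ico, hvS', hI1,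
        hI2, Real.volume_Ico, Real.volume_Ioc, ← ENNReal.ofReal_add (by linarith) (by linarith),
        ← ENNReal.ofReal_add (by linarith) (by linarith)]
      congr 1
      ring
    have hFx : F ⊆ Icc (x0 + h) (x0 + h + 1) := by
      rintro s ((hs | hs) | hs)
      · have h4 : s ≤ x0 + 1 := hs.1.1.2
        have h5 : x0 ≤ s := hs.1.1.1
        have h6 : s ≠ x0 := hs.2
        have h7 : x0 < s := lt_of_le_of_ne h5 h6.symm
        refine ⟨?_, by linarith⟩
        by_contra hcon
        push Not at hcon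
        have h8 := hL s ⟨h7, by linarith⟩
        have h9 : t ≤ f s := hs.1.2
        linarith
      · exact ⟨by linarith [hs.1], by linarith [hs.2]⟩
      · exact ⟨by linarith [hs.1], by linarith [hs.2]⟩
    have hi : IntegrableOn f F :=
      (hf.continuousOn.integrableOn_compact isCompact_Icc).mono_set hFx
    have hiS' : IntegrableOn f S' := hSint.mono_set sdiff_subset
    have hiI1 : IntegrableOn f I1 := hi.mono_set (fun s hs => Or.inl (Or.inr hs))
    have hiI2 : IntegrableOn f I2 := hi.mono_set (fun s hs => Or.inr hs)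
    have hval : ∫ s in F, f s = (∫ s in S, f s) + (∫ s in (a - h)..a, f s) +
      (∫ s in (x0 + 1)..(x0 + 1 + h), f s) := by
      rw [hF, setIntegral_union hd2 measurableSet_Ioc (hiS'.union hiI1) hiI2,
        setIntegral_union hd1 measurableSet_Ico hiS' hiI1, hintS',
        intervalIntegral.integral_of_le (by linarith),
        intervalIntegral.integral_of_le (by linarith), hI1, integral_Ico_eq_integral_Ioc]
    rw [← hval]
    exact le_star hf hFm hFx hv
  · -- h < 0
    have hhe := hh.1
    set I1 := Ico a (a - h) with hI1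
    set I2 := Ioc (x0 + 1 + h) (x0 + 1) with hI2
    have hI1S : I1 ⊆ S := by
      intro s hs
      exact ⟨⟨by linarith [hs.1], by linarith [hs.2]⟩, hge s ⟨hs.1, by linarith [hs.2]⟩⟩
    have hI2S : I2 ⊆ S := by
      intro s hs
      exact ⟨⟨by linarith [hs.1], by linarith [hs.2]⟩, hge s ⟨by linarith [hs.1], hs.2⟩⟩
    have hd1 : Disjoint I1 I2 := by
      rw [Set.disjoint_left]
      intro s hs1 hs2
      linarith [hs1.2, hs2.1]
    have hIm : MeasurableSet (I1 ∪ I2) := measurableSet_Ico.union measurableSet_Ioc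
    set F := S \ (I1 ∪ I2) with hF
    have hFm : MeasurableSet F := hSm.diff hIm
    have hsub : I1 ∪ I2 ⊆ S := union_subset hI1S hI2S
    have hd : Disjoint F (I1 ∪ I2) := disjoint_sdiff_left
    have hun : F ∪ (I1 ∪ I2) = S := sdiff_union_of_subset hsub
    have hvI : volume (I1 ∪ I2) = ENNReal.ofReal (- 2 * h) := by
      rw [measure_union hd1 measurableSet_Ioc, hI1, hI2, Real.volume_Ico, Real.volume_Ioc,
        ← ENNReal.ofReal_add (by linarith) (by linarith)]
      congr 1
      ring
    have hv : volume F = ENNReal.ofReal (2 * (θ0 + h)) := by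
      rw [hF, measure_sdiff hsub hIm.nullMeasurableSet (by rw [hvI]; exact ENNReal.ofReal_ne_top),
        hvol, hvI, ← ENNReal.ofReal_sub _ (by linarith)]
      congr 1
      ring
    have hFx : F ⊆ Icc (x0 + h) (x0 + h + 1) := by
      rintro s hs
      have h4 : s ≤ x0 + 1 := hs.1.1.2
      have h5 : x0 ≤ s := hs.1.1.1
      refine ⟨by linarith, ?_⟩
      by_contra hcon
      push Not at hcon
      exact hs.2 (Or.inr ⟨by linarith, h4⟩)
    have hiF : IntegrableOn f F := hSint.mono_set sdiff_subset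
    have hiI1 : IntegrableOn f I1 := hSint.mono_set hI1S
    have hiI2 : IntegrableOn f I2 := hSint.mono_set hI2S
    have hval : ∫ s in F, f s = (∫ s in S, f s) + (∫ s in (a - h)..a, f s) +
      (∫ s in (x0 + 1)..(x0 + 1 + h), f s) := by
      have h1 : ∫ s in S, f s = (∫ s in F, f s) + ((∫ s in I1, f s) + ∫ s in I2, f s) := by
        conv_lhs => rw [← hun]
        rw [setIntegral_union hd hIm hiF (hiI1.union hiI2),
          setIntegral_union hd1 measurableSet_Ioc hiI1 hiI2]
      rw [h1, intervalIntegral.integral_symm, intervalIntegral.integral_symm (x0 + 1 + h),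
        intervalIntegral.integral_of_le (by linarith),
        intervalIntegral.integral_of_le (by linarith), hI1, integral_Ico_eq_integral_Ioc]
      ring
    rw [← hval]
    exact le_star hf hFm hFx hv


/-- TARGET. Case where the superlevel set touches only the right end of the window. -/
theorem case_right {f : ℝ → ℝ} (hf : Continuous f) {x0 θ0 t : ℝ} (hθ0 : 0 < θ0)
    (hθ1 : θ0 < 1 / 2)
    (han : ∀ s ∈ Icc x0 (x0 + 1), t ≤ f s → AnalyticAt ℝ f s)
    (hfin : {s ∈ Icc x0 (x0 + 1) | f s = t}.Finite)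
    (hvol : volume {s ∈ Icc x0 (x0 + 1) | t ≤ f s} = ENNReal.ofReal (2 * θ0))
    (hstar : star f x0 θ0 = ∫ s in {s ∈ Icc x0 (x0 + 1) | t ≤ f s}, f s)
    (hL : ∃ r > 0, ∀ s ∈ Ioo x0 (x0 + r), f s < t)
    (hR : ∃ r > 0, ∀ s ∈ Ioo (x0 + 1 - r) (x0 + 1), t < f s)
    {P P1 : ℝ → ℝ} {P2 : ℝ} (hP : ∀ᶠ θ in 𝓝 θ0, HasDerivAt P (P1 θ) θ) (hP2 : HasDerivAt P1 P2 θ0)
    {lam : ℝ}
    (hmax : ∀ᶠ p : ℝ × ℝ in 𝓝 (x0, θ0),
      star f p.1 p.2 - lam * p.1 ^ 2 - P p.2 ≤ star f x0 θ0 - lam * x0 ^ 2 - P θ0) :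
    ∫ s in {s ∈ Icc x0 (x0 + 1) | t ≤ f s}, deriv (deriv f) s ≤ P2 + 2 * lam := by
  obtain ⟨r1, hr1, hL⟩ := hL
  obtain ⟨r2', hr2', hR'⟩ := hR
  obtain ⟨r2, hr2, hr21, hR⟩ : ∃ r2 : ℝ, 0 < r2 ∧ r2 ≤ 1 ∧
      ∀ s ∈ Ioo (x0 + 1 - r2) (x0 + 1), t < f s :=
    ⟨min r2' 1, lt_min hr2' one_pos, min_le_right _ _, fun s hs => hR' s
      ⟨by have := min_le_left r2' 1; linarith [hs.1], hs.2⟩⟩
  obtain ⟨a, hax, hax1, hfa, hge, r, hr, hra, hlt⟩ := case_right_exists_left_end hf hfin hr1 hr2 hr21 hL hR
  have hvar := case_right_variation hf hθ0 hvol hr1 hL hax hax1 hge hr hlt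
  have hana : AnalyticAt ℝ f a := han a ⟨hax.le, hax1.le⟩ hfa.ge
  have hanb : AnalyticAt ℝ f (x0 + 1) :=
    han (x0 + 1) ⟨by linarith, le_refl _⟩ (hge (x0 + 1) ⟨hax1.le, le_refl _⟩)
  have hxt : f x0 ≤ t := by
    have hcl : IsClosed {s | f s ≤ t} := isClosed_le hf continuous_const
    have : x0 ∈ closure (Ioo x0 (x0 + r1)) := by
      rw [closure_Ioo (by linarith)]
      exact ⟨le_refl _, by linarith⟩
    have h2 : closure (Ioo x0 (x0 + r1)) ⊆ {s | f s ≤ t} :=
      closure_minimal (fun s hs => (hL s hs).le) hcl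
    exact h2 this
  set S := {s ∈ Icc x0 (x0 + 1) | t ≤ f s} with hS
  -- the second variation
  have hsec : -deriv f a + deriv f (x0 + 1) - 2 * lam - P2 ≤ 0 := by
    set g : ℝ → ℝ := fun h => (∫ s in S, f s) + (∫ s in (a - h)..a, f s) +
      (∫ s in (x0 + 1)..(x0 + 1 + h), f s) - lam * (x0 + h) ^ 2 - P (θ0 + h) with hg
    set g1 : ℝ → ℝ := fun h => f (a - h) + f (x0 + 1 + h) - 2 * lam * (x0 + h) - P1 (θ0 + h)
      with hg1
    have htend : Tendsto (fun h : ℝ => θ0 + h) (𝓝 0) (𝓝 θ0) := by
      have : Continuous fun h : ℝ => θ0 + h := by fun_prop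
      simpa using this.tendsto 0
    have htend2 : Tendsto (fun h : ℝ => ((x0 + h, θ0 + h) : ℝ × ℝ)) (𝓝 0) (𝓝 (x0, θ0)) := by
      have : Continuous fun h : ℝ => ((x0 + h, θ0 + h) : ℝ × ℝ) := by fun_prop
      simpa using this.tendsto 0
    have h1 : ∀ᶠ h in 𝓝 (0:ℝ), HasDerivAt g (g1 h) h := by
      filter_upwards [htend.eventually hP] with h hPh
      have d1 : HasDerivAt (fun h => ∫ s in (a - h)..a, f s) (f (a - h)) h := by
        have h5 : HasDerivAt (fun u => ∫ s in u..a, f s) (-f (a - h)) (a - h) :=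
          intervalIntegral.integral_hasDerivAt_left (hf.intervalIntegrable _ _)
            (hf.stronglyMeasurableAtFilter _ _) hf.continuousAt
        have h6 : HasDerivAt (fun h : ℝ => a - h) (-1) h := by
          simpa using (hasDerivAt_id h).const_sub a
        have := h5.comp h h6
        simpa [Function.comp_def] using this
      have d2 : HasDerivAt (fun h => ∫ s in (x0 + 1)..(x0 + 1 + h), f s) (f (x0 + 1 + h)) h := by
        have h5 : HasDerivAt (fun u => ∫ s in (x0 + 1)..u, f s) (f (x0 + 1 + h)) (x0 + 1 + h) :=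
          intervalIntegral.integral_hasDerivAt_right (hf.intervalIntegrable _ _)
            (hf.stronglyMeasurableAtFilter _ _) hf.continuousAt
        have h6 : HasDerivAt (fun h : ℝ => x0 + 1 + h) 1 h := by
          simpa using (hasDerivAt_id h).const_add (x0 + 1)
        have := h5.comp h h6
        simpa [Function.comp_def] using this
      have d3 : HasDerivAt (fun h : ℝ => lam * (x0 + h) ^ 2) (2 * lam * (x0 + h)) h := by
        have h6 : HasDerivAt (fun h : ℝ => x0 + h) 1 h := by
          simpa using (hasDerivAt_id h).const_add x0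
        have := (h6.pow 2).const_mul lam
        refine this.congr_deriv ?_
        push_cast
        ring
      have d4 : HasDerivAt (fun h => P (θ0 + h)) (P1 (θ0 + h)) h := by
        have h6 : HasDerivAt (fun h : ℝ => θ0 + h) 1 h := by
          simpa using (hasDerivAt_id h).const_add θ0
        have := hPh.comp h h6
        simpa [Function.comp_def] using this
      have := (((d1.const_add (∫ s in S, f s)).add d2).sub d3).sub d4
      exact this
    have h2 : HasDerivAt g1 (-deriv f a + deriv f (x0 + 1) - 2 * lam - P2) 0 := by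
      have d1 : HasDerivAt (fun h => f (a - h)) (-deriv f a) 0 := by
        have h5 : HasDerivAt f (deriv f a) (a - 0) := by
          simpa using hana.differentiableAt.hasDerivAt
        have h6 : HasDerivAt (fun h : ℝ => a - h) (-1) 0 := by
          simpa using (hasDerivAt_id (0:ℝ)).const_sub a
        have := h5.comp 0 h6
        simpa [Function.comp_def] using this
      have d2 : HasDerivAt (fun h => f (x0 + 1 + h)) (deriv f (x0 + 1)) 0 := by
        have h5 : HasDerivAt f (deriv f (x0 + 1)) (x0 + 1 + 0) := by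
          simpa using hanb.differentiableAt.hasDerivAt
        have h6 : HasDerivAt (fun h : ℝ => x0 + 1 + h) 1 0 := by
          simpa using (hasDerivAt_id (0:ℝ)).const_add (x0 + 1)
        have := h5.comp 0 h6
        simpa [Function.comp_def] using this
      have d3 : HasDerivAt (fun h : ℝ => 2 * lam * (x0 + h)) (2 * lam) 0 := by
        have h6 : HasDerivAt (fun h : ℝ => x0 + h) 1 0 := by
          simpa using (hasDerivAt_id (0:ℝ)).const_add x0
        have := h6.const_mul (2 * lam)
        simpa using this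
      have d4 : HasDerivAt (fun h => P1 (θ0 + h)) P2 0 := by
        have h5 : HasDerivAt P1 P2 (θ0 + 0) := by simpa using hP2
        have h6 : HasDerivAt (fun h : ℝ => θ0 + h) 1 0 := by
          simpa using (hasDerivAt_id (0:ℝ)).const_add θ0
        have := h5.comp 0 h6
        simpa [Function.comp_def] using this
      exact ((d1.add d2).sub d3).sub d4
    have hm : IsLocalMax g 0 := by
      filter_upwards [hvar, htend2.eventually hmax] with h h3 h4
      simp only [hg]
      have h0 : (∫ s in S, f s) + (∫ s in (a - 0)..a, f s) +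
        (∫ s in (x0 + 1)..(x0 + 1 + 0), f s) = ∫ s in S, f s := by simp
      rw [h0, add_zero, add_zero, ← hstar]
      linarith
    exact second_test h1 h2 hm
  -- integral of the second derivative
  have hcont : ∀ s ∈ S, ContinuousAt (deriv (deriv f)) s := fun s hs =>
    (han s hs.1 hs.2).deriv.deriv.continuousAt
  have hSc : IsCompact S := isCompact_Icc.inter_right (isClosed_le continuous_const hf)
  have hSi : IntegrableOn (deriv (deriv f)) S :=
    (show ContinuousOn (deriv (deriv f)) S from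
      fun s hs => (hcont s hs).continuousWithinAt).integrableOn_compact hSc
  have hsplit : S = {s ∈ Icc x0 a | t ≤ f s} ∪ Ioc a (x0 + 1) := by
    ext s
    constructor
    · intro hs
      rcases le_or_gt s a with h | h
      · exact Or.inl ⟨⟨hs.1.1, h⟩, hs.2⟩
      · exact Or.inr ⟨h, hs.1.2⟩
    · rintro (hs | hs)
      · exact ⟨⟨hs.1.1, by linarith [hs.1.2]⟩, hs.2⟩
      · exact ⟨⟨by linarith [hs.1], hs.2⟩, hge s ⟨hs.1.le, hs.2⟩⟩
  have hdisj : Disjoint {s ∈ Icc x0 a | t ≤ f s} (Ioc a (x0 + 1)) := by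
    rw [Set.disjoint_left]
    intro s hs1 hs2
    linarith [hs1.1.2, hs2.1]
  have hI : ∫ s in S, deriv (deriv f) s =
      (∫ s in {s ∈ Icc x0 a | t ≤ f s}, deriv (deriv f) s) +
        ∫ s in Ioc a (x0 + 1), deriv (deriv f) s := by
    have hi1 : IntegrableOn (deriv (deriv f)) {s ∈ Icc x0 a | t ≤ f s} :=
      hSi.mono_set (fun s hs => by rw [hsplit]; exact Or.inl hs)
    have hi2 : IntegrableOn (deriv (deriv f)) (Ioc a (x0 + 1)) :=
      hSi.mono_set (fun s hs => by rw [hsplit]; exact Or.inr hs)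
    conv_lhs => rw [hsplit]
    exact setIntegral_union hdisj measurableSet_Ioc hi1 hi2
  have hFTC : ∫ s in Ioc a (x0 + 1), deriv (deriv f) s = deriv f (x0 + 1) - deriv f a := by
    rw [← intervalIntegral.integral_of_le hax1.le]
    apply intervalIntegral.integral_eq_sub_of_hasDerivAt
    · intro s hs
      rw [uIcc_of_le hax1.le] at hs
      have hs' : s ∈ S := ⟨⟨by linarith [hs.1], hs.2⟩, hge s hs⟩
      exact (han s hs'.1 hs'.2).deriv.differentiableAt.hasDerivAt
    · apply ContinuousOn.intervalIntegrable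
      intro s hs
      rw [uIcc_of_le hax1.le] at hs
      have hs' : s ∈ S := ⟨⟨by linarith [hs.1], hs.2⟩, hge s hs⟩
      exact (hcont s hs').continuousWithinAt
  have hfirst := superlevel_deriv2 hf hax.le
    (fun s hs h => han s ⟨hs.1, by linarith [hs.2]⟩ h)
    (hfin.subset (fun s hs => ⟨⟨hs.1.1, by linarith [hs.1.2]⟩, hs.2⟩))
  rw [if_neg (by rw [hfa]; exact lt_irrefl _), if_neg (not_lt.mpr hxt)] at hfirst
  rw [hI, hFTC]
  linarith

end J738

alias case_right := J738.case_right

end LE
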