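import Mathlib
import Pool.Agent.Helper714.LE.Defs
import Pool.Agent.Helper714.LE.J715
import Pool.Agent.Helper714.LE.J717

open Set MeasureTheory Filter Topology Metric

namespace LE

namespace J739

theorem left_edge {f : ℝ → ℝ} (hf : Continuous f) {x0 c t : ℝ} (hc : f c < t)
    (hfin : {s ∈ Icc x0 c | f s = t}.Finite) (hL : ∃ s ∈ Ioo x0 c, t < f s) :
    ∃ b, x0 < b ∧ b < c ∧ f b = t ∧ (∀ s ∈ Icc b c, f s ≤ t) ∧
      ∃ r > 0, ∀ s ∈ Ioo (b - r) b, t < f s := by
  set A := {s ∈ Icc x0 c | t < f s} with hA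
  have hne : A.Nonempty := by
    obtain ⟨s, hs, hs'⟩ := hL
    exact ⟨s, ⟨hs.1.le, hs.2.le⟩, hs'⟩
  have hbdd : BddAbove A := ⟨c, fun s hs => hs.1.2⟩
  set b := sSup A with hb
  have hbcl : b ∈ closure A := csSup_mem_closure hne hbdd
  have hbA : b ∈ {s | s ∈ Icc x0 c ∧ t ≤ f s} := by
    have hcl : IsClosed {s | s ∈ Icc x0 c ∧ t ≤ f s} :=
      isClosed_Icc.inter (isClosed_le continuous_const hf)
    have hsub : A ⊆ {s | s ∈ Icc x0 c ∧ t ≤ f s} := fun s hs => ⟨hs.1, hs.2.le⟩
    exact closure_minimal hsub hcl hbcl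
  have hbc : b < c := by
    rcases lt_or_eq_of_le hbA.1.2 with h | h
    · exact h
    · exfalso; rw [h] at hbA; linarith [hbA.2]
  have hxb : x0 < b := by
    obtain ⟨s, hs, hs'⟩ := hL
    exact lt_of_lt_of_le hs.1 (le_csSup hbdd ⟨⟨hs.1.le, hs.2.le⟩, hs'⟩)
  have hIoc : ∀ s ∈ Ioc b c, f s ≤ t := by
    intro s hs
    by_contra h
    push Not at h
    exact absurd (le_csSup hbdd ⟨⟨hxb.le.trans hs.1.le, hs.2⟩, h⟩) (not_le.2 hs.1)
  have hIcc : ∀ s ∈ Icc b c, f s ≤ t := by
    intro s hs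
    have h1 : s ∈ closure (Ioc b c) := by rw [closure_Ioc hbc.ne]; exact hs
    exact closure_minimal (fun s hs => hIoc s hs) (isClosed_le hf continuous_const) h1
  have hfb : f b = t := le_antisymm (hIcc b ⟨le_rfl, hbc.le⟩) hbA.2
  refine ⟨b, hxb, hbc, hfb, hIcc, ?_⟩
  have hZ : ({s ∈ Icc x0 c | f s = t} \ {b}).Finite := hfin.subset sdiff_subset
  have hopen : ({s ∈ Icc x0 c | f s = t} \ {b})ᶜ ∈ 𝓝 b :=
    hZ.isClosed.isOpen_compl.mem_nhds (by simp)
  obtain ⟨r, hr, hball⟩ := Metric.mem_nhds_iff.1 hopen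
  set r' := min r (b - x0) with hr'
  have hr'0 : 0 < r' := lt_min hr (by linarith)
  refine ⟨r', hr'0, ?_⟩
  have hne' : ∀ s ∈ Ioo (b - r') b, f s ≠ t := by
    intro s hs hfs
    have h1 : s ∈ ball b r := by
      rw [Metric.mem_ball, Real.dist_eq, abs_lt]
      constructor
      · linarith [hs.1, min_le_left r (b - x0)]
      · linarith [hs.2]
    have h2 := hball h1
    apply h2
    refine ⟨⟨⟨?_, ?_⟩, hfs⟩, ?_⟩
    · linarith [hs.1, min_le_right r (b - x0)]
    · linarith [hs.2]
    · exact fun h => absurd h hs.2.ne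
  obtain ⟨s1, hs1A, hs1⟩ := exists_lt_of_lt_csSup hne (show b - r' < sSup A by rw [← hb]; linarith)
  have hs1b : s1 < b := by
    rcases lt_or_eq_of_le (le_csSup hbdd hs1A) with h | h
    · exact h
    · exfalso
      have := hs1A.2
      rw [h, ← hb, hfb] at this
      exact lt_irrefl _ this
  intro s hs
  by_contra h
  push Not at h
  have hlt : f s < t := lt_of_le_of_ne h (hne' s hs)
  obtain ⟨z, hz, hfz⟩ := isPreconnected_Ioo.intermediate_value hs (show s1 ∈ Ioo (b - r') b from ⟨hs1, hs1b⟩)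
    hf.continuousOn ⟨hlt.le, hs1A.2.le⟩
  exact hne' z hz hfz

theorem right_edge {f : ℝ → ℝ} (hf : Continuous f) {x1 c t : ℝ} (hc : f c < t)
    (hfin : {s ∈ Icc c x1 | f s = t}.Finite) (hR : ∃ s ∈ Ioo c x1, t < f s) :
    ∃ a, c < a ∧ a < x1 ∧ f a = t ∧ (∀ s ∈ Icc c a, f s ≤ t) ∧
      ∃ r > 0, ∀ s ∈ Ioo a (a + r), t < f s := by
  have hg : Continuous fun s => f (-s) := hf.comp continuous_neg
  have hfin' : {s ∈ Icc (-x1) (-c) | f (-s) = t}.Finite := by
    have : {s ∈ Icc (-x1) (-c) | f (-s) = t} = (fun s : ℝ => -s) ⁻¹' {s ∈ Icc c x1 | f s = t} := by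
      ext s
      simp only [mem_ofPred_eq, mem_preimage, mem_Icc]
      constructor
      · rintro ⟨⟨h1, h2⟩, h3⟩
        exact ⟨⟨by linarith, by linarith⟩, h3⟩
      · rintro ⟨⟨h1, h2⟩, h3⟩
        exact ⟨⟨by linarith, by linarith⟩, h3⟩
    rw [this]
    exact hfin.preimage (neg_injective.injOn)
  obtain ⟨b, h1, h2, h3, h4, r, hr, h5⟩ := left_edge (f := fun s => f (-s)) hg (x0 := -x1) (c := -c) (t := t)
    (by simpa using hc) hfin' (by
      obtain ⟨s, hs, hs'⟩ := hR
      exact ⟨-s, ⟨by linarith [hs.2], by linarith [hs.1]⟩, by simpa using hs'⟩)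
  refine ⟨-b, by linarith, by linarith, h3, ?_, r, hr, ?_⟩
  · intro s hs
    have := h4 (-s) ⟨by linarith [hs.2], by linarith [hs.1]⟩
    simpa using this
  · intro s hs
    have := h5 (-s) ⟨by linarith [hs.2], by linarith [hs.1]⟩
    simpa using this

theorem union3 {f : ℝ → ℝ} (hf : Continuous f) {T : Set ℝ} (hT : MeasurableSet T) {lo hi : ℝ}
    (hTb : T ⊆ Icc lo hi) {p q u v : ℝ} (hpq : p ≤ q) (hqu : q < u) (huv : u ≤ v)
    (hd1 : Disjoint T (Icc p q)) (hd2 : Disjoint T (Icc u v)) :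
    volume (T ∪ Icc p q ∪ Icc u v) = volume T + ENNReal.ofReal (q - p) + ENNReal.ofReal (v - u) ∧
    ∫ s in T ∪ Icc p q ∪ Icc u v, f s = (∫ s in T, f s) + (∫ s in p..q, f s) + ∫ s in u..v, f s := by
  have hd3 : Disjoint (T ∪ Icc p q) (Icc u v) := by
    rw [disjoint_union_left]
    refine ⟨hd2, ?_⟩
    rw [Set.disjoint_left]
    intro s hs hs'
    linarith [hs.2, hs'.1]
  have hiI : ∀ x y : ℝ, IntegrableOn f (Icc x y) := fun x y =>
    hf.continuousOn.integrableOn_compact isCompact_Icc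
  have hiT : IntegrableOn f T := (hiI lo hi).mono_set hTb
  constructor
  · rw [measure_union hd3 measurableSet_Icc, measure_union hd1 measurableSet_Icc, Real.volume_Icc,
      Real.volume_Icc]
  · rw [setIntegral_union hd3 measurableSet_Icc (hiT.union (hiI p q)) (hiI u v),
      setIntegral_union hd1 measurableSet_Icc hiT (hiI p q), integral_Icc_eq_integral_Ioc,
      integral_Icc_eq_integral_Ioc, intervalIntegral.integral_of_le hpq,
      intervalIntegral.integral_of_le huv]

theorem ae_eq_of_null {U S Z : Set ℝ} (h1 : U ⊆ S) (h2 : S ⊆ U ∪ Z) (hZ : volume Z = 0) :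
    U =ᵐ[volume] S := by
  rw [ae_eq_set]
  constructor
  · rw [sdiff_eq_empty.2 h1]; simp
  · apply measure_mono_null _ hZ
    intro s hs
    rcases h2 hs.1 with h | h
    · exact absurd h hs.2
    · exact h

theorem hasDerivAt_upper {f : ℝ → ℝ} (hf : Continuous f) (p b h : ℝ) :
    HasDerivAt (fun h => ∫ s in p..(b + h), f s) (f (b + h)) h := by
  have h1 : HasDerivAt (fun u => ∫ x in p..u, f x) (f (b + h)) (b + h) :=
    (hf.integral_hasStrictDerivAt p (b + h)).hasDerivAt
  exact h1.comp_const_add b h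

theorem hasDerivAt_lower {f : ℝ → ℝ} (hf : Continuous f) (v a h : ℝ) :
    HasDerivAt (fun h => ∫ s in (a - h)..v, f s) (f (a - h)) h := by
  have h1 : HasDerivAt (fun u => ∫ x in v..u, f x) (f (a - h)) (a - h) :=
    (hf.integral_hasStrictDerivAt v (a - h)).hasDerivAt
  have h2 := (h1.comp_const_sub a h).neg
  have h3 : (fun h => ∫ s in (a - h)..v, f s) = fun x => -∫ x in v..(a - x), f x := by
    funext x
    rw [intervalIntegral.integral_symm]
  rw [h3]
  rw [neg_neg] at h2
  exact h2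

theorem hasDerivAt_lower' {f : ℝ → ℝ} (hf : Continuous f) (v a h : ℝ) :
    HasDerivAt (fun h => ∫ s in (a + h)..v, f s) (-f (a + h)) h := by
  have h2 := (hasDerivAt_upper hf v a h).neg
  have h3 : (fun h => ∫ s in (a + h)..v, f s) = fun x => -∫ x in v..(a + x), f x := by
    funext x
    rw [intervalIntegral.integral_symm]
  rw [h3]
  exact h2

/-- TARGET. Case where the superlevel set touches both ends of the window. -/
theorem case_both {f : ℝ → ℝ} (hf : Continuous f) {x0 θ0 t : ℝ} (hθ0 : 0 < θ0)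
    (hθ1 : θ0 < 1 / 2)
    (han : ∀ s ∈ Icc x0 (x0 + 1), t ≤ f s → AnalyticAt ℝ f s)
    (hfin : {s ∈ Icc x0 (x0 + 1) | f s = t}.Finite)
    (hvol : volume {s ∈ Icc x0 (x0 + 1) | t ≤ f s} = ENNReal.ofReal (2 * θ0))
    (hstar : star f x0 θ0 = ∫ s in {s ∈ Icc x0 (x0 + 1) | t ≤ f s}, f s)
    (hL : ∃ r > 0, ∀ s ∈ Ioo x0 (x0 + r), t < f s)
    (hR : ∃ r > 0, ∀ s ∈ Ioo (x0 + 1 - r) (x0 + 1), t < f s)
    {P P1 : ℝ → ℝ} {P2 : ℝ} (hP : ∀ᶠ θ in 𝓝 θ0, HasDerivAt P (P1 θ) θ) (hP2 : HasDerivAt P1 P2 θ0)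
    {lam : ℝ}
    (hmax : ∀ᶠ p : ℝ × ℝ in 𝓝 (x0, θ0),
      star f p.1 p.2 - lam * p.1 ^ 2 - P p.2 ≤ star f x0 θ0 - lam * x0 ^ 2 - P θ0) :
    ∫ s in {s ∈ Icc x0 (x0 + 1) | t ≤ f s}, deriv (deriv f) s ≤ P2 + 2 * lam := by
  set S := {s ∈ Icc x0 (x0 + 1) | t ≤ f s} with hS
  have hScl : IsClosed S := isClosed_Icc.inter (isClosed_le continuous_const hf)
  have hSm : MeasurableSet S := hScl.measurableSet
  have hSW : S ⊆ Icc x0 (x0 + 1) := fun s hs => hs.1
  have hZ0 : volume {s ∈ Icc x0 (x0 + 1) | f s = t} = 0 := hfin.measure_zero _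
  have hLs := hL
  have hRs := hR
  obtain ⟨rL, hrL, hL⟩ := hL
  obtain ⟨rR, hrR, hR⟩ := hR
  have hf0 : t ≤ f x0 := by
    have h1 : x0 ∈ closure (Ioo x0 (x0 + rL)) := by
      rw [closure_Ioo (by linarith)]
      exact ⟨le_rfl, by linarith⟩
    exact closure_minimal (fun s hs => (hL s hs).le) (isClosed_le continuous_const hf) h1
  have hf1 : t ≤ f (x0 + 1) := by
    have h1 : x0 + 1 ∈ closure (Ioo (x0 + 1 - rR) (x0 + 1)) := by
      rw [closure_Ioo (by linarith)]
      exact ⟨by linarith, le_rfl⟩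
    exact closure_minimal (fun s hs => (hR s hs).le) (isClosed_le continuous_const hf) h1
  obtain ⟨c, hcW, hfc⟩ : ∃ c ∈ Icc x0 (x0 + 1), f c < t := by
    by_contra h
    push Not at h
    have h1 : S = Icc x0 (x0 + 1) := by
      ext s
      exact ⟨fun h => h.1, fun hs => ⟨hs, h s hs⟩⟩
    rw [h1, Real.volume_Icc, ENNReal.ofReal_eq_ofReal_iff (by linarith) (by linarith)] at hvol
    linarith
  have hxc : x0 < c := lt_of_le_of_ne hcW.1 (by rintro rfl; linarith)
  have hcx : c < x0 + 1 := lt_of_le_of_ne hcW.2 (by rintro rfl; linarith)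
  obtain ⟨b, hxb, hbc, hfb, hbI, rb, hrb, hb⟩ := left_edge hf (x0 := x0) (c := c) (t := t) hfc
    (hfin.subset fun s hs => ⟨⟨hs.1.1, hs.1.2.trans hcx.le⟩, hs.2⟩) (by
      refine ⟨x0 + min rL (c - x0) / 2, ⟨?_, ?_⟩, hL _ ⟨?_, ?_⟩⟩
      · have : 0 < min rL (c - x0) := lt_min hrL (by linarith)
        linarith
      · have : 0 < min rL (c - x0) := lt_min hrL (by linarith)
        linarith [min_le_right rL (c - x0)]
      · have : 0 < min rL (c - x0) := lt_min hrL (by linarith)
        linarith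
      · have : 0 < min rL (c - x0) := lt_min hrL (by linarith)
        linarith [min_le_left rL (c - x0)])
  obtain ⟨a, hca, hax, hfa, haI, ra, hra, ha⟩ := right_edge hf (x1 := x0 + 1) (c := c) (t := t) hfc
    (hfin.subset fun s hs => ⟨⟨hxc.le.trans hs.1.1, hs.1.2⟩, hs.2⟩) (by
      have : 0 < min rR (x0 + 1 - c) := lt_min hrR (by linarith)
      refine ⟨x0 + 1 - min rR (x0 + 1 - c) / 2, ⟨?_, ?_⟩, hR _ ⟨?_, ?_⟩⟩
      · linarith [min_le_right rR (x0 + 1 - c)]
      · linarith
      · linarith [min_le_left rR (x0 + 1 - c)]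
      · linarith)
  obtain ⟨r, hr, h1, h2, h3, h4, h5, h6, h7⟩ : ∃ r > 0, 4 * r ≤ rL ∧ 4 * r ≤ rR ∧ 4 * r ≤ rb ∧
      4 * r ≤ ra ∧ 4 * r ≤ b - x0 ∧ 4 * r ≤ x0 + 1 - a ∧ 4 * r ≤ a - b := by
    refine ⟨min (min (min rL rR) (min rb ra)) (min (min (b - x0) (x0 + 1 - a)) (a - b)) / 4,
      ?_, ?_, ?_, ?_, ?_, ?_, ?_, ?_⟩
    · have : 0 < min (min (min rL rR) (min rb ra)) (min (min (b - x0) (x0 + 1 - a)) (a - b)) :=
        lt_min (lt_min (lt_min hrL hrR) (lt_min hrb hra))
          (lt_min (lt_min (by linarith) (by linarith)) (by linarith))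
      linarith
    · linarith [min_le_left (min (min rL rR) (min rb ra)) (min (min (b - x0) (x0 + 1 - a)) (a - b)),
        min_le_left (min rL rR) (min rb ra), min_le_left rL rR]
    · linarith [min_le_left (min (min rL rR) (min rb ra)) (min (min (b - x0) (x0 + 1 - a)) (a - b)),
        min_le_left (min rL rR) (min rb ra), min_le_right rL rR]
    · linarith [min_le_left (min (min rL rR) (min rb ra)) (min (min (b - x0) (x0 + 1 - a)) (a - b)),
        min_le_right (min rL rR) (min rb ra), min_le_left rb ra]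
    · linarith [min_le_left (min (min rL rR) (min rb ra)) (min (min (b - x0) (x0 + 1 - a)) (a - b)),
        min_le_right (min rL rR) (min rb ra), min_le_right rb ra]
    · linarith [min_le_right (min (min rL rR) (min rb ra)) (min (min (b - x0) (x0 + 1 - a)) (a - b)),
        min_le_left (min (b - x0) (x0 + 1 - a)) (a - b), min_le_left (b - x0) (x0 + 1 - a)]
    · linarith [min_le_right (min (min rL rR) (min rb ra)) (min (min (b - x0) (x0 + 1 - a)) (a - b)),
        min_le_left (min (b - x0) (x0 + 1 - a)) (a - b), min_le_right (b - x0) (x0 + 1 - a)]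
    · linarith [min_le_right (min (min rL rR) (min rb ra)) (min (min (b - x0) (x0 + 1 - a)) (a - b)),
        min_le_right (min (b - x0) (x0 + 1 - a)) (a - b)]
  have hdiff : ∀ s ∈ Icc x0 (x0 + 1), t ≤ f s → HasDerivAt f (deriv f s) s := fun s hs hts =>
    (han s hs hts).differentiableAt.hasDerivAt
  have hdb : HasDerivAt f (deriv f b) b := hdiff b ⟨hxb.le, by linarith⟩ hfb.ge
  have hda : HasDerivAt f (deriv f a) a := hdiff a ⟨by linarith, hax.le⟩ hfa.ge
  have hd0 : HasDerivAt f (deriv f x0) x0 := hdiff x0 ⟨le_rfl, by linarith⟩ hf0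
  have hd1 : HasDerivAt f (deriv f (x0 + 1)) (x0 + 1) := hdiff _ ⟨by linarith, le_rfl⟩ hf1
  -- step 2
  have key2 : deriv f b - deriv f a - P2 ≤ 0 := by
    set T := S \ Icc (b - r) (a + r) with hT
    have hTm : MeasurableSet T := hSm.diff measurableSet_Icc
    have hTW : T ⊆ Icc x0 (x0 + 1) := fun s hs => hSW hs.1
    have hU : ∀ h, |h| < r →
        volume (T ∪ Icc (b - r) (b + h) ∪ Icc (a - h) (a + r)) = volume T + ENNReal.ofReal (r + h)
          + ENNReal.ofReal (r + h) ∧
        ∫ s in T ∪ Icc (b - r) (b + h) ∪ Icc (a - h) (a + r), f s =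
          (∫ s in T, f s) + (∫ s in (b - r)..(b + h), f s) + ∫ s in (a - h)..(a + r), f s := by
      intro h hh
      rw [abs_lt] at hh
      have := union3 hf hTm hTW (p := b - r) (q := b + h) (u := a - h) (v := a + r)
        (by linarith) (by linarith) (by linarith)
        (by
          rw [Set.disjoint_left]
          intro s hs hs'
          exact hs.2 ⟨hs'.1, by linarith [hs'.2]⟩)
        (by
          rw [Set.disjoint_left]
          intro s hs hs'
          exact hs.2 ⟨by linarith [hs'.1], hs'.2⟩)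
      rw [show b + h - (b - r) = r + h by ring, show a + r - (a - h) = r + h by ring] at this
      exact this
    have hae : (T ∪ Icc (b - r) (b + 0) ∪ Icc (a - 0) (a + r) : Set ℝ) =ᵐ[volume] S := by
      apply ae_eq_of_null _ _ hZ0
      · rintro s ((hs | hs) | hs)
        · exact hs.1
        · refine ⟨⟨by linarith [hs.1], by linarith [hs.2]⟩, ?_⟩
          rcases eq_or_lt_of_le hs.2 with h | h
          · rw [h, add_zero, hfb]
          · exact (hb s ⟨by linarith [hs.1], by linarith⟩).le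
        · refine ⟨⟨by linarith [hs.1], by linarith [hs.2]⟩, ?_⟩
          rcases eq_or_lt_of_le hs.1 with h | h
          · rw [← h, sub_zero, hfa]
          · exact (ha s ⟨by linarith, by linarith [hs.2]⟩).le
      · intro s hs
        by_cases hsT : s ∈ Icc (b - r) (a + r)
        · by_cases h8 : s ≤ b
          · left; left; right; exact ⟨hsT.1, by linarith⟩
          · by_cases h9 : a ≤ s
            · left; right; exact ⟨by linarith, hsT.2⟩
            · right
              refine ⟨hs.1, le_antisymm ?_ hs.2⟩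
              push Not at h8 h9
              by_cases h10 : s ≤ c
              · exact hbI s ⟨h8.le, h10⟩
              · exact haI s ⟨(not_le.1 h10).le, h9.le⟩
        · left; left; left; exact ⟨hs, hsT⟩
    have hTfin : volume T ≠ ⊤ := by
      apply ne_of_lt
      calc volume T ≤ volume (Icc x0 (x0 + 1)) := measure_mono hTW
        _ < ⊤ := by rw [Real.volume_Icc]; exact ENNReal.ofReal_lt_top
    obtain ⟨τ, hτ0, hτ⟩ : ∃ τ : ℝ, 0 ≤ τ ∧ volume T = ENNReal.ofReal τ :=
      ⟨(volume T).toReal, ENNReal.toReal_nonneg, (ENNReal.ofReal_toReal hTfin).symm⟩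
    have hθτ : 2 * θ0 = τ + r + r := by
      have h0 := (hU 0 (by simpa using hr)).1
      rw [measure_congr hae, hvol, hτ, add_zero, ← ENNReal.ofReal_add hτ0 hr.le,
        ← ENNReal.ofReal_add (by linarith) hr.le,
        ENNReal.ofReal_eq_ofReal_iff (by linarith) (by linarith)] at h0
      exact h0
    set Φ : ℝ → ℝ := fun h => (∫ s in T, f s) + (∫ s in (b - r)..(b + h), f s)
      + ∫ s in (a - h)..(a + r), f s with hΦ
    have hΦ0 : Φ 0 = star f x0 θ0 := by
      rw [hstar, ← setIntegral_congr_set hae, (hU 0 (by simpa using hr)).2]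
    have hΦle : ∀ h, |h| < r → Φ h ≤ star f x0 (θ0 + h) := by
      intro h hh
      have hh' := abs_lt.1 hh
      obtain ⟨hv, hi⟩ := hU h hh
      rw [hΦ]
      simp only
      rw [← hi]
      apply le_star hf
      · exact (hTm.union measurableSet_Icc).union measurableSet_Icc
      · rintro s ((hs | hs) | hs)
        · exact hTW hs
        · exact ⟨by linarith [hs.1], by linarith [hs.2]⟩
        · exact ⟨by linarith [hs.1], by linarith [hs.2]⟩
      · rw [hv, hτ, ← ENNReal.ofReal_add hτ0 (by linarith), ← ENNReal.ofReal_add (by linarith) (by linarith)]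
        congr 1
        linarith
    have hnear : ∀ᶠ h : ℝ in 𝓝 0, |h| < r := by
      have : ball (0 : ℝ) r ∈ 𝓝 (0 : ℝ) := ball_mem_nhds _ hr
      filter_upwards [this] with h hh
      simpa [Real.dist_eq] using hh
    have htend : Tendsto (fun h : ℝ => θ0 + h) (𝓝 0) (𝓝 θ0) := by
      have : Tendsto (fun h : ℝ => θ0 + h) (𝓝 0) (𝓝 (θ0 + 0)) :=
        (continuous_const.add continuous_id).tendsto 0
      simpa using this
    refine second_test (g := fun h => Φ h - P (θ0 + h))
      (g1 := fun h => f (b + h) + f (a - h) - P1 (θ0 + h)) (a := 0) ?_ ?_ ?_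
    · filter_upwards [htend.eventually hP] with h hh
      have e1 : HasDerivAt Φ (f (b + h) + f (a - h)) h :=
        ((hasDerivAt_upper hf (b - r) b h).const_add _).add (hasDerivAt_lower hf (a + r) a h)
      exact e1.sub (hh.comp_const_add θ0 h)
    · have e1 : HasDerivAt (fun h => f (b + h)) (deriv f b) 0 := by
        have : HasDerivAt f (deriv f b) (b + 0) := by simpa using hdb
        exact this.comp_const_add b 0
      have e2 : HasDerivAt (fun h => f (a - h)) (-deriv f a) 0 := by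
        have : HasDerivAt f (deriv f a) (a - 0) := by simpa using hda
        exact this.comp_const_sub a 0
      have e3 : HasDerivAt (fun h => P1 (θ0 + h)) P2 0 := by
        have : HasDerivAt P1 P2 (θ0 + 0) := by simpa using hP2
        exact this.comp_const_add θ0 0
      have e4 := (e1.add e2).sub e3
      rw [← sub_eq_add_neg] at e4
      exact e4
    · have hm2 : ∀ᶠ h : ℝ in 𝓝 0, star f x0 (θ0 + h) - lam * x0 ^ 2 - P (θ0 + h) ≤
          star f x0 θ0 - lam * x0 ^ 2 - P θ0 := by
        have : Tendsto (fun h : ℝ => (x0, θ0 + h)) (𝓝 0) (𝓝 (x0, θ0)) :=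
          tendsto_const_nhds.prodMk_nhds htend
        exact this.eventually hmax
      filter_upwards [hm2, hnear] with h hh1 hh2
      have := hΦle h hh2
      simp only [add_zero]
      rw [hΦ0]
      linarith
  -- step 3
  have key3 : deriv f (x0 + 1) - deriv f x0 - 2 * lam ≤ 0 := by
    set T := S ∩ Ioo (x0 + r) (x0 + 1 - r) with hT
    have hTm : MeasurableSet T := hSm.inter measurableSet_Ioo
    have hTW : T ⊆ Icc x0 (x0 + 1) := fun s hs => hSW hs.1
    have hU : ∀ h, |h| < r →
        volume (T ∪ Icc (x0 + h) (x0 + r) ∪ Icc (x0 + 1 - r) (x0 + 1 + h)) =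
          volume T + ENNReal.ofReal (r - h) + ENNReal.ofReal (r + h) ∧
        ∫ s in T ∪ Icc (x0 + h) (x0 + r) ∪ Icc (x0 + 1 - r) (x0 + 1 + h), f s =
          (∫ s in T, f s) + (∫ s in (x0 + h)..(x0 + r), f s) +
            ∫ s in (x0 + 1 - r)..(x0 + 1 + h), f s := by
      intro h hh
      rw [abs_lt] at hh
      have := union3 hf hTm hTW (p := x0 + h) (q := x0 + r) (u := x0 + 1 - r) (v := x0 + 1 + h)
        (by linarith) (by linarith) (by linarith)
        (by
          rw [Set.disjoint_left]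
          intro s hs hs'
          linarith [hs.2.1, hs'.2])
        (by
          rw [Set.disjoint_left]
          intro s hs hs'
          linarith [hs.2.2, hs'.1])
      rw [show x0 + r - (x0 + h) = r - h by ring,
        show x0 + 1 + h - (x0 + 1 - r) = r + h by ring] at this
      exact this
    have hae : T ∪ Icc (x0 + 0) (x0 + r) ∪ Icc (x0 + 1 - r) (x0 + 1 + 0) = S := by
      apply Subset.antisymm
      · rintro s ((hs | hs) | hs)
        · exact hs.1
        · refine ⟨⟨by linarith [hs.1], by linarith [hs.2]⟩, ?_⟩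
          rcases eq_or_lt_of_le hs.1 with h | h
          · rw [← h, add_zero]; exact hf0
          · exact (hL s ⟨by linarith, by linarith [hs.2]⟩).le
        · refine ⟨⟨by linarith [hs.1], by linarith [hs.2]⟩, ?_⟩
          rcases eq_or_lt_of_le hs.2 with h | h
          · rw [h, add_zero]; exact hf1
          · exact (hR s ⟨by linarith [hs.1], by linarith⟩).le
      · intro s hs
        by_cases h8 : s ≤ x0 + r
        · left; right; exact ⟨by linarith [hs.1.1], h8⟩
        · by_cases h9 : x0 + 1 - r ≤ s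
          · right; exact ⟨h9, by linarith [hs.1.2]⟩
          · left; left; exact ⟨hs, not_le.1 h8, not_le.1 h9⟩
    have hTfin : volume T ≠ ⊤ := by
      apply ne_of_lt
      calc volume T ≤ volume (Icc x0 (x0 + 1)) := measure_mono hTW
        _ < ⊤ := by rw [Real.volume_Icc]; exact ENNReal.ofReal_lt_top
    obtain ⟨τ, hτ0, hτ⟩ : ∃ τ : ℝ, 0 ≤ τ ∧ volume T = ENNReal.ofReal τ :=
      ⟨(volume T).toReal, ENNReal.toReal_nonneg, (ENNReal.ofReal_toReal hTfin).symm⟩
    have hθτ : 2 * θ0 = τ + r + r := by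
      have h0 := (hU 0 (by simpa using hr)).1
      rw [hae, hvol, hτ, add_zero, sub_zero, ← ENNReal.ofReal_add hτ0 hr.le,
        ← ENNReal.ofReal_add (by linarith) hr.le,
        ENNReal.ofReal_eq_ofReal_iff (by linarith) (by linarith)] at h0
      exact h0
    set Φ : ℝ → ℝ := fun h => (∫ s in T, f s) + (∫ s in (x0 + h)..(x0 + r), f s)
      + ∫ s in (x0 + 1 - r)..(x0 + 1 + h), f s with hΦ
    have hΦ0 : Φ 0 = star f x0 θ0 := by
      rw [hstar, ← hae, (hU 0 (by simpa using hr)).2]
    have hΦle : ∀ h, |h| < r → Φ h ≤ star f (x0 + h) θ0 := by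
      intro h hh
      have hh' := abs_lt.1 hh
      obtain ⟨hv, hi⟩ := hU h hh
      rw [hΦ]
      simp only
      rw [← hi]
      apply le_star hf
      · exact (hTm.union measurableSet_Icc).union measurableSet_Icc
      · rintro s ((hs | hs) | hs)
        · exact ⟨by linarith [hs.2.1], by linarith [hs.2.2]⟩
        · exact ⟨by linarith [hs.1], by linarith [hs.2]⟩
        · exact ⟨by linarith [hs.1], by linarith [hs.2]⟩
      · rw [hv, hτ, ← ENNReal.ofReal_add hτ0 (by linarith), ← ENNReal.ofReal_add (by linarith) (by linarith)]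
        congr 1
        linarith
    have hnear : ∀ᶠ h : ℝ in 𝓝 0, |h| < r := by
      have : ball (0 : ℝ) r ∈ 𝓝 (0 : ℝ) := ball_mem_nhds _ hr
      filter_upwards [this] with h hh
      simpa [Real.dist_eq] using hh
    have htend : Tendsto (fun h : ℝ => x0 + h) (𝓝 0) (𝓝 x0) := by
      have : Tendsto (fun h : ℝ => x0 + h) (𝓝 0) (𝓝 (x0 + 0)) :=
        (continuous_const.add continuous_id).tendsto 0
      simpa using this
    have hsec := second_test (g := fun h => Φ h - lam * (x0 + h) ^ 2)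
      (g1 := fun h => (-f (x0 + h) + f (x0 + 1 + h)) - lam * (2 * (x0 + h)))
      (g2 := (-deriv f x0 + deriv f (x0 + 1)) - lam * 2) (a := 0) ?_ ?_ ?_
    · linarith
    · refine Eventually.of_forall fun h => ?_
      have e1 : HasDerivAt Φ (-f (x0 + h) + f (x0 + 1 + h)) h :=
        ((hasDerivAt_lower' hf (x0 + r) x0 h).const_add _).add
          (hasDerivAt_upper hf (x0 + 1 - r) (x0 + 1) h)
      have e2 : HasDerivAt (fun h => lam * (x0 + h) ^ 2) (lam * (2 * (x0 + h))) h := by
        have e3 : HasDerivAt (fun h => x0 + h) 1 h := (hasDerivAt_id h).const_add x0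
        have e4 := (e3.pow 2).const_mul lam
        simpa using e4
      exact e1.sub e2
    · have e1 : HasDerivAt (fun h => f (x0 + h)) (deriv f x0) 0 := by
        have : HasDerivAt f (deriv f x0) (x0 + 0) := by simpa using hd0
        exact this.comp_const_add x0 0
      have e2 : HasDerivAt (fun h => f (x0 + 1 + h)) (deriv f (x0 + 1)) 0 := by
        have : HasDerivAt f (deriv f (x0 + 1)) (x0 + 1 + 0) := by simpa using hd1
        exact this.comp_const_add (x0 + 1) 0
      have e3 : HasDerivAt (fun h => lam * (2 * (x0 + h))) (lam * 2) 0 := by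
        have e4 : HasDerivAt (fun h => x0 + h) 1 (0 : ℝ) := (hasDerivAt_id (0 : ℝ)).const_add x0
        have e5 := (e4.const_mul 2).const_mul lam
        simpa using e5
      exact (e1.neg.add e2).sub e3
    · have hm2 : ∀ᶠ h : ℝ in 𝓝 0, star f (x0 + h) θ0 - lam * (x0 + h) ^ 2 - P θ0 ≤
          star f x0 θ0 - lam * x0 ^ 2 - P θ0 := by
        have : Tendsto (fun h : ℝ => (x0 + h, θ0)) (𝓝 0) (𝓝 (x0, θ0)) :=
          htend.prodMk_nhds tendsto_const_nhds
        exact this.eventually hmax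
      filter_upwards [hm2, hnear] with h hh1 hh2
      have := hΦle h hh2
      simp only [add_zero]
      rw [hΦ0]
      linarith
  -- step 4
  set S1 := {s ∈ Icc x0 b | t ≤ f s} with hS1
  set S2 := {s ∈ Icc a (x0 + 1) | t ≤ f s} with hS2
  have hS2cl : IsClosed S2 := isClosed_Icc.inter (isClosed_le continuous_const hf)
  have hS1cl : IsClosed S1 := isClosed_Icc.inter (isClosed_le continuous_const hf)
  have hae : (S1 ∪ S2 : Set ℝ) =ᵐ[volume] S := by
    apply ae_eq_of_null _ _ hZ0
    · rintro s (hs | hs)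
      · exact ⟨⟨hs.1.1, by linarith [hs.1.2]⟩, hs.2⟩
      · exact ⟨⟨by linarith [hs.1.1], hs.1.2⟩, hs.2⟩
    · intro s hs
      by_cases h8 : s ≤ b
      · left; left; exact ⟨⟨hs.1.1, h8⟩, hs.2⟩
      · by_cases h9 : a ≤ s
        · left; right; exact ⟨⟨h9, hs.1.2⟩, hs.2⟩
        · right
          refine ⟨hs.1, le_antisymm ?_ hs.2⟩
          push Not at h8 h9
          by_cases h10 : s ≤ c
          · exact hbI s ⟨h8.le, h10⟩
          · exact haI s ⟨(not_le.1 h10).le, h9.le⟩
  have hdisj : Disjoint S1 S2 := by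
    rw [Set.disjoint_left]
    intro s hs hs'
    linarith [hs.1.2, hs'.1.1]
  have hint : IntegrableOn (deriv (deriv f)) S := by
    apply ContinuousOn.integrableOn_compact (isCompact_Icc.of_isClosed_subset hScl hSW)
    intro s hs
    exact (han s hs.1 hs.2).deriv.deriv.continuousAt.continuousWithinAt
  have hI1 : IntegrableOn (deriv (deriv f)) S1 :=
    hint.mono_set fun s hs => ⟨⟨hs.1.1, by linarith [hs.1.2]⟩, hs.2⟩
  have hI2 : IntegrableOn (deriv (deriv f)) S2 :=
    hint.mono_set fun s hs => ⟨⟨by linarith [hs.1.1], hs.1.2⟩, hs.2⟩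
  rw [← setIntegral_congr_set hae, setIntegral_union hdisj hS2cl.measurableSet hI1 hI2]
  have k1 := superlevel_deriv2' hf hxb (fun s hs hts => han s ⟨hs.1, by linarith [hs.2]⟩ hts)
    (hfin.subset fun s hs => ⟨⟨hs.1.1, by linarith [hs.1.2]⟩, hs.2⟩) ⟨rL, hrL, hL⟩ ⟨rb, hrb, hb⟩
  have k2 := superlevel_deriv2' hf hax (fun s hs hts => han s ⟨by linarith [hs.1], hs.2⟩ hts)
    (hfin.subset fun s hs => ⟨⟨by linarith [hs.1.1], hs.1.2⟩, hs.2⟩) ⟨ra, hra, ha⟩ ⟨rR, hrR, hR⟩
  linarith

end J739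

alias case_both := J739.case_both

end LE
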