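import Mathlib
import Pool.Agent.Helper714.LE.Defs
import Pool.Agent.Helper714.LE.J736
import Pool.Agent.Helper714.LE.J737
import Pool.Agent.Helper714.LE.J738
import Pool.Agent.Helper714.LE.J739

open Set MeasureTheory Filter Topology Metric

namespace LE

namespace J771

/-- One-sided constant sign near `a` on the right. -/
theorem sign_aux {f : ℝ → ℝ} (hf : Continuous f) {t a b : ℝ} (hab : a < b)
    (hne : ∀ s ∈ Ioo a b, f s ≠ t) :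
    (∀ s ∈ Ioo a b, t < f s) ∨ (∀ s ∈ Ioo a b, f s < t) := by
  by_contra hcon
  push Not at hcon
  obtain ⟨⟨u, hu, hfu⟩, ⟨v, hv, hfv⟩⟩ := hcon
  have hpre : IsPreconnected (Ioo a b) := isPreconnected_Ioo
  have := hpre.intermediate_value hu hv hf.continuousOn
  obtain ⟨s, hs, hfs⟩ := this ⟨hfu, hfv⟩
  exact hne s hs hfs

/-- TARGET. -/
theorem star_superlevel {f : ℝ → ℝ} (hf : Continuous f) {x0 θ0 t : ℝ} (hθ0 : 0 < θ0)
    (hθ1 : θ0 < 1 / 2)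
    (han : ∀ s ∈ Icc x0 (x0 + 1), t ≤ f s → AnalyticAt ℝ f s)
    (hfin : {s ∈ Icc x0 (x0 + 1) | f s = t}.Finite)
    (hvol : volume {s ∈ Icc x0 (x0 + 1) | t ≤ f s} = ENNReal.ofReal (2 * θ0))
    (hstar : star f x0 θ0 = ∫ s in {s ∈ Icc x0 (x0 + 1) | t ≤ f s}, f s)
    {P P1 : ℝ → ℝ} {P2 : ℝ} (hP : ∀ᶠ θ in 𝓝 θ0, HasDerivAt P (P1 θ) θ) (hP2 : HasDerivAt P1 P2 θ0)
    {lam : ℝ} (hlam : 0 ≤ lam)
    (hmax : ∀ᶠ p : ℝ × ℝ in 𝓝 (x0, θ0),
      star f p.1 p.2 - lam * p.1 ^ 2 - P p.2 ≤ star f x0 θ0 - lam * x0 ^ 2 - P θ0) :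
    ∫ s in {s ∈ Icc x0 (x0 + 1) | t ≤ f s}, deriv (deriv f) s ≤ P2 + 2 * lam := by
  have hS : ({s ∈ Icc x0 (x0 + 1) | f s = t} \ {x0}).Finite := hfin.subset sdiff_subset
  have hS' : ({s ∈ Icc x0 (x0 + 1) | f s = t} \ {x0 + 1}).Finite := hfin.subset sdiff_subset
  have h1 : ({s ∈ Icc x0 (x0 + 1) | f s = t} \ {x0})ᶜ ∈ 𝓝 x0 :=
    hS.isClosed.isOpen_compl.mem_nhds (by simp)
  have h2 : ({s ∈ Icc x0 (x0 + 1) | f s = t} \ {x0 + 1})ᶜ ∈ 𝓝 (x0 + 1) :=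
    hS'.isClosed.isOpen_compl.mem_nhds (by simp)
  obtain ⟨e1, he1, hb1⟩ := Metric.mem_nhds_iff.1 h1
  obtain ⟨e2, he2, hb2⟩ := Metric.mem_nhds_iff.1 h2
  have hL0 : ∀ s ∈ Ioo x0 (x0 + min e1 1), f s ≠ t := by
    intro s hs hst
    have hlt1 : s < x0 + e1 := lt_of_lt_of_le hs.2 (by gcongr; exact min_le_left _ _)
    have hlt2 : s < x0 + 1 := lt_of_lt_of_le hs.2 (by gcongr; exact min_le_right _ _)
    have hmem : s ∈ Metric.ball x0 e1 := by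
      rw [Metric.mem_ball, Real.dist_eq, abs_lt]; constructor <;> linarith [hs.1]
    exact hb1 hmem ⟨⟨⟨hs.1.le, hlt2.le⟩, hst⟩, fun h => by
      have h' : s = x0 := h
      linarith [hs.1]⟩
  have hR0 : ∀ s ∈ Ioo (x0 + 1 - min e2 1) (x0 + 1), f s ≠ t := by
    intro s hs hst
    have hlt1 : x0 + 1 - e2 < s := lt_of_le_of_lt (by gcongr; exact min_le_left _ _) hs.1
    have hlt2 : x0 + 1 - 1 < s := lt_of_le_of_lt (by gcongr; exact min_le_right _ _) hs.1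
    have hmem : s ∈ Metric.ball (x0 + 1) e2 := by
      rw [Metric.mem_ball, Real.dist_eq, abs_lt]; constructor <;> linarith [hs.2]
    exact hb2 hmem ⟨⟨⟨by linarith, hs.2.le⟩, hst⟩, fun h => by
      have h' : s = x0 + 1 := h
      linarith [hs.2]⟩
  have hp1 : (0 : ℝ) < min e1 1 := lt_min he1 one_pos
  have hp2 : (0 : ℝ) < min e2 1 := lt_min he2 one_pos
  have hLs := sign_aux hf (a := x0) (b := x0 + min e1 1) (by linarith) hL0
  have hRs := sign_aux hf (a := x0 + 1 - min e2 1) (b := x0 + 1) (by linarith) hR0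
  rcases hLs with hL | hL <;> rcases hRs with hR | hR
  · exact case_both hf hθ0 hθ1 han hfin hvol hstar ⟨_, hp1, hL⟩ ⟨_, hp2, hR⟩ hP hP2 hmax
  · exact case_left hf hθ0 hθ1 han hfin hvol hstar ⟨_, hp1, hL⟩ ⟨_, hp2, hR⟩ hP hP2 hmax
  · exact case_right hf hθ0 hθ1 han hfin hvol hstar ⟨_, hp1, hL⟩ ⟨_, hp2, hR⟩ hP hP2 hmax
  · have hmax' : ∀ᶠ θ in 𝓝 θ0, star f x0 θ - P θ ≤ star f x0 θ0 - P θ0 := by
      have hc : Continuous (fun θ : ℝ => ((x0, θ) : ℝ × ℝ)) := by fun_prop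
      have ht : Tendsto (fun θ : ℝ => ((x0, θ) : ℝ × ℝ)) (𝓝 θ0) (𝓝 (x0, θ0)) := hc.tendsto θ0
      filter_upwards [ht.eventually hmax] with θ hθ
      have hθ1 : star f x0 θ - lam * x0 ^ 2 - P θ ≤ star f x0 θ0 - lam * x0 ^ 2 - P θ0 := hθ
      linarith
    have := case_neither hf hθ0 hθ1 han hfin hvol hstar ⟨_, hp1, hL⟩ ⟨_, hp2, hR⟩ hP hP2 hmax'
    linarith

end J771

alias star_superlevel := J771.star_superlevel

end LE
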