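import Mathlib
import Pool.Agent.Helper714.LE.Defs

open Set MeasureTheory Filter Topology Metric

namespace LE

namespace J716

theorem exists_sub {A : Set ℝ} {x : ℝ} (hA : MeasurableSet A) (hAx : A ⊆ Icc x (x + 1)) {r : ℝ}
    (hr0 : 0 ≤ r) (hr : ENNReal.ofReal r ≤ volume A) :
    ∃ B : Set ℝ, MeasurableSet B ∧ B ⊆ A ∧ volume B = ENNReal.ofReal r := by
  have hfin : ∀ B : Set ℝ, B ⊆ A → volume B ≠ ⊤ := by
    intro B hB
    have : volume B ≤ volume (Icc x (x + 1)) := measure_mono (hB.trans hAx)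
    exact ne_top_of_le_ne_top (by simp) this
  let g : ℝ → ℝ := fun c => volume.real (A ∩ Iic c)
  have hmono : ∀ c d, c ≤ d → g c ≤ g d := by
    intro c d hcd
    exact measureReal_mono (inter_subset_inter_right _ (Iic_subset_Iic.2 hcd)) (hfin _ inter_subset_left)
  have hlip : ∀ c d, c ≤ d → g d ≤ g c + (d - c) := by
    intro c d hcd
    have h1 : A ∩ Iic d ⊆ (A ∩ Iic c) ∪ Ioc c d := by
      rintro s ⟨hs, hsd⟩
      by_cases h : s ≤ c
      · exact Or.inl ⟨hs, h⟩
      · exact Or.inr ⟨not_le.1 h, hsd⟩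
    have h2 : g d ≤ volume.real ((A ∩ Iic c) ∪ Ioc c d) := by
      refine measureReal_mono h1 ?_
      refine (measure_union_lt_top (lt_top_iff_ne_top.2 (hfin _ inter_subset_left)) ?_).ne
      simp
    have h3 := measureReal_union_le (μ := volume) (A ∩ Iic c) (Ioc c d)
    have h4 : volume.real (Ioc c d) = d - c := by
      rw [Real.volume_real_Ioc_of_le hcd]
    linarith
  have hcont : Continuous g := by
    have : LipschitzWith 1 g := by
      refine LipschitzWith.of_dist_le_mul ?_
      intro c d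
      simp only [NNReal.coe_one, one_mul]
      rw [Real.dist_eq, Real.dist_eq]
      rcases le_total c d with h | h
      · have := hmono c d h
        have := hlip c d h
        rw [abs_sub_comm (g c), abs_sub_comm c, abs_of_nonneg (by linarith), abs_of_nonneg (by linarith)]
        linarith
      · have := hmono d c h
        have := hlip d c h
        rw [abs_of_nonneg (by linarith), abs_of_nonneg (by linarith)]
        linarith
    exact this.continuous
  have hg0 : g x = 0 := by
    have : A ∩ Iic x ⊆ {x} := by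
      rintro s ⟨hs, hsx⟩
      exact le_antisymm hsx (hAx hs).1
    have h2 : volume (A ∩ Iic x) = 0 := measure_mono_null this (by simp)
    simp [g, Measure.real, h2]
  have hg1 : g (x + 1) = volume.real A := by
    have : A ∩ Iic (x + 1) = A := by
      apply inter_eq_left.2
      intro s hs
      exact (hAx hs).2
    simp [g, this]
  have hr' : r ≤ volume.real A := by
    have := ENNReal.toReal_mono (hfin A subset_rfl) hr
    rwa [ENNReal.toReal_ofReal hr0] at this
  have hiv := intermediate_value_Icc (show x ≤ x + 1 by linarith) hcont.continuousOn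
  have : r ∈ Icc (g x) (g (x + 1)) := ⟨by rw [hg0]; exact hr0, by rw [hg1]; exact hr'⟩
  obtain ⟨c, -, hc⟩ := hiv this
  refine ⟨A ∩ Iic c, hA.inter measurableSet_Iic, inter_subset_left, ?_⟩
  rw [← hc]
  exact (ENNReal.ofReal_toReal (hfin _ inter_subset_left)).symm

theorem intOn {f : ℝ → ℝ} (hf : Continuous f) {x : ℝ} {A : Set ℝ} (hA : A ⊆ Icc x (x + 1)) :
    IntegrableOn f A volume :=
  (hf.continuousOn.integrableOn_compact isCompact_Icc).mono_set hA

theorem star_upper {f : ℝ → ℝ} (hf : Continuous f) (x : ℝ) {θ t : ℝ} 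
    {F : Set ℝ} (hF : MeasurableSet F) (h1 : {s ∈ Icc x (x + 1) | t < f s} ⊆ F)
    (h2 : F ⊆ {s ∈ Icc x (x + 1) | t ≤ f s}) (hFv : volume F = ENNReal.ofReal (2 * θ)) 
    {G : Set ℝ} (hG : MeasurableSet G) (hGx : G ⊆ Icc x (x + 1))
    (hGv : volume G = ENNReal.ofReal (2 * θ)) : ∫ s in G, f s ≤ ∫ s in F, f s := by
  have hFx : F ⊆ Icc x (x + 1) := fun s hs => (h2 hs).1
  have hct : Continuous (fun s => f s - t) := by fun_prop
  have hcm : Continuous (fun s => max (f s - t) 0) := by fun_prop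
  have e : ∀ H : Set ℝ, MeasurableSet H → H ⊆ Icc x (x + 1) → volume H = ENNReal.ofReal (2 * θ) → 
      ∫ s in H, (f s - t) = (∫ s in H, f s) - (ENNReal.ofReal (2 * θ)).toReal * t := by
    intro H hH hHx hHv
    rw [integral_sub (intOn hf hHx) (intOn continuous_const hHx)]
    simp [Measure.real, hHv]
  have a1 : ∫ s in G, (f s - t) ≤ ∫ s in G, max (f s - t) 0 := by
    refine setIntegral_mono_on (intOn hct hGx) (intOn hcm hGx) hG ?_
    intro s _
    exact le_max_left _ _
  have a2 : ∫ s in G, max (f s - t) 0 ≤ ∫ s in Icc x (x + 1), max (f s - t) 0 := by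
    refine setIntegral_mono_set (intOn hcm subset_rfl) ?_ ?_
    · exact Eventually.of_forall fun s => le_max_right _ _
    · exact LE.le.eventuallyLE hGx
  have a3 : ∫ s in Icc x (x + 1), max (f s - t) 0 = ∫ s in F, max (f s - t) 0 := by
    refine setIntegral_eq_of_subset_of_forall_sdiff_eq_zero measurableSet_Icc hFx ?_
    rintro s ⟨hs, hsF⟩
    have : ¬ t < f s := fun h => hsF (h1 ⟨hs, h⟩)
    exact max_eq_right (by linarith [not_lt.1 this])
  have a4 : ∫ s in F, max (f s - t) 0 = ∫ s in F, (f s - t) := by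
    refine setIntegral_congr_fun hF ?_
    intro s hs
    have := (h2 hs).2
    exact max_eq_left (by linarith)
  have := e F hF hFx hFv
  have := e G hG hGx hGv
  linarith

theorem star_eq {f : ℝ → ℝ} (hf : Continuous f) (x : ℝ) {θ t : ℝ} 
    {F : Set ℝ} (hF : MeasurableSet F) (h1 : {s ∈ Icc x (x + 1) | t < f s} ⊆ F)
    (h2 : F ⊆ {s ∈ Icc x (x + 1) | t ≤ f s}) (hFv : volume F = ENNReal.ofReal (2 * θ)) :
    star f x θ = ∫ s in F, f s := by
  have hFx : F ⊆ Icc x (x + 1) := fun s hs => (h2 hs).1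
  refine IsGreatest.csSup_eq ⟨⟨F, hF, hFx, hFv, rfl⟩, ?_⟩
  rintro v ⟨G, hG, hGx, hGv, rfl⟩
  exact star_upper hf x hF h1 h2 hFv hG hGx hGv

/-- TARGET 1. Bathtub principle. -/
theorem bathtub {f : ℝ → ℝ} (hf : Continuous f) (x : ℝ) {θ : ℝ} (hθ0 : 0 ≤ θ) (hθ1 : θ ≤ 1 / 2) :
    ∃ t : ℝ, volume {s ∈ Icc x (x + 1) | t < f s} ≤ ENNReal.ofReal (2 * θ) ∧
      ENNReal.ofReal (2 * θ) ≤ volume {s ∈ Icc x (x + 1) | t ≤ f s} ∧
      ∀ F : Set ℝ, MeasurableSet F → {s ∈ Icc x (x + 1) | t < f s} ⊆ F →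
        F ⊆ {s ∈ Icc x (x + 1) | t ≤ f s} → volume F = ENNReal.ofReal (2 * θ) →
        star f x θ = ∫ s in F, f s := by
  suffices h : ∃ t : ℝ, volume {s ∈ Icc x (x + 1) | t < f s} ≤ ENNReal.ofReal (2 * θ) ∧
      ENNReal.ofReal (2 * θ) ≤ volume {s ∈ Icc x (x + 1) | t ≤ f s} by
    obtain ⟨t, ht1, ht2⟩ := h
    exact ⟨t, ht1, ht2, fun F hF h1 h2 hv => star_eq hf x hF h1 h2 hv⟩
  have hne : (Icc x (x + 1)).Nonempty := ⟨x, by simp⟩
  have hvI : volume (Icc x (x + 1)) = 1 := by simp
  obtain ⟨p, hp, hpm⟩ := isCompact_Icc.exists_isMinOn hne hf.continuousOn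
  obtain ⟨q, hq, hqm⟩ := isCompact_Icc.exists_isMaxOn hne hf.continuousOn
  rcases hθ1.eq_or_lt with h | h
  · refine ⟨f p, ?_, ?_⟩
    · rw [h]
      refine (measure_mono (sep_subset _ _)).trans ?_
      rw [hvI]; norm_num
    · rw [h]
      have : {s ∈ Icc x (x + 1) | f p ≤ f s} = Icc x (x + 1) := by
        apply subset_antisymm (sep_subset _ _)
        intro s hs
        exact ⟨hs, hpm hs⟩
      rw [this, hvI]; norm_num
  · set m : ℝ → ENNReal := fun t => volume {s ∈ Icc x (x + 1) | t < f s} with hm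
    have hanti : Antitone m := by
      intro a b hab
      refine measure_mono ?_
      rintro s ⟨hs, hbs⟩
      exact ⟨hs, hab.trans_lt hbs⟩
    set S : Set ℝ := {t | m t ≤ ENNReal.ofReal (2 * θ)} with hS
    have hSne : S.Nonempty := by
      refine ⟨f q, ?_⟩
      have : {s ∈ Icc x (x + 1) | f q < f s} = ∅ := by
        ext s
        simp only [mem_ofPred_eq, mem_empty_iff_false, iff_false, not_and, not_lt]
        intro hs
        exact hqm hs
      show volume {s | s ∈ Icc x (x + 1) ∧ f q < f s} ≤ ENNReal.ofReal (2 * θ)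
      rw [this, measure_empty]
      exact zero_le
    have hlt1 : ENNReal.ofReal (2 * θ) < 1 := by
      rw [← ENNReal.ofReal_one]
      exact (ENNReal.ofReal_lt_ofReal_iff (by norm_num)).2 (by linarith)
    have hSb : BddBelow S := by
      refine ⟨f p - 1, ?_⟩
      intro t ht
      by_contra hcon
      push Not at hcon
      have : {s ∈ Icc x (x + 1) | t < f s} = Icc x (x + 1) := by
        apply subset_antisymm (sep_subset _ _)
        intro s hs
        have : f p ≤ f s := hpm hs
        exact ⟨hs, by linarith⟩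
      have h2 : m t ≤ ENNReal.ofReal (2 * θ) := ht
      simp only [hm, this, hvI] at h2
      exact absurd (h2.trans_lt hlt1) (lt_irrefl _)
    refine ⟨sInf S, ?_, ?_⟩
    · have e : {s ∈ Icc x (x + 1) | sInf S < f s} = ⋃ n : ℕ, {s ∈ Icc x (x + 1) | sInf S + 1 / ((n : ℝ) + 1) < f s} := by
        ext s
        simp only [mem_ofPred_eq, mem_iUnion]
        constructor
        · rintro ⟨hs, hlt⟩
          obtain ⟨n, hn⟩ := exists_nat_one_div_lt (sub_pos.2 hlt)
          exact ⟨n, hs, by linarith⟩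
        · rintro ⟨n, hs, hn⟩
          have : (0 : ℝ) < 1 / ((n : ℝ) + 1) := by positivity
          exact ⟨hs, by linarith⟩
      rw [e]
      have hmon : Monotone fun n : ℕ => {s ∈ Icc x (x + 1) | sInf S + 1 / ((n : ℝ) + 1) < f s} := by
        intro a b hab s hs
        refine ⟨hs.1, ?_⟩
        have : 1 / ((b : ℝ) + 1) ≤ 1 / ((a : ℝ) + 1) := Nat.one_div_le_one_div hab
        linarith [hs.2]
      rw [hmon.measure_iUnion]
      refine iSup_le fun n => ?_
      have hpos : (0 : ℝ) < 1 / ((n : ℝ) + 1) := by positivity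
      obtain ⟨τ, hτ, hτl⟩ := exists_lt_of_csInf_lt hSne (show sInf S < sInf S + 1 / ((n : ℝ) + 1) by linarith)
      exact (hanti hτl.le).trans hτ
    · have e : {s ∈ Icc x (x + 1) | sInf S ≤ f s} = ⋂ n : ℕ, {s ∈ Icc x (x + 1) | sInf S - 1 / ((n : ℝ) + 1) < f s} := by
        ext s
        simp only [mem_ofPred_eq, mem_iInter]
        constructor
        · rintro ⟨hs, hlt⟩ n
          have : (0 : ℝ) < 1 / ((n : ℝ) + 1) := by positivity
          exact ⟨hs, by linarith⟩
        · intro hn
          refine ⟨(hn 0).1, ?_⟩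
          by_contra hcon
          push Not at hcon
          obtain ⟨n, hn'⟩ := exists_nat_one_div_lt (sub_pos.2 hcon)
          linarith [(hn n).2]
      rw [e]
      have hmon : Antitone fun n : ℕ => {s ∈ Icc x (x + 1) | sInf S - 1 / ((n : ℝ) + 1) < f s} := by
        intro a b hab s hs
        refine ⟨hs.1, ?_⟩
        have : 1 / ((b : ℝ) + 1) ≤ 1 / ((a : ℝ) + 1) := Nat.one_div_le_one_div hab
        linarith [hs.2]
      rw [hmon.measure_iInter]
      · refine le_iInf fun n => ?_
        have hpos : (0 : ℝ) < 1 / ((n : ℝ) + 1) := by positivity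
        have : sInf S - 1 / ((n : ℝ) + 1) ∉ S := by
          intro hmem
          linarith [csInf_le hSb hmem]
        exact (not_le.1 this).le
      · intro n
        exact (measurableSet_Icc.inter (measurableSet_lt measurable_const hf.measurable)).nullMeasurableSet
      · refine ⟨0, ?_⟩
        exact ne_top_of_le_ne_top (by rw [hvI]; simp) (measure_mono (sep_subset _ _))

/-- TARGET 2. Full window. -/
theorem star_half {f : ℝ → ℝ} (hf : Continuous f) (x : ℝ) :
    star f x (1 / 2) = ∫ s in Icc x (x + 1), f s := by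
  have hvI : volume (Icc x (x + 1)) = 1 := by simp
  have h1 : ENNReal.ofReal (2 * (1 / 2)) = 1 := by norm_num
  refine IsGreatest.csSup_eq ⟨⟨Icc x (x + 1), measurableSet_Icc, subset_rfl, by rw [hvI, h1], rfl⟩, ?_⟩
  rintro v ⟨G, hG, hGx, hGv, rfl⟩
  have : G =ᵐ[volume] Icc x (x + 1) := by
    refine ae_eq_of_subset_of_measure_ge hGx ?_ hG.nullMeasurableSet (by rw [hvI]; simp)
    rw [hvI, hGv, h1]
  rw [setIntegral_congr_set this]

/-- TARGET 3. Removing a small piece where `f` is small. -/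
theorem star_remove {f : ℝ → ℝ} (hf : Continuous f) {x θ : ℝ} (hθ0 : 0 < θ) (hθ1 : θ ≤ 1 / 2)
    (hnn : ∀ s ∈ Icc x (x + 1), 0 ≤ f s)
    (hv : volume {s ∈ Icc x (x + 1) | 0 < f s} ≤ ENNReal.ofReal (2 * θ))
    (hv1 : volume {s ∈ Icc x (x + 1) | 0 < f s} < 1) {ε : ℝ} (hε : 0 < ε) :
    ∃ h0 > 0, ∀ h, 0 < h → h < h0 → star f x θ - ε * h ≤ star f x (θ - h) := by
  set P : Set ℝ := {s ∈ Icc x (x + 1) | 0 < f s} with hP
  have hvI : volume (Icc x (x + 1)) = 1 := by simp
  have hPx : P ⊆ Icc x (x + 1) := sep_subset _ _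
  have hPm : MeasurableSet P := measurableSet_Icc.inter (measurableSet_lt measurable_const hf.measurable)
  have hPfin : volume P ≠ ⊤ := hv1.ne_top
  have hzero : ∀ s ∈ Icc x (x + 1) \ P, f s = 0 := by
    rintro s ⟨hs, hsP⟩
    have h1 := hnn s hs
    have h2 : ¬ 0 < f s := fun h => hsP ⟨hs, h⟩
    linarith [not_lt.1 h2]
  have hle : ∀ F : Set ℝ, MeasurableSet F → F ⊆ Icc x (x + 1) → ∫ s in F, f s ≤ ∫ s in P, f s := by
    intro F hF hFx
    have a1 : ∫ s in F, f s ≤ ∫ s in Icc x (x + 1), f s := by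
      refine setIntegral_mono_set (intOn hf subset_rfl) ?_ (LE.le.eventuallyLE hFx)
      exact (ae_restrict_iff' measurableSet_Icc).2 (Eventually.of_forall hnn)
    have a2 : ∫ s in P, f s = ∫ s in Icc x (x + 1), f s :=
      (setIntegral_eq_of_subset_of_forall_sdiff_eq_zero measurableSet_Icc hPx hzero).symm
    linarith
  -- upper bound of the star function
  have hup : ∀ θ' : ℝ, 0 ≤ θ' → θ' ≤ 1 / 2 → star f x θ' ≤ ∫ s in P, f s := by
    intro θ' h0 h1
    refine csSup_le ?_ ?_
    · refine ⟨_, Icc x (x + 2 * θ'), measurableSet_Icc, Icc_subset_Icc le_rfl (by linarith), ?_, rfl⟩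
      simp
    · rintro v ⟨F, hF, hFx, -, rfl⟩
      exact hle F hF hFx
  have hlow : ∀ (θ' : ℝ) (F : Set ℝ), MeasurableSet F → F ⊆ Icc x (x + 1) → 
      volume F = ENNReal.ofReal (2 * θ') → ∫ s in F, f s ≤ star f x θ' := by
    intro θ' F hF hFx hFv
    refine le_csSup ⟨∫ s in P, f s, ?_⟩ ⟨F, hF, hFx, hFv, rfl⟩
    rintro v ⟨F, hF, hFx, -, rfl⟩
    exact hle F hF hFx
  have hI := hup θ hθ0.le hθ1
  set r : ℝ := volume.real P with hr
  have hr0 : 0 ≤ r := measureReal_nonneg
  have hPr : volume P = ENNReal.ofReal r := (ENNReal.ofReal_toReal hPfin).symm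
  have hr1 : r < 1 := by
    have := (ENNReal.toReal_lt_toReal hPfin (by simp)).2 hv1
    rwa [ENNReal.toReal_one] at this
  have hrθ : r ≤ 2 * θ := by
    have := ENNReal.toReal_mono ENNReal.ofReal_ne_top hv
    rwa [ENNReal.toReal_ofReal (by linarith)] at this
  rcases hrθ.lt_or_eq with hlt | heq
  · refine ⟨(2 * θ - r) / 2, by linarith, ?_⟩
    intro h hh0 hh
    have hcm : MeasurableSet (Icc x (x + 1) \ P) := measurableSet_Icc.diff hPm
    have hvc : volume (Icc x (x + 1) \ P) = ENNReal.ofReal (1 - r) := by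
      rw [measure_sdiff hPx hPm.nullMeasurableSet hPfin, hvI, hPr, ← ENNReal.ofReal_one, ← ENNReal.ofReal_sub _ hr0]
    obtain ⟨B, hB, hBs, hBv⟩ := exists_sub hcm (sdiff_subset) (r := 2 * (θ - h) - r) (by linarith)
      (by rw [hvc]; exact ENNReal.ofReal_le_ofReal (by linarith))
    have hdisj : Disjoint P B := by
      rw [Set.disjoint_left]
      intro s hs hsB
      exact (hBs hsB).2 hs
    have hv' : volume (P ∪ B) = ENNReal.ofReal (2 * (θ - h)) := by
      rw [measure_union hdisj hB, hPr, hBv, ← ENNReal.ofReal_add hr0 (by linarith)]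
      congr 1; ring
    have hsub : P ∪ B ⊆ Icc x (x + 1) := union_subset hPx (hBs.trans sdiff_subset)
    have h1 := hlow (θ - h) (P ∪ B) (hPm.union hB) hsub hv'
    have h2 : ∫ s in P ∪ B, f s = ∫ s in P, f s := by
      refine setIntegral_eq_of_subset_of_forall_sdiff_eq_zero (hPm.union hB) subset_union_left ?_
      rintro s ⟨hs, hsP⟩
      exact hzero s ⟨hsub hs, hsP⟩
    have : 0 < ε * h := by positivity
    linarith
  · -- r = 2θ
    have hPne : P.Nonempty := by
      by_contra hcon
      rw [not_nonempty_iff_eq_empty] at hcon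
      rw [hcon] at hr
      simp at hr
      linarith
    obtain ⟨p, hp⟩ := hPne
    have hqex : ∃ q ∈ Icc x (x + 1), q ∉ P := by
      by_contra hcon
      push Not at hcon
      have : P = Icc x (x + 1) := subset_antisymm hPx hcon
      rw [this, hvI] at hv1
      exact lt_irrefl _ hv1
    obtain ⟨q, hq, hqP⟩ := hqex
    have hfq : f q = 0 := hzero q ⟨hq, hqP⟩
    set Q : Set ℝ := {s ∈ Ioo x (x + 1) | 0 < f s ∧ f s < ε / 2} with hQ
    have hQo : IsOpen Q := by
      have : Q = Ioo x (x + 1) ∩ (f ⁻¹' (Ioo 0 (ε / 2))) := by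
        ext s; simp [hQ]
      rw [this]
      exact isOpen_Ioo.inter (isOpen_Ioo.preimage hf)
    have hQne : Q.Nonempty := by
      have hpos : 0 < min (f p) (ε / 2) := lt_min hp.2 (by linarith)
      have hc1 : min (f p) (ε / 2) / 2 < f p := by linarith [min_le_left (f p) (ε / 2)]
      have hc2 : min (f p) (ε / 2) / 2 < ε / 2 := by linarith [min_le_right (f p) (ε / 2)]
      rcases lt_trichotomy p q with hpq | hpq | hpq
      · obtain ⟨s, hs, hfs⟩ := intermediate_value_Ioo' hpq.le hf.continuousOn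
          (show min (f p) (ε / 2) / 2 ∈ Ioo (f q) (f p) from ⟨by linarith, hc1⟩)
        exact ⟨s, ⟨hp.1.1.trans_lt hs.1, hs.2.trans_le hq.2⟩, by rw [hfs]; linarith, by rw [hfs]; exact hc2⟩
      · rw [hpq] at hp; exact absurd hp hqP
      · obtain ⟨s, hs, hfs⟩ := intermediate_value_Ioo hpq.le hf.continuousOn
          (show min (f p) (ε / 2) / 2 ∈ Ioo (f q) (f p) from ⟨by linarith, hc1⟩)
        exact ⟨s, ⟨hq.1.trans_lt hs.1, hs.2.trans_le hp.1.2⟩, by rw [hfs]; linarith, by rw [hfs]; exact hc2⟩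
    have hQpos : 0 < volume Q := hQo.measure_pos volume hQne
    have hQP : Q ⊆ P := fun s hs => ⟨Ioo_subset_Icc_self hs.1, hs.2.1⟩
    have hQfin : volume Q ≠ ⊤ := ne_top_of_le_ne_top hPfin (measure_mono hQP)
    have hQr : 0 < volume.real Q := ENNReal.toReal_pos hQpos.ne' hQfin
    refine ⟨volume.real Q / 2, by linarith, ?_⟩
    intro h hh0 hh
    obtain ⟨B, hB, hBs, hBv⟩ := exists_sub hQo.measurableSet (hQP.trans hPx) (r := 2 * h) (by linarith)
      (by
        have : volume Q = ENNReal.ofReal (volume.real Q) := (ENNReal.ofReal_toReal hQfin).symm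
        rw [this]
        exact ENNReal.ofReal_le_ofReal (by linarith))
    have hBP : B ⊆ P := hBs.trans hQP
    have hvd : volume (P \ B) = ENNReal.ofReal (2 * (θ - h)) := by
      rw [measure_sdiff hBP hB.nullMeasurableSet (by rw [hBv]; exact ENNReal.ofReal_ne_top), hPr, hBv, ← ENNReal.ofReal_sub _ (by linarith), heq]
      congr 1; ring
    have h1 := hlow (θ - h) (P \ B) (hPm.diff hB) (sdiff_subset.trans hPx) hvd
    have h3 : ∫ s in B, f s ≤ ε / 2 * (2 * h) := by
      have : ∫ s in B, f s ≤ ∫ s in B, (ε / 2) := by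
        refine setIntegral_mono_on (intOn hf (hBP.trans hPx)) (intOn continuous_const (hBP.trans hPx)) hB ?_
        intro s hs
        exact (hBs hs).2.2.le
      refine this.trans (le_of_eq ?_)
      rw [setIntegral_const]
      simp only [Measure.real, hBv, smul_eq_mul]
      rw [ENNReal.toReal_ofReal (by linarith)]
      ring
    have h4 : ∫ s in P \ B, f s = (∫ s in P, f s) - ∫ s in B, f s := 
      setIntegral_sdiff hB (intOn hf hPx) hBP
    nlinarith

end J716

alias bathtub := J716.bathtub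
alias star_half := J716.star_half
alias star_remove := J716.star_remove

end LE
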