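import Mathlib
import Pool.Agent.Helper714.LE.Defs
import Pool.Agent.Helper714.LE.J716
import Pool.Agent.Helper714.LE.J717

open Set MeasureTheory Filter Topology Metric Complex InnerProductSpace

namespace LE

namespace J772

/-- TARGET 1. Translation of the full window. -/
theorem star_full {f : ℝ → ℝ} (hf : Continuous f) {x0 : ℝ}
    (han : ∀ s ∈ Icc x0 (x0 + 1), AnalyticAt ℝ f s) {lam : ℝ}
    (hmax : ∀ᶠ x in 𝓝 x0, star f x (1 / 2) - lam * x ^ 2 ≤ star f x0 (1 / 2) - lam * x0 ^ 2) :
    ∫ s in Icc x0 (x0 + 1), deriv (deriv f) s ≤ 2 * lam := by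
  have hle : x0 ≤ x0 + 1 := by linarith
  have hG : ∀ x, star f x (1 / 2) = ∫ s in x..(x + 1), f s := by
    intro x
    rw [star_half hf, intervalIntegral.integral_of_le (by linarith),
      integral_Icc_eq_integral_Ioc]
  have hFTC : ∀ x, HasDerivAt (fun u => ∫ s in (0:ℝ)..u, f s) (f x) x := fun x =>
    intervalIntegral.integral_hasDerivAt_right (hf.intervalIntegrable _ _)
      (hf.stronglyMeasurableAtFilter _ _) hf.continuousAt
  have hG' : ∀ x, HasDerivAt (fun x => ∫ s in x..(x + 1), f s) (f (x + 1) - f x) x := by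
    intro x
    have h1 : (fun x => ∫ s in x..(x + 1), f s) =
        fun x => (∫ s in (0:ℝ)..(x + 1), f s) - ∫ s in (0:ℝ)..x, f s := by
      ext y
      rw [intervalIntegral.integral_interval_sub_left] <;> exact hf.intervalIntegrable _ _
    rw [h1]
    have h4 : HasDerivAt (fun y => ∫ s in (0:ℝ)..(y + 1), f s) (f (x + 1)) x :=
      HasDerivAt.comp_add_const x 1 (hFTC (x + 1))
    exact h4.sub (hFTC x)
  have hd : ∀ s ∈ Icc x0 (x0 + 1), HasDerivAt f (deriv f s) s := fun s hs =>
    (han s hs).differentiableAt.hasDerivAt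
  have hd2 : ∀ s ∈ Icc x0 (x0 + 1), HasDerivAt (deriv f) (deriv (deriv f) s) s := fun s hs =>
    (han s hs).deriv.differentiableAt.hasDerivAt
  have hint : ∫ s in Icc x0 (x0 + 1), deriv (deriv f) s = deriv f (x0 + 1) - deriv f x0 := by
    rw [integral_Icc_eq_integral_Ioc, ← intervalIntegral.integral_of_le hle]
    apply intervalIntegral.integral_eq_sub_of_hasDerivAt
    · intro s hs
      rw [uIcc_of_le hle] at hs
      exact hd2 s hs
    · apply ContinuousOn.intervalIntegrable
      intro s hs
      rw [uIcc_of_le hle] at hs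
      exact (han s hs).deriv.deriv.continuousAt.continuousWithinAt
  have key : deriv f (x0 + 1) - deriv f x0 - lam * 2 ≤ 0 := by
    refine second_test (g := fun x => (∫ s in x..(x + 1), f s) - lam * x ^ 2)
      (g1 := fun x => (f (x + 1) - f x) - lam * (2 * x)) (a := x0) ?_ ?_ ?_
    · refine Eventually.of_forall fun x => ?_
      have h5 : HasDerivAt (fun x : ℝ => lam * x ^ 2) (lam * (2 * x)) x := by
        have := (hasDerivAt_pow 2 x).const_mul lam
        simpa using this
      exact (hG' x).sub h5
    · have h6 : HasDerivAt (fun x : ℝ => lam * (2 * x)) (lam * 2) x0 := by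
        have := ((hasDerivAt_id x0).const_mul 2).const_mul lam
        simpa using this
      have h7 : HasDerivAt (fun x => f (x + 1)) (deriv f (x0 + 1)) x0 :=
        HasDerivAt.comp_add_const x0 1 (hd (x0 + 1) ⟨hle, le_refl _⟩)
      exact (h7.sub (hd x0 ⟨le_refl _, hle⟩)).sub h6
    · filter_upwards [hmax] with x hx
      simpa only [hG] using hx
  rw [hint]
  linarith

/-- TARGET 2. Level sets of an entire real analytic function. -/
theorem level_finite {f : ℝ → ℝ} (han : ∀ s, AnalyticAt ℝ f s) (x t : ℝ) :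
    {s ∈ Icc x (x + 1) | f s = t}.Finite ∨ ∀ s, f s = t := by
  by_cases h : {s ∈ Icc x (x + 1) | f s = t}.Finite
  · exact Or.inl h
  right
  obtain ⟨p, -, hp⟩ := Set.Infinite.exists_accPt_of_subset_isCompact (K := Icc x (x + 1)) h
    isCompact_Icc (fun s hs => hs.1)
  rw [accPt_iff_frequently_nhdsNE] at hp
  have hp' : ∃ᶠ y in 𝓝[≠] p, f y = (fun _ => t) y := hp.mono fun y hy => hy.2
  have := AnalyticOnNhd.eq_of_frequently_eq (f := f) (g := fun _ => t)
    (fun s _ => han s) (fun s _ => analyticAt_const) hp'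
  exact fun s => congrFun this s

/-- TARGET 3. Level sets, case of a function analytic only where it is positive. -/
theorem level_finite_pos {f : ℝ → ℝ} (hf : Continuous f) (han : ∀ s, 0 < f s → AnalyticAt ℝ f s)
    {x t : ℝ} (ht : 0 < t) (hz : ∃ s ∈ Icc x (x + 1), f s = 0) :
    {s ∈ Icc x (x + 1) | f s = t}.Finite := by
  by_contra h
  obtain ⟨p, -, hp⟩ := Set.Infinite.exists_accPt_of_subset_isCompact (K := Icc x (x + 1)) h
    isCompact_Icc (fun s hs => hs.1)
  rw [accPt_iff_frequently_nhdsNE] at hp
  have hp' : ∃ᶠ y in 𝓝[≠] p, f y = (fun _ => t) y := hp.mono fun y hy => hy.2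
  have hclt : IsClosed {s | f s = t} := isClosed_eq hf continuous_const
  have hpt : f p = t := by
    by_contra hne
    have hopen : ∀ᶠ y in 𝓝 p, f y ≠ t := (hclt.isOpen_compl).mem_nhds hne
    have h2 : ∀ᶠ y in 𝓝[≠] p, f y ≠ t := hopen.filter_mono nhdsWithin_le_nhds
    obtain ⟨y, hy1, hy2⟩ := (hp'.and_eventually h2).exists
    exact hy2 hy1
  have hO : IsOpen {s | 0 < f s} := isOpen_lt continuous_const hf
  let U := connectedComponentIn {s | 0 < f s} p
  have hpO : p ∈ {s | 0 < f s} := by
    show 0 < f p
    rw [hpt]; exact ht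
  have hUo : IsOpen U := hO.connectedComponentIn
  have hUs : U ⊆ {s | 0 < f s} := connectedComponentIn_subset _ _
  have hUp : IsPreconnected U := isPreconnected_connectedComponentIn
  have hpU : p ∈ U := mem_connectedComponentIn hpO
  have hE : EqOn f (fun _ => t) U :=
    AnalyticOnNhd.eqOn_of_preconnected_of_frequently_eq (fun s hs => han s (hUs hs))
      (fun s _ => analyticAt_const) hUp hpU hp'
  have hclE : closure U ⊆ {s | f s = t} := closure_minimal (fun s hs => hE hs) hclt
  have hclU : closure U ⊆ U := by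
    apply IsPreconnected.subset_connectedComponentIn hUp.closure (subset_closure hpU)
    intro s hs
    have : f s = t := hclE hs
    show 0 < f s
    rw [this]; exact ht
  have hcl : IsClosed U := isClosed_of_closure_subset hclU
  have huniv : U = univ := IsClopen.eq_univ ⟨hcl, hUo⟩ ⟨p, hpU⟩
  obtain ⟨s, -, hs⟩ := hz
  have : f s = t := hE (by rw [huniv]; exact mem_univ s)
  linarith

end J772

alias star_full := J772.star_full
alias level_finite := J772.level_finite
alias level_finite_pos := J772.level_finite_pos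

end LE
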