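import Mathlib
import Pool.Agent.Helper714.LE.Defs

open Set MeasureTheory Filter Topology Metric Complex InnerProductSpace

namespace LE

namespace J773

theorem step_y {V V' : ℂ → ℝ} {K : Set ℝ} (hK : IsCompact K) {y0 r : ℝ}
    (hV : ∀ s ∈ K, ∀ y, |y - y0| ≤ r → ContinuousAt V ((s : ℂ) + (y : ℂ) * I))
    (hV' : ∀ s ∈ K, ∀ y, |y - y0| ≤ r → ContinuousAt V' ((s : ℂ) + (y : ℂ) * I))
    (hd : ∀ s ∈ K, ∀ y, |y - y0| ≤ r →
      HasDerivAt (fun y : ℝ => V ((s : ℂ) + (y : ℂ) * I)) (V' ((s : ℂ) + (y : ℂ) * I)) y)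
    {F : Set ℝ} (hF : MeasurableSet F) (hFK : F ⊆ K) (y : ℝ) (hy : |y - y0| < r) :
    HasDerivAt (fun y : ℝ => ∫ s in F, V ((s : ℂ) + (y : ℂ) * I))
      (∫ s in F, V' ((s : ℂ) + (y : ℂ) * I)) y := by
  have hcomp : IsCompact (K ×ˢ Icc (y0 - r) (y0 + r)) := hK.prod isCompact_Icc
  have hcont : ContinuousOn (fun p : ℝ × ℝ => V' ((p.1 : ℂ) + (p.2 : ℂ) * I))
      (K ×ˢ Icc (y0 - r) (y0 + r)) := by
    rintro ⟨s, t⟩ ⟨hs, ht⟩
    have h1 : |t - y0| ≤ r := by
      rw [abs_le]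
      constructor <;> [linarith [ht.1]; linarith [ht.2]]
    have h2 : ContinuousAt (fun p : ℝ × ℝ => V' ((p.1 : ℂ) + (p.2 : ℂ) * I)) (s, t) :=
      ContinuousAt.comp (f := fun p : ℝ × ℝ => ((p.1 : ℂ) + (p.2 : ℂ) * I)) (x := (s, t))
        (hV' s hs t h1) (by fun_prop)
    exact h2.continuousWithinAt
  obtain ⟨C, hC⟩ := hcomp.exists_bound_of_continuousOn hcont
  have hline : ∀ (W : ℂ → ℝ), (∀ s ∈ K, ∀ y, |y - y0| ≤ r →
      ContinuousAt W ((s : ℂ) + (y : ℂ) * I)) → ∀ t, |t - y0| ≤ r →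
      ContinuousOn (fun s : ℝ => W ((s : ℂ) + (t : ℂ) * I)) K := by
    intro W hW t ht s hs
    have h2 : ContinuousAt (fun s : ℝ => W ((s : ℂ) + (t : ℂ) * I)) s :=
      ContinuousAt.comp (f := fun s : ℝ => ((s : ℂ) + (t : ℂ) * I)) (x := s)
        (hW s hs t ht) (by fun_prop)
    exact h2.continuousWithinAt
  have hopen : {t : ℝ | |t - y0| < r} ∈ 𝓝 y := by
    have h1 : IsOpen {t : ℝ | |t - y0| < r} := isOpen_lt (by fun_prop) continuous_const
    exact h1.mem_nhds hy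
  have hfin : volume F < ⊤ := lt_of_le_of_lt (measure_mono hFK) hK.measure_lt_top
  refine (hasDerivAt_integral_of_dominated_loc_of_deriv_le (μ := volume.restrict F)
    (F := fun (y : ℝ) (s : ℝ) => V ((s : ℂ) + (y : ℂ) * I))
    (F' := fun (y : ℝ) (s : ℝ) => V' ((s : ℂ) + (y : ℂ) * I)) (bound := fun _ => C)
    hopen ?_ ?_ ?_ ?_ ?_ ?_).2
  · filter_upwards [hopen] with t ht
    exact ((hline V hV t (le_of_lt ht)).mono hFK).aestronglyMeasurable hF
  · have h1 : IntegrableOn (fun s : ℝ => V ((s : ℂ) + (y : ℂ) * I)) K volume :=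
      (hline V hV y hy.le).integrableOn_compact hK
    exact h1.mono_set hFK
  · exact ((hline V' hV' y hy.le).mono hFK).aestronglyMeasurable hF
  · filter_upwards [ae_restrict_mem hF] with s hs t ht
    have ht' : |t - y0| < r := ht
    rw [abs_lt] at ht'
    exact hC (s, t) ⟨hFK hs, ⟨by linarith [ht'.1], by linarith [ht'.2]⟩⟩
  · rw [← IntegrableOn]
    exact integrableOn_const hfin.ne
  · filter_upwards [ae_restrict_mem hF] with s hs t ht
    exact hd s (hFK hs) t (le_of_lt ht)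

/-- TARGET. Second derivative in `y` of the integral of a harmonic function over a set. -/
theorem deriv_y {U : ℂ → ℝ} {K : Set ℝ} (hK : IsCompact K) {y0 : ℝ}
    (hU : ∀ s ∈ K, HarmonicAt U ((s : ℂ) + (y0 : ℂ) * I)) {F : Set ℝ} (hF : MeasurableSet F)
    (hFK : F ⊆ K) :
    ∃ Y1 : ℝ → ℝ, (∀ᶠ y in 𝓝 y0,
      HasDerivAt (fun y : ℝ => ∫ s in F, U ((s : ℂ) + (y : ℂ) * I)) (Y1 y) y) ∧
      HasDerivAt Y1 (-∫ s in F, deriv (deriv (fun s : ℝ => U ((s : ℂ) + (y0 : ℂ) * I))) s) y0 := by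
  have hHopen : IsOpen {z : ℂ | HarmonicAt U z} := isOpen_setOfPred_harmonicAt U
  -- smoothness
  have hA : ∀ z, HarmonicAt U z → ContDiffAt ℝ ⊤ U z := fun z hz =>
    (HarmonicAt.analyticAt hz).contDiffAt
  have hA1 : ∀ z, HarmonicAt U z → ContDiffAt ℝ ⊤ (fderiv ℝ U) z := fun z hz =>
    (hA z hz).fderiv_right (by simp)
  have hA2 : ∀ z, HarmonicAt U z → ContDiffAt ℝ ⊤ (fderiv ℝ (fderiv ℝ U)) z := fun z hz =>
    (hA1 z hz).fderiv_right (by simp)
  have hdU : ∀ z, HarmonicAt U z → HasFDerivAt U (fderiv ℝ U z) z := fun z hz =>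
    ((hA z hz).differentiableAt (by simp)).hasFDerivAt
  have hdA : ∀ z, HarmonicAt U z → HasFDerivAt (fderiv ℝ U) (fderiv ℝ (fderiv ℝ U) z) z :=
    fun z hz => ((hA1 z hz).differentiableAt (by simp)).hasFDerivAt
  have hdAv : ∀ (v : ℂ) z, HarmonicAt U z →
      HasFDerivAt (fun z => fderiv ℝ U z v) ((fderiv ℝ (fderiv ℝ U) z).flip v) z := by
    intro v z hz
    have := (hdA z hz).clm_apply (hasFDerivAt_const v z)
    simpa using this
  -- tube
  let n : Set (ℝ × ℝ) := {p | HarmonicAt U ((p.1 : ℂ) + (p.2 : ℂ) * I)}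
  have hn : IsOpen n := hHopen.preimage
    (show Continuous fun p : ℝ × ℝ => ((p.1 : ℂ) + (p.2 : ℂ) * I) by fun_prop)
  obtain ⟨u, v, -, hv, hKu, hyv, huv⟩ := generalized_tube_lemma hK (isCompact_singleton (x := y0))
    hn (by
      rintro ⟨s, t⟩ ⟨hs, ht⟩
      have : t = y0 := ht
      subst this
      exact hU s hs)
  obtain ⟨r, hr, hrv⟩ := Metric.isOpen_iff.1 hv y0 (hyv rfl)
  have hH : ∀ s ∈ K, ∀ y, |y - y0| ≤ r / 2 → HarmonicAt U ((s : ℂ) + (y : ℂ) * I) := by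
    intro s hs y hy
    have h1 : y ∈ v := hrv (by
      rw [Metric.mem_ball, Real.dist_eq]
      linarith)
    exact huv (show (s, y) ∈ u ×ˢ v from ⟨hKu hs, h1⟩)
  have hline : ∀ s y : ℝ, HasDerivAt (fun y : ℝ => ((s : ℂ) + (y : ℂ) * I)) I y := by
    intro s y
    have h1 : HasDerivAt (fun y : ℝ => (y : ℂ)) 1 y := Complex.ofRealCLM.hasDerivAt
    have h2 := (h1.mul_const I).const_add (s : ℂ)
    simpa using h2
  have hlinex : ∀ s y : ℝ, HasDerivAt (fun s : ℝ => ((s : ℂ) + (y : ℂ) * I)) 1 s := by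
    intro s y
    have h1 : HasDerivAt (fun y : ℝ => (y : ℂ)) 1 s := Complex.ofRealCLM.hasDerivAt
    simpa using h1.add_const ((y : ℂ) * I)
  refine ⟨fun y => ∫ s in F, fderiv ℝ U ((s : ℂ) + (y : ℂ) * I) I, ?_, ?_⟩
  · have hopen : {t : ℝ | |t - y0| < r / 2} ∈ 𝓝 y0 := by
      have h1 : IsOpen {t : ℝ | |t - y0| < r / 2} := isOpen_lt (by fun_prop) continuous_const
      apply h1.mem_nhds
      show |y0 - y0| < r / 2
      simp [hr]
    filter_upwards [hopen] with y hy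
    refine step_y (V := U) (V' := fun z => fderiv ℝ U z I) hK (r := r / 2) ?_ ?_ ?_ hF hFK y hy
    · intro s hs t ht
      exact (hA _ (hH s hs t ht)).continuousAt
    · intro s hs t ht
      exact (hdAv I _ (hH s hs t ht)).continuousAt
    · intro s hs t ht
      exact (hdU _ (hH s hs t ht)).comp_hasDerivAt t (hline s t)
  · have h1 := step_y (V := fun z => fderiv ℝ U z I)
      (V' := fun z => (fderiv ℝ (fderiv ℝ U) z I) I) hK (y0 := y0) (r := r / 2)
      (fun s hs t ht => (hdAv I _ (hH s hs t ht)).continuousAt)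
      (fun s hs t ht => by
        have h2 := (hA2 _ (hH s hs t ht)).continuousAt
        fun_prop)
      (fun s hs t ht => by
        have h2 := (hdAv I _ (hH s hs t ht)).comp_hasDerivAt t (hline s t)
        exact h2) hF hFK y0 (by simp [hr])
    convert h1 using 1
    rw [← integral_neg]
    refine setIntegral_congr_fun hF fun s hs => ?_
    have hz : HarmonicAt U ((s : ℂ) + (y0 : ℂ) * I) := hU s (hFK hs)
    have h3 : deriv (fun s : ℝ => U ((s : ℂ) + (y0 : ℂ) * I)) =ᶠ[𝓝 s]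
        fun s : ℝ => fderiv ℝ U ((s : ℂ) + (y0 : ℂ) * I) 1 := by
      have h4 : ∀ᶠ t : ℝ in 𝓝 s, HarmonicAt U ((t : ℂ) + (y0 : ℂ) * I) := by
        have h5 : ContinuousAt (fun t : ℝ => ((t : ℂ) + (y0 : ℂ) * I)) s := by fun_prop
        exact h5.eventually (hHopen.mem_nhds hz)
      filter_upwards [h4] with t ht
      exact ((hdU _ ht).comp_hasDerivAt t (hlinex t y0)).deriv
    have h6 : deriv (deriv (fun s : ℝ => U ((s : ℂ) + (y0 : ℂ) * I))) s =
        (fderiv ℝ (fderiv ℝ U) ((s : ℂ) + (y0 : ℂ) * I) 1) 1 := by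
      rw [h3.deriv_eq]
      have h2 := (hdAv 1 _ hz).comp_hasDerivAt s (hlinex s y0)
      exact h2.deriv
    have h7 : (Laplacian.laplacian U) ((s : ℂ) + (y0 : ℂ) * I) = 0 := hz.2.self_of_nhds
    rw [laplacian_eq_iteratedFDeriv_complexPlane] at h7
    simp only [iteratedFDeriv_two_apply] at h7
    simp only [Matrix.cons_val_zero, Matrix.cons_val_one] at h7
    show -deriv (deriv (fun s : ℝ => U ((s : ℂ) + (y0 : ℂ) * I))) s = _
    rw [h6]
    linarith

end J773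

alias deriv_y := J773.deriv_y

end LE
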