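import Mathlib
import Pool.Agent.Helper714.LE.Defs
import Pool.Agent.Helper714.LE.J773

open Set MeasureTheory Filter Topology Metric Complex InnerProductSpace

namespace LE

namespace J786

theorem continuous_slice {V : ℂ → ℝ} (hV : Continuous V) (y : ℝ) :
    Continuous (fun s : ℝ => V ((s : ℂ) + (y : ℂ) * I)) := by
  fun_prop

theorem cen_eq {V : ℂ → ℝ} (hV : Continuous V) (θ y : ℝ) :
    cen V θ y = (∫ s in (0:ℝ)..θ, V ((s : ℂ) + (y : ℂ) * I)) -
      ∫ s in (0:ℝ)..(-θ), V ((s : ℂ) + (y : ℂ) * I) := by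
  unfold cen
  rw [intervalIntegral.integral_interval_sub_left]
  · exact (continuous_slice hV y).intervalIntegrable _ _
  · exact (continuous_slice hV y).intervalIntegrable _ _

/-- TARGETS. -/
theorem cen_continuous {V : ℂ → ℝ} (hV : Continuous V) :
    Continuous (fun p : ℝ × ℝ => cen V p.1 p.2) := by
  have h1 : (fun p : ℝ × ℝ => cen V p.1 p.2) = fun p : ℝ × ℝ =>
      (∫ s in (0:ℝ)..p.1, V ((s : ℂ) + (p.2 : ℂ) * I)) -
      ∫ s in (0:ℝ)..(-p.1), V ((s : ℂ) + (p.2 : ℂ) * I) := by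
    funext p
    exact cen_eq hV p.1 p.2
  rw [h1]
  have hf : Continuous (Function.uncurry (fun (p : ℝ × ℝ) (s : ℝ) => V ((s : ℂ) + (p.2 : ℂ) * I))) := by
    unfold Function.uncurry
    fun_prop
  refine Continuous.sub ?_ ?_
  · exact intervalIntegral.continuous_parametric_intervalIntegral_of_continuous hf continuous_fst
  · exact intervalIntegral.continuous_parametric_intervalIntegral_of_continuous hf
      (continuous_fst.neg)

theorem cen_deriv {V : ℂ → ℝ} (hV : Continuous V)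
    (hev : ∀ s y : ℝ, V ((-s : ℝ) + (y : ℂ) * I) = V ((s : ℂ) + (y : ℂ) * I)) (θ y : ℝ) :
    HasDerivAt (fun θ => cen V θ y) (2 * V ((θ : ℂ) + (y : ℂ) * I)) θ := by
  have h1 : (fun θ => cen V θ y) = fun θ : ℝ =>
      (∫ s in (0:ℝ)..θ, V ((s : ℂ) + (y : ℂ) * I)) -
      ∫ s in (0:ℝ)..(-θ), V ((s : ℂ) + (y : ℂ) * I) := by
    funext θ
    exact cen_eq hV θ y
  rw [h1]
  have hG : ∀ x : ℝ, HasDerivAt (fun u : ℝ => ∫ s in (0:ℝ)..u, V ((s : ℂ) + (y : ℂ) * I))
      (V ((x : ℂ) + (y : ℂ) * I)) x := fun x =>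
    ((continuous_slice hV y).integral_hasStrictDerivAt 0 x).hasDerivAt
  have h2 := (hG θ).sub ((hG (-θ)).comp θ (hasDerivAt_neg θ))
  have h3 : V ((θ : ℂ) + (y : ℂ) * I) - V (((-θ : ℝ) : ℂ) + (y : ℂ) * I) * (-1) =
      2 * V ((θ : ℂ) + (y : ℂ) * I) := by
    rw [hev θ y]; ring
  rw [h3] at h2
  exact h2

theorem cen_second {V : ℂ → ℝ} (hV : Continuous V)
    (hev : ∀ s y : ℝ, V ((-s : ℝ) + (y : ℂ) * I) = V ((s : ℂ) + (y : ℂ) * I)) {θ0 y0 : ℝ}
    (hθ0 : 0 ≤ θ0) (hharm : ∀ s ∈ Icc (-θ0) θ0, HarmonicAt V ((s : ℂ) + (y0 : ℂ) * I)) :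
    ∃ A : ℝ, HasDerivAt (fun θ : ℝ => 2 * V ((θ : ℂ) + (y0 : ℂ) * I)) A θ0 ∧
      (∃ Y1 : ℝ → ℝ, (∀ᶠ y in 𝓝 y0, HasDerivAt (fun y : ℝ => cen V θ0 y) (Y1 y) y) ∧
        HasDerivAt Y1 (-A) y0) := by
  set f : ℝ → ℝ := fun s => V ((s : ℂ) + (y0 : ℂ) * I) with hf
  have han : ∀ s ∈ Icc (-θ0) θ0, AnalyticAt ℝ f s := by
    intro s hs
    have h1 : AnalyticAt ℝ V ((s : ℂ) + (y0 : ℂ) * I) := _root_.HarmonicAt.analyticAt (hharm s hs)
    have h2 : AnalyticAt ℝ (fun s : ℝ => (s : ℂ) + (y0 : ℂ) * I) s :=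
      (Complex.ofRealCLM.analyticAt s).add analyticAt_const
    exact AnalyticAt.comp (g := V) (f := fun s : ℝ => (s : ℂ) + (y0 : ℂ) * I) h1 h2
  have hmem : θ0 ∈ Icc (-θ0) θ0 := ⟨by linarith, le_rfl⟩
  have hodd : deriv f (-θ0) = - deriv f θ0 := by
    have h1 : (fun x => f (-x)) = f := by
      funext x
      exact hev x y0
    have h2 := deriv_comp_neg (f := f) (x := θ0)
    rw [h1] at h2
    linarith
  refine ⟨2 * deriv f θ0, ?_, ?_⟩
  · exact ((han θ0 hmem).differentiableAt.hasDerivAt).const_mul 2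
  · obtain ⟨Y1, hY1, hY2⟩ := deriv_y (U := V) (K := Icc (-θ0) θ0) isCompact_Icc (y0 := y0) hharm
      (F := Icc (-θ0) θ0) measurableSet_Icc (le_refl _)
    refine ⟨Y1, ?_, ?_⟩
    · refine hY1.mono fun y hy => ?_
      have h1 : (fun y : ℝ => cen V θ0 y) = fun y : ℝ =>
          ∫ s in Icc (-θ0) θ0, V ((s : ℂ) + (y : ℂ) * I) := by
        funext y
        unfold cen
        rw [intervalIntegral.integral_of_le (by linarith), integral_Icc_eq_integral_Ioc]
      rw [h1]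
      exact hy
    · have h2 : ∫ s in Icc (-θ0) θ0, deriv (deriv (fun s : ℝ => V ((s : ℂ) + (y0 : ℂ) * I))) s =
          2 * deriv f θ0 := by
        rw [integral_Icc_eq_integral_Ioc, ← intervalIntegral.integral_of_le (by linarith)]
        have h3 : ∫ s in (-θ0)..θ0, deriv (deriv f) s = deriv f θ0 - deriv f (-θ0) := by
          apply intervalIntegral.integral_eq_sub_of_hasDerivAt
          · intro x hx
            rw [uIcc_of_le (by linarith)] at hx
            exact ((han x hx).deriv.differentiableAt).hasDerivAt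
          · apply ContinuousOn.intervalIntegrable
            intro x hx
            rw [uIcc_of_le (by linarith)] at hx
            exact ((han x hx).deriv.deriv.continuousAt).continuousWithinAt
        rw [h3, hodd]
        ring
      rw [h2] at hY2
      exact hY2

theorem cen_second_half {V : ℂ → ℝ} (hV : Continuous V)
    (hev : ∀ s y : ℝ, V ((-s : ℝ) + (y : ℂ) * I) = V ((s : ℂ) + (y : ℂ) * I))
    (hper : ∀ s y : ℝ, V ((s + 1 : ℝ) + (y : ℂ) * I) = V ((s : ℂ) + (y : ℂ) * I)) {y0 : ℝ}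
    (hharm : ∀ s ∈ Icc (-(1 / 2) : ℝ) (1 / 2), HarmonicAt V ((s : ℂ) + (y0 : ℂ) * I)) :
    ∃ Y1 : ℝ → ℝ, (∀ᶠ y in 𝓝 y0, HasDerivAt (fun y : ℝ => cen V (1 / 2) y) (Y1 y) y) ∧
        HasDerivAt Y1 0 y0 := by
  obtain ⟨A, hA, Y1, hY1, hY2⟩ := cen_second hV hev (θ0 := 1 / 2) (y0 := y0) (by norm_num) hharm
  have hA0 : A = 0 := by
    set g : ℝ → ℝ := fun θ => 2 * V ((θ : ℂ) + (y0 : ℂ) * I) with hg
    have hsym : (fun θ : ℝ => g (1 - θ)) = g := by
      funext θ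
      simp only [hg]
      have h1 := hper (-θ) y0
      have h2 := hev θ y0
      rw [show (1 - θ : ℝ) = -θ + 1 by ring, h1, h2]
    have h3 : HasDerivAt (fun θ : ℝ => g (1 - θ)) (A * (-1)) (1 / 2) := by
      have h4 : HasDerivAt (fun θ : ℝ => 1 - θ) (-1) (1 / 2) := by
        simpa using (hasDerivAt_id (1 / 2 : ℝ)).const_sub 1
      have h5 : HasDerivAt g A (1 - 1 / 2) := by
        rw [show (1 - 1 / 2 : ℝ) = 1 / 2 by norm_num]
        exact hA
      exact HasDerivAt.comp (h₂ := g) (h := fun θ : ℝ => 1 - θ) (1 / 2 : ℝ) h5 h4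
    rw [hsym] at h3
    have h6 := h3.unique hA
    linarith
  refine ⟨Y1, hY1, ?_⟩
  rw [hA0, neg_zero] at hY2
  exact hY2

end J786

alias cen_continuous := J786.cen_continuous
alias cen_deriv := J786.cen_deriv
alias cen_second := J786.cen_second
alias cen_second_half := J786.cen_second_half

end LE
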