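import Mathlib
import Pool.Agent.Helper714.LE.Defs
import Pool.Agent.Helper714.LE.J771
import Pool.Agent.Helper714.LE.J772
import Pool.Agent.Helper714.LE.J786

open Set MeasureTheory Filter Topology Metric Complex InnerProductSpace

namespace LE

/-- final contradiction: combining the two second order tests -/
theorem final_contra {U V : ℂ → ℝ} {K F : Set ℝ} (hK : IsCompact K) {y0 θ0 η η' lam A B : ℝ}
    (hU : ∀ s ∈ K, HarmonicAt U ((s : ℂ) + (y0 : ℂ) * I)) (hF : MeasurableSet F) (hFK : F ⊆ K)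
    (hcen : ∃ Y1 : ℝ → ℝ, (∀ᶠ y in 𝓝 y0, HasDerivAt (fun y : ℝ => cen V θ0 y) (Y1 y) y) ∧
        HasDerivAt Y1 (-A) y0)
    (hmax : ∀ᶠ y : ℝ in 𝓝 y0, (∫ s in F, U ((s : ℂ) + (y : ℂ) * I)) - (1 + η) * cen V θ0 y + η' * y ^ 2
      ≤ (∫ s in F, U ((s : ℂ) + (y0 : ℂ) * I)) - (1 + η) * cen V θ0 y0 + η' * y0 ^ 2)
    (hB : ∫ s in F, deriv (deriv (fun s : ℝ => U ((s : ℂ) + (y0 : ℂ) * I))) s ≤ B)
    (hBA : B ≤ (1 + η) * A + 2 * lam) (hlam : lam < η') : False := by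
  obtain ⟨Y1, h1, h2⟩ := deriv_y hK hU hF hFK
  obtain ⟨Z1, h3, h4⟩ := hcen
  have key := second_test (g := fun y : ℝ => (∫ s in F, U ((s : ℂ) + (y : ℂ) * I))
      - (1 + η) * cen V θ0 y + η' * y ^ 2)
    (g1 := fun y => Y1 y - (1 + η) * Z1 y + η' * (2 * y))
    (g2 := (-∫ s in F, deriv (deriv (fun s : ℝ => U ((s : ℂ) + (y0 : ℂ) * I))) s)
      - (1 + η) * (-A) + η' * 2) (a := y0) ?_ ?_ ?_
  · linarith
  · filter_upwards [h1, h3] with y hy1 hy3
    have h5 : HasDerivAt (fun y : ℝ => y ^ 2) (2 * y) y := by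
      simpa using hasDerivAt_pow 2 y
    exact (hy1.fun_sub (hy3.const_mul (1 + η))).fun_add (h5.const_mul η')
  · have h5 : HasDerivAt (fun y : ℝ => 2 * y) 2 y0 := by
      simpa using (hasDerivAt_id y0).const_mul (2 : ℝ)
    exact (h2.fun_sub (h4.const_mul (1 + η))).fun_add (h5.const_mul η')
  · exact hmax

/-- real-analyticity of horizontal restriction -/
theorem analyticAt_horizontal {U : ℂ → ℝ} {s y : ℝ} (h : HarmonicAt U ((s : ℂ) + (y : ℂ) * I)) :
    AnalyticAt ℝ (fun s : ℝ => U ((s : ℂ) + (y : ℂ) * I)) s := by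
  have h1 : AnalyticAt ℝ U ((s : ℂ) + (y : ℂ) * I) := HarmonicAt.analyticAt h
  have h2 : AnalyticAt ℝ (fun s : ℝ => (s : ℂ) + (y : ℂ) * I) s :=
    (Complex.ofRealCLM.analyticAt s).add analyticAt_const
  exact AnalyticAt.fun_comp (g := U) (f := fun s : ℝ => (s : ℂ) + (y : ℂ) * I) h1 h2

theorem cont_horizontal {U : ℂ → ℝ} (hU : Continuous U) (y : ℝ) :
    Continuous (fun s : ℝ => U ((s : ℂ) + (y : ℂ) * I)) := by
  fun_prop

theorem cen_zero (V : ℂ → ℝ) (y : ℝ) : cen V 0 y = 0 := by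
  simp [cen]

theorem cen_nonneg {V : ℂ → ℝ} (hV : ∀ z, 0 ≤ V z) {θ : ℝ} (hθ : 0 ≤ θ) (y : ℝ) :
    0 ≤ cen V θ y := by
  unfold cen
  exact intervalIntegral.integral_nonneg (by linarith) (fun s _ => hV _)

theorem cen_mono {V : ℂ → ℝ} (hVc : Continuous V) (hV : ∀ z, 0 ≤ V z) {θ θ' : ℝ} (hθ : 0 ≤ θ)
    (h : θ ≤ θ') (y : ℝ) : cen V θ y ≤ cen V θ' y := by
  unfold cen
  apply intervalIntegral.integral_mono_interval (by linarith) (by linarith) (by linarith)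
  · exact Filter.Eventually.of_forall (fun s => hV _)
  · exact (cont_horizontal hVc y).intervalIntegrable _ _

theorem cen_lower {V : ℂ → ℝ} (hVc : Continuous V) {C : ℝ} (hV : ∀ z : ℂ, |z.im| - C ≤ V z)
    {θ y : ℝ} (hθ : 0 ≤ θ) (hy : 0 ≤ y) : 2 * θ * (y - C) ≤ cen V θ y := by
  have h1 : ∫ _ in (-θ)..θ, (y - C) ≤ cen V θ y := by
    unfold cen
    apply intervalIntegral.integral_mono_on (by linarith) (by simp)
      ((cont_horizontal hVc y).intervalIntegrable _ _)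
    intro s _
    have := hV ((s : ℂ) + (y : ℂ) * I)
    simpa [abs_of_nonneg hy] using this
  rw [intervalIntegral.integral_const] at h1
  simp only [smul_eq_mul] at h1
  linarith [h1, show (θ - -θ) * (y - C) = 2 * θ * (y - C) by ring]

end LE
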