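import Mathlib
import Pool.Agent.Helper714.LE.Main1

open Set MeasureTheory Filter Topology Metric Complex InnerProductSpace

namespace LE

/-- hypotheses of the comparison theorem -/
structure CmpHyp (U V : ℂ → ℝ) (g M C : ℝ) : Prop where
  g0 : 0 < g
  g1 : g < 1
  hU : Continuous U
  hUnn : ∀ z, 0 ≤ U z
  hUh : ∀ z : ℂ, z.im ≠ 0 → HarmonicAt U z
  hUh0 : ∀ s : ℝ, 0 < U (s : ℂ) → HarmonicAt U (s : ℂ)
  hUs : ∀ s y : ℝ, U ((s : ℂ) + ((-y : ℝ) : ℂ) * I) = U ((s : ℂ) + (y : ℂ) * I)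
  hUM : ∀ z : ℂ, U z ≤ |z.im| + M
  hUg : ∀ x : ℝ, volume {s ∈ Icc x (x + 1) | 0 < U (s : ℂ)} ≤ ENNReal.ofReal g
  hV : Continuous V
  hVnn : ∀ z, 0 ≤ V z
  hVh : ∀ z : ℂ, z.im ≠ 0 → HarmonicAt V z
  hVh0 : ∀ s : ℝ, |s| < g / 2 → HarmonicAt V (s : ℂ)
  hVe : ∀ s y : ℝ, V ((-s : ℝ) + (y : ℂ) * I) = V ((s : ℂ) + (y : ℂ) * I)
  hVs : ∀ s y : ℝ, V ((s : ℂ) + ((-y : ℝ) : ℂ) * I) = V ((s : ℂ) + (y : ℂ) * I)
  hVp : ∀ s y : ℝ, V ((s + 1 : ℝ) + (y : ℂ) * I) = V ((s : ℂ) + (y : ℂ) * I)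
  hVC : ∀ z : ℂ, |z.im| - C ≤ V z


/-- the perturbed difference -/
noncomputable def Q (U V : ℂ → ℝ) (lam η ε η' : ℝ) (x θ y : ℝ) : ℝ :=
  star (fun s : ℝ => U ((s : ℂ) + (y : ℂ) * I)) x θ - lam * x ^ 2 - (1 + η) * cen V θ y
    - ε * θ + η' * y ^ 2

theorem star_const {f : ℝ → ℝ} {t : ℝ} (hf : ∀ s, f s = t) {x θ : ℝ} (h0 : 0 ≤ θ)
    (h1 : θ ≤ 1 / 2) : star f x θ = 2 * θ * t := by
  have hc : Continuous f := by
    have : f = fun _ => t := funext hf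
    rw [this]; exact continuous_const
  apply le_antisymm
  · exact star_le_mul hc h0 h1 (fun s _ => (hf s).le)
  · have hv : volume (Icc x (x + 2 * θ)) = ENNReal.ofReal (2 * θ) := by
      rw [Real.volume_Icc]; congr 1; ring
    have := le_star hc (F := Icc x (x + 2 * θ)) measurableSet_Icc
      (Icc_subset_Icc_right (by linarith)) hv
    simp only [hf] at this
    rw [setIntegral_const, Measure.real, hv, ENNReal.toReal_ofReal (by linarith)] at this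
    simpa using this

theorem cen_even {V : ℂ → ℝ} (hVs : ∀ s y : ℝ, V ((s : ℂ) + ((-y : ℝ) : ℂ) * I) = V ((s : ℂ) + (y : ℂ) * I))
    (θ y : ℝ) : cen V θ (-y) = cen V θ y := by
  unfold cen
  simp only [hVs]

/-- the `y`-test: local maximum in `y` for fixed set `F`. -/
theorem y_localmax {U V : ℂ → ℝ} {g M C : ℝ} (H : CmpHyp U V g M C) {lam η ε η' Y x0 θ0 y0 : ℝ}
    (hθ0 : 0 < θ0) (hθ1 : θ0 ≤ 1 / 2) (hy0 : 0 ≤ y0) (hy1 : y0 < Y)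
    (hQ : ∀ x θ y : ℝ, 0 ≤ θ → θ ≤ 1 / 2 → 0 ≤ y → y ≤ Y → Q U V lam η ε η' x θ y ≤
      Q U V lam η ε η' x0 θ0 y0) {F : Set ℝ} (hF : MeasurableSet F) (hFx : F ⊆ Icc x0 (x0 + 1))
    (hv : volume F = ENNReal.ofReal (2 * θ0))
    (hstar : star (fun s : ℝ => U ((s : ℂ) + (y0 : ℂ) * I)) x0 θ0 =
      ∫ s in F, U ((s : ℂ) + (y0 : ℂ) * I)) :
    ∀ᶠ y : ℝ in 𝓝 y0, (∫ s in F, U ((s : ℂ) + (y : ℂ) * I)) - (1 + η) * cen V θ0 y + η' * y ^ 2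
      ≤ (∫ s in F, U ((s : ℂ) + (y0 : ℂ) * I)) - (1 + η) * cen V θ0 y0 + η' * y0 ^ 2 := by
  have hY : ∀ y : ℝ, 0 ≤ y → y ≤ Y →
      (∫ s in F, U ((s : ℂ) + (y : ℂ) * I)) - (1 + η) * cen V θ0 y + η' * y ^ 2
      ≤ (∫ s in F, U ((s : ℂ) + (y0 : ℂ) * I)) - (1 + η) * cen V θ0 y0 + η' * y0 ^ 2 := by
    intro y h0 h1
    have h2 := hQ x0 θ0 y hθ0.le hθ1 h0 h1
    have h3 := le_star (cont_horizontal H.hU y) hF hFx hv
    unfold Q at h2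
    rw [hstar] at h2
    linarith
  have h4 : ∀ᶠ y : ℝ in 𝓝 y0, -Y < y ∧ y < Y := by
    have : Ioo (-Y) Y ∈ 𝓝 y0 := Ioo_mem_nhds (by linarith) hy1
    exact this
  filter_upwards [h4] with y hy
  rcases le_total 0 y with h | h
  · exact hY y h hy.2.le
  · have h5 := hY (-y) (by linarith) (by linarith)
    simp only [H.hUs] at h5
    rw [cen_even H.hVs] at h5
    simpa using h5

end LE
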