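import Mathlib
import Pool.Agent.Helper714.LE.Main2

open Set MeasureTheory Filter Topology Metric Complex InnerProductSpace

namespace LE

variable {U V : ℂ → ℝ} {g M C : ℝ}

/-- local maximum in the `(x,θ)` directions -/
theorem xθ_localmax (V : ℂ → ℝ) (f : ℝ → ℝ) {lam η ε η' x0 θ0 y0 : ℝ}
    (hθ0 : 0 < θ0) (hθ1 : θ0 < 1 / 2)
    (hQ : ∀ x θ : ℝ, 0 ≤ θ → θ ≤ 1 / 2 →
      star f x θ - lam * x ^ 2 - (1 + η) * cen V θ y0 - ε * θ + η' * y0 ^ 2 ≤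
      star f x0 θ0 - lam * x0 ^ 2 - (1 + η) * cen V θ0 y0 - ε * θ0 + η' * y0 ^ 2) :
    ∀ᶠ p : ℝ × ℝ in 𝓝 (x0, θ0),
      star f p.1 p.2 - lam * p.1 ^ 2 - ((1 + η) * cen V p.2 y0 + ε * p.2) ≤
      star f x0 θ0 - lam * x0 ^ 2 - ((1 + η) * cen V θ0 y0 + ε * θ0) := by
  have h1 : ∀ᶠ p : ℝ × ℝ in 𝓝 (x0, θ0), p.2 ∈ Ioo (0 : ℝ) (1 / 2) := by
    have : Tendsto (fun p : ℝ × ℝ => p.2) (𝓝 (x0, θ0)) (𝓝 θ0) := continuous_snd.tendsto (x0, θ0)
    exact this (Ioo_mem_nhds hθ0 hθ1)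
  filter_upwards [h1] with p hp
  have := hQ p.1 p.2 hp.1.le hp.2.le
  linarith

theorem hasDerivAt_P (hV : Continuous V)
    (hVe : ∀ s y : ℝ, V ((-s : ℝ) + (y : ℂ) * I) = V ((s : ℂ) + (y : ℂ) * I))
    (η ε θ y : ℝ) : HasDerivAt (fun θ => (1 + η) * cen V θ y + ε * θ)
      ((1 + η) * (2 * V ((θ : ℂ) + (y : ℂ) * I)) + ε) θ := by
  have h1 := (cen_deriv hV hVe θ y).const_mul (1 + η)
  have h2 : HasDerivAt (fun θ : ℝ => ε * θ) ε θ := by
    simpa using (hasDerivAt_id θ).const_mul ε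
  exact h1.fun_add h2

/-- regular case -/
theorem contra_reg (H : CmpHyp U V g M C) {lam η ε η' Y x0 θ0 y0 : ℝ}
    (hlam : 0 < lam) (hη' : lam < η')
    (hθ0 : 0 < θ0) (hθ1 : θ0 < 1 / 2) (hy0 : 0 ≤ y0) (hy1 : y0 < Y)
    (hQ : ∀ x θ y : ℝ, 0 ≤ θ → θ ≤ 1 / 2 → 0 ≤ y → y ≤ Y → Q U V lam η ε η' x θ y ≤
      Q U V lam η ε η' x0 θ0 y0) {t : ℝ}
    (han : ∀ s ∈ Icc x0 (x0 + 1), t ≤ U ((s : ℂ) + (y0 : ℂ) * I) →
      HarmonicAt U ((s : ℂ) + (y0 : ℂ) * I))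
    (hfin : {s ∈ Icc x0 (x0 + 1) | U ((s : ℂ) + (y0 : ℂ) * I) = t}.Finite)
    (hvol : volume {s ∈ Icc x0 (x0 + 1) | t ≤ U ((s : ℂ) + (y0 : ℂ) * I)} =
      ENNReal.ofReal (2 * θ0))
    (hstar : star (fun s : ℝ => U ((s : ℂ) + (y0 : ℂ) * I)) x0 θ0 =
      ∫ s in {s ∈ Icc x0 (x0 + 1) | t ≤ U ((s : ℂ) + (y0 : ℂ) * I)}, U ((s : ℂ) + (y0 : ℂ) * I))
    (hVh : ∀ s ∈ Icc (-θ0) θ0, HarmonicAt V ((s : ℂ) + (y0 : ℂ) * I)) : False := by
  set f : ℝ → ℝ := fun s : ℝ => U ((s : ℂ) + (y0 : ℂ) * I) with hf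
  have hfc : Continuous f := cont_horizontal H.hU y0
  obtain ⟨A, hA1, hA2⟩ := cen_second H.hV H.hVe hθ0.le hVh
  set S : Set ℝ := {s ∈ Icc x0 (x0 + 1) | t ≤ f s} with hS
  have hScl : IsCompact S := by
    have : S = Icc x0 (x0 + 1) ∩ {s | t ≤ f s} := rfl
    rw [this]
    exact isCompact_Icc.inter_right (isClosed_le continuous_const hfc)
  have hSm : MeasurableSet S := hScl.isClosed.measurableSet
  have hSx : S ⊆ Icc x0 (x0 + 1) := fun s hs => hs.1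
  have hB := star_superlevel (f := f) hfc hθ0 hθ1
    (fun s hs hts => analyticAt_horizontal (han s hs hts)) hfin hvol hstar
    (P := fun θ => (1 + η) * cen V θ y0 + ε * θ)
    (P1 := fun θ => (1 + η) * (2 * V ((θ : ℂ) + (y0 : ℂ) * I)) + ε) (P2 := (1 + η) * A)
    (Filter.Eventually.of_forall (fun θ => hasDerivAt_P H.hV H.hVe η ε θ y0))
    (by simpa using (hA1.const_mul (1 + η)).add_const ε) (lam := lam) hlam.le
    (xθ_localmax V f (η' := η') hθ0 hθ1 (fun x θ h1 h2 => by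
      have := hQ x θ y0 h1 h2 hy0 hy1.le
      exact this))
  exact final_contra hScl (fun s hs => han s hs.1 hs.2) hSm Subset.rfl hA2
    (y_localmax H hθ0 hθ1.le hy0 hy1 hQ hSm hSx hvol hstar) hB le_rfl hη'

/-- constant case -/
theorem contra_const (H : CmpHyp U V g M C) {lam η ε η' Y x0 θ0 y0 : ℝ}
    (hlam : 0 < lam) (hη' : lam < η')
    (hθ0 : 0 < θ0) (hθ1 : θ0 < 1 / 2) (hy0 : 0 < y0) (hy1 : y0 < Y)
    (hQ : ∀ x θ y : ℝ, 0 ≤ θ → θ ≤ 1 / 2 → 0 ≤ y → y ≤ Y → Q U V lam η ε η' x θ y ≤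
      Q U V lam η ε η' x0 θ0 y0) {t : ℝ}
    (hc : ∀ s : ℝ, U ((s : ℂ) + (y0 : ℂ) * I) = t) : False := by
  set f : ℝ → ℝ := fun s : ℝ => U ((s : ℂ) + (y0 : ℂ) * I) with hf
  have hVh : ∀ s ∈ Icc (-θ0) θ0, HarmonicAt V ((s : ℂ) + (y0 : ℂ) * I) := by
    intro s _
    apply H.hVh
    simpa using hy0.ne'
  obtain ⟨A, hA1, hA2⟩ := cen_second H.hV H.hVe hθ0.le hVh
  set F : Set ℝ := Icc x0 (x0 + 2 * θ0) with hF
  have hv : volume F = ENNReal.ofReal (2 * θ0) := by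
    rw [hF, Real.volume_Icc]; congr 1; ring
  have hFx : F ⊆ Icc x0 (x0 + 1) := Icc_subset_Icc_right (by linarith)
  have hstar : star f x0 θ0 = ∫ s in F, f s := by
    rw [star_const hc hθ0.le hθ1.le]
    simp only [hf, hc]
    rw [setIntegral_const, Measure.real, hv, ENNReal.toReal_ofReal (by linarith)]
    simp
  -- second derivative of `f` vanishes
  have hf0 : f = fun _ => t := funext hc
  have hB : ∫ s in F, deriv (deriv f) s ≤ 0 := by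
    rw [hf0]; simp
  -- `A ≥ 0`
  have hA : 0 ≤ (1 + η) * A := by
    have hl := xθ_localmax V f (η := η) (lam := lam) (ε := ε) (η' := η') (y0 := y0) (x0 := x0)
      hθ0 hθ1 (fun x θ h1 h2 => by
        have := hQ x θ y0 h1 h2 hy0.le hy1.le
        exact this)
    have hl2 : ∀ᶠ θ : ℝ in 𝓝 θ0, 2 * θ * t - ((1 + η) * cen V θ y0 + ε * θ) ≤
        2 * θ0 * t - ((1 + η) * cen V θ0 y0 + ε * θ0) := by
      have hcont : Tendsto (fun θ : ℝ => (x0, θ)) (𝓝 θ0) (𝓝 (x0, θ0)) :=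
        (Continuous.prodMk_right x0).tendsto θ0
      have h3 := hcont.eventually hl
      have h4 : ∀ᶠ θ : ℝ in 𝓝 θ0, θ ∈ Ioo (0 : ℝ) (1 / 2) := Ioo_mem_nhds hθ0 hθ1
      filter_upwards [h3, h4] with θ h5 h6
      rw [star_const hc h6.1.le h6.2.le, star_const hc hθ0.le hθ1.le] at h5
      linarith
    have := second_test (g := fun θ => 2 * θ * t - ((1 + η) * cen V θ y0 + ε * θ))
      (g1 := fun θ => 2 * t - ((1 + η) * (2 * V ((θ : ℂ) + (y0 : ℂ) * I)) + ε))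
      (g2 := 0 - (1 + η) * A) (a := θ0)
      (Filter.Eventually.of_forall (fun θ => by
        have h5 : HasDerivAt (fun θ : ℝ => 2 * θ * t) (2 * t) θ := by
          simpa using ((hasDerivAt_id θ).const_mul (2 : ℝ)).mul_const t
        exact h5.fun_sub (hasDerivAt_P H.hV H.hVe η ε θ y0)))
      (by
        have h6 : HasDerivAt (fun θ : ℝ => (1 + η) * (2 * V ((θ : ℂ) + (y0 : ℂ) * I)) + ε)
          ((1 + η) * A) θ0 := by simpa using (hA1.const_mul (1 + η)).add_const ε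
        exact (hasDerivAt_const θ0 (2 * t)).fun_sub h6) hl2
    linarith
  exact final_contra (K := F) (F := F) (A := A) (lam := lam) (η := η) (η' := η') (B := 0)
    isCompact_Icc (fun s _ => H.hUh _ (by simpa using hy0.ne')) measurableSet_Icc Subset.rfl hA2
    (y_localmax H hθ0 hθ1.le hy0.le hy1 hQ measurableSet_Icc hFx hv hstar) hB
    (by linarith) hη'

/-- full window case -/
theorem contra_full (H : CmpHyp U V g M C) {lam η ε η' Y x0 y0 : ℝ}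
    (hlam : 0 < lam) (hη' : lam < η') (hy0 : 0 < y0) (hy1 : y0 < Y)
    (hQ : ∀ x θ y : ℝ, 0 ≤ θ → θ ≤ 1 / 2 → 0 ≤ y → y ≤ Y → Q U V lam η ε η' x θ y ≤
      Q U V lam η ε η' x0 (1 / 2) y0) : False := by
  set f : ℝ → ℝ := fun s : ℝ => U ((s : ℂ) + (y0 : ℂ) * I) with hf
  have hfc : Continuous f := cont_horizontal H.hU y0
  have hVh : ∀ s ∈ Icc (-(1 / 2) : ℝ) (1 / 2), HarmonicAt V ((s : ℂ) + (y0 : ℂ) * I) := by
    intro s _
    apply H.hVh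
    simpa using hy0.ne'
  obtain ⟨Y1, hA1, hA2⟩ := cen_second_half H.hV H.hVe H.hVp hVh
  have hUh : ∀ s : ℝ, HarmonicAt U ((s : ℂ) + (y0 : ℂ) * I) :=
    fun s => H.hUh _ (by simpa using hy0.ne')
  have hstar : star f x0 (1 / 2) = ∫ s in Icc x0 (x0 + 1), f s := star_half hfc x0
  have hB : ∫ s in Icc x0 (x0 + 1), deriv (deriv f) s ≤ 2 * lam := by
    apply star_full hfc (fun s _ => analyticAt_horizontal (hUh s))
    refine Filter.Eventually.of_forall (fun x => ?_)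
    have := hQ x (1 / 2) y0 (by norm_num) le_rfl hy0.le hy1.le
    unfold Q at this
    linarith
  exact final_contra (A := 0) (lam := lam) (η := η) (η' := η') (B := 2 * lam)
    isCompact_Icc (fun s _ => hUh s) measurableSet_Icc Subset.rfl
    ⟨Y1, hA1, by simpa using hA2⟩
    (y_localmax H (by norm_num) le_rfl hy0.le hy1 hQ measurableSet_Icc Subset.rfl
      (by rw [Real.volume_Icc]; congr 1; ring) hstar) hB (by linarith) hη'

/-- removal case -/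
theorem contra_remove (H : CmpHyp U V g M C) {lam η ε η' Y x0 θ0 : ℝ}
    (hε : 0 < ε) (hη : 0 ≤ η)
    (hθ0 : 0 < θ0) (hθ1 : θ0 ≤ 1 / 2) (hY : 0 < Y)
    (hQ : ∀ x θ y : ℝ, 0 ≤ θ → θ ≤ 1 / 2 → 0 ≤ y → y ≤ Y → Q U V lam η ε η' x θ y ≤
      Q U V lam η ε η' x0 θ0 0)
    (hv : volume {s ∈ Icc x0 (x0 + 1) | 0 < U (s : ℂ)} ≤ ENNReal.ofReal (2 * θ0)) : False := by
  set f : ℝ → ℝ := fun s : ℝ => U ((s : ℂ) + ((0 : ℝ) : ℂ) * I) with hf
  have hfs : ∀ s : ℝ, f s = U (s : ℂ) := fun s => by simp [hf]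
  have hfc : Continuous f := cont_horizontal H.hU 0
  have hv1 : volume {s ∈ Icc x0 (x0 + 1) | 0 < f s} < 1 := by
    simp only [hfs]
    refine lt_of_le_of_lt (H.hUg x0) ?_
    rw [← ENNReal.ofReal_one]
    exact (ENNReal.ofReal_lt_ofReal_iff one_pos).2 H.g1
  obtain ⟨h0, hh0, h1⟩ := star_remove hfc hθ0 hθ1 (fun s _ => H.hUnn _)
    (by simpa only [hfs] using hv) hv1 (half_pos hε)
  set h := min (h0 / 2) (θ0 / 2) with hh
  have hhp : 0 < h := lt_min (by linarith) (by linarith)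
  have hh1 : h < h0 := lt_of_le_of_lt (min_le_left _ _) (by linarith)
  have hh2 : h < θ0 := lt_of_le_of_lt (min_le_right _ _) (by linarith)
  have h2 := h1 h hhp hh1
  have h3 := hQ x0 (θ0 - h) 0 (by linarith) (by linarith) le_rfl hY.le
  have h4 := cen_mono H.hV H.hVnn (θ := θ0 - h) (θ' := θ0) (by linarith) (by linarith) 0
  have h5 : (1 + η) * cen V (θ0 - h) 0 ≤ (1 + η) * cen V θ0 0 :=
    mul_le_mul_of_nonneg_left h4 (by linarith)
  unfold Q at h3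
  nlinarith

end LE
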