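import Mathlib
import Pool.Agent.Helper714.LE.Main3

open Set MeasureTheory Filter Topology Metric Complex InnerProductSpace

namespace LE

variable {U V : ℂ → ℝ} {g M C : ℝ}

/-- the superlevel set has the right measure when the level set is finite -/
theorem superlevel_vol {f : ℝ → ℝ} (hf : Continuous f) {x θ t : ℝ}
    (h1 : volume {s ∈ Icc x (x + 1) | t < f s} ≤ ENNReal.ofReal (2 * θ))
    (h2 : ENNReal.ofReal (2 * θ) ≤ volume {s ∈ Icc x (x + 1) | t ≤ f s})
    (hfin : {s ∈ Icc x (x + 1) | f s = t}.Finite) :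
    volume {s ∈ Icc x (x + 1) | t ≤ f s} = ENNReal.ofReal (2 * θ) := by
  apply le_antisymm _ h2
  have h3 : {s ∈ Icc x (x + 1) | t ≤ f s} ⊆
      {s ∈ Icc x (x + 1) | t < f s} ∪ {s ∈ Icc x (x + 1) | f s = t} := by
    intro s hs
    rcases hs.2.lt_or_eq with h | h
    · exact Or.inl ⟨hs.1, h⟩
    · exact Or.inr ⟨hs.1, h.symm⟩
  calc volume {s ∈ Icc x (x + 1) | t ≤ f s}
      ≤ volume ({s ∈ Icc x (x + 1) | t < f s} ∪ {s ∈ Icc x (x + 1) | f s = t}) := measure_mono h3
    _ ≤ volume {s ∈ Icc x (x + 1) | t < f s} + volume {s ∈ Icc x (x + 1) | f s = t} :=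
        measure_union_le _ _
    _ = volume {s ∈ Icc x (x + 1) | t < f s} := by
        rw [hfin.measure_zero, add_zero]
    _ ≤ _ := h1

/-- No interior maximum. -/
theorem no_max (H : CmpHyp U V g M C) {lam η ε η' Y x0 θ0 y0 : ℝ}
    (hε : 0 < ε) (hη : 0 ≤ η) (hlam : 0 < lam) (hη' : lam < η')
    (hθ0 : 0 < θ0) (hθ1 : θ0 ≤ 1 / 2) (hy0 : 0 ≤ y0) (hy1 : y0 < Y)
    (hQ : ∀ x θ y : ℝ, 0 ≤ θ → θ ≤ 1 / 2 → 0 ≤ y → y ≤ Y → Q U V lam η ε η' x θ y ≤
      Q U V lam η ε η' x0 θ0 y0) : False := by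
  have hg1 : ENNReal.ofReal g < 1 := by
    rw [← ENNReal.ofReal_one]
    exact (ENNReal.ofReal_lt_ofReal_iff one_pos).2 H.g1
  rcases hy0.eq_or_lt with hy | hy
  · -- y0 = 0
    subst hy
    by_cases hv : volume {s ∈ Icc x0 (x0 + 1) | 0 < U (s : ℂ)} ≤ ENNReal.ofReal (2 * θ0)
    · exact contra_remove H hε hη hθ0 hθ1 hy1 hQ hv
    · push Not at hv
      have h2 : ENNReal.ofReal (2 * θ0) < ENNReal.ofReal g := lt_of_lt_of_le hv (H.hUg x0)
      have h3 : 2 * θ0 < g := (ENNReal.ofReal_lt_ofReal_iff H.g0).1 h2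
      have hθ2 : θ0 < 1 / 2 := by linarith [H.g1]
      set f : ℝ → ℝ := fun s : ℝ => U ((s : ℂ) + ((0 : ℝ) : ℂ) * I) with hf
      have hfs : ∀ s : ℝ, f s = U (s : ℂ) := fun s => by simp [hf]
      have hfc : Continuous f := cont_horizontal H.hU 0
      obtain ⟨t, ht1, ht2, ht3⟩ := bathtub hfc x0 hθ0.le hθ1
      have htpos : 0 < t := by
        by_contra hneg
        push Not at hneg
        have : {s ∈ Icc x0 (x0 + 1) | 0 < U (s : ℂ)} ⊆ {s ∈ Icc x0 (x0 + 1) | t < f s} := by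
          intro s hs
          refine ⟨hs.1, ?_⟩
          rw [hfs]
          exact lt_of_le_of_lt hneg hs.2
        exact absurd (lt_of_lt_of_le hv (measure_mono this)) (not_lt.2 ht1)
      have hzero : ∃ s ∈ Icc x0 (x0 + 1), f s = 0 := by
        by_contra hne
        push Not at hne
        have : Icc x0 (x0 + 1) ⊆ {s ∈ Icc x0 (x0 + 1) | 0 < U (s : ℂ)} := by
          intro s hs
          refine ⟨hs, lt_of_le_of_ne (H.hUnn _) ?_⟩
          have := hne s hs
          rw [hfs] at this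
          exact this.symm
        have h4 := (measure_mono this).trans (H.hUg x0)
        rw [Real.volume_Icc] at h4
        have h5 : ENNReal.ofReal (x0 + 1 - x0) = 1 := by
          rw [← ENNReal.ofReal_one]; congr 1; ring
        rw [h5] at h4
        exact absurd hg1 (not_lt.2 h4)
      have hpt : ∀ s : ℝ, (s : ℂ) + ((0 : ℝ) : ℂ) * I = (s : ℂ) := fun s => by simp
      have hUh : ∀ s : ℝ, 0 < f s → HarmonicAt U ((s : ℂ) + ((0 : ℝ) : ℂ) * I) := by
        intro s hs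
        rw [hfs] at hs
        have := H.hUh0 s hs
        rwa [← hpt s] at this
      have hfin : {s ∈ Icc x0 (x0 + 1) | f s = t}.Finite :=
        level_finite_pos hfc (fun s hs => analyticAt_horizontal (hUh s hs)) htpos hzero
      have hvol := superlevel_vol hfc ht1 ht2 hfin
      have hSm : MeasurableSet {s ∈ Icc x0 (x0 + 1) | t ≤ f s} := by
        have : {s ∈ Icc x0 (x0 + 1) | t ≤ f s} = Icc x0 (x0 + 1) ∩ {s | t ≤ f s} := rfl
        rw [this]
        exact (isClosed_Icc.inter (isClosed_le continuous_const hfc)).measurableSet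
      have hstar := ht3 {s ∈ Icc x0 (x0 + 1) | t ≤ f s} hSm
        (fun s hs => ⟨hs.1, hs.2.le⟩) Subset.rfl hvol
      refine contra_reg H hlam hη' hθ0 hθ2 le_rfl hy1 hQ (t := t)
        (fun s _ hts => hUh s (lt_of_lt_of_le htpos hts)) hfin hvol hstar ?_
      intro s hs
      rw [hpt]
      apply H.hVh0
      rw [abs_lt]
      constructor <;> [linarith [hs.1]; linarith [hs.2]]
  · -- y0 > 0
    rcases hθ1.eq_or_lt with h12 | h12
    · subst h12
      exact contra_full H hlam hη' hy hy1 hQ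
    · set f : ℝ → ℝ := fun s : ℝ => U ((s : ℂ) + (y0 : ℂ) * I) with hf
      have hfc : Continuous f := cont_horizontal H.hU y0
      have hUh : ∀ s : ℝ, HarmonicAt U ((s : ℂ) + (y0 : ℂ) * I) :=
        fun s => H.hUh _ (by simpa using hy.ne')
      obtain ⟨t, ht1, ht2, ht3⟩ := bathtub hfc x0 hθ0.le hθ1
      rcases level_finite (f := f) (fun s => analyticAt_horizontal (hUh s)) x0 t with hfin | hconst
      · have hvol := superlevel_vol hfc ht1 ht2 hfin
        have hSm : MeasurableSet {s ∈ Icc x0 (x0 + 1) | t ≤ f s} := by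
          have : {s ∈ Icc x0 (x0 + 1) | t ≤ f s} = Icc x0 (x0 + 1) ∩ {s | t ≤ f s} := rfl
          rw [this]
          exact (isClosed_Icc.inter (isClosed_le continuous_const hfc)).measurableSet
        have hstar := ht3 {s ∈ Icc x0 (x0 + 1) | t ≤ f s} hSm
          (fun s hs => ⟨hs.1, hs.2.le⟩) Subset.rfl hvol
        exact contra_reg H hlam hη' hθ0 h12 hy0 hy1 hQ (t := t)
          (fun s _ _ => hUh s) hfin hvol hstar
          (fun s _ => H.hVh _ (by simpa using hy.ne'))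
      · exact contra_const H hlam hη' hθ0 h12 hy hy1 hQ hconst

/-- continuity of `Q` -/
theorem Q_continuousOn (hU : Continuous U) (hV : Continuous V) (lam η ε η' : ℝ) :
    ContinuousOn (fun p : ℝ × ℝ × ℝ => Q U V lam η ε η' p.1 p.2.1 p.2.2)
      {p | 0 ≤ p.2.1 ∧ p.2.1 ≤ 1 / 2} := by
  have h1 := star_continuousOn hU
  have h2 : Continuous (fun p : ℝ × ℝ × ℝ => cen V p.2.1 p.2.2) :=
    (cen_continuous hV).comp continuous_snd
  unfold Q
  apply ContinuousOn.add
  · apply ContinuousOn.sub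
    · apply ContinuousOn.sub
      · exact h1.sub (by fun_prop)
      · exact (h2.const_mul (1 + η)).continuousOn
    · fun_prop
  · fun_prop

/-- Step A. -/
theorem stepA (H : CmpHyp U V g M C) {lam η ε η' Y : ℝ}
    (hε : 0 < ε) (hη : 0 ≤ η) (hlam : 0 < lam) (hη' : lam < η') (hY : 0 < Y)
    (hYM : Y + M ≤ (1 + η) * (Y - C)) :
    ∀ x θ y : ℝ, 0 ≤ θ → θ ≤ 1 / 2 → 0 ≤ y → y ≤ Y → Q U V lam η ε η' x θ y ≤ η' * Y ^ 2 := by
  have hη'0 : 0 < η' := hlam.trans hη'
  have hM0 : 0 ≤ M := by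
    have h1 := H.hUM 0
    have h2 := H.hUnn 0
    simp at h1
    linarith
  -- upper bound of star
  have hstar : ∀ x θ y : ℝ, 0 ≤ θ → θ ≤ 1 / 2 → 0 ≤ y →
      star (fun s : ℝ => U ((s : ℂ) + (y : ℂ) * I)) x θ ≤ 2 * θ * (y + M) := by
    intro x θ y h0 h1 hy
    apply star_le_mul (cont_horizontal H.hU y) h0 h1
    intro s _
    have := H.hUM ((s : ℂ) + (y : ℂ) * I)
    simpa [abs_of_nonneg hy] using this
  by_contra hcon
  push Not at hcon
  obtain ⟨x1, θ1, y1, h1, h2, h3, h4, h5⟩ := hcon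
  -- compact set
  set R : ℝ := |x1| + (Y + M) / lam + 1 with hR
  have hR1 : |x1| ≤ R := by
    have : 0 ≤ (Y + M) / lam := by positivity
    linarith
  set Kc : Set (ℝ × ℝ × ℝ) := Icc (-R) R ×ˢ (Icc 0 (1 / 2) ×ˢ Icc 0 Y) with hKc
  have hKcomp : IsCompact Kc := isCompact_Icc.prod (isCompact_Icc.prod isCompact_Icc)
  have hKne : ((x1, θ1, y1) : ℝ × ℝ × ℝ) ∈ Kc :=
    ⟨⟨by linarith [neg_abs_le x1], by linarith [le_abs_self x1]⟩, ⟨h1, h2⟩, ⟨h3, h4⟩⟩
  have hcont : ContinuousOn (fun p : ℝ × ℝ × ℝ => Q U V lam η ε η' p.1 p.2.1 p.2.2) Kc :=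
    (Q_continuousOn H.hU H.hV lam η ε η').mono (fun p hp => ⟨hp.2.1.1, hp.2.1.2⟩)
  obtain ⟨⟨x0, θ0, y0⟩, hp0, hmax⟩ := hKcomp.exists_isMaxOn ⟨_, hKne⟩ hcont
  have hmax1 : η' * Y ^ 2 < Q U V lam η ε η' x0 θ0 y0 := lt_of_lt_of_le h5 (hmax hKne)
  -- bound outside
  have hout : ∀ x θ y : ℝ, 0 ≤ θ → θ ≤ 1 / 2 → 0 ≤ y → y ≤ Y → R < |x| →
      Q U V lam η ε η' x θ y ≤ η' * Y ^ 2 := by
    intro x θ y a1 a2 a3 a4 a5
    have b1 := hstar x θ y a1 a2 a3
    have b2 := cen_nonneg H.hVnn a1 (V := V) y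
    have b3 : 2 * θ * (y + M) ≤ Y + M := by nlinarith
    have b4 : Y + M ≤ lam * x ^ 2 := by
      have c1 : (Y + M) / lam ≤ |x| := by linarith [abs_nonneg x1]
      have c2 : 1 ≤ |x| := by
        have : 0 ≤ (Y + M) / lam := by positivity
        linarith [abs_nonneg x1]
      have c3 : Y + M ≤ lam * |x| := by
        rw [div_le_iff₀ hlam] at c1
        linarith
      have c4 : |x| ≤ x ^ 2 := by
        rw [← sq_abs]; nlinarith
      nlinarith
    have b5 : η' * y ^ 2 ≤ η' * Y ^ 2 := by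
      apply mul_le_mul_of_nonneg_left _ hη'0.le
      nlinarith
    have b6 : 0 ≤ (1 + η) * cen V θ y := by positivity
    have b7 : 0 ≤ ε * θ := by positivity
    unfold Q
    linarith
  have hglob : ∀ x θ y : ℝ, 0 ≤ θ → θ ≤ 1 / 2 → 0 ≤ y → y ≤ Y → Q U V lam η ε η' x θ y ≤
      Q U V lam η ε η' x0 θ0 y0 := by
    intro x θ y a1 a2 a3 a4
    rcases le_or_gt |x| R with a5 | a5
    · have : ((x, θ, y) : ℝ × ℝ × ℝ) ∈ Kc :=
        ⟨⟨by linarith [neg_abs_le x], by linarith [le_abs_self x]⟩, ⟨a1, a2⟩, ⟨a3, a4⟩⟩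
      exact hmax this
    · exact (hout x θ y a1 a2 a3 a4 a5).trans hmax1.le
  have hθ0 : 0 < θ0 := by
    rcases hp0.2.1.1.eq_or_lt with h | h
    · exfalso
      simp only at h
      subst h
      have b1 := hstar x0 0 y0 le_rfl (by norm_num) hp0.2.2.1
      have b5 : η' * y0 ^ 2 ≤ η' * Y ^ 2 := by
        apply mul_le_mul_of_nonneg_left _ hη'0.le
        have := hp0.2.2.1
        have := hp0.2.2.2
        simp only at *
        nlinarith
      unfold Q at hmax1
      rw [cen_zero] at hmax1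
      nlinarith [mul_nonneg hlam.le (sq_nonneg x0)]
    · exact h
  have hy1' : y0 < Y := by
    rcases hp0.2.2.2.eq_or_lt with h | h
    · exfalso
      simp only at h
      rw [h] at hmax1
      have b1 := hstar x0 θ0 Y hp0.2.1.1 hp0.2.1.2 hY.le
      have b2 := cen_lower H.hV H.hVC hp0.2.1.1 hY.le
      simp only at b1 b2
      have b3 : 2 * θ0 * (Y + M) ≤ (1 + η) * cen V θ0 Y := by
        have c1 : 2 * θ0 * (Y + M) ≤ 2 * θ0 * ((1 + η) * (Y - C)) :=
          mul_le_mul_of_nonneg_left hYM (by positivity)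
        have c2 : (1 + η) * (2 * θ0 * (Y - C)) ≤ (1 + η) * cen V θ0 Y :=
          mul_le_mul_of_nonneg_left b2 (by linarith)
        linarith [show 2 * θ0 * ((1 + η) * (Y - C)) = (1 + η) * (2 * θ0 * (Y - C)) by ring]
      have b7 : 0 ≤ ε * θ0 := by positivity
      have b8 : 0 ≤ lam * x0 ^ 2 := by positivity
      unfold Q at hmax1
      linarith
    · exact h
  exact no_max H hε hη hlam hη' hθ0 hp0.2.1.2 hp0.2.2.1 hy1' hglob

/-- **Comparison theorem**: the window star function is dominated by the centered integral of the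
periodic extremal function. -/
theorem star_le_cen (H : CmpHyp U V g M C) {x θ y : ℝ} (hθ0 : 0 ≤ θ) (hθ1 : θ ≤ 1 / 2)
    (hy : 0 ≤ y) :
    star (fun s : ℝ => U ((s : ℂ) + (y : ℂ) * I)) x θ ≤ cen V θ y := by
  have h1 : ∀ η > 0, star (fun s : ℝ => U ((s : ℂ) + (y : ℂ) * I)) x θ ≤ (1 + η) * cen V θ y := by
    intro η hη
    set Y : ℝ := max (max 1 y) ((M + (1 + η) * C) / η) with hYdef
    have hY1 : 1 ≤ Y := (le_max_left _ _).trans (le_max_left _ _)
    have hYy : y ≤ Y := (le_max_right _ _).trans (le_max_left _ _)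
    have hYM : Y + M ≤ (1 + η) * (Y - C) := by
      have : (M + (1 + η) * C) / η ≤ Y := le_max_right _ _
      rw [div_le_iff₀ hη] at this
      linarith
    have h2 : ∀ κ > 0, star (fun s : ℝ => U ((s : ℂ) + (y : ℂ) * I)) x θ ≤
        (1 + η) * cen V θ y + κ * (x ^ 2 + θ + 2 * Y ^ 2) := by
      intro κ hκ
      have h3 := stepA H (lam := κ) (η := η) (ε := κ) (η' := 2 * κ) (Y := Y) hκ hη.le hκ
        (by linarith) (by linarith) hYM x θ y hθ0 hθ1 hy hYy
      unfold Q at h3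
      have : 0 ≤ 2 * κ * y ^ 2 := by positivity
      linarith
    apply le_of_forall_pos_le_add
    intro e he
    have hD : 0 < x ^ 2 + θ + 2 * Y ^ 2 := by positivity
    have h4 := h2 (e / (x ^ 2 + θ + 2 * Y ^ 2)) (by positivity)
    rwa [div_mul_cancel₀ _ hD.ne'] at h4
  apply le_of_forall_pos_le_add
  intro e he
  have hc := cen_nonneg H.hVnn hθ0 (V := V) y
  have h5 := h1 (e / (cen V θ y + 1)) (by positivity)
  have h6 : e / (cen V θ y + 1) * cen V θ y ≤ e := by
    rw [div_mul_eq_mul_div, div_le_iff₀ (by positivity)]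
    nlinarith
  linarith

end LE
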