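import Mathlib
import Pool.Agent.Helper714.LE.Main4
import Pool.Agent.Helper714.LE.Apriori
import Pool.Agent.Helper714.LE.J784
import Pool.Agent.Helper714.LE.J785

open Set MeasureTheory Filter Topology Metric Complex InnerProductSpace

namespace LE

/-- the explicit extremal function centred at its maximum -/
noncomputable def VT (δ : ℝ) (w : ℂ) : ℝ := UT δ (1 / 2 + w)

theorem UT_nonneg (δ : ℝ) (z : ℂ) : 0 ≤ UT δ z :=
  div_nonneg (gr_nonneg _) Real.pi_pos.le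

theorem harmonicAt_translate {U : ℂ → ℝ} {c w : ℂ} (h : HarmonicAt U (c + w)) :
    HarmonicAt (fun w => U (c + w)) w :=
  J784.harm_comp (g := U) (φ := fun w => c + w) h (analyticAt_const.add analyticAt_id)

theorem VT_cont {δ : ℝ} (h0 : 0 < δ) (h1 : δ < 1) : Continuous (VT δ) :=
  (UT_continuous h0 h1).comp (by fun_prop)

theorem VT_harm {δ : ℝ} (h0 : 0 < δ) (h1 : δ < 1) {z : ℂ} (hz : z.im ≠ 0) :
    HarmonicAt (VT δ) z := by
  apply harmonicAt_translate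
  apply UT_harmonic h0 h1
  apply not_mem_of_im
  simpa using hz

theorem not_mem_Et {δ : ℝ} {s : ℝ} (hs : |s| < (1 - δ) / 2) : (1 / 2 + s) ∉ Et δ 0 := by
  rintro ⟨n, hn⟩
  rw [abs_lt] at hs
  rw [abs_le] at hn
  rcases le_or_gt n 0 with h | h
  · have : (n : ℝ) ≤ 0 := by exact_mod_cast h
    linarith
  · have : (1 : ℝ) ≤ n := by exact_mod_cast h
    linarith

theorem VT_harm0 {δ : ℝ} (h0 : 0 < δ) (h1 : δ < 1) {s : ℝ} (hs : |s| < (1 - δ) / 2) :
    HarmonicAt (VT δ) (s : ℂ) := by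
  apply harmonicAt_translate
  apply UT_harmonic h0 h1
  rintro ⟨x, hx, hx2⟩
  have : x = 1 / 2 + s := by
    have h3 : (x : ℂ) = ((1 / 2 + s : ℝ) : ℂ) := by
      have h4 : (x : ℂ) = 1 / 2 + s := hx2
      rw [h4]; push_cast; ring
    exact_mod_cast h3
  rw [this] at hx
  exact not_mem_Et hs hx

theorem VT_even (δ : ℝ) (s y : ℝ) :
    VT δ ((-s : ℝ) + (y : ℂ) * I) = VT δ ((s : ℂ) + (y : ℂ) * I) := by
  unfold VT
  have h1 : (1 / 2 + (((-s : ℝ) : ℂ) + (y : ℂ) * I)) =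
      -((starRingEnd ℂ) (1 / 2 + ((s : ℂ) + (y : ℂ) * I))) + 1 := by
    apply Complex.ext
    · simp; ring
    · simp
  rw [h1, UT_add_one, UT_neg, UT_conj]

theorem VT_symm (δ : ℝ) (s y : ℝ) :
    VT δ ((s : ℂ) + ((-y : ℝ) : ℂ) * I) = VT δ ((s : ℂ) + (y : ℂ) * I) := by
  unfold VT
  have h1 : (1 / 2 + ((s : ℂ) + ((-y : ℝ) : ℂ) * I)) =
      ((starRingEnd ℂ) (1 / 2 + ((s : ℂ) + (y : ℂ) * I))) := by
    apply Complex.ext
    · simp
    · simp
  rw [h1, UT_conj]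

theorem VT_per (δ : ℝ) (s y : ℝ) :
    VT δ ((s + 1 : ℝ) + (y : ℂ) * I) = VT δ ((s : ℂ) + (y : ℂ) * I) := by
  unfold VT
  have h1 : (1 / 2 + (((s + 1 : ℝ) : ℂ) + (y : ℂ) * I)) =
      (1 / 2 + ((s : ℂ) + (y : ℂ) * I)) + 1 := by
    push_cast; ring
  rw [h1, UT_add_one]

theorem cmpHyp {E : Set ℝ} {U : ℂ → ℝ} {δ : ℝ} (hE : IsClosed E) (hδ : 0 < δ) (hδ1 : δ < 1)
    (hdense : ∀ x : ℝ, ENNReal.ofReal δ ≤ volume (E ∩ Icc x (x + 1)))
    (hcont : Continuous U) (hzero : ∀ x ∈ E, U (x : ℂ) = 0)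
    (hpos : ∀ z : ℂ, z ∉ (fun x : ℝ => (x : ℂ)) '' E → 0 < U z)
    (hharm : ∀ z : ℂ, z ∉ (fun x : ℝ => (x : ℂ)) '' E → HarmonicAt U z)
    (hsymm : ∀ z, U ((starRingEnd ℂ) z) = U z)
    (hlim : Tendsto (fun y : ℝ => U ((y : ℂ) * I) / y) atTop (𝓝 1)) :
    ∃ M C : ℝ, CmpHyp U (VT δ) (1 - δ) M C := by
  obtain ⟨M, hM0, hM⟩ := apriori hE hδ hdense hcont hzero hpos hharm hsymm hlim
  obtain ⟨C, hC⟩ := UT_lower hδ hδ1
  refine ⟨M, C, ?_⟩
  have hnn : ∀ z, 0 ≤ U z := by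
    intro z
    by_cases hz : z ∈ (fun x : ℝ => (x : ℂ)) '' E
    · obtain ⟨x, hx, rfl⟩ := hz
      exact (hzero x hx).ge
    · exact (hpos z hz).le
  refine { g0 := by linarith, g1 := by linarith, hU := hcont, hUnn := hnn,
           hUh := fun z hz => hharm z (not_mem_of_im hz), hUh0 := ?_, hUs := ?_, hUM := hM,
           hUg := ?_, hV := VT_cont hδ hδ1, hVnn := fun z => UT_nonneg δ _,
           hVh := fun z hz => VT_harm hδ hδ1 hz, hVh0 := fun s hs => VT_harm0 hδ hδ1 hs,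
           hVe := VT_even δ, hVs := VT_symm δ, hVp := VT_per δ, hVC := ?_ }
  · intro s hs
    apply hharm
    rintro ⟨x, hx, hx2⟩
    have : x = s := by
      have h4 : (x : ℂ) = s := hx2
      exact_mod_cast h4
    subst this
    rw [hzero x hx] at hs
    exact lt_irrefl _ hs
  · intro s y
    rw [← hsymm ((s : ℂ) + (y : ℂ) * I)]
    congr 1
    apply Complex.ext <;> simp
  · intro x
    have h1 : {s ∈ Icc x (x + 1) | 0 < U (s : ℂ)} ⊆ Icc x (x + 1) \ (E ∩ Icc x (x + 1)) := by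
      intro s hs
      refine ⟨hs.1, fun h => ?_⟩
      have := hs.2
      rw [hzero s h.1] at this
      exact lt_irrefl _ this
    have h2 : volume (E ∩ Icc x (x + 1)) ≠ ⊤ := by
      apply ne_top_of_le_ne_top _ (measure_mono inter_subset_right)
      rw [Real.volume_Icc]; exact ENNReal.ofReal_ne_top
    calc volume {s ∈ Icc x (x + 1) | 0 < U (s : ℂ)}
        ≤ volume (Icc x (x + 1) \ (E ∩ Icc x (x + 1))) := measure_mono h1
      _ = volume (Icc x (x + 1)) - volume (E ∩ Icc x (x + 1)) := by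
          apply measure_sdiff inter_subset_right _ h2
          exact (hE.inter isClosed_Icc).measurableSet.nullMeasurableSet
      _ ≤ ENNReal.ofReal 1 - ENNReal.ofReal δ := by
          apply tsub_le_tsub _ (hdense x)
          rw [Real.volume_Icc]
          apply ENNReal.ofReal_le_ofReal; linarith
      _ = ENNReal.ofReal (1 - δ) := by
          rw [ENNReal.ofReal_sub _ hδ.le]
  · intro z
    have := hC (1 / 2 + z)
    simpa [VT] using this

end LE
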