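import Mathlib
import Pool.Agent.Helper714.LE.Ext
import Pool.Agent.Helper714.LE.CenHarm

open Set MeasureTheory Filter Topology Metric Complex InnerProductSpace

namespace LE

variable {U V : ℂ → ℝ} {g M C : ℝ}

theorem interval_le (H : CmpHyp U V g M C) {p θ y : ℝ} (hθ0 : 0 ≤ θ) (hθ1 : θ ≤ 1 / 2)
    (hy : 0 ≤ y) : ∫ s in (p - θ)..(p + θ), U ((s : ℂ) + (y : ℂ) * I) ≤ cen V θ y := by
  have h1 := star_le_cen H (x := p - 1 / 2) hθ0 hθ1 hy
  have h2 := le_star (cont_horizontal H.hU y) (x := p - 1 / 2) (θ := θ) (F := Icc (p - θ) (p + θ))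
    measurableSet_Icc (Icc_subset_Icc (by linarith) (by linarith))
    (by rw [Real.volume_Icc]; congr 1; ring)
  rw [intervalIntegral.integral_of_le (by linarith), ← integral_Icc_eq_integral_Ioc]
  exact h2.trans h1

theorem cen_translate (U : ℂ → ℝ) (x θ y : ℝ) :
    cen (fun w => U ((x : ℂ) + w)) θ y = ∫ s in (x - θ)..(x + θ), U ((s : ℂ) + (y : ℂ) * I) := by
  unfold cen
  have := intervalIntegral.integral_comp_add_left (a := -θ) (b := θ)
    (fun s : ℝ => U ((s : ℂ) + (y : ℂ) * I)) x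
  rw [← sub_eq_add_neg] at this
  rw [← this]
  apply intervalIntegral.integral_congr
  intro s _
  simp only
  congr 1
  push_cast; ring

/-- derivative of the centered integral -/
theorem cen_deriv_gen (hU : Continuous U) (x θ y : ℝ) :
    HasDerivAt (fun θ => ∫ s in (x - θ)..(x + θ), U ((s : ℂ) + (y : ℂ) * I))
      (U (((x + θ : ℝ) : ℂ) + (y : ℂ) * I) + U (((x - θ : ℝ) : ℂ) + (y : ℂ) * I)) θ := by
  have hc := cont_horizontal hU y
  have h1 : ∀ u : ℝ, HasDerivAt (fun u => ∫ s in x..u, U ((s : ℂ) + (y : ℂ) * I))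
      (U ((u : ℂ) + (y : ℂ) * I)) u := fun u =>
    intervalIntegral.integral_hasDerivAt_right (hc.intervalIntegrable _ _)
      (hc.stronglyMeasurableAtFilter _ _) hc.continuousAt
  have h2 : HasDerivAt (fun θ => ∫ s in x..(x + θ), U ((s : ℂ) + (y : ℂ) * I))
      (U (((x + θ : ℝ) : ℂ) + (y : ℂ) * I)) θ := by
    have := (h1 (x + θ)).comp θ ((hasDerivAt_id' θ).const_add x)
    simpa [Function.comp_def] using this
  have h3 : HasDerivAt (fun θ => ∫ s in x..(x - θ), U ((s : ℂ) + (y : ℂ) * I))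
      (-U (((x - θ : ℝ) : ℂ) + (y : ℂ) * I)) θ := by
    have := (h1 (x - θ)).comp θ ((hasDerivAt_id' θ).const_sub x)
    simpa [Function.comp_def] using this
  have h4 := h2.fun_sub h3
  rw [sub_neg_eq_add] at h4
  refine h4.congr_of_eventuallyEq (Filter.Eventually.of_forall (fun θ => ?_))
  simp only
  rw [intervalIntegral.integral_interval_sub_left (hc.intervalIntegrable _ _)
    (hc.intervalIntegrable _ _)]

/-- upper bound on the real axis -/
theorem U_le (H : CmpHyp U V g M C) (x : ℝ) : U (x : ℂ) ≤ V 0 := by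
  have h1 : HasDerivAt (fun θ => cen V θ 0 - ∫ s in (x - θ)..(x + θ), U ((s : ℂ) + ((0 : ℝ) : ℂ) * I))
      (2 * V (((0 : ℝ) : ℂ) + ((0 : ℝ) : ℂ) * I) -
        (U (((x + 0 : ℝ) : ℂ) + ((0 : ℝ) : ℂ) * I) + U (((x - 0 : ℝ) : ℂ) + ((0 : ℝ) : ℂ) * I))) 0 :=
    (cen_deriv H.hV H.hVe 0 0).fun_sub (cen_deriv_gen H.hU x 0 0)
  have h2 := h1.tendsto_slope_zero_right
  have h3 : 0 ≤ (2 * V (((0 : ℝ) : ℂ) + ((0 : ℝ) : ℂ) * I) -
        (U (((x + 0 : ℝ) : ℂ) + ((0 : ℝ) : ℂ) * I) + U (((x - 0 : ℝ) : ℂ) + ((0 : ℝ) : ℂ) * I))) := by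
    apply ge_of_tendsto h2
    have h4 : ∀ᶠ t : ℝ in 𝓝[>] 0, t ∈ Ioo (0 : ℝ) (1 / 2) := Ioo_mem_nhdsGT (by norm_num)
    filter_upwards [h4] with t ht
    have h5 := interval_le H (p := x) (y := 0) ht.1.le ht.2.le le_rfl
    have h6 : cen V 0 0 = 0 := cen_zero V 0
    rw [h6]
    simp only [zero_add, sub_zero, add_zero, intervalIntegral.integral_same, smul_eq_mul]
    apply mul_nonneg (inv_nonneg.2 ht.1.le)
    linarith
  have e1 : (((0 : ℝ) : ℂ) + ((0 : ℝ) : ℂ) * I) = 0 := by simp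
  have e2 : (((x + 0 : ℝ) : ℂ) + ((0 : ℝ) : ℂ) * I) = (x : ℂ) := by simp
  have e3 : (((x - 0 : ℝ) : ℂ) + ((0 : ℝ) : ℂ) * I) = (x : ℂ) := by simp
  rw [e1, e2, e3] at h3
  linarith

/-- Local rigidity. -/
theorem rigidity (H : CmpHyp U V g M C) {x : ℝ} (hx : U (x : ℂ) = V 0) (hpos : 0 < U (x : ℂ)) :
    ∀ z : ℂ, U ((x : ℂ) + z) = V z := by
  set UX : ℂ → ℝ := fun w => U ((x : ℂ) + w) with hUX
  have hUXc : Continuous UX := H.hU.comp (by fun_prop)
  -- radius
  have hh : HarmonicAt UX 0 := by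
    apply harmonicAt_translate
    simpa using H.hUh0 x hpos
  obtain ⟨r1, hr1, hr1'⟩ := Metric.mem_nhds_iff.1 hh.eventually
  set r : ℝ := min r1 (min (g / 2) (1 / 2)) with hr
  have hr0 : 0 < r := lt_min hr1 (lt_min (by linarith [H.g0]) (by norm_num))
  have hrr1 : r ≤ r1 := min_le_left _ _
  have hrg : r ≤ g / 2 := (min_le_right _ _).trans (min_le_left _ _)
  have hrh : r ≤ 1 / 2 := (min_le_right _ _).trans (min_le_right _ _)
  have hUXh : HarmonicOnNhd UX (ball 0 r) := fun w hw => hr1' (ball_subset_ball hrr1 hw)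
  have hVh : HarmonicOnNhd V (ball 0 r) := by
    intro w hw
    by_cases him : w.im = 0
    · have h1 : w = (w.re : ℂ) := by apply Complex.ext <;> simp [him]
      rw [h1]
      apply H.hVh0
      have h2 : |w.re| ≤ ‖w‖ := Complex.abs_re_le_norm w
      have h3 : ‖w‖ < r := by simpa using hw
      linarith
    · exact H.hVh w him
  set D : ℂ → ℝ := fun w => cen V w.re w.im - cen UX w.re w.im with hD
  have hDh : HarmonicOnNhd D (ball 0 r) := by
    have := (cen_harmonic hr0 hVh).sub (cen_harmonic hr0 hUXh)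
    exact this
  have cen_neg : ∀ (W : ℂ → ℝ) (θ y : ℝ), cen W (-θ) y = -cen W θ y := by
    intro W θ y
    unfold cen
    rw [neg_neg, intervalIntegral.integral_symm]
  have hodd : ∀ w ∈ ball (0 : ℂ) r, D (-(starRingEnd ℂ) w) = -D w := by
    intro w _
    simp only [hD, neg_re, conj_re, neg_im, conj_im, neg_neg, cen_neg]
    ring
  have hUXs : ∀ s y : ℝ, UX ((s : ℂ) + ((-y : ℝ) : ℂ) * I) = UX ((s : ℂ) + (y : ℂ) * I) := by
    intro s y
    have := H.hUs (x + s) y
    simp only [hUX]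
    rw [show (x : ℂ) + ((s : ℂ) + ((-y : ℝ) : ℂ) * I) = ((x + s : ℝ) : ℂ) + ((-y : ℝ) : ℂ) * I by
      push_cast; ring, this]
    congr 1
    push_cast; ring
  have hDnn1 : ∀ θ y : ℝ, 0 ≤ θ → θ ≤ 1 / 2 → 0 ≤ y → cen UX θ y ≤ cen V θ y := by
    intro θ y h1 h2 h3
    rw [hUX, cen_translate]
    exact interval_le H h1 h2 h3
  have hDnn : ∀ w ∈ ball (0 : ℂ) r, 0 ≤ w.re → 0 ≤ D w := by
    intro w hw hre
    have h2 : |w.re| ≤ ‖w‖ := Complex.abs_re_le_norm w
    have h3 : ‖w‖ < r := by simpa using hw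
    have h4 : w.re ≤ 1 / 2 := by linarith [le_abs_self w.re]
    simp only [hD, sub_nonneg]
    rcases le_total 0 w.im with h | h
    · exact hDnn1 _ _ hre h4 h
    · have h5 := hDnn1 w.re (-w.im) hre h4 (by linarith)
      rw [cen_even H.hVs, cen_even hUXs] at h5
      exact h5
  have hDt : ∀ θ y : ℝ, HasDerivAt (fun θ : ℝ => cen V θ y - cen UX θ y)
      (2 * V ((θ : ℂ) + (y : ℂ) * I) - (U (((x + θ : ℝ) : ℂ) + (y : ℂ) * I) +
        U (((x - θ : ℝ) : ℂ) + (y : ℂ) * I))) θ := by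
    intro θ y
    have h1 := (cen_deriv H.hV H.hVe θ y).fun_sub (cen_deriv_gen H.hU x θ y)
    refine h1.congr_of_eventuallyEq (Filter.Eventually.of_forall (fun θ => ?_))
    simp only [hUX, cen_translate]
  have hder : Tendsto (fun t : ℝ => D (t : ℂ) / t) (𝓝[>] 0) (𝓝 0) := by
    have h1 := (hDt 0 0).tendsto_slope_zero_right
    have e1 : (((0 : ℝ) : ℂ) + ((0 : ℝ) : ℂ) * I) = 0 := by simp
    have e2 : (((x + 0 : ℝ) : ℂ) + ((0 : ℝ) : ℂ) * I) = (x : ℂ) := by simp
    have e3 : (((x - 0 : ℝ) : ℂ) + ((0 : ℝ) : ℂ) * I) = (x : ℂ) := by simp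
    rw [e1, e2, e3, hx] at h1
    have e4 : 2 * V 0 - (V 0 + V 0) = 0 := by ring
    rw [e4] at h1
    refine h1.congr (fun t => ?_)
    simp only [zero_add, cen_zero, sub_zero, smul_eq_mul, hD, ofReal_re, ofReal_im]
    rw [div_eq_inv_mul]
  have hD0 := hopf_odd hr0 hDh hodd hDnn hder
  -- local identity
  have hloc : ∀ θ y : ℝ, 0 < θ → 0 < y → ‖(⟨θ, y⟩ : ℂ)‖ < r → UX ⟨θ, y⟩ = V ⟨θ, y⟩ := by
    intro θ y hθ hy hw
    have hθ12 : θ < 1 / 2 := by
      have h2 : |(⟨θ, y⟩ : ℂ).re| ≤ ‖(⟨θ, y⟩ : ℂ)‖ := Complex.abs_re_le_norm _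
      simp only at h2
      linarith [le_abs_self θ]
    have hmk : ∀ a b : ℝ, (a : ℂ) + (b : ℂ) * I = ⟨a, b⟩ := by
      intro a b; apply Complex.ext <;> simp
    -- equality of centered integrals at `(θ, y)`
    have hval : cen V θ y = cen UX θ y := by
      have := hD0 ⟨θ, y⟩ (by simpa using hw)
      simp only [hD] at this
      linarith
    -- translation derivative
    have h1 : U (((x + θ : ℝ) : ℂ) + (y : ℂ) * I) = U (((x - θ : ℝ) : ℂ) + (y : ℂ) * I) := by
      have hc := cont_horizontal H.hU y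
      have h2 : HasDerivAt (fun c : ℝ => ∫ s in (c - θ)..(c + θ), U ((s : ℂ) + (y : ℂ) * I))
          (U (((x + θ : ℝ) : ℂ) + (y : ℂ) * I) - U (((x - θ : ℝ) : ℂ) + (y : ℂ) * I)) x := by
        have h1 : ∀ u : ℝ, HasDerivAt (fun u => ∫ s in (0 : ℝ)..u, U ((s : ℂ) + (y : ℂ) * I))
            (U ((u : ℂ) + (y : ℂ) * I)) u := fun u =>
          intervalIntegral.integral_hasDerivAt_right (hc.intervalIntegrable _ _)
            (hc.stronglyMeasurableAtFilter _ _) hc.continuousAt
        have h2 : HasDerivAt (fun c => ∫ s in (0 : ℝ)..(c + θ), U ((s : ℂ) + (y : ℂ) * I))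
            (U (((x + θ : ℝ) : ℂ) + (y : ℂ) * I)) x := by
          have := (h1 (x + θ)).comp x ((hasDerivAt_id' x).add_const θ)
          simpa [Function.comp_def] using this
        have h3 : HasDerivAt (fun c => ∫ s in (0 : ℝ)..(c - θ), U ((s : ℂ) + (y : ℂ) * I))
            (U (((x - θ : ℝ) : ℂ) + (y : ℂ) * I)) x := by
          have := (h1 (x - θ)).comp x ((hasDerivAt_id' x).sub_const θ)
          simpa [Function.comp_def] using this
        refine (h2.fun_sub h3).congr_of_eventuallyEq (Filter.Eventually.of_forall (fun c => ?_))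
        simp only
        rw [intervalIntegral.integral_interval_sub_left (hc.intervalIntegrable _ _)
          (hc.intervalIntegrable _ _)]
      have h3 : IsLocalMax (fun c : ℝ => ∫ s in (c - θ)..(c + θ), U ((s : ℂ) + (y : ℂ) * I)) x := by
        refine Filter.Eventually.of_forall (fun c => ?_)
        simp only
        have h4 := interval_le H (p := c) hθ.le hθ12.le hy.le
        rw [hval, hUX, cen_translate] at h4
        exact h4
      have := h3.hasDerivAt_eq_zero h2
      linarith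
    -- θ-derivative
    have h2 : 2 * V ((θ : ℂ) + (y : ℂ) * I) - (U (((x + θ : ℝ) : ℂ) + (y : ℂ) * I) +
        U (((x - θ : ℝ) : ℂ) + (y : ℂ) * I)) = 0 := by
      have h3 := hDt θ y
      have h4 : (fun θ : ℝ => cen V θ y - cen UX θ y) =ᶠ[𝓝 θ] fun _ => (0 : ℝ) := by
        have hcont : Continuous (fun t : ℝ => ((t : ℂ) + (y : ℂ) * I)) := by fun_prop
        have hmem : ball (0 : ℂ) r ∈ 𝓝 ((θ : ℂ) + (y : ℂ) * I) := by
          apply isOpen_ball.mem_nhds
          rw [hmk]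
          simpa using hw
        filter_upwards [hcont.continuousAt.preimage_mem_nhds hmem] with t ht
        have h5 := hD0 _ ht
        simpa [hD] using h5
      have h6 := (hasDerivAt_const θ (0 : ℝ)).congr_of_eventuallyEq h4
      exact h3.unique h6
    have h3 : UX ⟨θ, y⟩ = U (((x + θ : ℝ) : ℂ) + (y : ℂ) * I) := by
      simp only [hUX]
      congr 1
      apply Complex.ext <;> simp
    rw [h3, ← hmk θ y]
    linarith
  -- identity theorem
  set z0 : ℂ := ⟨r / 4, r / 4⟩ with hz0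
  have hnear : UX =ᶠ[𝓝 z0] V := by
    have h1 : {z : ℂ | 0 < z.re ∧ 0 < z.im ∧ ‖z‖ < r} ∈ 𝓝 z0 := by
      apply IsOpen.mem_nhds
      · exact (isOpen_lt continuous_const Complex.continuous_re).inter
          ((isOpen_lt continuous_const Complex.continuous_im).inter
            (isOpen_lt continuous_norm continuous_const))
      · refine ⟨by simp only [hz0]; linarith, by simp only [hz0]; linarith, ?_⟩
        have h2 := Complex.norm_le_abs_re_add_abs_im z0
        simp only [hz0] at h2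
        rw [abs_of_pos (by linarith : 0 < r / 4)] at h2
        linarith
    filter_upwards [h1] with z hz
    have := hloc z.re z.im hz.1 hz.2.1 hz.2.2
    exact this
  have hupper : ∀ z : ℂ, 0 < z.im → UX z = V z := by
    apply identity_upper _ _ (z0 := z0) (by simp only [hz0]; linarith) hnear
    · intro z hz
      apply harmonicAt_translate
      apply H.hUh
      simpa using hz.ne'
    · intro z hz
      exact H.hVh z hz.ne'
  have hreal : ∀ s : ℝ, UX (s : ℂ) = V (s : ℂ) := by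
    intro s
    have hcont : Continuous (fun t : ℝ => ((s : ℂ) + (t : ℂ) * I)) := by fun_prop
    have h1 : Tendsto (fun t : ℝ => UX ((s : ℂ) + (t : ℂ) * I)) (𝓝[>] 0) (𝓝 (UX (s : ℂ))) := by
      have := ((hUXc.comp hcont).tendsto 0).mono_left (nhdsWithin_le_nhds (s := Ioi 0))
      simpa [Function.comp_def] using this
    have h2 : Tendsto (fun t : ℝ => V ((s : ℂ) + (t : ℂ) * I)) (𝓝[>] 0) (𝓝 (V (s : ℂ))) := by
      have := ((H.hV.comp hcont).tendsto 0).mono_left (nhdsWithin_le_nhds (s := Ioi 0))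
      simpa [Function.comp_def] using this
    refine tendsto_nhds_unique h1 (h2.congr' ?_)
    filter_upwards [self_mem_nhdsWithin] with t ht
    rw [hupper]
    simpa using ht
  intro z
  have hmk : z = (z.re : ℂ) + (z.im : ℂ) * I := (Complex.re_add_im z).symm
  rcases lt_trichotomy z.im 0 with h | h | h
  · have h1 := hUXs z.re z.im
    have h2 := H.hVs z.re z.im
    have h3 := hupper ((z.re : ℂ) + ((-z.im : ℝ) : ℂ) * I) (by simpa using h)
    rw [h1, h2, ← hmk] at h3
    exact h3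
  · have h1 : z = (z.re : ℂ) := by apply Complex.ext <;> simp [h]
    rw [h1]
    exact hreal z.re
  · exact hupper z h

end LE
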